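import Pool.Agent.Lib.ISOC.Blue
import Pool.Agent.Lib.MP_f62ea7_gt.MP
import Pool.Agent.Lib.MP_0281e9_an.TurSm

set_option autoImplicit false

open MeasureTheory Set Filter Topology Real
open scoped ContDiff ENNReal
open Pool.Agent.Lib.MP_f62ea7_gt

namespace Pool.Agent.Lib.ISOC

namespace R86

lemma rot_add (s u : ℝ) (z : P) : rot s (rot u z) = rot (s + u) z := by
  unfold rot
  rw [cos_add, sin_add]
  ext <;> simp only <;> ring

lemma rot_zero (z : P) : rot 0 z = z := by unfold rot; simp

lemma rot_pi (z : P) : rot π z = -z := by unfold rot; ext <;> simp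

lemma rho_rot (t : ℝ) (z : P) : rho (rot t z) = rho z := by
  unfold rho rot
  simp only
  linear_combination (z.1 ^ 2 + z.2 ^ 2) * sin_sq_add_cos_sq t

lemma rot_der (z : P) (t : ℝ) : HasDerivAt (fun τ => rot τ z) (tn (rot t z)) t := by
  unfold rot tn
  refine HasDerivAt.prodMk ?_ ?_
  · exact (((hasDerivAt_cos t).const_mul z.1).add ((hasDerivAt_sin t).const_mul z.2)).congr_deriv
      (by ring)
  · exact (((hasDerivAt_sin t).const_mul (-z.1)).add ((hasDerivAt_cos t).const_mul z.2)).congr_deriv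
      (by ring)

lemma rot_sm : ContDiff ℝ ∞ fun q : ℝ × P => rot q.1 q.2 := by
  unfold rot; fun_prop

/-- a root of an equation strictly increasing in the unknown depends continuously on parameters -/
lemma root_cont {E : Type} [TopologicalSpace E] {f : E → ℝ → ℝ} {h : E → ℝ}
    (hf : ∀ u, Continuous fun e => f e u) (hs : ∀ e, StrictMono (f e))
    (hh : ∀ e, f e (h e) = 0) : Continuous h := by
  refine continuous_iff_continuousAt.2 fun e0 => tendsto_order.2 ⟨fun l hl => ?_, fun l hl => ?_⟩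
  · have : f e0 l < 0 := hh e0 ▸ hs e0 hl
    filter_upwards [(hf l).continuousAt.eventually (gt_mem_nhds this)] with e he
    exact (hs e).lt_iff_lt.1 (by rw [hh e]; exact he)
  · have : 0 < f e0 l := hh e0 ▸ hs e0 hl
    filter_upwards [(hf l).continuousAt.eventually (lt_mem_nhds this)] with e he
    exact (hs e).lt_iff_lt.1 (by rw [hh e]; exact he)

/-- weighted time along the rotation -/
noncomputable def TT (j : P → ℝ) (z : P) (s : ℝ) : ℝ := ∫ u in (0 : ℝ)..s, j (rot u z)

noncomputable def jb (j : P → ℝ) (z : P) : ℝ := TT j z π / π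

section
variable {j : P → ℝ}

lemma jr_cont (hj : ContDiff ℝ ∞ j) (z : P) : Continuous fun u => j (rot u z) :=
  hj.continuous.comp (continuous_iff_continuousAt.2 fun t => (rot_der z t).continuousAt)

lemma TT_sm (hj : ContDiff ℝ ∞ j) : ContDiff ℝ ∞ fun q : P × ℝ => TT j q.1 q.2 := by
  have h1 : ContDiff ℝ ∞ fun q : (P × ℝ) × ℝ => j (rot (q.1.2 * q.2) q.1.1) :=
    hj.comp (rot_sm.comp (f := fun q : (P × ℝ) × ℝ => ((q.1.2 * q.2, q.1.1) : ℝ × P)) (by fun_prop))
  have h2 := Pool.Agent.Lib.MP_0281e9_an.BT.contDiff_param_integral h1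
  have e : (fun q : P × ℝ => TT j q.1 q.2) =
      fun q : P × ℝ => q.2 * ∫ u in (0 : ℝ)..1, j (rot (q.2 * u) q.1) := by
    funext q
    have := intervalIntegral.smul_integral_comp_mul_left (fun u => j (rot u q.1)) q.2
      (a := 0) (b := 1)
    simp only [mul_zero, mul_one, smul_eq_mul] at this
    exact this.symm
  rw [e]
  exact contDiff_snd.mul h2

lemma TT_der (hj : ContDiff ℝ ∞ j) (z : P) (s : ℝ) : HasDerivAt (TT j z) (j (rot s z)) s :=
  ((jr_cont hj z).integral_hasStrictDerivAt 0 s).hasDerivAt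

lemma TT_mono (hj : ContDiff ℝ ∞ j) (hp : ∀ z, 0 < j z) (z : P) : StrictMono (TT j z) :=
  strictMono_of_deriv_pos fun s => by rw [(TT_der hj z s).deriv]; exact hp _

lemma TT_zero (z : P) : TT j z 0 = 0 := by simp [TT]

lemma jr_per (he : ∀ z, j (-z) = j z) (z : P) : Function.Periodic (fun u => j (rot u z)) π := by
  intro u
  show j (rot (u + π) z) = j (rot u z)
  rw [add_comm, ← rot_add, rot_pi, he]

lemma TT_rot (hj : ContDiff ℝ ∞ j) (z : P) (u s : ℝ) :
    TT j (rot u z) s = TT j z (s + u) - TT j z u := by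
  unfold TT
  simp only [rot_add]
  rw [intervalIntegral.integral_comp_add_right (fun x => j (rot x z)) u,
    intervalIntegral.integral_interval_sub_left ((jr_cont hj z).intervalIntegrable _ _)
      ((jr_cont hj z).intervalIntegrable _ _), zero_add]

lemma jb_rot (hj : ContDiff ℝ ∞ j) (he : ∀ z, j (-z) = j z) (z : P) (u : ℝ) :
    jb j (rot u z) = jb j z := by
  unfold jb
  rw [TT_rot hj, add_comm]
  unfold TT
  rw [(jr_per he z).intervalIntegral_add_eq_add 0 u
    (fun _ _ => (jr_cont hj z).intervalIntegrable _ _), zero_add]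
  ring

lemma jb_pos (hj : ContDiff ℝ ∞ j) (hp : ∀ z, 0 < j z) (z : P) : 0 < jb j z :=
  div_pos (by simpa [TT_zero] using TT_mono hj hp z pi_pos) pi_pos

lemma jb_sm (hj : ContDiff ℝ ∞ j) : ContDiff ℝ ∞ (jb j) :=
  ((TT_sm hj).comp (f := fun z : P => ((z, π) : P × ℝ)) (by fun_prop)).div_const π

lemma TT_surj (hj : ContDiff ℝ ∞ j) (hp : ∀ z, 0 < j z) (he : ∀ z, j (-z) = j z) (z : P) :
    Function.Surjective (TT j z) :=
  (continuous_iff_continuousAt.2 fun s => (TT_der hj z s).continuousAt).surjective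
    ((jr_per he z).tendsto_atTop_intervalIntegral_of_pos' ((jr_cont hj z).intervalIntegrable _ _)
      (fun _ => hp _) pi_pos)
    ((jr_per he z).tendsto_atBot_intervalIntegral_of_pos' ((jr_cont hj z).intervalIntegrable _ _)
      (fun _ => hp _) pi_pos)

lemma exists_S (hj : ContDiff ℝ ∞ j) (hp : ∀ z, 0 < j z) (he : ∀ z, j (-z) = j z) :
    ∃ S : ℝ × P → ℝ, ContDiff ℝ ∞ S ∧ ∀ t z, TT j z (S (t, z)) = t * jb j z := by
  choose S hS using fun q : ℝ × P => TT_surj hj hp he q.2 (q.1 * jb j q.2)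
  have hf : ContDiff ℝ ∞ fun x : (ℝ × P) × ℝ => TT j x.1.2 x.2 - x.1.1 * jb j x.1.2 :=
    ((TT_sm hj).comp (f := fun x : (ℝ × P) × ℝ => ((x.1.2, x.2) : P × ℝ)) (by fun_prop)).sub
      ((by fun_prop : ContDiff ℝ ∞ fun x : (ℝ × P) × ℝ => x.1.1).mul
        ((jb_sm hj).comp (f := fun x : (ℝ × P) × ℝ => x.1.2) (by fun_prop)))
  have hc : Continuous S :=
    root_cont (f := fun (q : ℝ × P) u => TT j q.2 u - q.1 * jb j q.2)
      (fun u => hf.continuous.comp (f := fun q : ℝ × P => (q, u)) (by fun_prop))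
      (fun q a b hab => sub_lt_sub_right (TT_mono hj hp q.2 hab) _)
      (fun q => by rw [hS, sub_self])
  refine ⟨S, contDiff_iff_contDiffAt.2 fun q => ?_, fun t z => hS (t, z)⟩
  refine ift (f := fun x : (ℝ × P) × ℝ => TT j x.1.2 x.2 - x.1.1 * jb j x.1.2) hf.contDiffAt
    ((TT_der hj q.2 (S q)).sub_const (q.1 * jb j q.2)) (hp _).ne' hc.continuousAt
    (Eventually.of_forall fun e => ?_)
  simp only [hS, sub_self]

end

/-- the Jacobian of a rotation by a variable angle -/
lemma jac_rot {σ : P → ℝ} {z : P} (hσ : DifferentiableAt ℝ σ z) :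
    jac (fun w => rot (σ w) w) z = 1 + fderiv ℝ σ z (tn z) := by
  have h1 := hσ.hasFDerivAt
  have hc := (hasDerivAt_cos (σ z)).comp_hasFDerivAt z h1
  have hs := (hasDerivAt_sin (σ z)).comp_hasFDerivAt z h1
  have f1 : HasFDerivAt (fun w : P => w.1) (ContinuousLinearMap.fst ℝ ℝ ℝ) z := hasFDerivAt_fst
  have f2 : HasFDerivAt (fun w : P => w.2) (ContinuousLinearMap.snd ℝ ℝ ℝ) z := hasFDerivAt_snd
  have h2 := ((f1.mul hc).add (f2.mul hs)).prodMk ((f1.neg.mul hs).add (f2.mul hc))
  have h3 : fderiv ℝ (fun w => rot (σ w) w) z = _ := h2.fderiv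
  unfold jac
  rw [h3, MP.det_eq, fderiv_apply_eq]
  unfold dx du tn
  simp
  linear_combination (1 + z.2 * fderiv ℝ σ z (1, 0) - z.1 * fderiv ℝ σ z (0, 1)) *
    sin_sq_add_cos_sq (σ z)

end R86

open R86 in
theorem st_ISO : St_ISO := by
  intro j hj hp he
  obtain ⟨S, hS, hT⟩ := exists_S hj hp he
  have inj : ∀ z, Function.Injective (TT j z) := fun z => (TT_mono hj hp z).injective
  have hSd : Differentiable ℝ S := hS.differentiable (by simp)
  have S0 : ∀ z, S (0, z) = 0 := fun z => inj z (by rw [hT, TT_zero, zero_mul])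
  have Sπ : ∀ z, S (π, z) = π := fun z => inj z (by rw [hT]; unfold jb; field_simp)
  have Srot : ∀ t u z, TT j z (S (t, rot u z) + u) = t * jb j z + TT j z u := fun t u z => by
    have := hT t (rot u z)
    rw [TT_rot hj, jb_rot hj he] at this
    linarith
  refine ⟨fun t z => rot (S (t, z)) z, fun z => jb j z / j z, ?_, ?_, ?_, ?_, ?_, ?_, ?_, ?_, ?_, ?_⟩
  · exact rot_sm.comp (f := fun x : ℝ × P => ((S x, x.2) : ℝ × P)) (hS.prodMk contDiff_snd)
  · exact (jb_sm hj).continuous.div hj.continuous fun z => (hp z).ne'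
  · intro z; simp only [S0, rot_zero]
  · intro s t z
    simp only [rot_add]
    congr 1
    exact inj z (by rw [Srot, hT, hT]; ring)
  · intro z; simp only [Sπ, rot_pi]
  · intro t z; exact rho_rot _ _
  · intro t z
    have h1 : HasDerivAt (fun τ => S (τ, z)) (deriv (fun τ => S (τ, z)) t) t :=
      (hSd.comp (f := fun τ : ℝ => ((τ, z) : ℝ × P)) (by fun_prop) t).hasDerivAt
    have h2 := (TT_der hj z (S (t, z))).comp t h1
    have h3 : (TT j z ∘ fun τ => S (τ, z)) = fun τ => τ * jb j z := funext fun τ => hT τ z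
    rw [h3] at h2
    have h4 := h2.unique ((hasDerivAt_id t).mul_const (jb j z))
    have h5 : deriv (fun τ => S (τ, z)) t = jb j (rot (S (t, z)) z) / j (rot (S (t, z)) z) := by
      rw [jb_rot hj he, eq_div_iff (hp _).ne']; linarith
    have h6 := (rot_der z (S (t, z))).scomp t h1
    rw [h5] at h6
    exact h6
  · intro t z
    have hσ : Differentiable ℝ fun w => S (t, w) :=
      hSd.comp (f := fun w : P => ((t, w) : ℝ × P)) (by fun_prop)
    rw [jac_rot (hσ z)]
    have h0 := rot_der z 0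
    have h1 : HasFDerivAt (fun w => S (t, w)) (fderiv ℝ (fun w => S (t, w)) z) (rot 0 z) := by
      rw [rot_zero]; exact (hσ z).hasFDerivAt
    have h2 := (h1.comp_hasDerivAt (0 : ℝ) h0).add (hasDerivAt_id (0 : ℝ))
    have h3 := (TT_der hj z _).comp (0 : ℝ) h2
    have h4 : (TT j z ∘ (((fun w => S (t, w)) ∘ fun τ => rot τ z) + id)) =
        fun u => t * jb j z + TT j z u := funext fun u => Srot t u z
    rw [h4] at h3
    have h5 := h3.unique ((TT_der hj z 0).const_add _)
    simp only [Pi.add_apply, Function.comp, rot_zero, id, add_zero] at h5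
    linarith
  · intro z hz
    have : TT j z π = π * j z := by
      unfold TT
      simp only [fun u => hz (rot u z) (rho_rot u z)]
      simp
    have h0 := (hp z).ne'
    show TT j z π / π / j z = 1
    rw [this]
    field_simp
  · intro z m m' hm hz
    have h1 : TT j z π ≤ π * m' := by
      have := intervalIntegral.integral_mono_on (μ := volume) pi_pos.le
        ((jr_cont hj z).intervalIntegrable 0 π) (intervalIntegrable_const (c := m'))
        fun u _ => (hz (rot u z) (rho_rot u z)).2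
      simpa [TT] using this
    have h2 : jb j z ≤ m' := by unfold jb; rw [div_le_iff₀ pi_pos]; linarith
    have h3 := jb_pos hj hp z
    rw [abs_of_pos (div_pos h3 (hp z))]
    exact div_le_div₀ (h3.le.trans h2) h2 hm (hz z rfl).1

end Pool.Agent.Lib.ISOC
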