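import Pool.Agent.Lib.ISOC.Blue
import Pool.Agent.Lib.MP_f62ea7_gt.MP

set_option autoImplicit false

open MeasureTheory Set Filter Topology Real
open scoped ContDiff ENNReal
open Pool.Agent.Lib.MP_f62ea7_gt

namespace Pool.Agent.Lib.ISOC

namespace U86

lemma rho_cont : Continuous rho := by unfold rho; fun_prop

lemma jac_sm {Λ : P → P} (h : ContDiff ℝ ∞ Λ) : ContDiff ℝ ∞ (jac Λ) := by
  have h1 : ContDiff ℝ ∞ (fderiv ℝ Λ) := h.fderiv_right (m := ∞) le_rfl
  have e : jac Λ = fun z => (fderiv ℝ Λ z (1, 0)).1 * (fderiv ℝ Λ z (0, 1)).2 -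
      (fderiv ℝ Λ z (0, 1)).1 * (fderiv ℝ Λ z (1, 0)).2 := funext fun z => MP.det_eq _
  have h2 : ∀ v : P, ContDiff ℝ ∞ fun z => fderiv ℝ Λ z v := fun v => h1.clm_apply contDiff_const
  rw [e]
  exact ((h2 _).fst.mul (h2 _).snd).sub ((h2 _).fst.mul (h2 _).snd)

lemma fderiv_even {Λ : P → P} (h : Differentiable ℝ Λ) (ho : ∀ z, Λ (-z) = -Λ z) (z : P) :
    fderiv ℝ Λ (-z) = fderiv ℝ Λ z := by
  have h1 : HasFDerivAt (fun w : P => -w) (-ContinuousLinearMap.id ℝ P) z := (hasFDerivAt_id z).neg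
  have h2 := (HasFDerivAt.comp (g := Λ) (f := fun w : P => -w) z (h (-z)).hasFDerivAt h1).neg
  have h3 : (-(Λ ∘ fun w : P => -w)) = Λ := by funext w; simp [ho]
  rw [h3] at h2
  rw [h2.fderiv]
  ext <;> simp

lemma jac_comp {f g : P → P} {z : P} (hf : DifferentiableAt ℝ f (g z))
    (hg : DifferentiableAt ℝ g z) : jac (fun w => f (g w)) z = jac f (g z) * jac g z := by
  unfold jac
  rw [fderiv_fun_comp z hf hg]
  exact LinearMap.det_comp (fderiv ℝ f (g z) : P →ₗ[ℝ] P) (fderiv ℝ g z : P →ₗ[ℝ] P)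

lemma vol_image {f : P → P} (hf : Differentiable ℝ f) (hi : Function.Injective f)
    (hj : ∀ p, jac f p = 1) {A : Set P} (hA : MeasurableSet A) : volume (f '' A) = volume A := by
  rw [← lintegral_abs_det_fderiv_eq_addHaar_image volume hA
    (fun p _ => (hf p).hasFDerivAt.hasFDerivWithinAt) hi.injOn]
  rw [setLIntegral_congr_fun hA (g := fun _ => 1) (fun p _ => by
    have := hj p
    unfold jac at this
    simp only [this]; simp)]
  simp

lemma norm_tn (z : P) : ‖tn z‖ = ‖z‖ := by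
  unfold tn
  rw [Prod.norm_def, Prod.norm_def, norm_neg, max_comm]

end U86

open U86 in
theorem st_UPG (hI : St_ISO) : St_UPG := by
  intro X hX
  obtain ⟨C, l0, hC, hl0, happ⟩ := hX.app
  refine ⟨C ^ 3, min l0 X.R, lt_min hl0 hX.R_pos, fun l hl hle => ?_⟩
  obtain ⟨Λ, Λi, hA⟩ := happ l hl (hle.trans (min_le_left _ _))
  have hlR : l ≤ X.R := hle.trans (min_le_right _ _)
  have hlR2 : l ^ 2 ≤ X.R ^ 2 := pow_le_pow_left₀ hl.le hlR 2
  have dΛ : Differentiable ℝ Λ := hA.sm.differentiable (by simp)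
  have dΛi : Differentiable ℝ Λi := hA.smi.differentiable (by simp)
  obtain ⟨β, q, bsm, qc, b0, badd, bπ, brho, bder, bjac, q1, qle⟩ := hI (jac Λ) (jac_sm hA.sm) hA.pos
    (fun z => by unfold jac; rw [fderiv_even dΛ hA.odd])
  have k1 : ∀ p, l ^ 2 ≤ rho (X.Γi p) → Λi p = X.Γi p := fun p hp => by
    have := hA.left (X.Γi p)
    rwa [hA.out _ hp, hX.right] at this
  have k2 : ∀ p, l ^ 2 ≤ rho (Λi p) → X.Γi p = Λi p := fun p hp => by
    have := hX.left (Λi p)
    rwa [← hA.out _ hp, hA.right] at this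
  have mem : ∀ p, p ∈ X.M ↔ rho (Λi p) ≤ X.R ^ 2 := fun p => by
    have e : p ∈ X.M ↔ rho (X.Γi p) ≤ X.R ^ 2 := by
      constructor
      · rintro ⟨z, hz, rfl⟩; rwa [hX.left]
      · exact fun h => ⟨X.Γi p, h, hX.right p⟩
    rw [e]
    constructor
    · intro h
      by_contra hc
      rw [k2 p (by linarith)] at h
      exact hc h
    · intro h
      by_contra hc
      rw [k1 p (by linarith)] at h
      exact hc h
  have fd : ∀ z, l ^ 2 < rho z → fderiv ℝ Λ z = fderiv ℝ X.Γ z := fun z hz => by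
    refine Filter.EventuallyEq.fderiv_eq ?_
    filter_upwards [rho_cont.continuousAt.eventually (lt_mem_nhds hz)] with w hw
    exact hA.out w hw.le
  have dβ : ∀ t, Differentiable ℝ (β t) := fun t =>
    (bsm.differentiable (by simp)).comp (f := fun z : P => ((t, z) : ℝ × P)) (by fun_prop)
  have hadd : ∀ s t p, Λ (β (s + t) (Λi p)) = Λ (β s (Λi (Λ (β t (Λi p))))) := fun s t p => by
    rw [hA.left, badd]
  refine ⟨fun t p => Λ (β t (Λi p)), fun p => fderiv ℝ Λ (Λi p) (q (Λi p) • tn (Λi p)),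
    ⟨?_, ?_, hadd, ?_, ?_, ?_, ?_, ?_⟩, ?_, ?_⟩
  · exact hA.sm.comp (bsm.comp (f := fun x : ℝ × P => ((x.1, Λi x.2) : ℝ × P))
      (contDiff_fst.prodMk (hA.smi.comp contDiff_snd)))
  · intro p; simp only [b0, hA.right]
  · intro p; simp only [bπ, hA.odd, hA.right]
  · intro t p hp
    rw [mem] at hp ⊢
    simpa only [hA.left, brho] using hp
  · intro t A hAm
    refine vol_image (f := fun p => Λ (β t (Λi p))) (dΛ.comp ((dβ t).comp dΛi))
      (fun a b hab => ?_) (fun p => ?_) hAm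
    · have e : ∀ p, Λ (β (-t) (Λi (Λ (β t (Λi p))))) = p := fun p => by
        rw [← hadd, neg_add_cancel, b0, hA.right]
      rw [← e a, ← e b]
      exact congrArg (fun x => Λ (β (-t) (Λi x))) hab
    · have h1 : jac Λ (Λi p) * jac Λi p = 1 := by
        rw [← jac_comp (dΛ _) (dΛi p)]
        simp only [hA.right]
        unfold jac
        rw [fderiv_fun_id]
        exact LinearMap.det_id
      rw [jac_comp (f := Λ) (g := fun w => β t (Λi w)) (dΛ _) (((dβ t).comp dΛi) p),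
        jac_comp (dβ t _) (dΛi p), ← h1, ← bjac t (Λi p)]
      ring
  · intro t p
    simp only [hA.left]
    exact (dΛ _).hasFDerivAt.comp_hasDerivAt t (bder t (Λi p))
  · have c1 : Continuous Λi := hA.smi.continuous
    have c2 : Continuous tn := by unfold tn; fun_prop
    exact ((hA.sm.continuous_fderiv (by simp)).comp c1).clm_apply ((qc.comp c1).smul (c2.comp c1))
  · intro p hp
    simp only [k1 p hp.le]
    rw [fd _ hp, q1, one_smul]
    · rfl
    · intro z' hz'
      have e : ∀ z, l ^ 2 < rho z → jac Λ z = ff z := fun z hz => by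
        rw [← hX.jac_eq]; unfold jac; rw [fd z hz]
      rw [e _ hp, e _ (hz' ▸ hp)]
      unfold ff
      rw [hz']
  · intro p hp
    have h1 : rho (Λi p) ≤ l ^ 2 := by
      by_contra hc
      rw [k2 p (by linarith)] at hp
      exact hc hp
    have h2 := qle (Λi p) (l ^ 2 / C) (C * l ^ 2) (by positivity) fun z' hz' =>
      ⟨(hA.core z' (hz' ▸ h1)).1, (hA.core z' (hz' ▸ h1)).2.1⟩
    have h3 : C * l ^ 2 / (l ^ 2 / C) = C ^ 2 := by field_simp
    have h4 : ‖Λi p‖ ≤ 1 := by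
      have a := hX.R_le
      have b := hX.R_pos
      have c : X.R ^ 2 ≤ 1 := by nlinarith
      have d : (Λi p).1 ^ 2 + (Λi p).2 ^ 2 ≤ 1 := h1.trans (hlR2.trans c)
      exact norm_le_iff.2 ⟨abs_le_one_iff_mul_self_le_one.2 (by nlinarith [sq_nonneg (Λi p).2]),
        abs_le_one_iff_mul_self_le_one.2 (by nlinarith [sq_nonneg (Λi p).1])⟩
    refine (ContinuousLinearMap.le_opNorm _ _).trans ?_
    rw [norm_smul, norm_tn, Real.norm_eq_abs]
    calc _ ≤ C * (C ^ 2 * 1) := by
          gcongr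
          · exact (hA.core _ h1).2.2
          · exact h3 ▸ h2
      _ = C ^ 3 := by ring

end Pool.Agent.Lib.ISOC
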