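import Pool.Agent.Lib.ISOC.OC
import Pool.Agent.Lib.ISOC.B_ISO
import Pool.Agent.Lib.ISOC.B_UPG

set_option autoImplicit false

open MeasureTheory Set Filter Topology Real
open scoped ContDiff ENNReal
open Pool.Agent.Lib.MP_f62ea7_gt

namespace Pool.Agent.Lib.ISOC

namespace A43

lemma rho_nn (z : P) : 0 ≤ rho z := by unfold rho; positivity

lemma ff_smooth : ContDiff ℝ ∞ ff := by
  have h : ContDiff ℝ ∞ rho := by unfold rho; fun_prop
  unfold ff
  exact contDiff_const.sub (contDiff_const.div ((contDiff_const.add h).pow 2) fun z => by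
    have := rho_nn z; positivity)

lemma ff_bds (z : P) : 0 ≤ ff z ∧ ff z ≤ 2 * rho z := by
  have h := rho_nn z
  have e : ff z = (2 * rho z + rho z ^ 2) / (1 + rho z) ^ 2 := by
    unfold ff; field_simp; ring
  rw [e]
  refine ⟨by positivity, ?_⟩
  rw [div_le_iff₀ (by positivity)]
  nlinarith [mul_nonneg h h, mul_nonneg h (mul_nonneg h h)]

lemma ff_neg' (z : P) : ff (-z) = ff z := by simp [ff, rho]

lemma jac_pair {f g : P → ℝ} {z : P} (hf : DifferentiableAt ℝ f z) (hg : DifferentiableAt ℝ g z) :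
    jac (fun w => (f w, g w)) z = dx f z * du g z - du f z * dx g z := by
  unfold jac
  rw [MP.det_eq, (hf.hasFDerivAt.prodMk hg.hasFDerivAt).fderiv]
  rfl

section
variable {b : P → ℝ}

lemma aa_smooth (h : Con0 b) : ContDiff ℝ ∞ (aa b) := contDiff_fst.add h.o5.sm
lemma AA_smooth (h : Con0 b) : ContDiff ℝ ∞ (AA b) := contDiff_const.add (contDiff_dx h.o5.sm)
lemma Xi_smooth (h : Con0 b) : ContDiff ℝ ∞ (Xi b) := (aa_smooth h).prodMk contDiff_snd
lemma JJ_smooth (h : Con0 b) : ContDiff ℝ ∞ (JJ b) :=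
  (AA_smooth h).mul (ff_smooth.comp (Xi_smooth h))
lemma YY_smooth (h : Con0 b) : ContDiff ℝ ∞ (YY b) := contDiff_iU (JJ_smooth h)
lemma AA_bds (h : Con0 b) (z : P) : 1 / 2 ≤ AA b z ∧ AA b z ≤ 3 / 2 := by
  have := abs_le.1 (h.bx z)
  unfold AA
  constructor <;> linarith [this.1, this.2]
lemma Xi_neg (h : Con0 b) (z : P) : Xi b (-z) = -Xi b z := by
  unfold Xi aa
  ext
  · simp [h.odd]; ring
  · simp
lemma JJ_neg (h : Con0 b) (z : P) : JJ b (-z) = JJ b z := by
  have e : ∀ z, JJ b z = AA b z * ff (Xi b z) := fun _ => rfl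
  rw [e, e, Xi_neg h, ff_neg']
  unfold AA
  rw [dx_of_odd h.odd]
lemma YY_neg (h : Con0 b) (z : P) : YY b (-z) = -YY b z := iU_of_even (JJ_neg h) z
lemma dx_aa (h : Con0 b) (z : P) : dx (aa b) z = AA b z := by
  unfold aa AA
  rw [dx_add differentiableAt_fst (dAt h.o5.sm z), dx_fst]
lemma du_aa (h : Con0 b) (z : P) : du (aa b) z = du b z := by
  unfold aa
  rw [du_add differentiableAt_fst (dAt h.o5.sm z), du_fst, zero_add]
lemma jac_Xi (h : Con0 b) (z : P) : jac (Xi b) z = AA b z := by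
  have := jac_pair (dAt (aa_smooth h) z) (differentiableAt_snd (p := z) (𝕜 := ℝ))
  rw [dx_aa h, du_snd, dx_snd, mul_one, mul_zero, sub_zero] at this
  exact this

variable {Ξi Ψ : P → P}

lemma Xii_neg (h : Con0 b) (L : Lab b Ξi Ψ) (w : P) : Ξi (-w) = -Ξi w := by
  have := L.Ξ_l (-Ξi w)
  rwa [Xi_neg h, L.Ξ_r] at this

lemma jac_Xii (h : Con0 b) (L : Lab b Ξi Ψ) (w : P) : AA b (Ξi w) * jac Ξi w = 1 := by
  rw [← jac_Xi h, ← U86.jac_comp (dAt (Xi_smooth h) _) (dAt L.Ξi_sm w)]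
  simp only [L.Ξ_r]
  unfold jac
  rw [fderiv_fun_id, MP.det_eq]
  simp

/-- the Jacobian of a vertical shear read in the rotation labels -/
lemma jac_shear (h : Con0 b) (L : Lab b Ξi Ψ) {Y : P → ℝ} (hY : ContDiff ℝ ∞ Y) (w : P) :
    jac (fun w => ((Ξi w).1, Y (Ξi w))) w = du Y (Ξi w) / AA b (Ξi w) := by
  have h1 := U86.jac_comp (f := fun z : P => (z.1, Y z)) (g := Ξi) (z := w)
    (differentiableAt_fst.prodMk (dAt hY _)) (dAt L.Ξi_sm w)
  rw [h1, jac_pair differentiableAt_fst (dAt hY _), dx_fst, du_fst,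
    eq_div_iff (by linarith [(AA_bds h (Ξi w)).1])]
  linear_combination du Y (Ξi w) * jac_Xii h L w

end

/-- smooth inverse of a vertical shear -/
lemma shear_inv {Y : P → ℝ} (hY : ContDiff ℝ ∞ Y) (hp : ∀ z, 0 < du Y z)
    (hs : ∀ x, Function.Surjective fun u => Y (x, u)) :
    ∃ S : P → ℝ, ContDiff ℝ ∞ S ∧ (∀ p : P, Y (p.1, S p) = p.2) ∧ ∀ z : P, S (z.1, Y z) = z.2 := by
  choose S hS using fun p : P => hs p.1 p.2
  replace hS : ∀ p : P, Y (p.1, S p) = p.2 := hS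
  have hd : ∀ x u, HasDerivAt (fun s => Y (x, s)) (du Y (x, u)) u := fun x u =>
    hasDerivAt_du (dAt hY _)
  have hm : ∀ x, StrictMono fun u => Y (x, u) := fun x =>
    strictMono_of_deriv_pos fun u => by rw [(hd x u).deriv]; exact hp _
  have hf : ContDiff ℝ ∞ fun q : P × ℝ => Y (q.1.1, q.2) - q.1.2 :=
    (hY.comp (f := fun q : P × ℝ => ((q.1.1, q.2) : P)) (by fun_prop)).sub (by fun_prop)
  have hc : Continuous S :=
    R86.root_cont (f := fun (p : P) u => Y (p.1, u) - p.2)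
      (fun u => hf.continuous.comp (f := fun p : P => (p, u)) (by fun_prop))
      (fun p a c hac => sub_lt_sub_right (hm p.1 hac) _) (fun p => by rw [hS, sub_self])
  refine ⟨S, contDiff_iff_contDiffAt.2 fun p => ?_, hS, fun z => (hm z.1).injective (hS (z.1, Y z))⟩
  refine ift (f := fun q : P × ℝ => Y (q.1.1, q.2) - q.1.2) hf.contDiffAt
    ((hd p.1 (S p)).sub_const p.2) (hp _).ne' hc.continuousAt (Eventually.of_forall fun e => ?_)
  simp only [hS, sub_self]

/-- the model bump -/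
lemma bump : ∃ (β : P → ℝ) (B : ℝ), ContDiff ℝ ∞ β ∧ (∀ z, β (-z) = -β z) ∧
    (∀ z, 2 ≤ ‖z‖ → β z = 0) ∧ (∀ z, ‖z‖ < 1 → fderiv ℝ β z (0, 1) = 1) ∧ 0 ≤ B ∧
    (∀ z, ‖fderiv ℝ β z‖ ≤ B) ∧ ∀ z, |β z| ≤ 2 := by
  let χ : ContDiffBump (0 : P) := ⟨1, 2, one_pos, one_lt_two⟩
  have hχ : ContDiff ℝ ∞ χ := χ.contDiff
  have hs : ContDiff ℝ ∞ fun z : P => z.2 * χ z := contDiff_snd.mul hχ
  have h0 : ∀ z : P, 2 ≤ ‖z‖ → χ z = 0 := fun z hz => χ.zero_of_le_dist (by simpa using hz)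
  have hc : HasCompactSupport fun z : P => z.2 * χ z := χ.hasCompactSupport.mul_left
  obtain ⟨B, hB⟩ := (hc.fderiv ℝ).exists_bound_of_continuous (hs.continuous_fderiv (by simp))
  refine ⟨_, B, hs, fun z => ?_, fun z hz => by rw [h0 z hz, mul_zero], fun z hz => ?_,
    (norm_nonneg _).trans (hB 0), hB, fun z => ?_⟩
  · rw [χ.neg]; simp
  · have : (fun z : P => z.2 * χ z) =ᶠ[𝓝 z] fun z => z.2 := by
      filter_upwards [(isOpen_lt continuous_norm continuous_const).mem_nhds hz] with w hw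
      rw [χ.one_of_mem_closedBall (by simpa using le_of_lt hw), mul_one]
    rw [this.fderiv_eq, fderiv_snd]; rfl
  · rcases le_total 2 ‖z‖ with h | h
    · simp [h0 z h]
    · rw [abs_mul, abs_of_nonneg χ.nonneg]
      nlinarith [abs_snd_le z, χ.nonneg (x := z), χ.le_one (x := z), abs_nonneg z.2]

/-- the rescaled bump -/
lemma pert : ∃ B : ℝ, 0 ≤ B ∧ ∀ m c : ℝ, 0 < m → 0 ≤ c → ∃ g : P → ℝ, ContDiff ℝ ∞ g ∧
    (∀ z, g (-z) = -g z) ∧ (∀ z, 2 * m ≤ ‖z‖ → g z = 0) ∧ (∀ z, 2 * m < ‖z‖ → du g z = 0) ∧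
    (∀ z, ‖z‖ < m → du g z = c * m ^ 2) ∧ (∀ z, ‖fderiv ℝ g z‖ ≤ c * m ^ 2 * B) ∧
    ∀ z, |g z| ≤ c * m ^ 3 * 2 := by
  obtain ⟨β, B, sm, od, z0, d1, hB, db, vb⟩ := bump
  refine ⟨B, hB, fun m c hm hc => ?_⟩
  have hn : ∀ z : P, ‖m⁻¹ • z‖ = ‖z‖ / m := fun z => by
    rw [norm_smul, Real.norm_eq_abs, abs_of_pos (inv_pos.2 hm)]; ring
  have hd : ∀ z h : P, fderiv ℝ (fun z : P => c * m ^ 3 * β (m⁻¹ • z)) z h =
      c * m ^ 2 * fderiv ℝ β (m⁻¹ • z) h := fun z h => by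
    have h1 : HasFDerivAt (fun z : P => m⁻¹ • z) (m⁻¹ • ContinuousLinearMap.id ℝ P) z :=
      (hasFDerivAt_id z).const_smul m⁻¹
    have h2 := ((dAt sm (m⁻¹ • z)).hasFDerivAt.comp z h1).const_mul (c * m ^ 3)
    rw [show (fun z : P => c * m ^ 3 * β (m⁻¹ • z)) =
      fun y => c * m ^ 3 * (β ∘ fun z : P => m⁻¹ • z) y from rfl, h2.fderiv]
    simp only [smul_apply, ContinuousLinearMap.comp_apply,
      ContinuousLinearMap.id_apply, map_smul, smul_eq_mul]
    field_simp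
  have hz : ∀ z : P, 2 * m ≤ ‖z‖ → c * m ^ 3 * β (m⁻¹ • z) = 0 := fun z h => by
    rw [z0 _ (by rw [hn, le_div_iff₀ hm]; exact h), mul_zero]
  refine ⟨fun z => c * m ^ 3 * β (m⁻¹ • z),
    contDiff_const.mul (sm.comp (contDiff_id.const_smul m⁻¹)), fun z => ?_, hz, fun z h => ?_,
    fun z h => ?_, fun z => ?_, fun z => ?_⟩
  · simp only [smul_neg, od, mul_neg]
  · have : (fun z : P => c * m ^ 3 * β (m⁻¹ • z)) =ᶠ[𝓝 z] fun _ => 0 := by
      filter_upwards [(isOpen_lt continuous_const continuous_norm).mem_nhds h] with w hw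
      exact hz w (le_of_lt hw)
    rw [du_congr this, du_const]
  · unfold du
    rw [hd, d1 _ (by rw [hn, div_lt_one hm]; exact h), mul_one]
  · refine ContinuousLinearMap.opNorm_le_bound _ (by positivity) fun h => ?_
    rw [hd, norm_mul, Real.norm_of_nonneg (by positivity), mul_assoc _ B]
    exact mul_le_mul_of_nonneg_left (((fderiv ℝ β _).le_opNorm h).trans
      (mul_le_mul_of_nonneg_right (db _) (norm_nonneg h))) (by positivity)
  · rw [abs_mul, abs_of_nonneg (by positivity)]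
    exact mul_le_mul_of_nonneg_left (vb _) (by positivity)

lemma abs_du_le (g : P → ℝ) (z : P) : |du g z| ≤ ‖fderiv ℝ g z‖ := by
  have := (fderiv ℝ g z).le_opNorm (0, 1)
  simpa [Prod.norm_def, du] using this

end A43

open A43 in
theorem st_APP : St_APP := by
  intro b Ξi Ψ h L
  obtain ⟨B, hB, hpert⟩ := pert
  obtain ⟨r, hr, hJ⟩ := L.J_lo
  have hΞ0 : Ξi 0 = 0 := by
    have := Xii_neg h L 0
    rw [neg_zero] at this
    exact self_eq_neg.1 this
  obtain ⟨δ, hδ, hδr⟩ : ∃ δ > 0, ∀ w : P, ‖w‖ ≤ δ → ‖Ξi w‖ ≤ r := by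
    have hc := L.Ξi_sm.continuous.continuousAt (x := 0)
    obtain ⟨δ, hδ, H⟩ := Metric.continuousAt_iff.1 hc r hr
    refine ⟨δ / 2, by positivity, fun w hw => ?_⟩
    have := H (x := w) (by rw [dist_zero_right]; linarith)
    rw [hΞ0, dist_zero_right] at this
    exact this.le
  obtain ⟨K1, hK1⟩ := (isCompact_closedBall (0 : P) δ).exists_bound_of_continuousOn
    (L.Ξi_sm.continuous_fderiv (by simp)).continuousOn
  obtain ⟨K2, hK2⟩ := (isCompact_closedBall (0 : P) r).exists_bound_of_continuousOn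
    ((YY_smooth h).continuous_fderiv (by simp)).continuousOn
  have k1 : 0 ≤ K1 := (norm_nonneg _).trans (hK1 0 (by simpa using hδ.le))
  have k2 : 0 ≤ K2 := (norm_nonneg _).trans (hK2 0 (by simpa using hr.le))
  set c : ℝ := 1 / (16 * (B + 1)) with hc
  have c0 : 0 < c := by positivity
  have cB : c * (B + 1) = 1 / 16 := by rw [hc]; field_simp
  refine ⟨512 * (B + 1) + (2 + K2) * K1, min (min r δ) 1, by positivity,
    lt_min (lt_min hr hδ) one_pos, fun l hl hle => ?_⟩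
  have lr : l ≤ r := hle.trans ((min_le_left _ _).trans (min_le_left _ _))
  have lδ : l ≤ δ := hle.trans ((min_le_left _ _).trans (min_le_right _ _))
  have l1 : l ≤ 1 := hle.trans (min_le_right _ _)
  obtain ⟨g, gs, go, g0, gd0, gd1, gb, gv⟩ := hpert (l / 4) c (by positivity) c0.le
  have hY : ContDiff ℝ ∞ fun z => YY b z + g z := (YY_smooth h).add gs
  have hdu : ∀ z, du (fun z => YY b z + g z) z = JJ b z + du g z := fun z => by
    rw [du_add (dAt (YY_smooth h) z) (dAt gs z)]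
    unfold YY
    rw [du_iU (JJ_smooth h)]
  have gsm : ∀ z, ‖fderiv ℝ g z‖ ≤ l ^ 2 / 256 := fun z => (gb z).trans (by
    have : c * B ≤ 1 / 16 := by nlinarith
    nlinarith [sq_nonneg l])
  have J0 : ∀ z, 0 ≤ JJ b z := fun z =>
    mul_nonneg (by linarith [(AA_bds h z).1]) (ff_bds _).1
  have lo : ∀ z : P, ‖z‖ ≤ r → c * l ^ 2 / 16 ≤ JJ b z + du g z := fun z hz => by
    rcases lt_or_ge ‖z‖ (l / 4) with h1 | h1
    · rw [gd1 z h1]; nlinarith [J0 z]
    · have a1 := (hJ z hz).1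
      have a2 := abs_le.1 ((abs_du_le g z).trans (gsm z))
      have a3 : (l / 4) ^ 2 ≤ ‖z‖ ^ 2 := pow_le_pow_left₀ (by positivity) h1 2
      have a4 : c ≤ 1 / 16 := by nlinarith
      nlinarith [sq_nonneg l]
  have pos : ∀ z, 0 < du (fun z => YY b z + g z) z := fun z => by
    rw [hdu]
    rcases le_or_gt ‖z‖ r with h1 | h1
    · exact lt_of_lt_of_le (by positivity) (lo z h1)
    · rw [gd0 z (by linarith), add_zero]
      exact L.J_pos z (by rintro rfl; simp at h1; linarith)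
  have surj : ∀ x, Function.Surjective fun u => YY b (x, u) + g (x, u) := fun x t => by
    obtain ⟨u1, h1⟩ := L.Y_surj x (t - c * (l / 4) ^ 3 * 2)
    obtain ⟨u2, h2⟩ := L.Y_surj x (t + c * (l / 4) ^ 3 * 2)
    have hc : Continuous fun u : ℝ => YY b (x, u) + g (x, u) :=
      hY.continuous.comp (f := fun u : ℝ => ((x, u) : P)) (by fun_prop)
    refine intermediate_value_univ u1 u2 hc ⟨?_, ?_⟩
    · simp only at h1 ⊢; linarith [(abs_le.1 (gv (x, u1))).2]
    · simp only at h2 ⊢; linarith [(abs_le.1 (gv (x, u2))).1]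
  obtain ⟨S, Ss, Sr, Sl⟩ := shear_inv hY pos surj
  have hjac := jac_shear h L hY
  refine ⟨fun w => ((Ξi w).1, YY b (Ξi w) + g (Ξi w)), fun p => Xi b (p.1, S p),
    L.Ξi_sm.fst.prodMk (hY.comp L.Ξi_sm), (Xi_smooth h).comp (contDiff_fst.prodMk Ss),
    fun w => ?_, fun p => ?_, fun w => ?_, fun w hw => ?_, fun w => ?_, fun w hw => ?_⟩
  · simp only [Sl (Ξi w)]
    exact L.Ξ_r w
  · simp only [L.Ξ_l, Sr p]
  · simp only [Xii_neg h L, YY_neg h, go]
    ext
    · simp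
    · simp; ring
  · have : 2 * (l / 4) ≤ ‖Ξi w‖ := by
      rcases le_or_gt ‖Ξi w‖ r with h1 | h1
      · have := (hJ _ h1).2.2
        rw [L.Ξ_r] at this
        exact le_of_sq_le_sq (by nlinarith) (norm_nonneg _) |> fun x => x
      · linarith
    simp only [g0 _ this, add_zero]
    rfl
  · rw [hjac]
    exact div_pos (pos _) (by linarith [(AA_bds h (Ξi w)).1])
  · have hw1 : ‖w‖ ≤ l := by
      have := norm_sq_le w
      exact abs_le_of_sq_le_sq' (this.trans hw) hl.le |>.2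
    have hz := hδr w (hw1.trans lδ)
    obtain ⟨A1, A2⟩ := AA_bds h (Ξi w)
    have A0 : 0 < AA b (Ξi w) := by linarith
    have hK : 0 ≤ (2 + K2) * K1 := by positivity
    have l2 : 0 < l ^ 2 := by positivity
    refine ⟨?_, ?_, ?_⟩
    · rw [hjac, hdu, le_div_iff₀ A0]
      refine le_trans ?_ (lo _ hz)
      have : l ^ 2 / (512 * (B + 1) + (2 + K2) * K1) ≤ c * l ^ 2 / 32 := by
        rw [div_le_iff₀ (by positivity)]
        nlinarith [mul_nonneg (mul_pos c0 l2).le hK]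
      have h0 : 0 ≤ l ^ 2 / (512 * (B + 1) + (2 + K2) * K1) := by positivity
      nlinarith
    · rw [hjac, hdu, div_le_iff₀ A0]
      have a1 : JJ b (Ξi w) ≤ 3 * l ^ 2 := by
        have e : JJ b (Ξi w) = AA b (Ξi w) * ff (Xi b (Ξi w)) := rfl
        rw [e, L.Ξ_r]
        nlinarith [ff_bds w]
      have a2 := abs_le.1 ((abs_du_le g (Ξi w)).trans (gsm _))
      have a3 : 8 * l ^ 2 ≤ (512 * (B + 1) + (2 + K2) * K1) * l ^ 2 :=
        mul_le_mul_of_nonneg_right (by nlinarith) l2.le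
      nlinarith
    · have d1 := (dAt L.Ξi_sm w).hasFDerivAt
      have d2 : HasFDerivAt (fun z : P => (z.1, YY b z + g z))
          ((ContinuousLinearMap.fst ℝ ℝ ℝ).prod (fderiv ℝ (YY b) (Ξi w) + fderiv ℝ g (Ξi w)))
          (Ξi w) := hasFDerivAt_fst.prodMk
            ((dAt (YY_smooth h) _).hasFDerivAt.add (dAt gs _).hasFDerivAt)
      have d3 : fderiv ℝ (fun w => ((Ξi w).1, YY b (Ξi w) + g (Ξi w))) w = _ :=
        (d2.comp w d1).fderiv
      rw [d3]
      refine (ContinuousLinearMap.opNorm_comp_le _ _).trans ?_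
      have n1 := hK1 w (by simpa using hw1.trans lδ)
      have n2 := hK2 (Ξi w) (by simpa using hz)
      have n3 : ‖(ContinuousLinearMap.fst ℝ ℝ ℝ).prod
          (fderiv ℝ (YY b) (Ξi w) + fderiv ℝ g (Ξi w))‖ ≤ 2 + K2 := by
        rw [ContinuousLinearMap.opNorm_prod, Prod.norm_def]
        refine max_le ((ContinuousLinearMap.norm_fst_le ℝ ℝ ℝ).trans (by linarith))
          ((norm_add_le _ _).trans ?_)
        have := gsm (Ξi w)
        nlinarith
      have := mul_le_mul n3 n1 (norm_nonneg _) (by positivity)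
      nlinarith

end Pool.Agent.Lib.ISOC
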