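import Pool.Agent.Lib.ISOC.Blue

set_option autoImplicit false

open Set Filter Topology
open scoped ContDiff
open Pool.Agent.Lib.MP_f62ea7_gt

namespace Pool.Agent.Lib.ISOC

namespace I94

theorem o_sm : ∀ (m : ℕ) {F : P → ℝ}, O m F → ContDiff ℝ ∞ F
  | 0, _, h => h
  | m + 1, F, ⟨F1, F2, h1, h2, e⟩ => by
    rw [show F = fun z => z.1 * F1 z + z.2 * F2 z from funext e]
    exact (contDiff_fst.mul (o_sm m h1)).add (contDiff_snd.mul (o_sm m h2))

theorem o_add : ∀ (m : ℕ) {F G : P → ℝ}, O m F → O m G → O m fun z => F z + G z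
  | 0, _, _, h, h' => ContDiff.add h h'
  | m + 1, _, _, ⟨F1, F2, h1, h2, e⟩, ⟨G1, G2, g1, g2, e'⟩ =>
    ⟨_, _, o_add m h1 g1, o_add m h2 g2, fun z => by simp only [e, e']; ring⟩

theorem o_mul : ∀ (m : ℕ) {u F : P → ℝ}, ContDiff ℝ ∞ u → O m F → O m fun z => u z * F z
  | 0, _, _, h, h' => ContDiff.mul h h'
  | m + 1, _, _, h, ⟨F1, F2, h1, h2, e⟩ =>
    ⟨_, _, o_mul m h h1, o_mul m h h2, fun z => by simp only [e]; ring⟩

theorem o_zero : ∀ m : ℕ, O m fun _ => 0
  | 0 => contDiff_const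
  | m + 1 => ⟨_, _, o_zero m, o_zero m, fun z => by ring⟩

theorem o_succ : ∀ (m : ℕ) {F : P → ℝ}, O (m + 1) F → O m F
  | 0, _, h => o_sm 1 h
  | m + 1, _, ⟨F1, F2, h1, h2, e⟩ => ⟨F1, F2, o_succ m h1, o_succ m h2, e⟩

theorem o_mono {m k : ℕ} (h : m ≤ k) {F : P → ℝ} (hF : O k F) : O m F := by
  induction h with
  | refl => exact hF
  | step _ ih => exact ih (o_succ _ hF)

theorem o_sum (m : ℕ) {ι : Type} (s : Finset ι) {F : ι → P → ℝ} (h : ∀ i ∈ s, O m (F i)) :
    O m fun z => ∑ i ∈ s, F i z := by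
  classical
  induction s using Finset.induction_on with
  | empty => simpa using o_zero m
  | insert a s ha ih =>
    simp only [Finset.sum_insert ha]
    exact o_add m (h a (Finset.mem_insert_self a s))
      (ih fun i hi => h i (Finset.mem_insert_of_mem hi))

/-- A smooth function that vanishes near the origin is flat. -/
theorem o_of_zero : ∀ (m : ℕ) {F : P → ℝ}, ContDiff ℝ ∞ F → (∀ᶠ z in 𝓝 (0 : P), F z = 0) → O m F
  | 0, _, h, _ => h
  | m + 1, F, h, h0 => by
    have hr : ∀ z : P, z ≠ 0 → rho z ≠ 0 := fun z hz hρ => hz (by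
      rw [rho] at hρ
      exact Prod.ext (by simpa using pow_eq_zero_iff two_ne_zero |>.1 (by nlinarith [sq_nonneg z.2]))
        (by simpa using pow_eq_zero_iff two_ne_zero |>.1 (by nlinarith [sq_nonneg z.1])))
    have h1 : ∀ᶠ z in 𝓝 (0 : P), F z / rho z = 0 := h0.mono fun z hz => by rw [hz, zero_div]
    have hs : ContDiff ℝ ∞ fun z => F z / rho z := contDiff_iff_contDiffAt.2 fun z => by
      by_cases hz : z = 0
      · exact (contDiffAt_const (c := (0 : ℝ))).congr_of_eventuallyEq (hz ▸ h1)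
      · exact h.contDiffAt.div ((contDiff_fst.pow 2).add (contDiff_snd.pow 2)).contDiffAt (hr z hz)
    refine ⟨_, _, o_mul m contDiff_fst (o_of_zero m hs h1), o_mul m contDiff_snd (o_of_zero m hs h1),
      fun z => ?_⟩
    by_cases hz : z = 0
    · rw [hz, h0.self_of_nhds]
      simp
    · have := hr z hz
      field_simp
      rw [rho]

theorem hom_sm {d : ℕ} {f : P → ℝ} (h : Hom d f) : ContDiff ℝ ∞ f := by
  induction h with
  | mono c i j _ => exact (contDiff_const.mul (contDiff_fst.pow i)).mul (contDiff_snd.pow j)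
  | add _ _ h1 h2 => exact h1.add h2

theorem hom_smul {d : ℕ} {f : P → ℝ} (h : Hom d f) (l : ℝ) (z : P) : f (l • z) = l ^ d * f z := by
  induction h with
  | mono c i j e =>
    simp only [Prod.smul_fst, Prod.smul_snd, smul_eq_mul, mul_pow, ← e, pow_add]
    ring
  | add _ _ h1 h2 => simp only [h1, h2, mul_add]

theorem hom_split {d : ℕ} {f : P → ℝ} (h : Hom (d + 1) f) :
    ∃ f1 f2, Hom d f1 ∧ Hom d f2 ∧ ∀ z, f z = z.1 * f1 z + z.2 * f2 z := by
  induction h with
  | mono c i j e =>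
    rcases i with _ | i
    · obtain rfl : j = d + 1 := by omega
      exact ⟨_, _, Hom.mono 0 0 d (by omega), Hom.mono c 0 d (by omega), fun z => by ring⟩
    · exact ⟨_, _, Hom.mono c i j (by omega), Hom.mono 0 0 d (by omega), fun z => by ring⟩
  | add _ _ h1 h2 =>
    obtain ⟨a1, a2, b1, b2, e⟩ := h1
    obtain ⟨c1, c2, d1, d2, e'⟩ := h2
    exact ⟨_, _, b1.add d1, b2.add d2, fun z => by simp only [e, e']; ring⟩

theorem hom_o : ∀ (d : ℕ) {f : P → ℝ}, Hom d f → O d f
  | 0, _, h => hom_sm h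
  | d + 1, _, h => by
    obtain ⟨f1, f2, h1, h2, e⟩ := hom_split h
    exact ⟨f1, f2, hom_o d h1, hom_o d h2, e⟩

/-- Order `m` of vanishing, with small cofactors. -/
def B (K : ℕ) (ε : ℝ) : ℕ → (P → ℝ) → Prop
  | 0, F => ContDiff ℝ ∞ F ∧ ∀ k ≤ K, ∀ z, ‖iteratedFDeriv ℝ k F z‖ ≤ ε
  | m + 1, F => ∃ F1 F2 : P → ℝ, B K ε m F1 ∧ B K ε m F2 ∧ ∀ z, F z = z.1 * F1 z + z.2 * F2 z

theorem b_sum {K : ℕ → ℕ} {ε : ℕ → ℝ} (hK : ∀ j, j ≤ K j) (hε : Summable ε) :
    ∀ (m : ℕ) (F : ℕ → P → ℝ), (∀ j, B (K j) (ε j) m (F j)) →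
      (∀ z, Summable fun j => F j z) ∧ O m fun z => ∑' j, F j z
  | 0, F, h => by
    refine ⟨fun z => Summable.of_norm_bounded hε fun j => ?_, ?_⟩
    · simpa only [norm_iteratedFDeriv_zero] using (h j).2 0 (Nat.zero_le _) z
    · refine contDiff_tsum_of_eventually (N := ⊤) (v := fun _ => ε) (fun j => (h j).1)
        (fun _ _ => hε) fun k _ => ?_
      rw [Nat.cofinite_eq_atTop]
      exact (eventually_ge_atTop k).mono fun j hj => (h j).2 k (hj.trans (hK j))
  | m + 1, F, h => by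
    choose F1 F2 h1 h2 e using h
    obtain ⟨s1, o1⟩ := b_sum hK hε m F1 h1
    obtain ⟨s2, o2⟩ := b_sum hK hε m F2 h2
    simp only [e]
    exact ⟨fun z => ((s1 z).mul_left _).add ((s2 z).mul_left _), _, _, o1, o2, fun z => by
      beta_reduce
      rw [((s1 z).mul_left _).tsum_add ((s2 z).mul_left _), tsum_mul_left, tsum_mul_left]⟩

theorem b_scale {χ : P → ℝ} (hχ : ContDiff ℝ ∞ χ) (hc : HasCompactSupport χ) (K : ℕ) {ε : ℝ}
    (hε : 0 < ε) : ∀ (m d : ℕ) (f : P → ℝ), Hom d f → m + K < d →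
      ∀ᶠ l : ℝ in atTop, B K ε m fun z => χ (l • z) * f z
  | 0, d, f, h, hd => by
    have hs : ContDiff ℝ ∞ fun z => χ z * f z := hχ.mul (hom_sm h)
    have key : ∀ k : Fin (K + 1), ∀ᶠ l : ℝ in atTop, ∀ z,
        ‖iteratedFDeriv ℝ k (fun z => χ (l • z) * f z) z‖ ≤ ε := fun k => by
      have hk : ContDiff ℝ (k : ℕ) fun z => χ z * f z := hs.of_le (by exact_mod_cast le_top)
      obtain ⟨C, hC⟩ := (hk.continuous_iteratedFDeriv le_rfl).bounded_above_of_compact_support
        ((hc.mul_right (f' := f)).iteratedFDeriv k)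
      filter_upwards [eventually_ge_atTop 1, eventually_ge_atTop (C / ε)] with l l1 l2 z
      have l0 : 0 < l := by linarith
      have e : (fun z => χ (l • z) * f z) = fun z => (l ^ d)⁻¹ • (fun w => χ w * f w) (l • z) := by
        funext z
        simp only [hom_smul h, smul_eq_mul]
        field_simp
      have hk2 : ContDiff ℝ (k : ℕ) fun z => (fun w => χ w * f w) (l • z) :=
        hk.comp (contDiff_const_smul l)
      rw [e, iteratedFDeriv_const_smul_apply' hk2.contDiffAt,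
        iteratedFDeriv_comp_const_smul l hk, norm_smul, norm_smul, norm_inv, norm_pow, norm_pow,
        Real.norm_of_nonneg l0.le, inv_mul_le_iff₀ (by positivity)]
      have p1 : l ^ ((k : ℕ) + 1) ≤ l ^ d := pow_le_pow_right₀ l1 (by have := k.2; omega)
      rw [div_le_iff₀ hε] at l2
      calc _ ≤ l ^ (k : ℕ) * (l * ε) :=
            mul_le_mul_of_nonneg_left ((hC _).trans l2) (by positivity)
        _ = l ^ ((k : ℕ) + 1) * ε := by ring
        _ ≤ _ := mul_le_mul_of_nonneg_right p1 hε.le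
    filter_upwards [eventually_all.2 key] with l hl
    exact ⟨(hχ.comp (contDiff_const_smul l)).mul (hom_sm h), fun k hk => hl ⟨k, by omega⟩⟩
  | m + 1, 0, _, _, hd => by omega
  | m + 1, d + 1, f, h, hd => by
    obtain ⟨f1, f2, h1, h2, e⟩ := hom_split h
    filter_upwards [b_scale hχ hc K hε m d f1 h1 (by omega), b_scale hχ hc K hε m d f2 h2 (by omega)]
      with l a1 a2
    exact ⟨_, _, a1, a2, fun z => by simp only [e]; ring⟩

end I94

open I94 in
theorem st_BOREL : St_BOREL := by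
  intro f hf
  let χ : ContDiffBump (0 : P) := ⟨1, 2, one_pos, one_lt_two⟩
  have key : ∀ j, ∃ l : ℝ, ∀ m : Fin (j + 1),
      B (j + 1) (1 / 2 / 2 / 2 ^ j) m fun z => χ (l • z) * f j z := fun j =>
    (eventually_all.2 fun m : Fin (j + 1) => b_scale χ.contDiff χ.hasCompactSupport (j + 1)
      (by positivity) m _ _ (hf j) (by have := m.2; omega)).exists
  choose l hl using key
  have hs := hasSum_geometric_two' (1 / 2)
  obtain ⟨s0, o0⟩ := b_sum (fun j => Nat.le_succ j) hs.summable 0 _ fun j => hl j 0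
  refine ⟨_, o0, fun z => ?_, fun z => ?_, fun n => ?_⟩
  · rw [← tsum_neg]
    refine tsum_congr fun j => ?_
    have := hom_smul (hf j) (-1) z
    rw [neg_one_smul] at this
    rw [smul_neg, χ.neg, this, Odd.neg_one_pow ⟨j + 2, by ring⟩]
    ring
  · have b1 : ∀ j x, ‖fderiv ℝ (fun z => χ (l j • z) * f j z) x‖ ≤ 1 / 2 / 2 / 2 ^ j := fun j x => by
      rw [← norm_iteratedFDeriv_one]
      exact (hl j 0).2 1 (by omega) x
    have b2 := tsum_of_norm_bounded hs fun j => b1 j z
    rw [← fderiv_tsum_apply hs.summable (fun j => (hl j 0).1.differentiable (by simp)) b1 (s0 z)]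
      at b2
    refine ((fderiv ℝ (fun z => ∑' j, χ (l j • z) * f j z) z).le_opNorm (1, 0)).trans ?_
    simpa using b2
  · obtain ⟨-, o1⟩ := b_sum (K := fun j => j + (2 * n + 5) + 1)
      (ε := fun j => 1 / 2 / 2 / 2 ^ (j + (2 * n + 5))) (fun j => by omega)
      ((summable_nat_add_iff (2 * n + 5)).2 hs.summable) (2 * n + 5) _
      fun j => hl (j + (2 * n + 5)) ⟨2 * n + 5, by omega⟩
    have o2 := o_sum (2 * n + 5) (Finset.range n)
      (F := fun j z => (χ (l j • z) - 1) * f j z) fun j _ => o_of_zero _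
        (((χ.contDiff.comp (contDiff_const_smul (l j))).sub contDiff_const).mul (hom_sm (hf j))) (by
          have c : Tendsto (fun z : P => l j • z) (𝓝 0) (𝓝 0) := by
            simpa using (continuous_const_smul (l j)).tendsto (0 : P)
          exact (c.eventually χ.eventuallyEq_one).mono fun z hz => by simp [hz])
    have o3 := o_sum (2 * n + 5) (Finset.Ico n (2 * n + 5))
      (F := fun j z => χ (l j • z) * f j z) fun j hj => o_mul _
        (χ.contDiff.comp (contDiff_const_smul (l j)))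
        (o_mono (by have := (Finset.mem_Ico.1 hj).1; omega) (hom_o _ (hf j)))
    have e : (fun z => ∑' j, χ (l j • z) * f j z - ∑ j ∈ Finset.range n, f j z) = fun z =>
        ∑ j ∈ Finset.range n, (χ (l j • z) - 1) * f j z +
        ∑ j ∈ Finset.Ico n (2 * n + 5), χ (l j • z) * f j z +
        ∑' j, χ (l (j + (2 * n + 5)) • z) * f (j + (2 * n + 5)) z := by
      funext z
      rw [← (s0 z).sum_add_tsum_nat_add (2 * n + 5),
        ← Finset.sum_range_add_sum_Ico _ (show n ≤ 2 * n + 5 by omega)]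
      simp only [sub_mul, one_mul, Finset.sum_sub_distrib]
      ring
    rw [e]
    exact o_add _ (o_add _ o2 o3) o1

end Pool.Agent.Lib.ISOC
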