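import Pool.Agent.Lib.ISOC.B_CAL2
import Pool.Agent.Lib.MP_f62ea7_gt.Basic2

set_option autoImplicit false

open MeasureTheory Set Filter Topology Real
open Pool.Agent.Lib.MP_f62ea7_gt

namespace Pool.Agent.Lib.ISOC

namespace D39

/-- dominated convergence for the space-time integral -/
theorem dbl_lim {M : Set P} (hM : IsCompact M) {f : ℝ → ℝ → P → ℝ} {g : ℝ → P → ℝ} {B : ℝ}
    (hm : ∀ ε, Measurable fun q : ℝ × P => f ε q.1 q.2)
    (hB : ∀ ε, 0 < ε → ∀ t ∈ Icc 0 π, ∀ a ∈ M, |f ε t a| ≤ B)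
    (hl : ∀ t ∈ Icc 0 π, ∀ᵐ a ∂(volume.restrict M),
      Tendsto (fun ε => f ε t a) (𝓝[>] 0) (𝓝 (g t a))) :
    Tendsto (fun ε => dbl M (f ε)) (𝓝[>] 0) (𝓝 (dbl M g)) := by
  have hfin : IsFiniteMeasure (volume.restrict M) := ⟨by simpa using hM.measure_lt_top⟩
  have hsub : ∀ t ∈ uIoc (0 : ℝ) π, t ∈ Icc 0 π := fun t ht => by
    rw [uIoc_of_le pi_pos.le] at ht
    exact Ioc_subset_Icc_self ht
  have hb : ∀ ε, 0 < ε → ∀ t ∈ Icc 0 π, ∀ᵐ a ∂(volume.restrict M), ‖f ε t a‖ ≤ B :=
    fun ε hε t ht => (ae_restrict_iff' hM.measurableSet).mpr (Eventually.of_forall (hB ε hε t ht))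
  unfold dbl
  refine intervalIntegral.tendsto_integral_filter_of_dominated_convergence
    (fun _ => B * (volume.restrict M).real univ) ?_ ?_ intervalIntegrable_const ?_
  · exact Eventually.of_forall fun ε =>
      (hm ε).stronglyMeasurable.integral_prod_right'.aestronglyMeasurable
  · filter_upwards [self_mem_nhdsWithin] with ε hε
    exact Eventually.of_forall fun t ht =>
      norm_integral_le_of_norm_le_const (hb ε hε t (hsub t ht))
  · refine Eventually.of_forall fun t ht => ?_
    refine tendsto_integral_filter_of_dominated_convergence (fun _ => B) ?_ ?_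
      (integrable_const B) (hl t (hsub t ht))
    · exact Eventually.of_forall fun ε =>
        ((hm ε).comp measurable_prodMk_left).aestronglyMeasurable
    · filter_upwards [self_mem_nhdsWithin] with ε hε
      exact hb ε hε t (hsub t ht)

theorem disc_compact (R : ℝ) : IsCompact (Disc R) := by
  refine (isCompact_closedBall (0 : P) |R|).of_isClosed_subset
    (isClosed_le (by unfold rho; fun_prop) continuous_const) fun z hz => ?_
  have h : z.1 ^ 2 + z.2 ^ 2 ≤ R ^ 2 := hz
  rw [mem_closedBall_zero_iff, norm_prod_le_iff]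
  exact ⟨sq_le_sq.mp (by nlinarith [sq_nonneg z.2]), sq_le_sq.mp (by nlinarith [sq_nonneg z.1])⟩

theorem K1_meas (ε : ℝ) (N : Set P) : Measurable fun p : P => ∫ q in N, k1 ε (p - q) := by
  have h : Measurable fun x : P × P => k1 ε (x.1 - x.2) := by
    unfold k1
    fun_prop
  exact h.stronglyMeasurable.integral_prod_right'.measurable

theorem K2_meas (ε : ℝ) (N : Set P) : Measurable fun p : P => ∫ q in N, k2 ε (p - q) := by
  have h : Measurable fun x : P × P => k2 ε (x.1 - x.2) := by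
    unfold k2
    fun_prop
  exact h.stronglyMeasurable.integral_prod_right'.measurable

end D39

open D39 in
theorem st_CAL (h1 : St_CAL1) (h2 : St_CAL2) (h3 : St_CAL3) : St_CAL := by
  intro Γ R R' h w w' hΓ hinj hR hR' hh h0 hM
  obtain ⟨n, hn, hN⟩ := h1 Γ R _ w w' hΓ hinj hR hM
  obtain ⟨⟨B, hB⟩, l1, l2⟩ := h2 R' h hR' hh h0
  have hc : IsCompact (Γ '' Disc R) := (disc_compact R).image hΓ
  have hS := C39.strip_meas R' hh
  obtain ⟨B', hB'⟩ := hM.bdd
  have lim := dbl_lim hc
    (f := fun ε t a => (∫ q in Strip R' h, k1 ε (w t a - q)) * (w' t a).2 -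
      (∫ q in Strip R' h, k2 ε (w t a - q)) * (w' t a).1)
    (g := fun t a => -(2 * π) * ((w t a).2 * (w' t a).1)) (B := B * B' + B * B')
    (fun ε => (((K1_meas ε _).comp hM.cont.measurable).mul hM.meas.snd).sub
      (((K2_meas ε _).comp hM.cont.measurable).mul hM.meas.fst))
    (fun ε hε t ht a ha => by
      obtain ⟨-, -, b1, b2⟩ := hB ε hε (w t a)
      have c1 := abs_integral_le_integral_abs.trans b1
      have c2 := abs_integral_le_integral_abs.trans b2
      have d1 := (abs_fst_le _).trans (hB' t ht a ha)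
      have d2 := (abs_snd_le _).trans (hB' t ht a ha)
      refine (abs_sub _ _).trans (add_le_add ?_ ?_)
      · rw [abs_mul]
        exact mul_le_mul c1 d2 (abs_nonneg _) ((abs_nonneg _).trans c1)
      · rw [abs_mul]
        exact mul_le_mul c2 d1 (abs_nonneg _) ((abs_nonneg _).trans c2))
    (fun t ht => by
      have e : ∀ c : ℝ, ∀ᵐ a ∂(volume.restrict (Γ '' Disc R)), (w t a).1 ≠ c := fun c =>
        (hM.mp t ht).quasiMeasurePreserving.ae (p := fun q : P => q.1 ≠ c) (ae_restrict_of_ae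
          (Measure.quasiMeasurePreserving_fst.ae (p := fun x : ℝ => x ≠ c) (Measure.ae_ne volume c)))
      filter_upwards [e R', e (-R'), ae_restrict_mem hc.measurableSet] with a a1 a2 ha
      obtain ⟨m1, m2⟩ := hM.maps t ht ha
      have m3 : |(w t a).1| < R' := by
        obtain ⟨u1, u2⟩ := abs_le.mp m1
        exact abs_lt.mpr ⟨lt_of_le_of_ne u1 a2.symm, lt_of_le_of_ne u2 a1⟩
      have m4 := ((l1 (w t a)).mul_const (w' t a).2).sub ((l2 (w t a) m3 m2).mul_const (w' t a).1)
      have m5 : 0 * (w' t a).2 - 2 * π * (w t a).2 * (w' t a).1 =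
          -(2 * π) * ((w t a).2 * (w' t a).1) := by ring
      rwa [m5] at m4)
  rw [dbl_const_mul] at lim
  have lim2 := lim.const_mul 2
  have cst : Tendsto (fun _ : ℝ => n * π * volume.real (Γ '' Disc R) ^ 2) (𝓝[>] 0)
      (𝓝 (2 * (-(2 * π) * dbl (Γ '' Disc R) fun t a => (w t a).2 * (w' t a).1))) := by
    refine lim2.congr' ?_
    filter_upwards [self_mem_nhdsWithin] with ε hε
    exact (h3 _ _ w w' ε B (n * π) hc hS hM (hB ε hε) (hN ε hε)).symm
  have eq := tendsto_nhds_unique cst tendsto_const_nhds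
  have eq2 : (dbl (Γ '' Disc R) fun t a => (w t a).2 * (w' t a).1) =
      -(n * (volume.real (Γ '' Disc R) ^ 2 / 4)) := by
    apply mul_left_cancel₀ pi_pos.ne'
    linarith
  have hn0 : n ≠ 0 := by
    rintro rfl
    exact absurd hn (by decide)
  have hn1 : (1 : ℝ) ≤ |(n : ℝ)| := by exact_mod_cast Int.one_le_abs hn0
  have hv : 0 ≤ volume.real (Γ '' Disc R) ^ 2 / 4 := by positivity
  rw [eq2, abs_neg, abs_mul, abs_of_nonneg hv]
  nlinarith

end Pool.Agent.Lib.ISOC
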