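import Pool.Agent.Lib.ISOC.Blue
import Pool.Agent.Lib.MP_f62ea7_gt.WIND

set_option autoImplicit false

open MeasureTheory Set Filter Topology Real
open Pool.Agent.Lib.MP_f62ea7_gt

namespace Pool.Agent.Lib.ISOC

namespace W39

/-- vertical scaling -/
def sc (ε : ℝ) (p : P) : P := (p.1, ε * p.2)
/-- counterclockwise rotation -/
noncomputable def ro (θ : ℝ) (p : P) : P :=
  (cos θ * p.1 - sin θ * p.2, sin θ * p.1 + cos θ * p.2)

theorem sc_sub (ε : ℝ) (p q : P) : sc ε p - sc ε q = sc ε (p - q) := by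
  ext
  · rfl
  · simp only [sc, Prod.snd_sub]
    ring

theorem sc_neg (ε : ℝ) (p : P) : sc ε (-p) = -sc ε p := by
  ext
  · rfl
  · simp only [sc, Prod.snd_neg]
    ring

theorem sc_ne {ε : ℝ} (hε : 0 < ε) {p : P} (hp : p ≠ 0) : sc ε p ≠ 0 := fun h => by
  have h1 : p.1 = 0 := congrArg Prod.fst h
  have h2 : ε * p.2 = 0 := congrArg Prod.snd h
  exact hp (Prod.ext h1 ((mul_eq_zero.mp h2).resolve_left hε.ne'))

theorem ro_sub (θ : ℝ) (p q : P) : ro θ p - ro θ q = ro θ (p - q) := by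
  ext
  · simp only [ro, Prod.fst_sub, Prod.snd_sub]
    ring
  · simp only [ro, Prod.fst_sub, Prod.snd_sub]
    ring

theorem toC_ro (θ : ℝ) (p : P) : toC (ro θ p) = Complex.exp (θ * Complex.I) * toC p := by
  apply Complex.ext
  · simp only [toC, ro, Complex.mul_re, Complex.exp_ofReal_mul_I_re, Complex.exp_ofReal_mul_I_im]
  · simp only [toC, ro, Complex.mul_im, Complex.exp_ofReal_mul_I_re, Complex.exp_ofReal_mul_I_im]
    ring

theorem ro_ne (θ : ℝ) {p : P} (hp : p ≠ 0) : ro θ p ≠ 0 := fun h => by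
  have h1 := toC_ro θ p
  rw [h] at h1
  exact mul_ne_zero (Complex.exp_ne_zero _) (WIND.toC_ne hp) h1.symm

theorem ro_zero (p : P) : ro 0 p = p := by
  ext <;> simp [ro]

theorem ro_odd {n : ℤ} (hn : Odd n) (p : P) : ro (n * π) p = -p := by
  have h1 : cos (n * π) = -1 := by
    rw [cos_int_mul_pi, hn.neg_one_zpow]
  ext <;> simp [ro, h1, sin_int_mul_pi]

theorem toC_neg (p : P) : toC (-p) = -toC p := by
  apply Complex.ext <;> simp [toC]

theorem kern_eq (ε : ℝ) (F F' : P) : kern ε F F' = (toC (sc ε F') / toC (sc ε F)).im := by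
  rw [Complex.div_im, Complex.normSq_apply]
  simp only [kern, k1, k2, toC, sc]
  have h : F.1 * F.1 + ε * F.2 * (ε * F.2) = F.1 ^ 2 + ε ^ 2 * F.2 ^ 2 := by ring
  rw [h]
  ring

/-- a continuous logarithm is differentiable where the path is -/
theorem log_der {H Λ : ℝ → ℂ} {c H' : ℂ} {t : ℝ} (ht : t ∈ Ioo 0 π) (hc : c ≠ 0)
    (hΛ : ContinuousOn Λ (Icc 0 π)) (hE : ∀ s ∈ Icc 0 π, H s = Complex.exp (Λ s) * c)
    (hd : HasDerivAt H H' t) : HasDerivAt Λ (H' / H t) t := by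
  have hn : Icc 0 π ∈ 𝓝 t := Icc_mem_nhds ht.1 ht.2
  have ht' : t ∈ Icc 0 π := Ioo_subset_Icc_self ht
  have h0 : H t ≠ 0 := by
    rw [hE t ht']
    exact mul_ne_zero (Complex.exp_ne_zero _) hc
  have h1 : HasDerivAt (fun s => Λ t + Complex.log (H s / H t)) (H' / H t / (H t / H t)) t :=
    ((hd.div_const (H t)).clog_real (by rw [div_self h0]; exact Complex.one_mem_slitPlane)).const_add _
  rw [div_self h0, div_one] at h1
  refine h1.congr_of_eventuallyEq ?_
  have h2 : ContinuousAt (fun s => |(Λ s - Λ t).im|) t :=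
    (Complex.continuous_im.continuousAt.comp
      ((hΛ.continuousAt hn).sub continuousAt_const)).abs
  have h3 : ∀ᶠ s in 𝓝 t, |(Λ s - Λ t).im| < π :=
    h2.eventually_lt_const (by simpa using pi_pos)
  filter_upwards [hn, h3] with s hs h4
  obtain ⟨h5, h6⟩ := abs_lt.mp h4
  rw [hE s hs, hE t ht', mul_div_mul_right _ _ hc, ← Complex.exp_sub, Complex.log_exp h5 h6.le]
  ring

theorem bdd_ii {f : ℝ → ℝ} (hf : Measurable f) {B : ℝ} (hB : ∀ t ∈ Icc 0 π, |f t| ≤ B) :
    IntervalIntegrable f volume 0 π := by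
  rw [intervalIntegrable_iff_integrableOn_Icc_of_le pi_pos.le]
  refine Measure.integrableOn_of_bounded (M := B) (by simp) hf.aestronglyMeasurable ?_
  exact (ae_restrict_iff' measurableSet_Icc).mpr (Eventually.of_forall hB)

/-- the integral of the kernel along a path homotopic to the rotation by `n π` -/
theorem int_of_null {F F' : ℝ → P} {ε B : ℝ} {S : Finset ℝ} {n : ℤ} (hε : 0 < ε)
    (hF : Continuous F) (hm : Measurable F') (hB : ∀ t ∈ Icc 0 π, ‖F' t‖ ≤ B)
    (hd : ∀ t ∈ Ioo 0 π, t ∉ S → HasDerivAt F (F' t) t) (h0 : ∀ t ∈ Icc 0 π, F t ≠ 0)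
    (hN : Null (fun s => sc ε (F s)) fun s => ro (n * s) (sc ε (F 0))) :
    ∫ t in (0 : ℝ)..π, kern ε (F t) (F' t) = n * π := by
  obtain ⟨L, hL, hE, hL0⟩ := hN
  have hc : toC (sc ε (F 0)) ≠ 0 := WIND.toC_ne (sc_ne hε (h0 0 WIND.h0))
  have hΛ : ContinuousOn (fun s : ℝ => L s + ((n * s : ℝ) : ℂ) * Complex.I) (Icc 0 π) :=
    hL.add (by fun_prop)
  have hE' : ∀ s ∈ Icc 0 π, toC (sc ε (F s)) =
      Complex.exp (L s + ((n * s : ℝ) : ℂ) * Complex.I) * toC (sc ε (F 0)) := by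
    intro s hs
    rw [Complex.exp_add, mul_assoc, ← toC_ro]
    exact hE s hs
  have hden : ∀ t ∈ uIcc 0 π, (F t).1 ^ 2 + ε ^ 2 * (F t).2 ^ 2 ≠ 0 := by
    intro t ht h
    rw [uIcc_of_le pi_pos.le] at ht
    have a1 : (F t).1 ^ 2 = 0 := by nlinarith [sq_nonneg (F t).1, sq_nonneg (ε * (F t).2)]
    have a2 : ε ^ 2 * (F t).2 ^ 2 = 0 := by linarith
    have a3 : (F t).2 ^ 2 = 0 := (mul_eq_zero.mp a2).resolve_left (by positivity)
    exact h0 t ht (Prod.ext (pow_eq_zero_iff two_ne_zero |>.mp a1)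
      (pow_eq_zero_iff two_ne_zero |>.mp a3))
  have hi : IntervalIntegrable (fun t => kern ε (F t) (F' t)) volume 0 π := by
    have i1 : IntervalIntegrable (fun t => (F' t).1) volume 0 π :=
      bdd_ii hm.fst fun t ht => (abs_fst_le _).trans (hB t ht)
    have i2 : IntervalIntegrable (fun t => (F' t).2) volume 0 π :=
      bdd_ii hm.snd fun t ht => (abs_snd_le _).trans (hB t ht)
    have c1 : ContinuousOn (fun t => k1 ε (F t)) (uIcc 0 π) :=
      ContinuousOn.div (by fun_prop) (by fun_prop) hden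
    have c2 : ContinuousOn (fun t => k2 ε (F t)) (uIcc 0 π) :=
      ContinuousOn.div (by fun_prop) (by fun_prop) hden
    exact (i2.continuousOn_mul c1).sub (i1.continuousOn_mul c2)
  have key := integral_eq_of_hasDerivAt_off_countable_of_le
    (fun s : ℝ => (L s + ((n * s : ℝ) : ℂ) * Complex.I).im) (fun t => kern ε (F t) (F' t))
    pi_pos.le S.countable_toSet (Complex.continuous_im.comp_continuousOn hΛ) (fun t ht => ?_) hi
  · rw [key, hL0]
    simp
  · have d0 := hd t ht.1 ht.2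
    have d1 : HasDerivAt (fun s => toC (sc ε (F s))) (toC (sc ε (F' t))) t := by
      have e : ∀ p : P, toC (sc ε p) = ((p.1 : ℝ) : ℂ) + ((ε * p.2 : ℝ) : ℂ) * Complex.I := by
        intro p
        apply Complex.ext <;> simp [toC, sc]
      simp only [e]
      have f1 : HasDerivAt (fun s => (F s).1) (F' t).1 t :=
        (ContinuousLinearMap.fst ℝ ℝ ℝ).hasFDerivAt.comp_hasDerivAt t d0
      have f2 : HasDerivAt (fun s => (F s).2) (F' t).2 t :=
        (ContinuousLinearMap.snd ℝ ℝ ℝ).hasFDerivAt.comp_hasDerivAt t d0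
      exact f1.ofReal_comp.add ((f2.const_mul ε).ofReal_comp.mul_const _)
    have d2 := log_der ht.1 hc hΛ hE' d1
    rw [kern_eq]
    exact Complex.imCLM.hasFDerivAt.comp_hasDerivAt t d2

/-- an antisymmetric path is homotopic to an odd rotation -/
theorem exists_odd {F : ℝ → P} (hF : Continuous F) (h0 : ∀ t ∈ Icc 0 π, F t ≠ 0)
    (ha : F π = -F 0) : ∃ n : ℤ, Odd n ∧ Null F fun s => ro (n * s) (F 0) := by
  have hsc : IsSimplyConnected (univ : Set ℝ) := by
    have := (convex_univ (𝕜 := ℝ) (E := ℝ)).contractibleSpace univ_nonempty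
    exact SimplyConnectedSpace.ofContractible _
  obtain ⟨Λ, hΛ, hE⟩ := Complex.exists_continuousOn_eqOn_exp_comp hsc isOpen_univ
    (g := fun s => toC (F (projIcc 0 π pi_pos.le s)))
    (WIND.continuous_toC.comp (hF.comp (continuous_subtype_val.comp continuous_projIcc))).continuousOn
    (by
      rintro ⟨s, -, hs⟩
      exact WIND.toC_ne (h0 _ (projIcc 0 π pi_pos.le s).2) hs)
  have hE' : ∀ s ∈ Icc 0 π, toC (F s) = Complex.exp (Λ s) := by
    intro s hs
    have := hE (mem_univ s)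
    simp only [Function.comp, projIcc_of_mem pi_pos.le hs] at this
    exact this.symm
  have h1 : Complex.exp (Λ π) = Complex.exp (Λ 0 + π * Complex.I) := by
    rw [Complex.exp_add, Complex.exp_pi_mul_I, ← hE' π WIND.hπ, ← hE' 0 WIND.h0, ha, toC_neg]
    ring
  obtain ⟨k, hk⟩ := Complex.exp_eq_exp_iff_exists_int.mp h1
  refine ⟨2 * k + 1, ⟨k, rfl⟩, fun s => Λ s - (((2 * k + 1 : ℤ) * s : ℝ) : ℂ) * Complex.I - Λ 0,
    ((hΛ.mono (subset_univ _)).sub (by fun_prop)).sub continuousOn_const, fun s hs => ?_, ?_⟩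
  · simp only
    rw [toC_ro, hE' s hs, hE' 0 WIND.h0, ← Complex.exp_add, ← Complex.exp_add]
    congr 1
    ring
  · simp only
    rw [hk]
    push_cast
    ring

end W39

open W39 in
theorem st_CAL1 : St_CAL1 := by
  intro Γ R N w w' hΓ hinj hR hM
  obtain ⟨B, hB⟩ := hM.bdd
  obtain ⟨S, hS⟩ := hM.der
  have hw : ∀ a, Continuous fun t => w t a := fun a => hM.cont.comp (Continuous.prodMk_left a)
  have hw' : ∀ a, Measurable fun t => w' t a := fun a => hM.meas.comp measurable_prodMk_right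
  have hne : ∀ z ∈ Disc R, ∀ z' ∈ Disc R, z ≠ z' → ∀ t ∈ Icc 0 π,
      w t (Γ z) - w t (Γ z') ≠ 0 := fun z hz z' hz' h t ht =>
    sub_ne_zero.mpr ((hM.inj t ht).ne (mem_image_of_mem Γ hz) (mem_image_of_mem Γ hz') (hinj.ne h))
  have han : ∀ z ∈ Disc R, ∀ z' ∈ Disc R,
      w π (Γ z) - w π (Γ z') = -(w 0 (Γ z) - w 0 (Γ z')) := by
    intro z hz z' hz'
    rw [hM.anti _ (mem_image_of_mem Γ hz), hM.anti _ (mem_image_of_mem Γ hz')]
    ring
  have z0 : (0 : P) ∈ Disc R := by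
    simp only [Disc, rho, mem_ofPred_eq, Prod.fst_zero, Prod.snd_zero]
    nlinarith [sq_nonneg R]
  have z1 : ((R, 0) : P) ∈ Disc R := by
    simp [Disc, rho]
  have z01 : ((R, 0) : P) ≠ 0 := fun h => hR.ne' (congrArg Prod.fst h)
  have csc : Continuous fun q : ℝ × P => sc q.1 q.2 := by
    unfold sc
    fun_prop
  have cro : Continuous fun q : ℝ × P => ro q.1 q.2 := by
    unfold ro
    fun_prop
  obtain ⟨n, hn, hN⟩ := exists_odd (F := fun t => sc 1 (w t (Γ (R, 0)) - w t (Γ 0)))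
    (csc.comp (continuous_const.prodMk ((hw _).sub (hw _))))
    (fun t ht => sc_ne one_pos (hne _ z1 _ z0 z01 t ht)) (by simp only [han _ z1 _ z0, sc_neg])
  refine ⟨n, hn, fun ε hε => ?_⟩
  have hNε : Null (fun s => sc ε (w s (Γ (R, 0)) - w s (Γ 0)))
      fun s => ro (n * s) (sc ε (w 0 (Γ (R, 0)) - w 0 (Γ 0))) := by
    have := isPreconnected_iff_preconnectedSpace.1 (isPreconnected_Ioi (a := (0 : ℝ)))
    refine (WIND.key' (X := Ioi (0 : ℝ))
      (F := fun x s => sc x (w s (Γ (R, 0)) - w s (Γ 0)))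
      (F' := fun x s => ro (n * s) (sc x (w 0 (Γ (R, 0)) - w 0 (Γ 0)))) ?_ ?_ ?_ ?_
      ⟨1, mem_Ioi.mpr one_pos⟩ ⟨ε, hε⟩).mp hN
    · exact (csc.comp ((continuous_subtype_val.comp continuous_fst).prodMk
        (((hw _).sub (hw _)).comp continuous_snd))).continuousOn
    · exact (cro.comp ((continuous_const.mul continuous_snd).prodMk
        (csc.comp ((continuous_subtype_val.comp continuous_fst).prodMk
          continuous_const)))).continuousOn
    · exact fun x s hs => ⟨sc_ne x.2 (hne _ z1 _ z0 z01 s hs),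
        ro_ne _ (sc_ne x.2 (hne _ z1 _ z0 z01 0 WIND.h0))⟩
    · intro x
      refine ⟨by rw [mul_zero, ro_zero], ?_⟩
      rw [ro_odd hn, han _ z1 _ z0, sc_neg]
  have h3 := WIND.three (A := Disc R) (ε := R / 2) (f := fun s z => sc ε (w s (Γ z)))
    (f' := fun s z => ro (n * s) (sc ε (w 0 (Γ z)))) (fun z hz r hr => ?_) (by positivity)
    (fun z hz => ?_)
    (csc.comp (continuous_const.prodMk (hM.cont.comp (continuous_fst.prodMk
      (hΓ.comp continuous_snd)))))
    (cro.comp ((continuous_const.mul continuous_fst).prodMk (csc.comp (continuous_const.prodMk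
      (hM.cont.comp (continuous_const.prodMk (hΓ.comp continuous_snd)))))))
    (fun s hs => ⟨fun z hz z' hz' h => ?_, fun z hz z' hz' h => ?_⟩) (fun z hz => ?_)
  · simp only [ro_sub, sc_sub] at h3
    have h4 := h3.resolve_right fun h => h _ z1 _ z0 z01 hNε
    rintro _ ⟨z, hz, rfl⟩ _ ⟨z', hz', rfl⟩ hzz
    have hzz' : z ≠ z' := fun h => hzz (by rw [h])
    refine int_of_null (B := B + B) (S := S) hε ((hw _).sub (hw _)) ((hw' _).sub (hw' _))
      (fun t ht => (norm_sub_le _ _).trans (add_le_add (hB t ht _ (mem_image_of_mem Γ hz))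
        (hB t ht _ (mem_image_of_mem Γ hz'))))
      (fun t ht hts => (hS t ht hts _ (mem_image_of_mem Γ hz)).sub
        (hS t ht hts _ (mem_image_of_mem Γ hz'))) (hne z hz z' hz' hzz') (h4 z hz z' hz' hzz')
  · have h1 : rho z ≤ R ^ 2 := hz
    have h2 : rho (r • z) = r ^ 2 * rho z := by
      simp only [rho, Prod.smul_fst, Prod.smul_snd, smul_eq_mul]
      ring
    have h5 : 0 ≤ rho z := by
      unfold rho
      positivity
    have h6 : r ^ 2 ≤ 1 := pow_le_one₀ hr.1 hr.2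
    change rho (r • z) ≤ R ^ 2
    rw [h2]
    nlinarith
  · have h1 : ‖z‖ < R / 2 := mem_ball_zero_iff.mp hz
    have h2 := fst_sq_le z
    have h5 := snd_sq_le z
    have h6 : ‖z‖ ^ 2 ≤ (R / 2) ^ 2 := pow_le_pow_left₀ (norm_nonneg _) h1.le 2
    change z.1 ^ 2 + z.2 ^ 2 ≤ R ^ 2
    nlinarith
  · by_contra hzz
    exact sc_ne hε (hne z hz z' hz' hzz s hs) (by rw [← sc_sub]; exact sub_eq_zero.mpr h)
  · by_contra hzz
    exact ro_ne (n * s) (sc_ne hε (hne z hz z' hz' hzz 0 WIND.h0))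
      (by rw [← sc_sub, ← ro_sub]; exact sub_eq_zero.mpr h)
  · refine ⟨by rw [mul_zero, ro_zero], ?_⟩
    rw [ro_odd hn, hM.anti _ (mem_image_of_mem Γ hz), sc_neg]

end Pool.Agent.Lib.ISOC
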