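import Pool.Agent.Lib.ISOC.Blue

set_option autoImplicit false

open MeasureTheory Set Filter Topology Real
open Pool.Agent.Lib.MP_f62ea7_gt

namespace Pool.Agent.Lib.ISOC

namespace C39

/-- the Poisson kernel of the half plane (any sign of the height) -/
noncomputable def pk (δ a : ℝ) : ℝ := δ / (a ^ 2 + δ ^ 2)

theorem pk_eq {δ : ℝ} (hδ : δ ≠ 0) (a : ℝ) : pk δ a = δ⁻¹ * (1 + (a / δ) ^ 2)⁻¹ := by
  unfold pk
  have h : a ^ 2 + δ ^ 2 ≠ 0 := by positivity
  field_simp
  ring

theorem pk_zero (a : ℝ) : pk 0 a = 0 := by simp [pk]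

theorem pk_neg (δ a : ℝ) : pk (-δ) a = -pk δ a := by
  unfold pk
  rw [neg_sq, neg_div]

theorem pk_abs (δ a : ℝ) : |pk δ a| = pk |δ| a := by
  unfold pk
  rw [abs_div, sq_abs δ, abs_of_nonneg (by positivity : (0 : ℝ) ≤ a ^ 2 + δ ^ 2)]

theorem pk_int (δ c : ℝ) : Integrable fun x => pk δ (c - x) := by
  rcases eq_or_ne δ 0 with h | h
  · subst h
    simp only [pk_zero]
    exact integrable_zero _ _ _
  · have h1 : Integrable fun a : ℝ => pk δ a := by
      have h2 : Integrable fun a : ℝ => (1 + (a / δ) ^ 2)⁻¹ :=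
        integrable_inv_one_add_sq.comp_div h
      have h3 := h2.const_mul δ⁻¹
      refine h3.congr (Eventually.of_forall fun a => ?_)
      exact (pk_eq h a).symm
    exact h1.comp_sub_left c

theorem pk_total {δ : ℝ} (hδ : 0 < δ) (c : ℝ) : ∫ x, pk δ (c - x) = π := by
  rw [integral_sub_left_eq_self (fun a => pk δ a) volume c]
  have h : (fun a => pk δ a) = fun a : ℝ => δ⁻¹ * (1 + (a / δ) ^ 2)⁻¹ :=
    funext fun a => pk_eq hδ.ne' a
  rw [h, integral_const_mul, Measure.integral_comp_div (fun a : ℝ => (1 + a ^ 2)⁻¹) δ,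
    integral_univ_inv_one_add_sq, abs_of_pos hδ, smul_eq_mul]
  field_simp

theorem pk_abs_total (δ c : ℝ) : ∫ x, |pk δ (c - x)| ≤ π := by
  simp only [pk_abs]
  rcases eq_or_ne δ 0 with h | h
  · subst h
    simp only [abs_zero, pk_zero, integral_zero]
    exact pi_pos.le
  · exact (pk_total (abs_pos.mpr h) c).le

/-- away from the pole the kernel has small mass -/
theorem pk_far {A : Set ℝ} (hA : MeasurableSet A) {c : ℝ} (hc : Aᶜ ∈ 𝓝 c) :
    Tendsto (fun δ => ∫ x in A, pk δ (c - x)) (𝓝 0) (𝓝 0) := by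
  obtain ⟨r, hr, hb⟩ := Metric.mem_nhds_iff.mp hc
  have hI : Integrable fun x : ℝ => (1 + (c - x) ^ 2)⁻¹ :=
    integrable_inv_one_add_sq.comp_sub_left c
  have key : ∀ δ : ℝ, ‖∫ x in A, pk δ (c - x)‖ ≤
      |δ| * ((1 + 1 / r ^ 2) * ∫ x in A, (1 + (c - x) ^ 2)⁻¹) := by
    intro δ
    rw [← mul_assoc, ← integral_const_mul]
    refine norm_integral_le_of_norm_le ((hI.const_mul _).integrableOn) ?_
    refine (ae_restrict_iff' hA).mpr (Eventually.of_forall fun x hx => ?_)
    have h1 : r ≤ |c - x| := by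
      by_contra hlt
      have : x ∈ Metric.ball c r := by
        rw [Metric.mem_ball, Real.dist_eq, abs_sub_comm]
        exact not_le.mp hlt
      exact hb this hx
    have h2 : r ^ 2 ≤ (c - x) ^ 2 := by
      rw [← sq_abs (c - x)]
      exact pow_le_pow_left₀ hr.le h1 2
    have h3 : 0 < r ^ 2 := by positivity
    have h4 : 0 < (c - x) ^ 2 := lt_of_lt_of_le h3 h2
    rw [Real.norm_eq_abs, pk_abs]
    unfold pk
    rw [div_eq_mul_inv, mul_assoc]
    refine mul_le_mul_of_nonneg_left ?_ (abs_nonneg _)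
    have h5 : ((c - x) ^ 2 + |δ| ^ 2)⁻¹ ≤ ((c - x) ^ 2)⁻¹ :=
      inv_anti₀ h4 (by nlinarith [sq_nonneg |δ|])
    refine h5.trans ?_
    rw [← div_eq_mul_inv, le_div_iff₀ (by positivity), inv_mul_eq_div, div_le_iff₀ h4]
    have h6 : 1 ≤ 1 / r ^ 2 * (c - x) ^ 2 := by
      rw [div_mul_eq_mul_div, le_div_iff₀ h3]
      linarith
    nlinarith
  refine squeeze_zero_norm key ?_
  have h0 : Tendsto (fun δ : ℝ => |δ|) (𝓝 0) (𝓝 0) := by
    simpa using (continuous_abs.tendsto (0 : ℝ))
  have h7 := h0.mul_const ((1 + 1 / r ^ 2) * ∫ x in A, (1 + (c - x) ^ 2)⁻¹)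
  rwa [zero_mul] at h7

/-- near the pole the kernel has full mass -/
theorem pk_near {A : Set ℝ} (hA : MeasurableSet A) {c : ℝ} (hc : A ∈ 𝓝 c) :
    Tendsto (fun δ => ∫ x in A, pk δ (c - x)) (𝓝[>] 0) (𝓝 π) := by
  have h1 := (pk_far hA.compl (c := c) (by rwa [compl_compl])).mono_left
    (nhdsWithin_le_nhds (s := Ioi (0 : ℝ)))
  have h2 := (tendsto_const_nhds (x := π) (f := 𝓝[>] (0 : ℝ))).sub h1
  rw [sub_zero] at h2
  refine h2.congr' ?_
  filter_upwards [self_mem_nhdsWithin] with δ hδ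
  have h3 := integral_add_compl hA (pk_int δ c)
  rw [pk_total hδ c] at h3
  linarith

theorem k2_eq (ε : ℝ) (F : P) : k2 ε F = pk (ε * F.2) F.1 := by
  unfold k2 pk
  rw [mul_pow]

theorem k1_eq {ε : ℝ} (hε : 0 < ε) (F : P) : k1 ε F = pk (F.1 / ε) F.2 := by
  unfold k1 pk
  rcases eq_or_ne F.1 0 with h | h
  · simp [h]
  · have h1 : F.1 ^ 2 + ε ^ 2 * F.2 ^ 2 ≠ 0 := by positivity
    have h2 : F.2 ^ 2 + (F.1 / ε) ^ 2 ≠ 0 := by positivity
    rw [div_eq_div_iff h1 h2]
    field_simp
    ring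

theorem box_int (L : ℝ) : Integrable ((Icc (-L) L).indicator fun _ : ℝ => π) :=
  (integrable_indicator_iff measurableSet_Icc).mpr (integrableOn_const (by simp))

theorem box_val {L : ℝ} (hL : 0 ≤ L) :
    ∫ x, (Icc (-L) L).indicator (fun _ : ℝ => π) x = 2 * L * π := by
  rw [integral_indicator measurableSet_Icc, setIntegral_const, Real.volume_real_Icc_of_le (by linarith),
    smul_eq_mul]
  ring

/-- Fubini, second variable first -/
theorem fub1 {f : P → ℝ} (hf : Measurable f) {L : ℝ} (hL : 0 ≤ L)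
    (h1 : ∀ x, Integrable fun y => f (x, y))
    (h2 : ∀ x, ∫ y, |f (x, y)| ≤ (Icc (-L) L).indicator (fun _ : ℝ => π) x) :
    Integrable f ∧ ∫ q, |f q| ≤ 2 * L * π := by
  have hm : AEStronglyMeasurable f ((volume : Measure ℝ).prod volume) := hf.aestronglyMeasurable
  have hI : Integrable f ((volume : Measure ℝ).prod volume) := by
    refine (integrable_prod_iff hm).mpr ⟨Eventually.of_forall h1, ?_⟩
    refine (box_int L).mono' hm.norm.integral_prod_right' (Eventually.of_forall fun x => ?_)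
    rw [Real.norm_eq_abs, abs_of_nonneg (integral_nonneg fun y => norm_nonneg _)]
    exact h2 x
  refine ⟨hI, ?_⟩
  have h3 := integral_prod (fun q => |f q|) hI.abs
  rw [← box_val hL]
  change ∫ q, |f q| ∂((volume : Measure ℝ).prod volume) ≤ _
  rw [h3]
  exact integral_mono hI.abs.integral_prod_left (box_int L) h2

/-- Fubini, first variable first -/
theorem fub2 {f : P → ℝ} (hf : Measurable f) {L : ℝ} (hL : 0 ≤ L)
    (h1 : ∀ y, Integrable fun x => f (x, y))
    (h2 : ∀ y, ∫ x, |f (x, y)| ≤ (Icc (-L) L).indicator (fun _ : ℝ => π) y) :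
    Integrable f ∧ ∫ q, |f q| ≤ 2 * L * π := by
  have hm : AEStronglyMeasurable f ((volume : Measure ℝ).prod volume) := hf.aestronglyMeasurable
  have hI : Integrable f ((volume : Measure ℝ).prod volume) := by
    refine (integrable_prod_iff' hm).mpr ⟨Eventually.of_forall h1, ?_⟩
    refine (box_int L).mono' hm.norm.prod_swap.integral_prod_right'
      (Eventually.of_forall fun x => ?_)
    rw [Real.norm_eq_abs, abs_of_nonneg (integral_nonneg fun y => norm_nonneg _)]
    exact h2 x
  refine ⟨hI, ?_⟩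
  have h3 := integral_prod_symm (fun q => |f q|) hI.abs
  rw [← box_val hL]
  change ∫ q, |f q| ∂((volume : Measure ℝ).prod volume) ≤ _
  rw [h3]
  exact integral_mono hI.abs.integral_prod_right (box_int L) h2

theorem strip_meas (R : ℝ) {h : ℝ → ℝ} (hh : Continuous h) : MeasurableSet (Strip R h) := by
  have h1 : IsClosed {p : P | |p.1| ≤ R} := isClosed_le (by fun_prop) continuous_const
  have h2 : IsClosed {p : P | |p.2| ≤ h p.1} := isClosed_le (by fun_prop) (by fun_prop)
  exact (h1.inter h2).measurableSet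

theorem k1_meas (ε : ℝ) (p : P) : Measurable fun q : P => k1 ε (p - q) := by
  unfold k1
  fun_prop

theorem k2_meas (ε : ℝ) (p : P) : Measurable fun q : P => k2 ε (p - q) := by
  unfold k2
  fun_prop

/-- vertical slice -/
def sv (R : ℝ) (h : ℝ → ℝ) (x : ℝ) : Set ℝ := {y | (x, y) ∈ Strip R h}
/-- horizontal slice -/
def sh (R : ℝ) (h : ℝ → ℝ) (y : ℝ) : Set ℝ := {x | (x, y) ∈ Strip R h}

theorem sv_meas (R : ℝ) {h : ℝ → ℝ} (hh : Continuous h) (x : ℝ) : MeasurableSet (sv R h x) :=
  measurable_prodMk_left (strip_meas R hh)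

theorem sh_meas (R : ℝ) {h : ℝ → ℝ} (hh : Continuous h) (y : ℝ) : MeasurableSet (sh R h y) :=
  measurable_prodMk_right (strip_meas R hh)

theorem sl1 (R : ℝ) (h : ℝ → ℝ) {ε : ℝ} (hε : 0 < ε) (p : P) (x : ℝ) :
    (fun y => (Strip R h).indicator (fun q => k1 ε (p - q)) (x, y)) =
      (sv R h x).indicator fun y => pk ((p.1 - x) / ε) (p.2 - y) := by
  funext y
  by_cases hy : (x, y) ∈ Strip R h
  · rw [indicator_of_mem hy, indicator_of_mem (show y ∈ sv R h x from hy), k1_eq hε]
    rfl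
  · rw [indicator_of_notMem hy, indicator_of_notMem (show y ∉ sv R h x from hy)]

theorem sl2 (R : ℝ) (h : ℝ → ℝ) (ε : ℝ) (p : P) (y : ℝ) :
    (fun x => (Strip R h).indicator (fun q => k2 ε (p - q)) (x, y)) =
      (sh R h y).indicator fun x => pk (ε * (p.2 - y)) (p.1 - x) := by
  funext x
  by_cases hy : (x, y) ∈ Strip R h
  · rw [indicator_of_mem hy, indicator_of_mem (show x ∈ sh R h y from hy), k2_eq]
    rfl
  · rw [indicator_of_notMem hy, indicator_of_notMem (show x ∉ sh R h y from hy)]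

theorem ind_le {A : Set ℝ} (hA : MeasurableSet A) (δ c L t : ℝ)
    (h : A.Nonempty → t ∈ Icc (-L) L) :
    ∫ x, |A.indicator (fun x => pk δ (c - x)) x| ≤ (Icc (-L) L).indicator (fun _ : ℝ => π) t := by
  rcases A.eq_empty_or_nonempty with h0 | h0
  · subst h0
    simp only [indicator_empty, abs_zero, integral_zero]
    exact indicator_nonneg (fun _ _ => pi_pos.le) t
  · rw [indicator_of_mem (h h0)]
    refine le_trans (integral_mono ((pk_int δ c).indicator hA).abs (pk_int δ c).abs fun x => ?_)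
      (pk_abs_total δ c)
    exact norm_indicator_le_norm_self (fun x => pk δ (c - x)) x

theorem b1 {R : ℝ} {h : ℝ → ℝ} (hh : Continuous h) {ε : ℝ} (hε : 0 < ε) (p : P) (x : ℝ) :
    ∫ y, |(Strip R h).indicator (fun q => k1 ε (p - q)) (x, y)| ≤
      (Icc (-R) R).indicator (fun _ : ℝ => π) x := by
  have h1 := ind_le (sv_meas R hh x) ((p.1 - x) / ε) p.2 R x fun ⟨_, hy⟩ => abs_le.mp hy.1
  rw [← sl1 R h hε p x] at h1
  exact h1

theorem b2 {R H : ℝ} {h : ℝ → ℝ} (hh : Continuous h) (hH : ∀ x, |x| ≤ R → h x ≤ H) (ε : ℝ)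
    (p : P) (y : ℝ) :
    ∫ x, |(Strip R h).indicator (fun q => k2 ε (p - q)) (x, y)| ≤
      (Icc (-H) H).indicator (fun _ : ℝ => π) y := by
  have h1 := ind_le (sh_meas R hh y) (ε * (p.2 - y)) p.1 H y
    fun ⟨x, hx⟩ => abs_le.mp (hx.2.trans (hH x hx.1))
  rw [← sl2 R h ε p y] at h1
  exact h1

theorem i1 {R : ℝ} (hR : 0 ≤ R) {h : ℝ → ℝ} (hh : Continuous h) {ε : ℝ} (hε : 0 < ε) (p : P) :
    Integrable ((Strip R h).indicator fun q => k1 ε (p - q)) ∧
      ∫ q, |(Strip R h).indicator (fun q => k1 ε (p - q)) q| ≤ 2 * R * π := by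
  refine fub1 ((k1_meas ε p).indicator (strip_meas R hh)) hR (fun x => ?_) (b1 hh hε p)
  rw [sl1 R h hε p x]
  exact (pk_int _ _).indicator (sv_meas R hh x)

theorem i2 {R H : ℝ} (hH0 : 0 ≤ H) {h : ℝ → ℝ} (hh : Continuous h)
    (hH : ∀ x, |x| ≤ R → h x ≤ H) (ε : ℝ) (p : P) :
    Integrable ((Strip R h).indicator fun q => k2 ε (p - q)) ∧
      ∫ q, |(Strip R h).indicator (fun q => k2 ε (p - q)) q| ≤ 2 * H * π := by
  refine fub2 ((k2_meas ε p).indicator (strip_meas R hh)) hH0 (fun y => ?_) (b2 hh hH ε p)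
  rw [sl2 R h ε p y]
  exact (pk_int _ _).indicator (sh_meas R hh y)

theorem abs_ind (S : Set P) (hS : MeasurableSet S) (f : P → ℝ) :
    ∫ q in S, |f q| = ∫ q, |S.indicator f q| := by
  rw [← integral_indicator hS]
  refine integral_congr_ae (Eventually.of_forall fun q => ?_)
  by_cases hq : q ∈ S
  · simp only [indicator_of_mem hq]
  · simp only [indicator_of_notMem hq, abs_zero]

theorem lim1 {R H : ℝ} (hR : 0 ≤ R) {h : ℝ → ℝ} (hh : Continuous h)
    (hH : ∀ x, |x| ≤ R → h x ≤ H) (p : P) :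
    Tendsto (fun ε => ∫ q in Strip R h, k1 ε (p - q)) (𝓝[>] 0) (𝓝 0) := by
  have key : Tendsto (fun ε => ∫ x, ∫ y, (Strip R h).indicator (fun q => k1 ε (p - q)) (x, y))
      (𝓝[>] 0) (𝓝 (∫ _ : ℝ, (0 : ℝ))) := by
    refine tendsto_integral_filter_of_dominated_convergence
      ((Icc (-R) R).indicator fun _ : ℝ => π) ?_ ?_ (box_int R) (Eventually.of_forall fun x => ?_)
    · refine Eventually.of_forall fun ε => ?_
      exact ((k1_meas ε p).indicator (strip_meas R hh)).stronglyMeasurable.integral_prod_right'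
        |>.aestronglyMeasurable
    · filter_upwards [self_mem_nhdsWithin] with ε hε
      refine Eventually.of_forall fun x => ?_
      exact (norm_integral_le_integral_norm _).trans (b1 hh hε p x)
    · have hb : ∀ᶠ ε in 𝓝[>] (0 : ℝ),
          ‖∫ y, (Strip R h).indicator (fun q => k1 ε (p - q)) (x, y)‖ ≤
            ε * (|p.1 - x|⁻¹ / π * ∫ y, (Icc (-H) H).indicator (fun _ : ℝ => π) y) := by
        filter_upwards [self_mem_nhdsWithin] with ε hε
        have hε' : 0 < ε := hε
        rw [← mul_assoc, ← integral_const_mul]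
        refine norm_integral_le_of_norm_le ((box_int H).const_mul _)
          (Eventually.of_forall fun y => ?_)
        by_cases hy : (x, y) ∈ Strip R h
        · have hy' : y ∈ Icc (-H) H := abs_le.mp (hy.2.trans (hH x hy.1))
          rw [indicator_of_mem hy, indicator_of_mem hy', mul_assoc, div_mul_cancel₀ _ pi_pos.ne',
            Real.norm_eq_abs]
          unfold k1
          change |ε * (p.1 - x) / ((p.1 - x) ^ 2 + ε ^ 2 * (p.2 - y) ^ 2)| ≤ _
          rcases eq_or_ne (p.1 - x) 0 with h0 | h0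
          · simp [h0]
          · have h1 : 0 < |p.1 - x| := abs_pos.mpr h0
            have h2 : 0 < (p.1 - x) ^ 2 + ε ^ 2 * (p.2 - y) ^ 2 := by positivity
            rw [abs_div, abs_mul, abs_of_pos hε', abs_of_pos h2, mul_div_assoc]
            refine mul_le_mul_of_nonneg_left ?_ hε'.le
            rw [div_le_iff₀ h2, inv_mul_eq_div, le_div_iff₀ h1, abs_mul_abs_self]
            nlinarith [sq_nonneg (ε * (p.2 - y))]
        · rw [indicator_of_notMem hy, norm_zero]
          exact mul_nonneg (by positivity) (indicator_nonneg (fun _ _ => pi_pos.le) y)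
      refine squeeze_zero_norm' hb ?_
      have h0 : Tendsto (fun ε : ℝ => ε) (𝓝[>] 0) (𝓝 0) := tendsto_id.mono_left nhdsWithin_le_nhds
      simpa using h0.mul_const (|p.1 - x|⁻¹ / π * ∫ y, (Icc (-H) H).indicator (fun _ : ℝ => π) y)
  rw [integral_zero] at key
  refine key.congr' ?_
  filter_upwards [self_mem_nhdsWithin] with ε hε
  rw [← integral_indicator (strip_meas R hh)]
  exact (integral_prod _ (i1 hR hh hε p).1).symm

theorem lim2 {R H : ℝ} (hH0 : 0 ≤ H) {h : ℝ → ℝ} (hh : Continuous h)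
    (hH : ∀ x, |x| ≤ R → h x ≤ H) (p : P) (h1 : |p.1| < R) (h2 : |p.2| ≤ h p.1) :
    Tendsto (fun ε => ∫ q in Strip R h, k2 ε (p - q)) (𝓝[>] 0) (𝓝 (2 * π * p.2)) := by
  obtain ⟨h2a, h2b⟩ := abs_le.mp h2
  have key : Tendsto (fun ε => ∫ y, ∫ x, (Strip R h).indicator (fun q => k2 ε (p - q)) (x, y))
      (𝓝[>] 0) (𝓝 (∫ y : ℝ, ((Ioo (-h p.1) p.2).indicator (fun _ : ℝ => π) y -
        (Ioo p.2 (h p.1)).indicator (fun _ : ℝ => π) y))) := by
    refine tendsto_integral_filter_of_dominated_convergence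
      ((Icc (-H) H).indicator fun _ : ℝ => π) ?_ ?_ (box_int H) ?_
    · refine Eventually.of_forall fun ε => ?_
      exact ((k2_meas ε p).indicator (strip_meas R hh)).stronglyMeasurable.integral_prod_left'
        |>.aestronglyMeasurable
    · refine Eventually.of_forall fun ε => Eventually.of_forall fun y => ?_
      exact (norm_integral_le_integral_norm _).trans (b2 hh hH ε p y)
    · filter_upwards [Measure.ae_ne volume (-h p.1), Measure.ae_ne volume p.2,
        Measure.ae_ne volume (h p.1)] with y y1 y2 y3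
      simp only [sl2, integral_indicator (sh_meas R hh y)]
      by_cases hy : |y| < h p.1
      · have hn : sh R h y ∈ 𝓝 p.1 := by
          have e1 : ∀ᶠ x in 𝓝 p.1, |x| < R := continuous_abs.continuousAt.eventually_lt_const h1
          have e2 : ∀ᶠ x in 𝓝 p.1, |y| < h x := hh.continuousAt.eventually_const_lt hy
          filter_upwards [e1, e2] with x x1 x2
          exact ⟨x1.le, x2.le⟩
        obtain ⟨ya, yb⟩ := abs_lt.mp hy
        have hc : ∀ c : ℝ, 0 < c → Tendsto (fun ε : ℝ => ε * c) (𝓝[>] 0) (𝓝[>] 0) := by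
          intro c hc
          refine tendsto_nhdsWithin_iff.mpr ⟨?_, ?_⟩
          · have h0 : Tendsto (fun ε : ℝ => ε) (𝓝[>] 0) (𝓝 0) :=
              tendsto_id.mono_left nhdsWithin_le_nhds
            simpa using h0.mul_const c
          · filter_upwards [self_mem_nhdsWithin] with ε hε
            exact mul_pos hε hc
        rcases lt_or_gt_of_ne y2 with hlt | hgt
        · rw [indicator_of_mem (show y ∈ Ioo (-h p.1) p.2 from ⟨ya, hlt⟩),
            indicator_of_notMem (fun hm : y ∈ Ioo p.2 (h p.1) => lt_asymm hlt hm.1), sub_zero]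
          exact (pk_near (sh_meas R hh y) hn).comp (hc _ (sub_pos.mpr hlt))
        · rw [indicator_of_notMem (fun hm : y ∈ Ioo (-h p.1) p.2 => lt_asymm hgt hm.2),
            indicator_of_mem (show y ∈ Ioo p.2 (h p.1) from ⟨hgt, yb⟩), zero_sub]
          have h3 := ((pk_near (sh_meas R hh y) hn).comp (hc _ (sub_pos.mpr hgt))).neg
          refine h3.congr fun ε => ?_
          simp only [Function.comp]
          rw [← integral_neg]
          refine integral_congr_ae (Eventually.of_forall fun x => ?_)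
          simp only
          rw [← pk_neg]
          have : -(ε * (y - p.2)) = ε * (p.2 - y) := by ring
          rw [this]
      · have hy' : h p.1 < |y| := by
          refine lt_of_le_of_ne (not_lt.mp hy) fun he => ?_
          rcases abs_cases y with ⟨ha, _⟩ | ⟨ha, _⟩
          · exact y3 (by linarith)
          · exact y1 (by linarith)
        have hn : (sh R h y)ᶜ ∈ 𝓝 p.1 := by
          have e2 : ∀ᶠ x in 𝓝 p.1, h x < |y| := hh.continuousAt.eventually_lt_const hy'
          filter_upwards [e2] with x x2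
          exact fun hx => absurd hx.2 (not_le.mpr x2)
        rw [indicator_of_notMem (fun hm : y ∈ Ioo (-h p.1) p.2 =>
            hy (abs_lt.mpr ⟨hm.1, lt_of_lt_of_le hm.2 h2b⟩)),
          indicator_of_notMem (fun hm : y ∈ Ioo p.2 (h p.1) =>
            hy (abs_lt.mpr ⟨lt_of_le_of_lt h2a hm.1, hm.2⟩)), sub_zero]
        have h0 : Tendsto (fun ε : ℝ => ε) (𝓝[>] 0) (𝓝 0) :=
          tendsto_id.mono_left nhdsWithin_le_nhds
        have h4 : Tendsto (fun ε : ℝ => ε * (p.2 - y)) (𝓝[>] 0) (𝓝 0) := by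
          simpa using h0.mul_const (p.2 - y)
        exact (pk_far (sh_meas R hh y) hn).comp h4
  have hio : ∀ a b : ℝ, Integrable ((Ioo a b).indicator fun _ : ℝ => π) := fun a b =>
    (integrable_indicator_iff measurableSet_Ioo).mpr (integrableOn_const (by simp))
  have hv : ∫ y : ℝ, ((Ioo (-h p.1) p.2).indicator (fun _ : ℝ => π) y -
        (Ioo p.2 (h p.1)).indicator (fun _ : ℝ => π) y) = 2 * π * p.2 := by
    rw [integral_sub (hio _ _) (hio _ _), integral_indicator measurableSet_Ioo,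
      integral_indicator measurableSet_Ioo, setIntegral_const, setIntegral_const,
      Real.volume_real_Ioo_of_le h2a, Real.volume_real_Ioo_of_le h2b, smul_eq_mul, smul_eq_mul]
    ring
  rw [hv] at key
  refine key.congr fun ε => ?_
  rw [← integral_indicator (strip_meas R hh)]
  exact (integral_prod_symm _ (i2 hH0 hh hH ε p).1).symm

end C39

open C39 in
theorem st_CAL2 : St_CAL2 := by
  intro R h hR hh h0
  obtain ⟨x0, hx0, hmax⟩ := (isCompact_Icc (a := -R) (b := R)).exists_isMaxOn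
    ⟨0, by constructor <;> linarith⟩ hh.continuousOn
  have hH : ∀ x, |x| ≤ R → h x ≤ h x0 := fun x hx => hmax (abs_le.mp hx)
  refine ⟨⟨max (2 * R * π) (2 * h x0 * π), fun ε hε p => ?_⟩, lim1 hR.le hh hH,
    lim2 (h0 x0) hh hH⟩
  have hS := strip_meas R hh
  obtain ⟨a1, a2⟩ := i1 hR.le hh hε p
  obtain ⟨c1, c2⟩ := i2 (h0 x0) hh hH ε p
  refine ⟨(integrable_indicator_iff hS).mp a1, (integrable_indicator_iff hS).mp c1, ?_, ?_⟩
  · rw [abs_ind _ hS]
    exact a2.trans (le_max_left _ _)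
  · rw [abs_ind _ hS]
    exact c2.trans (le_max_right _ _)

end Pool.Agent.Lib.ISOC
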