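import Pool.Agent.Lib.ISOC.Blue

set_option autoImplicit false

open MeasureTheory Set Filter Topology Real
open scoped ENNReal
open Pool.Agent.Lib.MP_f62ea7_gt

namespace Pool.Agent.Lib.ISOC

namespace J94

theorem int_mp {α β : Type} [MeasurableSpace α] [MeasurableSpace β] {μ : Measure α}
    {ν : Measure β} {f : α → β} (h : MeasurePreserving f μ ν) {g : β → ℝ}
    (hg : AEStronglyMeasurable g ν) : ∫ x, g (f x) ∂μ = ∫ y, g y ∂ν := by
  rw [← h.map_eq, integral_map h.measurable.aemeasurable (by rwa [h.map_eq])]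

theorem intg {M N : Set P} {w w' : ℝ → P → P} (hM : IsCompact M) (h : Mot M N w w') {k : P → ℝ}
    (hk : Measurable k) {B : ℝ}
    (hB : ∀ p : P, IntegrableOn (fun q => k (p - q)) N ∧ ∫ q in N, |k (p - q)| ≤ B)
    {g : ℝ → P → ℝ} (hg : Measurable fun q : ℝ × P => g q.1 q.2) {D : ℝ}
    (hD : ∀ t ∈ Icc 0 π, ∀ a ∈ M, |g t a| ≤ D) :
    Integrable (fun x : ℝ × P × P => k (w x.1 x.2.1 - w x.1 x.2.2) * g x.1 x.2.1)
      ((volume.restrict (Ioc 0 π)).prod ((volume.restrict M).prod (volume.restrict M))) := by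
  have hw := h.cont.measurable
  have m1 : Measurable fun x : ℝ × P × P => k (w x.1 x.2.1 - w x.1 x.2.2) * g x.1 x.2.1 :=
    (hk.comp ((hw.comp (measurable_fst.prodMk measurable_snd.fst)).sub
      (hw.comp (measurable_fst.prodMk measurable_snd.snd)))).mul
      (hg.comp (measurable_fst.prodMk measurable_snd.fst))
  refine ⟨m1.aestronglyMeasurable, ?_⟩
  rw [HasFiniteIntegral, lintegral_prod _ m1.enorm.aemeasurable]
  have key : ∀ t ∈ Ioc 0 π, ∫⁻ y : P × P, ‖k (w t y.1 - w t y.2) * g t y.1‖ₑ
      ∂(volume.restrict M).prod (volume.restrict M) ≤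
      ENNReal.ofReal B * ENNReal.ofReal D * volume M := fun t ht => by
    have ht' := Ioc_subset_Icc_self ht
    have m3 : Measurable fun y : P × P => ‖k (w t y.1 - w t y.2) * g t y.1‖ₑ :=
      m1.enorm.comp (measurable_prodMk_left (x := t))
    rw [lintegral_prod _ m3.aemeasurable, ← setLIntegral_const]
    refine setLIntegral_mono' hM.measurableSet fun a ha => ?_
    have m2 : Measurable fun q => ‖k (w t a - q)‖ₑ := (hk.comp (measurable_const.sub measurable_id)).enorm
    simp only [enorm_mul]
    rw [lintegral_mul_const' _ _ enorm_ne_top, (h.mp t ht').lintegral_comp m2,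
      ← ofReal_integral_norm_eq_lintegral_enorm (hB _).1, ← ofReal_norm]
    exact mul_le_mul' (ENNReal.ofReal_le_ofReal (hB _).2) (ENNReal.ofReal_le_ofReal (hD t ht' a ha))
  refine (setLIntegral_mono' measurableSet_Ioc key).trans_lt ?_
  rw [setLIntegral_const]
  exact ENNReal.mul_lt_top (ENNReal.mul_lt_top (ENNReal.mul_lt_top ENNReal.ofReal_lt_top
    ENNReal.ofReal_lt_top) hM.measure_lt_top) measure_Ioc_lt_top

end J94

open J94 in
theorem st_CAL3 : St_CAL3 := by
  intro M N w w' ε B c hM hN h hB hc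
  obtain ⟨D, hD⟩ := h.bdd
  have : IsFiniteMeasure (volume.restrict M) := isFiniteMeasure_restrict.2 hM.measure_lt_top.ne
  have m1 : Measurable (k1 ε) := by unfold k1; fun_prop
  have m2 : Measurable (k2 ε) := by unfold k2; fun_prop
  have i1 : Integrable (fun x : ℝ × P × P => kern ε (w x.1 x.2.1 - w x.1 x.2.2) (w' x.1 x.2.1))
      ((volume.restrict (Ioc 0 π)).prod ((volume.restrict M).prod (volume.restrict M))) :=
    (intg hM h m1 (fun p => ⟨(hB p).1, (hB p).2.2.1⟩) h.meas.snd
      fun t ht a ha => (norm_snd_le _).trans (hD t ht a ha)).sub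
    (intg hM h m2 (fun p => ⟨(hB p).2.1, (hB p).2.2.2⟩) h.meas.fst
      fun t ht a ha => (norm_fst_le _).trans (hD t ht a ha))
  have sw : MeasurePreserving (Prod.map id Prod.swap : ℝ × P × P → ℝ × P × P)
      ((volume.restrict (Ioc 0 π)).prod ((volume.restrict M).prod (volume.restrict M)))
      ((volume.restrict (Ioc 0 π)).prod ((volume.restrict M).prod (volume.restrict M))) :=
    (MeasurePreserving.id _).prod Measure.measurePreserving_swap
  have i2 := sw.integrable_comp_of_integrable i1
  have e2 := int_mp sw i1.aestronglyMeasurable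
  have e0 : ∀ x : ℝ × P × P, kern ε (w x.1 x.2.1 - w x.1 x.2.2) (w' x.1 x.2.1 - w' x.1 x.2.2) =
      kern ε (w x.1 x.2.1 - w x.1 x.2.2) (w' x.1 x.2.1) +
        kern ε (w x.1 x.2.2 - w x.1 x.2.1) (w' x.1 x.2.2) := fun x => by
    rw [← neg_sub (w x.1 x.2.1) (w x.1 x.2.2)]
    simp only [kern, k1, k2, Prod.fst_neg, Prod.snd_neg, neg_sq]
    rw [Prod.fst_sub (w' x.1 x.2.1), Prod.snd_sub (w' x.1 x.2.1)]
    ring
  have i3 : Integrable (fun x : ℝ × P × P =>
      kern ε (w x.1 x.2.1 - w x.1 x.2.2) (w' x.1 x.2.1 - w' x.1 x.2.2))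
      ((volume.restrict (Ioc 0 π)).prod ((volume.restrict M).prod (volume.restrict M))) := by
    simp only [e0]
    exact i1.add i2
  have e3 := integral_prod_symm _ i3
  have e4 : ∫ y : P × P, (∫ t in Ioc 0 π, kern ε (w t y.1 - w t y.2) (w' t y.1 - w' t y.2))
      ∂(volume.restrict M).prod (volume.restrict M) = c * volume.real M ^ 2 := by
    rw [integral_prod _ i3.integral_prod_right,
      setIntegral_congr_fun hM.measurableSet (g := fun _ => c * volume.real M) fun a ha => ?_]
    · rw [setIntegral_const, smul_eq_mul]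
      ring
    · beta_reduce
      rw [integral_congr_ae (g := fun _ => c) ?_, setIntegral_const, smul_eq_mul, mul_comm]
      filter_upwards [ae_restrict_mem hM.measurableSet,
        ae_restrict_of_ae (Measure.ae_ne volume a)] with b hb hba
      rw [← intervalIntegral.integral_of_le pi_pos.le]
      exact hc a ha b hb hba.symm
  have e5 : ∫ x : ℝ × P × P, kern ε (w x.1 x.2.1 - w x.1 x.2.2) (w' x.1 x.2.1)
      ∂((volume.restrict (Ioc 0 π)).prod ((volume.restrict M).prod (volume.restrict M))) =
      dbl M fun t a => (∫ q in N, k1 ε (w t a - q)) * (w' t a).2 -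
        (∫ q in N, k2 ε (w t a - q)) * (w' t a).1 := by
    rw [integral_prod _ i1, dbl, intervalIntegral.integral_of_le pi_pos.le]
    refine integral_congr_ae ?_
    filter_upwards [i1.prod_right_ae, ae_restrict_mem measurableSet_Ioc] with t i4 ht
    have mp := h.mp t (Ioc_subset_Icc_self ht)
    rw [integral_prod _ i4]
    refine integral_congr_ae (Eventually.of_forall fun a => ?_)
    simp only [kern]
    have j1 : Integrable (fun y => k1 ε (w t a - w t y)) (volume.restrict M) :=
      mp.integrable_comp_of_integrable (hB (w t a)).1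
    have j2 : Integrable (fun y => k2 ε (w t a - w t y)) (volume.restrict M) :=
      mp.integrable_comp_of_integrable (hB (w t a)).2.1
    rw [integral_sub (j1.mul_const _) (j2.mul_const _), integral_mul_const,
      integral_mul_const, int_mp mp (hB (w t a)).1.aestronglyMeasurable,
      int_mp mp (hB (w t a)).2.1.aestronglyMeasurable]
  rw [← e4, ← e3, ← e5, two_mul]
  simp only [e0]
  exact (integral_add i1 i2).trans (congrArg _ e2)

end Pool.Agent.Lib.ISOC
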