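import Pool.Agent.Lib.ISOC.MB

/-! The closed form with components `om1`, `om2` has a primitive that vanishes to order four. -/

set_option autoImplicit false

open MeasureTheory Set Filter Topology Real
open scoped ContDiff ENNReal
open Pool.Agent.Lib.MP_f62ea7_gt

namespace Pool.Agent.Lib.ISOC

namespace C53

/-- the lemma of Poincare in the plane -/
lemma prim {f g : P → ℝ} (hf : ContDiff ℝ ∞ f) (hg : ContDiff ℝ ∞ g) (h : ∀ z, du f z = dx g z) :
    ∃ χ : P → ℝ, ContDiff ℝ ∞ χ ∧ χ 0 = 0 ∧ ∀ z, dx χ z = f z ∧ du χ z = g z := by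
  have h1 : ContDiff ℝ ∞ fun w : P => f (w.2, 0) := hf.comp (contDiff_snd.prodMk contDiff_const)
  have h2 := contDiff_iU h1
  have h3 : ContDiff ℝ ∞ fun z : P => iU (fun w : P => f (w.2, 0)) (0, z.1) :=
    h2.comp (contDiff_const.prodMk contDiff_fst)
  have h4 : ContDiff ℝ ∞ fun z : P => f (z.1, 0) := hf.comp (contDiff_fst.prodMk contDiff_const)
  refine ⟨fun z => iU (fun w : P => f (w.2, 0)) (0, z.1) + iU g z, h3.add (contDiff_iU hg), ?_,
    fun z => ⟨?_, ?_⟩⟩
  · simp [iU]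
  · have e : f z - f (z.1, 0) = iU (dx g) z := by
      refine eq_iU (F := fun z => f z - f (z.1, 0)) (hf.sub h4) (contDiff_dx hg) (fun w => ?_)
        (fun x => sub_self _) z
      rw [du_sub (dAt hf w) (dAt h4 w), h, du_comp (g1 := fun z => z.1) (g2 := fun _ => 0)
        (dAt hf _) differentiableAt_fst (differentiableAt_const _)]
      simp
    rw [dx_add (dAt h3 z) (dAt (contDiff_iU hg) z), dx_iU hg, ← e,
      dx_comp (g1 := fun _ => 0) (g2 := fun z => z.1) (dAt h2 _) (differentiableAt_const _)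
        differentiableAt_fst, du_iU h1]
    simp
  · rw [du_add (dAt h3 z) (dAt (contDiff_iU hg) z), du_iU hg,
      du_comp (g1 := fun _ => 0) (g2 := fun z => z.1) (dAt h2 _) (differentiableAt_const _)
        differentiableAt_fst]
    simp

variable {b : P → ℝ}

lemma o1 (h : Con b) (v : Vel b) : O 3 (om1 b) :=
  ((((v.U_o.mono (by norm_num)).add (v.eps_flat 3)).add (v.V_O.mul_sm (O_Yx h.o5).sm)).sub
    ((h.o5.dx.mono (by norm_num) : O 2 (dx b)).snd_mul)).congr fun z => by
      unfold om1 AA; ring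

lemma o2 (h : Con b) (v : Vel b) : O 3 (om2 b) :=
  (v.V_O.mul_sm (sm_JJ h.sm)).sub ((h.o5.du.mono (by norm_num) : O 2 (du b)).snd_mul)

lemma closed (h : Con b) (v : Vel b) (z : P) : du (om1 b) z = dx (om2 b) z := by
  have hb := h.sm
  have hA := sm_AA hb
  have hU := h.toCon0.sm_UU
  have hV := h.toCon0.sm_VV
  have hY := contDiff_dx (sm_YY hb)
  have hE : ContDiff ℝ ∞ (EE b) :=
    h.flat.sm.neg.div (hA.pow 2) fun w => pow_ne_zero 2 (h.A_ne w)
  have he := v.eps_flat.sm
  have hA0 := h.A_ne z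
  have e1 : du (UU b) z = _ := du_div (dAt (sm_nn hb) z) (dAt hA z) hA0
  have e2 : du (VV b) z = _ := du_div (dAt (sm_mm hb) z) (dAt hA z) hA0
  have e3 : dx (VV b) z = _ := dx_div (dAt (sm_mm hb) z) (dAt hA z) hA0
  have e4 : du (eps b) z = EE b z := du_iU hE z
  have e5 : du (dx (YY b)) z = dx (JJ b) z := by rw [du_dx (sm_YY hb), funext (du_YY hb)]
  have e6 : du (AA b) z = dx (du b) z := by
    rw [← du_dx hb]
    unfold AA
    rw [du_add (differentiableAt_const _) (dAt (contDiff_dx hb) z), du_const, zero_add]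
  unfold om1 om2
  rw [du_sub (dAt ((hU.add he).add (hV.mul hY)) z) (dAt (contDiff_snd.mul hA) z),
    du_add (dAt (hU.add he) z) (dAt (hV.mul hY) z), du_add (dAt hU z) (dAt he z),
    du_mul (dAt hV z) (dAt hY z), du_mul differentiableAt_snd (dAt hA z),
    dx_sub (dAt (hV.mul (sm_JJ hb)) z) (dAt (contDiff_snd.mul (contDiff_du hb)) z),
    dx_mul (dAt hV z) (dAt (sm_JJ hb) z), dx_mul differentiableAt_snd (dAt (contDiff_du hb) z),
    e1, e2, e3, e4, e5, ← e6, du_snd, dx_snd]
  unfold EE EP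
  field_simp
  ring

end C53

theorem st_CHI : St_CHI := by
  intro b h v
  obtain ⟨χ, h1, h2, h3⟩ := C53.prim (C53.o1 h v).sm (C53.o2 h v).sm (C53.closed h v)
  refine ⟨χ, O.of_deriv h1 h2 ?_ ?_, h3⟩
  · exact (C53.o1 h v).congr fun z => (h3 z).1
  · exact (C53.o2 h v).congr fun z => (h3 z).2

end Pool.Agent.Lib.ISOC
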