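import Pool.Agent.Lib.ISOC.OC

/-! The formal solution and its realisation by a smooth function. -/

set_option autoImplicit false

open MeasureTheory Set Filter Topology Real
open scoped ContDiff ENNReal
open Pool.Agent.Lib.MP_f62ea7_gt

namespace Pool.Agent.Lib.ISOC

namespace I97

lemma LL_ord {m : ℕ} {f : P → ℝ} (h : O (m + 2) f) : O (m + 1) (LL f) :=
  (h.dx.du.snd_mul.sub h.du.du.fst_mul).add (h.dx.const_mul 2)

/-- one more homogeneous term improves the order of the defect by two -/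
lemma next (hS : St_STEP) (hL : St_LINV) (n : ℕ) (b : P → ℝ) (h5 : O 5 b)
    (ho : ∀ z, b (-z) = -b z) (hE : O (2 * n + 4) (EP b)) :
    ∃ f, Hom (2 * n + 5) f ∧ O (2 * (n + 1) + 4) (EP fun z => b z + f z) := by
  obtain ⟨H, a1, a2⟩ := hE.lead
  obtain ⟨f, b1, b2⟩ := hL _ _ a1
  have f5 : O 5 f := b1.ord.mono (by omega)
  have s5 := h5.add f5
  have e : (fun z => (b z + f z) - b z) = f := funext fun z => by ring
  have h1 := hS.2.2 b (fun z => b z + f z) (2 * n + 3) h5 s5 (by rw [e]; exact b1.ord)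
  rw [e] at h1
  have h2 : O (2 * n + 5) (EP fun z => b z + f z) :=
    ((h1.mono (by omega)).add a2).congr fun z => by rw [b2]; ring
  refine ⟨f, b1, h2.of_even ⟨n + 2, by ring⟩ (hS.2.1 _ s5.sm fun z => ?_)⟩
  rw [ho, b1.neg_of_odd ⟨n + 2, by ring⟩]; ring

/-- truncated formal solutions -/
def Tr (n : ℕ) (b : P → ℝ) : Prop := O 5 b ∧ (∀ z, b (-z) = -b z) ∧ O (2 * n + 4) (EP b)

lemma form (hS : St_STEP) (hL : St_LINV) : ∃ f : ℕ → P → ℝ, (∀ j, Hom (2 * j + 5) (f j)) ∧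
    ∀ n, Tr n fun z => ∑ j ∈ Finset.range n, f j z := by
  have st : ∀ (n : ℕ) (b : {b // Tr n b}), ∃ f, Hom (2 * n + 5) f ∧ Tr (n + 1) fun z => b.1 z + f z := by
    rintro n ⟨b, h5, ho, hE⟩
    obtain ⟨f, h1, h2⟩ := next hS hL n b h5 ho hE
    refine ⟨f, h1, h5.add (h1.ord.mono (by omega)), fun z => ?_, h2⟩
    simp only [ho, h1.neg_of_odd ⟨n + 2, by ring⟩]; ring
  choose g g1 g2 using st
  let s : ∀ n, {b // Tr n b} := fun n => Nat.rec ⟨fun _ => 0, O.zero 5, fun _ => by simp, hS.1⟩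
    (fun n b => ⟨fun z => b.1 z + g n b z, g2 n b⟩) n
  refine ⟨fun n => g n (s n), fun n => g1 n _, fun n => ?_⟩
  have e : ∀ n, (fun z => ∑ j ∈ Finset.range n, g j (s j) z) = (s n).1 := by
    intro n
    induction n with
    | zero => rfl
    | succ n ih =>
      funext z
      rw [Finset.sum_range_succ, congrFun ih z]
  rw [e]
  exact (s n).2

theorem con (hS : St_STEP) (hL : St_LINV) (hB : St_BOREL) : St_CON := by
  obtain ⟨f, f1, f2⟩ := form hS hL
  obtain ⟨b, -, b1, b2, b3⟩ := hB f f1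
  have h5 : O 5 b := (b3 0).congr fun z => by simp
  refine ⟨b, ⟨h5, b1, b2⟩, fun m => ?_⟩
  obtain ⟨t1, -, t3⟩ := f2 m
  have h1 := hS.2.2 _ b (2 * m + 3) t1 h5 (b3 m)
  have h2 := LL_ord (m := 2 * m + 3) (b3 m)
  have h3 : O (2 * m + 4) (EP b) :=
    (((h1.mono (by omega)).add t3).sub h2).congr fun z => by ring
  exact h3.mono (by omega)

end I97

end Pool.Agent.Lib.ISOC
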