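import Pool.Agent.Lib.ISOC.MB

set_option autoImplicit false

open MeasureTheory Set Filter Topology Real
open scoped ContDiff ENNReal
open Pool.Agent.Lib.MP_f62ea7_gt

namespace Pool.Agent.Lib.ISOC

namespace C34

lemma intOn {k : P → ℝ} (hk : Continuous k) (R : ℝ) : IntegrableOn k (Disc R) :=
  hk.continuousOn.integrableOn_compact (isCompact_Disc R)

lemma c1 : Continuous fun z : P => ff z * z.1 ^ 2 := continuous_ff.mul (continuous_fst.pow 2)
lemma c2 : Continuous fun z : P => ff z * z.2 ^ 2 := continuous_ff.mul (continuous_snd.pow 2)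

/-- the derivative along the rotation integrates to zero against the radial density -/
lemma rot_null {c : P → ℝ} (hc : ContDiff ℝ 1 c) (R : ℝ) :
    ∫ z in Disc R, ff z * fderiv ℝ c z (tn z) = 0 := by
  have hk0 : Continuous fun z => fderiv ℝ c z (tn z) :=
    (hc.continuous_fderiv one_ne_zero).clm_apply contDiff_tn.continuous
  have hk : Continuous fun z => ff z * fderiv ℝ c z (tn z) := continuous_ff.mul hk0
  have hI : Integrable (Function.uncurry fun (t : ℝ) (z : P) =>
      ff (rot t z) * fderiv ℝ c (rot t z) (tn (rot t z)))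
      ((volume.restrict (uIoc (0 : ℝ) (π + π))).prod (volume.restrict (Disc R))) := by
    rw [Measure.prod_restrict]
    have h1 : Continuous (Function.uncurry fun (t : ℝ) (z : P) =>
        ff (rot t z) * fderiv ℝ c (rot t z) (tn (rot t z))) := hk.comp contDiff_rot.continuous
    exact (h1.continuousOn.integrableOn_compact
      ((isCompact_uIcc (a := (0 : ℝ)) (b := π + π)).prod (isCompact_Disc R))).mono_set
      (prod_mono uIoc_subset_uIcc subset_rfl)
  have hs := intervalIntegral_integral_swap hI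
  have h2 : ∀ t : ℝ, ∫ z in Disc R, ff (rot t z) * fderiv ℝ c (rot t z) (tn (rot t z)) =
      ∫ z in Disc R, ff z * fderiv ℝ c z (tn z) := fun t =>
    integral_Disc_rot R t fun z => ff z * fderiv ℝ c z (tn z)
  have h3 : ∀ z : P, ∫ t in (0 : ℝ)..(π + π),
      ff (rot t z) * fderiv ℝ c (rot t z) (tn (rot t z)) = 0 := fun z => by
    have hd : ∀ t ∈ uIcc (0 : ℝ) (π + π), HasDerivAt (fun τ => ff z * c (rot τ z))
        (ff (rot t z) * fderiv ℝ c (rot t z) (tn (rot t z))) t := fun t _ => by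
      rw [ff_congr (rho_rot t z)]
      exact ((hc.differentiable one_ne_zero (rot t z)).hasFDerivAt.comp_hasDerivAt t
        (hasDerivAt_rot z t)).const_mul (ff z)
    have hr : Continuous fun t : ℝ => rot t z :=
      contDiff_rot.continuous.comp (continuous_id.prodMk continuous_const)
    rw [intervalIntegral.integral_eq_sub_of_hasDerivAt hd ((hk.comp hr).intervalIntegrable _ _),
      rot_add_pi, rot_pi, neg_neg, rot_zero, sub_self]
  simp only [h2, h3, intervalIntegral.integral_const, integral_zero, smul_eq_mul, sub_zero] at hs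
  exact (mul_eq_zero.1 hs).resolve_left (by positivity)

lemma half (R : ℝ) : ∫ z in Disc R, ff z * rho z = 2 * ∫ z in Disc R, ff z * z.2 ^ 2 := by
  have h1 : ∫ z in Disc R, ff z * z.2 ^ 2 = ∫ z in Disc R, ff z * z.1 ^ 2 := by
    rw [← integral_Disc_rot R (π / 2) fun z => ff z * z.1 ^ 2]
    refine integral_congr_ae (Eventually.of_forall fun z => ?_)
    simp only [ff_congr (rho_rot (π / 2) z)]
    simp [rot]
  have h2 : ∫ z in Disc R, ff z * rho z =
      (∫ z in Disc R, ff z * z.1 ^ 2) + ∫ z in Disc R, ff z * z.2 ^ 2 := by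
    rw [← integral_add (intOn c1 R) (intOn c2 R)]
    refine integral_congr_ae (Eventually.of_forall fun z => ?_)
    simp only [rho]; ring
  rw [h2, ← h1]; ring

lemma cv {X : Sys} (h : Good X) (f : P → ℝ) :
    ∫ p in X.M, f p = ∫ z in Disc X.R, ff z * f (X.Γ z) := by
  rw [Sys.M, integral_image (fun z => dAt h.Γ_sm z) (measurableSet_Disc _)
    (Function.LeftInverse.injective h.left).injOn]
  simp only [h.jac_eq, abs_of_nonneg (ff_nonneg _)]

lemma gvv {X : Sys} (h : Good X) {z : P} (hz : z ∈ Disc X.R) :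
    X.g (X.Γ z) (X.v (X.Γ z)) (X.v (X.Γ z)) =
      z.2 ^ 2 + fderiv ℝ (fun w => X.χ (X.Γ w)) z (tn z) := by
  have e : (fun w => X.ξ (X.Γ w)) = fun w : P => w.1 := funext fun w => by rw [Sys.ξ, h.left]
  have h1 : fderiv ℝ X.ξ (X.Γ z) (fderiv ℝ X.Γ z (tn z)) = z.2 := by
    have := fderiv_fun_comp z (h.ξ_c1.differentiable one_ne_zero (X.Γ z)) (dAt h.Γ_sm z)
    rw [e, (hasFDerivAt_fst (𝕜 := ℝ) (p := z)).fderiv] at this
    exact (congrArg (fun L : P →L[ℝ] ℝ => L (tn z)) this).symm
  rw [h.θ_eq _ (mem_image_of_mem _ hz), Sys.v, Sys.u, h.left, h1,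
    fderiv_fun_comp z (h.χ_c1.differentiable one_ne_zero (X.Γ z)) (dAt h.Γ_sm z), sq]
  rfl

end C34

theorem st_CONST1 : St_CONST1 := by
  intro X h
  have hc : ContDiff ℝ 1 fun w => X.χ (X.Γ w) := h.χ_c1.comp (h.Γ_sm.of_le (by simp))
  have hk : Continuous fun z => ff z * fderiv ℝ (fun w => X.χ (X.Γ w)) z (tn z) :=
    continuous_ff.mul ((hc.continuous_fderiv one_ne_zero).clm_apply contDiff_tn.continuous)
  have e1 : ∫ p in X.M, X.g p (X.v p) (X.v p) / 2 = (∫ z in Disc X.R, ff z * z.2 ^ 2) / 2 := by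
    rw [C34.cv h, ← add_zero (∫ z in Disc X.R, ff z * z.2 ^ 2), ← C34.rot_null hc X.R,
      ← integral_add (C34.intOn C34.c2 X.R) (C34.intOn hk X.R), ← integral_div]
    refine setIntegral_congr_fun (measurableSet_Disc _) fun z hz => ?_
    simp only [C34.gvv h hz]; ring
  have e2 : ∫ p in X.M, rho (X.Γi p) = 2 * ∫ z in Disc X.R, ff z * z.2 ^ 2 := by
    rw [C34.cv h, ← C34.half]
    simp only [h.left]
  rw [Sys.st, e1, e2]; ring

end Pool.Agent.Lib.ISOC
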