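import Pool.Agent.Lib.ISOC.GB

set_option autoImplicit false

open MeasureTheory Set Filter Topology Real
open scoped ContDiff ENNReal
open Pool.Agent.Lib.MP_f62ea7_gt

namespace Pool.Agent.Lib.ISOC

namespace C33

/-- the integral of a radial function over a disc -/
lemma radial {F Φ : ℝ → ℝ} {R : ℝ} (hR : 0 < R) (hF : Continuous fun r : ℝ => F (r ^ 2))
    (hd : ∀ s, 0 ≤ s → HasDerivAt Φ (F s) s) :
    ∫ z in Disc R, F (rho z) = π * (Φ (R ^ 2) - Φ 0) := by
  have e : ∀ p ∈ polarCoord.target,
      p.1 • (Disc R).indicator (fun z => F (rho z)) (polarCoord.symm p) =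
        (Iic R).indicator (fun r => r * F (r ^ 2)) p.1 * (fun _ : ℝ => (1 : ℝ)) p.2 := by
    intro p hp
    have h1 : rho (polarCoord.symm p) = p.1 ^ 2 := by
      simp only [rho, polarCoord_symm_apply]
      linear_combination p.1 ^ 2 * cos_sq_add_sin_sq p.2
    have h2 : polarCoord.symm p ∈ Disc R ↔ p.1 ∈ Iic R := by
      rw [mem_Disc, h1]
      exact sq_le_sq₀ (le_of_lt hp.1) hR.le
    by_cases h : p.1 ∈ Iic R
    · rw [indicator_of_mem (h2.2 h), indicator_of_mem h, h1, mul_one, smul_eq_mul]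
    · rw [indicator_of_notMem (mt h2.1 h), indicator_of_notMem h, smul_zero, zero_mul]
  have h3 : ∫ r in (0 : ℝ)..R, r * F (r ^ 2) = Φ (R ^ 2) / 2 - Φ (0 ^ 2) / 2 := by
    refine intervalIntegral.integral_eq_sub_of_hasDerivAt (f := fun r => Φ (r ^ 2) / 2)
      (fun r _ => ?_) ((continuous_id.mul hF).intervalIntegrable _ _)
    refine ((HasDerivAt.comp (h := fun x => x ^ 2) r (hd _ (sq_nonneg r))
      (hasDerivAt_pow 2 r)).div_const 2).congr_deriv ?_
    norm_num
    ring
  rw [← integral_indicator (measurableSet_Disc R), ← integral_comp_polarCoord_symm,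
    setIntegral_congr_fun polarCoord.open_target.measurableSet e, polarCoord_target,
    Measure.volume_eq_prod, setIntegral_prod_mul _ fun _ : ℝ => (1 : ℝ),
    setIntegral_indicator measurableSet_Iic,
    Ioi_inter_Iic, ← intervalIntegral.integral_of_le hR.le, h3]
  simp [pi_pos.le]
  ring

lemma dpsi {s : ℝ} (hs : 0 ≤ s) :
    HasDerivAt (fun s : ℝ => s ^ 2 / (2 * (1 + s))) ((1 - 1 / (1 + s) ^ 2) / 2) s := by
  have h0 : 1 + s ≠ 0 := by positivity
  refine ((hasDerivAt_pow 2 s).div (((hasDerivAt_id s).const_add 1).const_mul 2)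
    (by positivity)).congr_deriv ?_
  simp only [id]
  field_simp
  ring

end C33

theorem st_CONST2 : St_CONST2 := by
  intro X h
  have c1 : Continuous fun r : ℝ => 1 - 1 / (1 + r ^ 2) ^ 2 :=
    continuous_const.sub (continuous_const.div (by fun_prop) fun r => by positivity)
  have c2 : Continuous fun r : ℝ => (r ^ 2) ^ 2 / (2 * (1 + r ^ 2)) :=
    Continuous.div (by fun_prop) (by fun_prop) fun r => by positivity
  have a := C33.radial (F := fun s => 1 - 1 / (1 + s) ^ 2) h.R_pos c1 fun s hs =>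
    ((C33.dpsi hs).const_mul 2).congr_deriv (by ring)
  have b := C33.radial (F := fun s => (1 - 1 / (1 + s) ^ 2) * (s ^ 2 / (2 * (1 + s)))) h.R_pos
    (c1.mul c2) fun s hs => ((C33.dpsi hs).pow 2).congr_deriv (by norm_num; ring)
  have e := h.cv fun _ => 1
  simp only [integral_const, smul_eq_mul, mul_one, measureReal_restrict_apply_univ] at e
  rw [e, h.cv psi]
  simp only [ff, psi]
  rw [a, b]
  simp only [Pi.pow_apply]
  ring

end Pool.Agent.Lib.ISOC
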