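import Pool.Agent.Lib.ISOC.Blue
import Pool.Agent.Lib.MP_f62ea7_gt.DOM

set_option autoImplicit false

open MeasureTheory Set Filter Topology Real
open scoped ContDiff ENNReal
open Pool.Agent.Lib.MP_f62ea7_gt

namespace Pool.Agent.Lib.ISOC

namespace D86

lemma rho_sm : ContDiff ℝ ∞ rho := by unfold rho; fun_prop

lemma disc_compact (R : ℝ) : IsCompact (Disc R) := by
  refine (isCompact_closedBall (0 : P) |R|).of_isClosed_subset
    (isClosed_le rho_sm.continuous continuous_const) fun z hz => ?_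
  have h : z.1 ^ 2 + z.2 ^ 2 ≤ R ^ 2 := hz
  exact mem_closedBall_zero_iff.2 (norm_le_iff.2
    ⟨sq_le_sq.1 (by nlinarith [sq_nonneg z.2]), sq_le_sq.1 (by nlinarith [sq_nonneg z.1])⟩)

lemma disc_conn (R : ℝ) : IsConnected (Disc R) := by
  refine (StarConvex.isPathConnected (a := 0) ?_ ?_).isConnected
  · refine starConvex_zero_iff.2 fun z hz r h0 h1 => ?_
    have h : z.1 ^ 2 + z.2 ^ 2 ≤ R ^ 2 := hz
    show (r * z.1) ^ 2 + (r * z.2) ^ 2 ≤ R ^ 2
    have : r ^ 2 ≤ 1 := by nlinarith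
    nlinarith [mul_le_mul_of_nonneg_right this (by positivity : 0 ≤ z.1 ^ 2 + z.2 ^ 2)]
  · show (0 : ℝ) ^ 2 + 0 ^ 2 ≤ R ^ 2
    simpa using sq_nonneg R

lemma rho_reg {z : P} (h : HasFDerivAt rho (0 : P →L[ℝ] ℝ) z) : rho z = 0 := by
  have h1 : HasDerivAt (fun s : ℝ => s • z) z 1 := by
    simpa using (hasDerivAt_id (1 : ℝ)).smul_const z
  have h2 : HasFDerivAt rho (0 : P →L[ℝ] ℝ) ((1 : ℝ) • z) := by rwa [one_smul]
  have h3 := h2.comp_hasDerivAt (1 : ℝ) h1
  have h4 : (rho ∘ fun s : ℝ => s • z) = fun s => s ^ 2 * rho z := by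
    funext s; simp only [Function.comp, rho, Prod.smul_fst, Prod.smul_snd, smul_eq_mul]; ring
  rw [h4] at h3
  have h5 := h3.unique ((hasDerivAt_pow 2 (1 : ℝ)).mul_const (rho z))
  simpa using h5.symm

end D86

open D86 DOM in
theorem st_DOM : St_DOM := by
  intro X hX
  obtain ⟨C, l0, -, hl0, happ⟩ := hX.app
  have hl : 0 < min l0 X.R := lt_min hl0 hX.R_pos
  obtain ⟨Λ, Λi, hA⟩ := happ _ hl (min_le_left _ _)
  have hlR2 : min l0 X.R ^ 2 ≤ X.R ^ 2 := pow_le_pow_left₀ hl.le (min_le_right _ _) 2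
  have mem : ∀ p, p ∈ X.M ↔ rho (Λi p) - X.R ^ 2 ≤ 0 := fun p => by
    constructor
    · rintro ⟨z, hz, hp⟩
      by_contra hc
      have h1 := hX.left (Λi p)
      rw [← hA.out _ (by linarith), hA.right, ← hp, hX.left, hp] at h1
      exact hc (sub_nonpos.2 (h1 ▸ hz))
    · intro h
      refine ⟨X.Γi p, ?_, hX.right p⟩
      show rho (X.Γi p) ≤ X.R ^ 2
      by_contra hc
      have h1 := hA.left (X.Γi p)
      rw [hA.out _ (by linarith), hX.right] at h1
      rw [h1] at h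
      exact hc (by linarith)
  have H1 : ContDiff ℝ ∞ fun z => rho (Λi (ιi 1 z)) - X.R ^ 2 :=
    (rho_sm.comp (hA.smi.comp (ιi_sm 1))).sub contDiff_const
  have cι := (ι_diff 1).continuous
  have cΓ := hX.Γ_sm.continuous
  refine ⟨((disc_compact _).image cΓ).image cι,
    ((disc_conn _).image _ cΓ.continuousOn).image _ cι.continuousOn, _, H1, ?_, fun z hz hd => ?_⟩
  · ext z
    constructor
    · rintro ⟨p, hp, rfl⟩
      show rho (Λi (ιi 1 (ι 1 p))) - X.R ^ 2 ≤ 0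
      rw [ιi_ι one_ne_zero]
      exact (mem p).1 hp
    · exact fun hz => ⟨_, (mem _).2 hz, ι_ιi one_ne_zero z⟩
  · have h1 : HasFDerivAt (fun z => rho (Λi (ιi 1 z)) - X.R ^ 2) (0 : ℂ →L[ℝ] ℝ)
        (ι 1 (Λ (Λi (ιi 1 z)))) := by
      rw [hA.right, ι_ιi one_ne_zero, ← hd]
      exact (H1.differentiable (by simp) z).hasFDerivAt
    have h2 := HasFDerivAt.comp (f := fun w => ι 1 (Λ w)) (Λi (ιi 1 z)) h1
      (((ι_diff 1).comp (hA.sm.differentiable (by simp))) _).hasFDerivAt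
    rw [ContinuousLinearMap.zero_comp] at h2
    have h3 : rho (Λi (ιi 1 z)) = 0 := rho_reg ((h2.add_const (X.R ^ 2)).congr_of_eventuallyEq
      (Eventually.of_forall fun w => by
        simp only [Function.comp, ιi_ι one_ne_zero, hA.left]; ring))
    rw [h3] at hz
    have := hX.R_pos
    nlinarith

end Pool.Agent.Lib.ISOC
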