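import Pool.Agent.Lib.ISOC.Blue
import Pool.Agent.Lib.MP_f62ea7_gt.Basic2
import Pool.Agent.Lib.MP_f62ea7_gt.TR1

/-! The energy of a curve in terms of the action. -/

set_option autoImplicit false

open MeasureTheory Set Filter Topology Real
open scoped ContDiff ENNReal
open Pool.Agent.Lib.MP_f62ea7_gt

namespace Pool.Agent.Lib.ISOC

open TR1 in
theorem st_EN : St_EN := by
  intro M E F G η v γ hM hE hF hG hq hA hγ
  set f : ℝ → P → ℝ := fun t a => gq E F G (η t a) (v t a) (v t a) / 2 with hf
  have np : ∀ {g : P → ℝ}, Continuous g → Nice M fun t a => g (η t a) := fun hg =>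
    Nice.of_continuous hM (hg.comp hA.cont)
  have fn : Nice M f :=
    (((((np hE).mul hA.nice_v1).mul hA.nice_v1).add ((np hF).mul ((hA.nice_v1.mul hA.nice_v2).add
      (hA.nice_v2.mul hA.nice_v1)))).add (((np hG).mul hA.nice_v2).mul hA.nice_v2)).div_const 2
  have f0 : ∀ t ∈ Icc 0 π, ∀ a ∈ M, 0 ≤ f t a := fun t ht a ha =>
    div_nonneg (hq _ (hA.maps t ht ha) _) two_pos.le
  set h : ℝ → ℝ := fun t => ∫ a in M, f t a with hh
  have h0 : ∀ t ∈ Icc 0 π, 0 ≤ h t := fun t ht => setIntegral_nonneg hM.measurableSet (f0 t ht)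
  have tin : ∀ t ∈ Ioo (0 : ℝ) 1, π * t ∈ Ioo 0 π := fun t ht =>
    ⟨mul_pos pi_pos ht.1, by nlinarith [pi_pos, ht.2]⟩
  obtain ⟨S, hS⟩ := hA.der
  have inner : ∀ t ∈ Ioo (0 : ℝ) 1, π * t ∉ S →
      ∫⁻ z in ι 1 '' M, ENNReal.ofReal (qf (onC E) (onC F) (onC G) (γ t z)
        (deriv (fun τ => γ τ z) t)) = ENNReal.ofReal (2 * π ^ 2 * h (π * t)) := by
    intro t ht hs
    have ht' := Ioo_subset_Icc_self (tin t ht)
    rw [lint_image one_pos, ENNReal.ofReal_one, one_mul, setLIntegral_congr_fun hM.measurableSet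
      (g := fun a => ENNReal.ofReal (2 * π ^ 2 * f (π * t) a)) (fun a ha => by
        have d2 : HasDerivAt (fun τ => η (π * τ) a) (π • v (π * t) a) t :=
          (hS _ (tin t ht) hs a ha).scomp t (by simpa using (hasDerivAt_id t).const_mul π)
        have d3 : HasDerivAt (fun τ => ιE 1 one_ne_zero (η (π * τ) a))
            (ιE 1 one_ne_zero (π • v (π * t) a)) t :=
          (ιE 1 one_ne_zero : P →L[ℝ] ℂ).hasFDerivAt.comp_hasDerivAt t d2
        have d4 : deriv (fun τ => γ τ (ι 1 a)) t = ι 1 (π • v (π * t) a) := by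
          refine (d3.congr_of_eventuallyEq ?_).deriv
          filter_upwards [Ioo_mem_nhds ht.1 ht.2] with τ hτ using hγ τ hτ a ha
        simp only
        rw [d4, hγ t ht a ha]
        refine congrArg ENNReal.ofReal ?_
        simp only [qf, onC, ιi_ι one_ne_zero, hf, gq]
        simp only [ι, Prod.smul_fst, Prod.smul_snd, smul_eq_mul]
        ring),
      ← ofReal_integral_eq_lintegral_ofReal ((fn.integrableOn hM ht').const_mul _)
        ((ae_restrict_mem hM.measurableSet).mono fun a ha =>
          mul_nonneg (by positivity) (f0 _ ht' a ha)),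
      integral_const_mul]
  have hS0 : ∀ᵐ t ∂(volume.restrict (Ioo (0 : ℝ) 1)), π * t ∉ S :=
    ae_restrict_of_ae ((S.finite_toSet.preimage
      (mul_right_injective₀ pi_ne_zero).injOn).countable.ae_notMem volume)
  have hi : Integrable (fun t => 2 * π ^ 2 * h (π * t)) (volume.restrict (Ioo (0 : ℝ) 1)) := by
    have := (fn.intervalIntegrable_integral hM zero_mem_Icc pi_mem_Icc).comp_mul_left (c := π)
    rw [zero_div, div_self pi_ne_zero, intervalIntegrable_iff_integrableOn_Ioo_of_le zero_le_one]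
      at this
    exact this.const_mul _
  unfold energyG
  rw [lintegral_congr_ae (g := fun t => ENNReal.ofReal (2 * π ^ 2 * h (π * t))) (by
      filter_upwards [ae_restrict_mem measurableSet_Ioo, hS0] with t ht hS using inner t ht hS),
    ← ofReal_integral_eq_lintegral_ofReal hi ((ae_restrict_mem measurableSet_Ioo).mono fun t ht =>
      mul_nonneg (by positivity) (h0 _ (Ioo_subset_Icc_self (tin t ht)))),
    integral_const_mul, ← integral_Ioc_eq_integral_Ioo,
    ← intervalIntegral.integral_of_le zero_le_one,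
    intervalIntegral.integral_comp_mul_left h pi_ne_zero, mul_zero, mul_one,
    ← ENNReal.ofReal_ofNat 2, ← ENNReal.ofReal_div_of_pos two_pos]
  refine congrArg ENNReal.ofReal ?_
  have : actG E F G M η v = ∫ x in (0 : ℝ)..π, h x := rfl
  rw [this, smul_eq_mul]
  field_simp

end Pool.Agent.Lib.ISOC
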