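import Pool.Agent.Lib.ISOC.GB

/-! The energy inequality. -/

set_option autoImplicit false

open MeasureTheory Set Filter Topology Real
open scoped ContDiff ENNReal
open Pool.Agent.Lib.MP_f62ea7_gt

namespace Pool.Agent.Lib.ISOC

namespace I90

lemma pointwise {X : Sys} (h : Good X) {p : P} (hp : p ∈ X.M) (w : P) :
    (fderiv ℝ X.ξ p w ^ 2 - X.ξ p ^ 2) / 2 -
        rho (X.Γi p) * (fderiv ℝ X.ξ p w - X.u p) ^ 2 / 520 + rho (X.Γi p) / 2 -
        X.g p (X.v p) (X.v p) / 2 + fderiv ℝ X.χ p w ≤ X.g p w w / 2 := by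
  have e1 : X.g p w w = X.g p (w - X.v p) (w - X.v p) + 2 * X.g p (X.v p) w -
      X.g p (X.v p) (X.v p) := by
    simp only [Sys.g, gq, Prod.fst_sub, Prod.snd_sub]; ring
  have e2 := h.low p hp (w - X.v p)
  rw [map_sub, h.dξ_v] at e2
  have e3 := h.θ_eq p hp w
  have e4 : rho (X.Γi p) = X.ξ p ^ 2 + X.u p ^ 2 := rfl
  rw [e1, e3]
  nlinarith [e2, e4]

lemma dbl_exact {M : Set P} {η v : ℝ → P → P} (h : Adm M η v) (hM : IsCompact M) {f : P → ℝ}
    (hf : ContDiff ℝ 1 f) : dbl M (fun t a => fderiv ℝ f (η t a) (v t a)) = 0 := by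
  rw [dbl_swap hM (nice_fderiv h hM hf)]
  obtain ⟨S, hS⟩ := h.der
  have e : ∀ a ∈ M, ∫ t in (0 : ℝ)..π, fderiv ℝ f (η t a) (v t a) = f (η π a) - f (η 0 a) := by
    intro a ha
    refine ftc_off (f := fun t => f (η t a)) S zero_mem_Icc pi_mem_Icc
      (hf.continuous.comp (h.continuous_time a)).continuousOn (fun t ht _ hs => ?_)
      ((nice_fderiv h hM hf).intervalIntegrable ha zero_mem_Icc pi_mem_Icc)
    exact ((hf.differentiable one_ne_zero) _).hasFDerivAt.comp_hasDerivAt t (hS t ht hs a ha)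
  rw [setIntegral_congr_fun hM.measurableSet e,
    integral_sub ((nice_pos h hM hf.continuous).integrableOn hM pi_mem_Icc)
      ((nice_pos h hM hf.continuous).integrableOn hM zero_mem_Icc),
    integral_comp_mp (h.mp π pi_mem_Icc) hf.continuous.measurable,
    integral_comp_mp (h.mp 0 zero_mem_Icc) hf.continuous.measurable, sub_self]

end I90

theorem st_ENER : St_ENER := by
  intro X h η v hη
  have hM := h.M_compact
  have cρ : Continuous fun p => rho (X.Γi p) := by
    have := h.Γi_cont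
    unfold rho; fun_prop
  have cg : Continuous fun p => X.g p (X.v p) (X.v p) / 2 :=
    (h.g_cont continuous_id h.v_cont h.v_cont).div_const 2
  have n1 : Nice X.M fun t a => X.xd η v t a ^ 2 - X.ξ (η t a) ^ 2 :=
    ((h.nice_xd hη).pow 2).sub ((h.nice_ξ hη).pow 2)
  have n2 : Nice X.M fun t a => rho (X.Γi (η t a)) * (X.xd η v t a - X.u (η t a)) ^ 2 :=
    (nice_pos hη hM cρ).mul (((h.nice_xd hη).sub (h.nice_u hη)).pow 2)
  have n3 : Nice X.M fun t a => rho (X.Γi (η t a)) := nice_pos hη hM cρ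
  have n4 : Nice X.M fun t a => X.g (η t a) (X.v (η t a)) (X.v (η t a)) / 2 := nice_pos hη hM cg
  have n5 : Nice X.M fun t a => fderiv ℝ X.χ (η t a) (v t a) := nice_fderiv hη hM h.χ_c1
  have n6 : Nice X.M fun t a => gq X.E X.F X.G (η t a) (v t a) (v t a) / 2 :=
    (nice_gq hη hM h.E_sm.continuous h.F_sm.continuous h.G_sm.continuous hη.nice_v1 hη.nice_v2
      hη.nice_v1 hη.nice_v2).div_const 2
  have a1 := n1.const_mul (1 / 2)
  have a2 := n2.const_mul (1 / 520)
  have a3 := n3.const_mul (1 / 2)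
  have key := dbl_mono hM ((((a1.sub a2).add a3).sub n4).add n5) n6 fun t ht a ha => by
    have := I90.pointwise h (hη.maps t ht ha) (v t a)
    simp only [Sys.xd, Sys.g] at this ⊢
    linarith
  rw [dbl_add hM (((a1.sub a2).add a3).sub n4) n5, dbl_sub hM ((a1.sub a2).add a3) n4,
    dbl_add hM (a1.sub a2) a3, dbl_sub hM a1 a2, dbl_const_mul, dbl_const_mul, dbl_const_mul,
    I90.dbl_exact hη hM h.χ_c1, dbl_pos hη cρ.measurable, dbl_pos hη cg.measurable] at key
  simp only [Sys.II, Sys.RZ, Sys.st, Sys.act, actG]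
  linarith

end Pool.Agent.Lib.ISOC
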