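import Pool.Agent.Lib.ISOC.OC

/-! Row FLAT: a flat function divided by a tempered weight is smooth in the physical variables. -/

set_option autoImplicit false

open MeasureTheory Set Filter Topology Real
open scoped ContDiff ENNReal
open Pool.Agent.Lib.MP_f62ea7_gt

namespace Pool.Agent.Lib.ISOC

namespace I91

lemma ff_sm : ContDiff ℝ ∞ ff := by
  unfold ff rho
  refine contDiff_const.sub (contDiff_const.div (by fun_prop) fun z => ?_)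
  positivity

lemma J_sm {b : P → ℝ} (hb : ContDiff ℝ ∞ b) : ContDiff ℝ ∞ (JJ b) := by
  unfold JJ AA aa
  exact (contDiff_const.add (contDiff_dx hb)).mul
    (ff_sm.comp ((contDiff_fst.add hb).prodMk contDiff_snd))

lemma Y_sm {b : P → ℝ} (hb : ContDiff ℝ ∞ b) : ContDiff ℝ ∞ (YY b) := contDiff_iU (J_sm hb)

/-- flat functions supported in the ball of radius `r` -/
def Cl (r : ℝ) (F : P → ℝ) : Prop := Flat F ∧ ∀ z : P, r < ‖z‖ → F z = 0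

lemma Cl.ev {r : ℝ} {F : P → ℝ} (h : Cl r F) {z : P} (hz : r < ‖z‖) : F =ᶠ[𝓝 z] fun _ => 0 := by
  filter_upwards [(isOpen_lt continuous_const continuous_norm).mem_nhds hz] with w hw
  exact h.2 w hw

lemma Cl.dx {r : ℝ} {F : P → ℝ} (h : Cl r F) : Cl r (dx F) :=
  ⟨h.1.dx, fun z hz => by rw [dx_congr (h.ev hz)]; simp⟩
lemma Cl.du {r : ℝ} {F : P → ℝ} (h : Cl r F) : Cl r (du F) :=
  ⟨h.1.du, fun z hz => by rw [du_congr (h.ev hz)]; simp⟩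
lemma Cl.mul {r : ℝ} {F G : P → ℝ} (h : Cl r F) (hG : ContDiff ℝ ∞ G) :
    Cl r fun z => F z * G z := ⟨h.1.mul_sm hG, fun z hz => by simp [h.2 z hz]⟩
lemma Cl.sub {r : ℝ} {F G : P → ℝ} (h : Cl r F) (hG : Cl r G) :
    Cl r fun z => F z - G z := ⟨h.1.sub hG.1, fun z hz => by simp [h.2 z hz, hG.2 z hz]⟩
lemma Cl.zero {r : ℝ} {F : P → ℝ} (h : Cl r F) : F 0 = 0 := (h.1 1).at_zero

section main
variable {b : P → ℝ} {Ξi Ψ : P → P} {Q : P → ℝ} {r c : ℝ}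

lemma Psi_zero (hL : Lab b Ξi Ψ) : Ψ 0 = 0 := by
  have := hL.Φ_l 0
  have e : Phi b 0 = 0 := by
    unfold Phi YY
    have := iU_zero (JJ b) 0
    exact Prod.ext rfl this
  rwa [e] at this

lemma Psi_ne (hL : Lab b Ξi Ψ) {p : P} (hp : p ≠ 0) : Ψ p ≠ 0 := by
  intro h
  have := hL.Φ_r p
  rw [h, ← Psi_zero hL, hL.Φ_r] at this
  exact hp this.symm

/-- the derivative at the origin -/
lemma at_zero (hL : Lab b Ξi Ψ) (hr : 0 < r) (hc : 0 < c)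
    (hQ : ∀ z : P, ‖z‖ ≤ 2 * r → c * ‖z‖ ^ 6 ≤ Q z) {F : P → ℝ} (hF : Cl r F) (k : ℕ) :
    HasFDerivAt (fun p => F (Ψ p) / (Q (Ψ p) * JJ b (Ψ p)) ^ k) (0 : P →L[ℝ] ℝ) 0 := by
  obtain ⟨r1, hr1, hJ⟩ := hL.J_lo
  obtain ⟨C, hC⟩ := hL.Ψ_bd
  obtain ⟨C1, hC1, hb⟩ := (hF.1 (8 * k + 6)).bound r
  have hz : ∀ z : P, ‖z‖ ≤ r → ‖z‖ ≤ r1 →
      |F z / (Q z * JJ b z) ^ k| ≤ C1 / (c / 8) ^ k * (‖z‖ ^ 3) ^ 2 := by
    intro z h1 h2
    rcases eq_or_ne z 0 with rfl | h0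
    · simp [hF.zero]
    have hn : 0 < ‖z‖ := norm_pos_iff.2 h0
    have q1 := hQ z (by linarith)
    have q2 := (hJ z h2).1
    have q3 : c / 8 * ‖z‖ ^ 8 ≤ Q z * JJ b z := by
      calc c / 8 * ‖z‖ ^ 8 = (c * ‖z‖ ^ 6) * (‖z‖ ^ 2 / 8) := by ring
        _ ≤ _ := mul_le_mul q1 q2 (by positivity) (le_trans (by positivity) q1)
    have q4 : 0 < c / 8 * ‖z‖ ^ 8 := by positivity
    have q5 : (c / 8 * ‖z‖ ^ 8) ^ k ≤ (Q z * JJ b z) ^ k := pow_le_pow_left₀ q4.le q3 k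
    have q6 : 0 < (c / 8 * ‖z‖ ^ 8) ^ k := by positivity
    rw [abs_div, abs_of_pos (q6.trans_le q5)]
    calc |F z| / (Q z * JJ b z) ^ k ≤ C1 * ‖z‖ ^ (8 * k + 6) / (c / 8 * ‖z‖ ^ 8) ^ k :=
          div_le_div₀ (by positivity) (hb z h1) q6 q5
      _ = _ := by
          rw [mul_pow, ← pow_mul, pow_add]
          field_simp
  have ht : Tendsto (fun p => ‖Ψ p‖) (𝓝 0) (𝓝 0) := by
    have := (hL.Ψ_cont.norm).tendsto 0
    rwa [Psi_zero hL, norm_zero] at this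
  rw [hasFDerivAt_iff_isLittleO_nhds_zero]
  have hO : (fun p : P => F (Ψ p) / (Q (Ψ p) * JJ b (Ψ p)) ^ k) =O[𝓝 0] fun p : P => ‖p‖ ^ 2 := by
    refine Asymptotics.IsBigO.of_bound (C1 / (c / 8) ^ k * C ^ 2) ?_
    filter_upwards [ht.eventually (ge_mem_nhds hr), ht.eventually (ge_mem_nhds hr1),
      Metric.closedBall_mem_nhds (0 : P) one_pos] with p h1 h2 h3
    have h4 := hC p (by simpa using h3)
    have h5 : (‖Ψ p‖ ^ 3) ^ 2 ≤ (C * ‖p‖) ^ 2 := pow_le_pow_left₀ (by positivity) h4 2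
    rw [Real.norm_eq_abs, Real.norm_eq_abs, abs_of_nonneg (by positivity : (0 : ℝ) ≤ ‖p‖ ^ 2)]
    calc _ ≤ _ := hz _ h1 h2
      _ ≤ C1 / (c / 8) ^ k * (C * ‖p‖) ^ 2 := mul_le_mul_of_nonneg_left h5 (by positivity)
      _ = _ := by ring
  have ho : (fun p : P => ‖p‖ ^ 2) =o[𝓝 0] fun p : P => p :=
    Asymptotics.isLittleO_norm_pow_id one_lt_two
  simpa [Psi_zero hL, hF.zero] using hO.trans_isLittleO ho

/-- the class is stable under differentiation -/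
lemma step (hT : St_TEMP) (hb : Con0 b) (hL : Lab b Ξi Ψ) (hQs : ContDiff ℝ ∞ Q) (hr : 0 < r)
    (hc : 0 < c) (hQ : ∀ z : P, ‖z‖ ≤ 2 * r → c * ‖z‖ ^ 6 ≤ Q z) {F : P → ℝ} (hF : Cl r F)
    (k : ℕ) : ∃ F1 F2, Cl r F1 ∧ Cl r F2 ∧ ∀ p,
      DifferentiableAt ℝ (fun p => F (Ψ p) / (Q (Ψ p) * JJ b (Ψ p)) ^ k) p ∧
      dx (fun p => F (Ψ p) / (Q (Ψ p) * JJ b (Ψ p)) ^ k) p =
        F1 (Ψ p) / (Q (Ψ p) * JJ b (Ψ p)) ^ (k + 2) ∧
      du (fun p => F (Ψ p) / (Q (Ψ p) * JJ b (Ψ p)) ^ k) p =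
        F2 (Ψ p) / (Q (Ψ p) * JJ b (Ψ p)) ^ (k + 2) := by
  have hJ := J_sm hb.o5.sm
  have hY := contDiff_dx (Y_sm hb.o5.sm)
  set W : P → ℝ := fun z => Q z * JJ b z with hW
  have hWs : ContDiff ℝ ∞ W := hQs.mul hJ
  have hWx := contDiff_dx hWs
  have hWu := contDiff_du hWs
  refine ⟨fun z => (dx F z * (W z * W z) - du F z * (dx (YY b) z * Q z * W z)) -
      F z * (k * (dx W z * W z - dx (YY b) z * du W z * Q z)),
    fun z => du F z * (Q z * W z) - F z * (k * (du W z * Q z)),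
    ((hF.dx.mul (hWs.mul hWs)).sub (hF.du.mul ((hY.mul hQs).mul hWs))).sub
      (hF.mul (contDiff_const.mul ((hWx.mul hWs).sub ((hY.mul hWu).mul hQs)))),
    (hF.du.mul (hQs.mul hWs)).sub (hF.mul (contDiff_const.mul (hWu.mul hQs))), fun p => ?_⟩
  rcases eq_or_ne p 0 with rfl | hp
  · have h := at_zero hL hr hc hQ hF k
    refine ⟨h.differentiableAt, ?_, ?_⟩
    · unfold dx
      rw [h.fderiv, Psi_zero hL]
      have := hF.dx.zero
      have := hF.du.zero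
      have := hF.zero
      unfold dx at *
      simp [*]
    · unfold du
      rw [h.fderiv, Psi_zero hL]
      have := hF.du.zero
      have := hF.zero
      unfold du at *
      simp [*]
  rcases lt_or_ge r ‖Ψ p‖ with hz | hz
  · have e : (fun p => F (Ψ p) / (Q (Ψ p) * JJ b (Ψ p)) ^ k) =ᶠ[𝓝 p] fun _ => 0 := by
      filter_upwards [(isOpen_lt continuous_const hL.Ψ_cont.norm).mem_nhds hz] with q hq
      rw [hF.2 _ hq, zero_div]
    refine ⟨(differentiableAt_const 0).congr_of_eventuallyEq e, ?_, ?_⟩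
    · rw [dx_congr e]; simp [hF.2 _ hz, hF.dx.2 _ hz, hF.du.2 _ hz]
    · rw [du_congr e]; simp [hF.2 _ hz, hF.du.2 _ hz]
  have hz0 := Psi_ne hL hp
  have hn : 0 < ‖Ψ p‖ := norm_pos_iff.2 hz0
  have hJp : JJ b (Ψ p) ≠ 0 := (hL.J_pos _ hz0).ne'
  have hQp : Q (Ψ p) ≠ 0 := (lt_of_lt_of_le (by positivity) (hQ _ (by linarith))).ne'
  have hΨ : DifferentiableAt ℝ Ψ p := (hL.Ψ_sm p hp).differentiableAt (by simp)
  have d1 : DifferentiableAt ℝ (fun q => F (Ψ q)) p := (dAt hF.1.sm _).comp p hΨ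
  have d2 : DifferentiableAt ℝ (fun q => W (Ψ q)) p := (dAt hWs _).comp p hΨ
  have hWp : W (Ψ p) ≠ 0 := mul_ne_zero hQp hJp
  obtain ⟨a1, a2⟩ := (hT b Ξi Ψ hb hL).1 F hF.1.sm p hp
  obtain ⟨b1, b2⟩ := (hT b Ξi Ψ hb hL).1 W hWs p hp
  change DifferentiableAt ℝ (fun q => F (Ψ q) / W (Ψ q) ^ k) p ∧
    dx (fun q => F (Ψ q) / W (Ψ q) ^ k) p = _ / W (Ψ p) ^ (k + 2) ∧
    du (fun q => F (Ψ q) / W (Ψ q) ^ k) p = _ / W (Ψ p) ^ (k + 2)
  have eW : W (Ψ p) = Q (Ψ p) * JJ b (Ψ p) := rfl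
  have d3 : DifferentiableAt ℝ (fun q => W (Ψ q) ^ k) p := d2.pow k
  refine ⟨dAt_div d1 d3 (pow_ne_zero k hWp), ?_, ?_⟩
  · rw [dx_div d1 d3 (pow_ne_zero k hWp), dx_pow d2, a1, b1]
    unfold LX
    rcases k with _ | k
    · simp only [eW]; field_simp; simp; ring
    · simp only [eW, Nat.add_sub_cancel]; field_simp; ring
  · rw [du_div d1 d3 (pow_ne_zero k hWp), du_pow d2, a2, b2]
    unfold LY
    rcases k with _ | k
    · simp only [eW]; field_simp; simp; ring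
    · simp only [eW, Nat.add_sub_cancel]; field_simp; ring

lemma all (hT : St_TEMP) (hb : Con0 b) (hL : Lab b Ξi Ψ) (hQs : ContDiff ℝ ∞ Q) (hr : 0 < r)
    (hc : 0 < c) (hQ : ∀ z : P, ‖z‖ ≤ 2 * r → c * ‖z‖ ^ 6 ≤ Q z) (n : ℕ) :
    ∀ (F : P → ℝ) (k : ℕ), Cl r F →
      ContDiff ℝ n fun p => F (Ψ p) / (Q (Ψ p) * JJ b (Ψ p)) ^ k := by
  induction n with
  | zero =>
    intro F k hF
    obtain ⟨_, _, -, -, h⟩ := step hT hb hL hQs hr hc hQ hF k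
    exact contDiff_zero.2 (Differentiable.continuous fun p => (h p).1)
  | succ n ih =>
    intro F k hF
    obtain ⟨F1, F2, h1, h2, h⟩ := step hT hb hL hQs hr hc hQ hF k
    rw [Nat.cast_succ, contDiff_succ_iff_fderiv]
    refine ⟨fun p => (h p).1, by simp, ?_⟩
    have e : fderiv ℝ (fun p => F (Ψ p) / (Q (Ψ p) * JJ b (Ψ p)) ^ k) = fun p =>
        (F1 (Ψ p) / (Q (Ψ p) * JJ b (Ψ p)) ^ (k + 2)) • ContinuousLinearMap.fst ℝ ℝ ℝ +
        (F2 (Ψ p) / (Q (Ψ p) * JJ b (Ψ p)) ^ (k + 2)) • ContinuousLinearMap.snd ℝ ℝ ℝ := by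
      funext p
      refine ContinuousLinearMap.ext fun v => ?_
      rw [fderiv_apply_eq, (h p).2.1, (h p).2.2]
      simp [mul_comm]
    rw [e]
    exact ((ih F1 _ h1).smul contDiff_const).add ((ih F2 _ h2).smul contDiff_const)

end main

end I91

theorem st_FLAT (hT : St_TEMP) : St_FLAT := by
  intro b Ξi Ψ hb hL Q r c hQs hr hc hQ F hF hs
  have hF' : I91.Cl r fun z => F z * JJ b z := I91.Cl.mul ⟨hF, hs⟩ (I91.J_sm hb.o5.sm)
  have e : (fun p => F (Ψ p) / Q (Ψ p)) =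
      fun p => F (Ψ p) * JJ b (Ψ p) / (Q (Ψ p) * JJ b (Ψ p)) ^ 1 := by
    funext p
    rcases eq_or_ne (Ψ p) 0 with h | h
    · rw [h, (hF 1).at_zero]; simp
    · rw [pow_one, mul_div_mul_right _ _ (hL.J_pos _ h).ne']
  rw [e]
  exact contDiff_infty.2 fun n => I91.all hT hb hL hQs hr hc hQ n _ 1 hF'

end Pool.Agent.Lib.ISOC
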