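import Pool.Agent.Lib.ISOC.MB

set_option autoImplicit false

open MeasureTheory Set Filter Topology Real
open scoped ContDiff ENNReal
open Pool.Agent.Lib.MP_f62ea7_gt

namespace Pool.Agent.Lib.ISOC

namespace G43

variable {b : P → ℝ} {Ξi Ψ : P → P}

lemma dXi (h : Con0 b) (z v : P) :
    fderiv ℝ (Xi b) z v = (v.1 * AA b z + v.2 * du b z, v.2) := by
  have h1 : fderiv ℝ (Xi b) z = _ :=
    ((dAt (sm_aa h.sm) z).hasFDerivAt.prodMk (hasFDerivAt_snd (p := z) (𝕜 := ℝ))).fderiv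
  rw [h1, ContinuousLinearMap.prod_apply, fderiv_apply_eq, dx_aa h.sm, du_aa h.sm]
  rfl

lemma dPhi (h : Con0 b) (z v : P) :
    fderiv ℝ (Phi b) z v = (v.1, v.1 * dx (YY b) z + v.2 * JJ b z) := by
  have h1 : fderiv ℝ (Phi b) z = _ :=
    ((hasFDerivAt_fst (p := z) (𝕜 := ℝ)).prodMk (dAt (sm_YY h.sm) z).hasFDerivAt).fderiv
  rw [h1, ContinuousLinearMap.prod_apply, fderiv_apply_eq, du_YY h.sm]
  rfl

lemma chain (h : Con0 b) (L : Lab b Ξi Ψ) (z v : P) :
    fderiv ℝ (fun z => Phi b (Ξi z)) (Xi b z) (fderiv ℝ (Xi b) z v) = fderiv ℝ (Phi b) z v := by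
  have hΓ : ContDiff ℝ ∞ fun z => Phi b (Ξi z) := (sm_Phi h.sm).comp L.Ξi_sm
  have h1 := fderiv_fun_comp z (dAt hΓ (Xi b z)) (dAt (sm_Xi h.sm) z)
  simp only [L.Ξ_l] at h1
  exact (congrArg (fun A : P →L[ℝ] P => A v) h1).symm

end G43

open G43 in
theorem st_GAM : St_GAM := by
  intro b Ξi Ψ h L
  refine ⟨fun z => ?_, ?_, fun z => ?_, ?_⟩
  · have h1 := jac_comp (Λ := Xi b) (Θ := Ξi) (z := z) (dAt (sm_Xi h.sm) _) (dAt L.Ξi_sm z)
    simp only [L.Ξ_r, jac_id, jac_Xi h.sm] at h1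
    rw [jac_comp (dAt (sm_Phi h.sm) _) (dAt L.Ξi_sm z), jac_Phi h.sm]
    have e : JJ b (Ξi z) = AA b (Ξi z) * ff (Xi b (Ξi z)) := rfl
    rw [e, L.Ξ_r]
    linear_combination -ff z * h1
  · have h1 := chain h L 0 (0, 1)
    have h2 : du b 0 = 0 := h.o5.du.at_zero
    rw [dXi h, dPhi h, h.Xi_zero, h.J_zero, h2] at h1
    simpa [Prod.mk_zero_zero] using h1
  · have h1 := chain h L z (UU b z, -aa b z)
    rw [dXi h, dPhi h] at h1
    have e : ((UU b z * AA b z + -aa b z * du b z, -aa b z) : P) = tn (Xi b z) := by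
      refine Prod.ext ?_ rfl
      have := h.A_ne z
      show nn b z / AA b z * AA b z + -aa b z * du b z = z.2
      rw [div_mul_cancel₀ _ this]
      unfold nn
      ring
    simp only at h1
    rw [e] at h1
    rw [h1, h.VV_eq]
    exact Prod.ext rfl (by simp only; ring)
  · have s1 : ContDiff ℝ ∞ fun z => Y0 (Xi b z) := contDiff_Y0.comp (sm_Xi h.sm)
    have hO : O 4 fun z => du b z * dx Y0 (Xi b z) - dx b z * ff (Xi b z) :=
      (h.o5.du.mul_sm ((contDiff_dx contDiff_Y0).comp (sm_Xi h.sm))).sub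
        (h.o5.dx.mul_sm (contDiff_ff.comp (sm_Xi h.sm)))
    refine hO.iU.pred.congr (eq_iU (s1.sub (sm_YY h.sm)) hO.sm (fun z => ?_) fun x => ?_)
    · rw [du_sub (dAt s1 z) (dAt (sm_YY h.sm) z), du_YY h.sm]
      have := du_comp (f := Y0) (g1 := aa b) (g2 := fun z => z.2) (z := z) (dAt contDiff_Y0 _)
        (dAt (sm_aa h.sm) z) differentiableAt_snd
      rw [du_aa h.sm, du_snd, du_Y0] at this
      unfold Xi
      rw [this]
      unfold JJ AA
      ring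
    · simp [Xi]

end Pool.Agent.Lib.ISOC
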