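import Pool.Agent.Lib.ISOC.MB

/-! The inverses of the label maps `Xi b` and `Phi b`. -/

set_option autoImplicit false

open MeasureTheory Set Filter Topology Real
open scoped ContDiff ENNReal
open Pool.Agent.Lib.MP_f62ea7_gt

namespace Pool.Agent.Lib.ISOC

namespace I44

variable {b : P → ℝ}

lemma le_of_deriv {f f' : ℝ → ℝ} (h : ∀ u, HasDerivAt f (f' u) u) {a c : ℝ} (hac : a ≤ c)
    (hp : ∀ u, a < u → u < c → 0 ≤ f' u) : f a ≤ f c := by
  have hc : Continuous f := continuous_iff_continuousAt.2 fun u => (h u).continuousAt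
  refine monotoneOn_of_deriv_nonneg (convex_Icc a c) hc.continuousOn
    (fun u _ => (h u).differentiableAt.differentiableWithinAt) (fun u hu => ?_)
    (left_mem_Icc.2 hac) (right_mem_Icc.2 hac) hac
  rw [interior_Icc] at hu
  rw [(h u).deriv]
  exact hp u hu.1 hu.2

lemma der_aa (h : Con0 b) (η x : ℝ) : HasDerivAt (fun s => aa b (s, η)) (AA b (x, η)) x := by
  have := hasDerivAt_dx (dAt (sm_aa h.sm) (x, η))
  rwa [dx_aa h.sm] at this

lemma mono_aa (h : Con0 b) (η : ℝ) : StrictMono fun s => aa b (s, η) :=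
  strictMono_of_pos_off (der_aa h η) fun _ _ => h.A_pos _

lemma surj_aa (h : Con0 b) (η : ℝ) : Function.Surjective fun s => aa b (s, η) := by
  have hd : ∀ x, HasDerivAt (fun s => aa b (s, η) - 1 / 2 * s) (AA b (x, η) - 1 / 2 * 1) x :=
    fun x => (der_aa h η x).fun_sub ((hasDerivAt_id' x).const_mul _)
  have hm : ∀ a c : ℝ, a ≤ c → aa b (a, η) - 1 / 2 * a ≤ aa b (c, η) - 1 / 2 * c :=
    fun a c hac => le_of_deriv hd hac fun u _ _ => by linarith [h.A_ge (u, η)]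
  refine surj_of_linear (c := 1 / 2) (K := |aa b (0, η)|)
    (continuous_iff_continuousAt.2 fun u => (der_aa h η u).continuousAt) (by norm_num)
    (fun u hu => ?_) fun u hu => ?_
  · linarith [hm 0 u hu, neg_abs_le (aa b (0, η))]
  · linarith [hm u 0 hu, le_abs_self (aa b (0, η))]

lemma exists_Xi (h : Con0 b) : ∃ Ξi : P → P, ContDiff ℝ ∞ Ξi ∧ (∀ z, Ξi (Xi b z) = z) ∧
    ∀ z, Xi b (Ξi z) = z := by
  obtain ⟨g, -, h1, h2, h3⟩ := vinv (E := ℝ) (f := fun q : ℝ × ℝ => aa b (q.2, q.1))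
    ((sm_aa h.sm).comp (contDiff_snd.prodMk contDiff_fst)) (mono_aa h) (surj_aa h)
  have hg : ContDiff ℝ ∞ g := contDiff_iff_contDiffAt.2 fun q =>
    h3 q.1 q.2 _ (der_aa h q.1 _) (h.A_ne _)
  refine ⟨fun z => (g (z.2, z.1), z.2),
    (hg.comp (contDiff_snd.prodMk contDiff_fst)).prodMk contDiff_snd, fun z => ?_, fun z => ?_⟩
  · exact Prod.ext (h2 z.2 z.1) rfl
  · exact Prod.ext (h1 z.2 z.1) rfl

lemma J_pos (h : Con0 b) {z : P} (hz : z ≠ 0) : 0 < JJ b z := by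
  obtain ⟨Ξi, -, h1, -⟩ := exists_Xi h
  refine mul_pos (h.A_pos z) (ff_pos (z := Xi b z) fun e => hz ?_)
  exact (h1 z).symm.trans ((congrArg Ξi (e.trans h.Xi_zero.symm)).trans (h1 0))

lemma J_ge (h : Con0 b) (z : P) : min (rho (Xi b z)) 1 / 4 ≤ JJ b z := by
  have h1 := ff_ge (Xi b z)
  have h2 := h.A_ge z
  have h3 := ff_nonneg (Xi b z)
  change _ ≤ AA b z * ff (Xi b z)
  nlinarith

lemma J_ge' (h : Con0 b) (x u : ℝ) : min (u ^ 2) 1 / 4 ≤ JJ b (x, u) := by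
  have h1 : u ^ 2 ≤ rho (Xi b (x, u)) := le_add_of_nonneg_left (sq_nonneg _)
  linarith [J_ge h (x, u), min_le_min_right 1 h1]

lemma der_YY (h : Con0 b) (x u : ℝ) : HasDerivAt (fun s => YY b (x, s)) (JJ b (x, u)) u :=
  hasDerivAt_iU (sm_JJ h.sm).continuous x u

lemma mono_YY (h : Con0 b) (x : ℝ) : StrictMono fun s => YY b (x, s) :=
  strictMono_of_pos_off (der_YY h x) fun _ hu => J_pos h fun e => hu (congrArg Prod.snd e)

lemma YY_lin (h : Con0 b) (x : ℝ) {u : ℝ} (hu : 0 ≤ u) : 1 / 4 * u - 1 / 4 ≤ YY b (x, u) := by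
  have h0 : ∀ s, 0 ≤ s → 0 ≤ YY b (x, s) := fun s hs => by
    simpa using (mono_YY h x).monotone hs
  rcases le_total u 1 with h1 | h1
  · linarith [h0 u hu]
  · have hd : ∀ s, HasDerivAt (fun s => YY b (x, s) - 1 / 4 * s) (JJ b (x, s) - 1 / 4 * 1) s :=
      fun s => (der_YY h x s).fun_sub ((hasDerivAt_id' s).const_mul _)
    have := le_of_deriv hd h1 fun s hs _ => by
      have h2 := J_ge' h x s
      rw [min_eq_right (by nlinarith)] at h2
      linarith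
    linarith [h0 1 zero_le_one]

lemma YY_cube (h : Con0 b) (x : ℝ) {u : ℝ} (hu : 0 ≤ u) (h5 : u ≤ 5) :
    u ^ 3 ≤ 300 * YY b (x, u) := by
  have hd : ∀ s, HasDerivAt (fun s => 300 * YY b (x, s) - s ^ 3)
      (300 * JJ b (x, s) - 3 * s ^ 2) s :=
    fun s => ((der_YY h x s).const_mul 300).fun_sub (by simpa using hasDerivAt_pow 3 s)
  have := le_of_deriv hd hu fun s hs hs' => by
    have h2 := J_ge' h x s
    have h3 : s ^ 2 / 25 ≤ min (s ^ 2) 1 := le_min (by nlinarith) (by nlinarith)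
    linarith
  simp only [YY_zero] at this
  linarith

lemma YY_flip (h : Con0 b) (x u : ℝ) : YY b (-x, -u) = -YY b (x, u) := YY_neg h.odd (x, u)

lemma surj_YY (h : Con0 b) (x : ℝ) : Function.Surjective fun s => YY b (x, s) := by
  refine surj_of_linear (c := 1 / 4) (K := 1 / 4)
    (continuous_iff_continuousAt.2 fun u => (der_YY h x u).continuousAt) (by norm_num)
    (fun u hu => YY_lin h x hu) fun u hu => ?_
  have := YY_lin h (-x) (neg_nonneg.2 hu)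
  rw [YY_flip h] at this
  linarith

lemma cube_le (h : Con0 b) (x u : ℝ) (h1 : |YY b (x, u)| ≤ 1) :
    |u| ^ 3 ≤ 300 * |YY b (x, u)| := by
  have key : ∀ x u : ℝ, 0 ≤ u → |YY b (x, u)| ≤ 1 → u ^ 3 ≤ 300 * |YY b (x, u)| :=
    fun x u hu h1 => by
      have h2 := le_abs_self (YY b (x, u))
      have h3 := YY_lin h x hu
      linarith [YY_cube h x hu (by linarith)]
  rcases le_total 0 u with hu | hu
  · rw [abs_of_nonneg hu]; exact key x u hu h1
  · have := key (-x) (-u) (neg_nonneg.2 hu) (by rwa [YY_flip h, abs_neg])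
    rwa [YY_flip h, abs_neg, ← abs_of_nonpos hu] at this

lemma J_lo (h : Con0 b) : ∃ r, 0 < r ∧ ∀ z : P, ‖z‖ ≤ r → ‖z‖ ^ 2 / 8 ≤ JJ b z ∧
    ‖z‖ ^ 2 / 2 ≤ rho (Xi b z) ∧ rho (Xi b z) ≤ 4 * ‖z‖ ^ 2 := by
  obtain ⟨C, hC, hb⟩ := O.bound 1 (h.o5.mono (show 2 ≤ 5 by norm_num))
  refine ⟨min 1 (1 / (10 * (C + 1))), by positivity, fun z hz => ?_⟩
  have hn := norm_nonneg z
  have h1 : ‖z‖ ≤ 1 := hz.trans (min_le_left _ _)
  have h2 : ‖z‖ * (10 * (C + 1)) ≤ 1 :=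
    (le_div_iff₀ (by positivity)).1 (hz.trans (min_le_right _ _))
  have h3 : |b z| ≤ ‖z‖ / 10 := by
    have := hb z h1
    nlinarith [mul_nonneg hn hn]
  have h4 : b z ^ 2 ≤ ‖z‖ ^ 2 / 100 := by
    rw [← sq_abs]; nlinarith [abs_nonneg (b z)]
  have e : rho (Xi b z) = (z.1 + b z) ^ 2 + z.2 ^ 2 := rfl
  have h5 : ‖z‖ ^ 2 / 2 ≤ rho (Xi b z) := by
    rw [e]; nlinarith [norm_sq_le z, sq_nonneg (z.1 / 2 + 2 * b z), sq_nonneg z.2]
  refine ⟨?_, h5, ?_⟩
  · have h6 : ‖z‖ ^ 2 / 2 ≤ min (rho (Xi b z)) 1 := le_min h5 (by nlinarith)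
    linarith [J_ge h z]
  · rw [e]; nlinarith [fst_sq_le z, snd_sq_le z, sq_nonneg (z.1 - b z)]

end I44

theorem st_GEO : St_GEO := by
  intro b h
  obtain ⟨Ξi, a1, a2, a3⟩ := I44.exists_Xi h
  obtain ⟨g, g1, g2, g3, g4⟩ := vinv (E := ℝ) (f := YY b) (sm_YY h.sm) (I44.mono_YY h)
    (I44.surj_YY h)
  refine ⟨Ξi, fun p => (p.1, g p), a1, a2, a3, continuous_fst.prodMk g1,
    fun z => Prod.ext rfl (g3 z.1 z.2), fun p => Prod.ext rfl (g2 p.1 p.2), fun p hp => ?_,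
    ⟨300, fun p hp => ?_⟩, fun z hz => I44.J_pos h hz, I44.J_lo h, I44.surj_YY h⟩
  · refine contDiffAt_fst.prodMk (g4 p.1 p.2 _ (I44.der_YY h p.1 _) (I44.J_pos h fun e => hp ?_).ne')
    have e1 : p.1 = 0 := congrArg Prod.fst e
    have e2 := g2 p.1 p.2
    rw [e] at e2
    exact Prod.ext e1 (e2.symm.trans (YY_zero b 0))
  · have hn := norm_nonneg p
    have h1 := I44.cube_le h p.1 (g (p.1, p.2)) (by rw [g2]; exact (abs_snd_le p).trans hp)
    rw [g2] at h1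
    have h2 : |p.1| ^ 3 ≤ ‖p‖ :=
      (pow_le_pow_left₀ (abs_nonneg _) (abs_fst_le p) 3).trans
        (pow_le_of_le_one hn hp (by norm_num))
    have h3 := abs_snd_le p
    rw [Prod.norm_def]
    rcases le_total ‖p.1‖ ‖g p‖ with h4 | h4
    · rw [max_eq_right h4, Real.norm_eq_abs]
      exact h1.trans (by linarith)
    · rw [max_eq_left h4, Real.norm_eq_abs]
      linarith

end Pool.Agent.Lib.ISOC
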