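import Pool.Agent.Lib.ISOC.Blue
import Pool.Agent.Lib.MP_f62ea7_gt.HS
import Pool.Agent.Lib.MP_f62ea7_gt.LIFT

set_option autoImplicit false

open MeasureTheory Set Filter Topology Real
open scoped ContDiff ENNReal FourierTransform
open Pool.Agent.Lib.MP_f62ea7_gt

namespace Pool.Agent.Lib.ISOC

namespace L92

open Pool.Agent.Lib.MP_f62ea7_gt.HS

/-- decay of any polynomial order -/
lemma decayN {F : Q → ℂ} (h : Nice F) (N : ℕ) :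
    ∃ C, 0 ≤ C ∧ ∀ l θ ξ, ‖Fh F l θ ξ‖ ≤ C * (1 + ‖ξ‖ ^ 2) ^ (-(N : ℝ)) := by
  obtain ⟨C0, h0⟩ := h.pow 0
  obtain ⟨C4, h4⟩ := h.pow (2 * N)
  refine ⟨2 ^ (N - 1) * (|C0| + |C4|), by positivity, fun l θ ξ => ?_⟩
  rw [rpow_neg (by positivity), rpow_natCast, ← div_eq_mul_inv, le_div_iff₀ (by positivity)]
  have a0 := (h0 l θ ξ).trans (le_abs_self _)
  have a4 := (h4 l θ ξ).trans (le_abs_self _)
  have b : (1 + ‖ξ‖ ^ 2) ^ N ≤ 2 ^ (N - 1) * (1 ^ N + (‖ξ‖ ^ 2) ^ N) :=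
    add_pow_le one_pos.le (by positivity) N
  rw [one_pow, ← pow_mul] at b
  rw [pow_zero, one_mul] at a0
  calc ‖Fh F l θ ξ‖ * (1 + ‖ξ‖ ^ 2) ^ N
      ≤ ‖Fh F l θ ξ‖ * (2 ^ (N - 1) * (1 + ‖ξ‖ ^ (2 * N))) :=
        mul_le_mul_of_nonneg_left b (norm_nonneg _)
    _ = 2 ^ (N - 1) * (‖Fh F l θ ξ‖ + ‖ξ‖ ^ (2 * N) * ‖Fh F l θ ξ‖) := by ring
    _ ≤ _ := mul_le_mul_of_nonneg_left (add_le_add a0 a4) (by positivity)

lemma dil_one (z : ℂ) : dilC 1 z = z := by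
  apply Complex.ext <;> simp [dilC]

lemma GGb1 {F : Q → ℂ} {C c s : ℝ} {N : ℕ} (hc : c ≤ C)
    (h : ∀ l θ ξ, ‖Fh F l θ ξ‖ ≤ c * (1 + ‖ξ‖ ^ 2) ^ (-(N : ℝ))) (θ : ℝ) (ξ : ℂ) :
    ‖GG s F 1 θ ξ‖ ≤ C * (1 + ‖ξ‖ ^ 2) ^ (s / 2 - N) := by
  rw [GG, norm_smul, Real.norm_of_nonneg (by positivity), dil_one, one_pow, one_mul,
    sub_eq_add_neg, rpow_add (by positivity), mul_left_comm]
  exact mul_le_mul_of_nonneg_left
    ((h _ _ _).trans (mul_le_mul_of_nonneg_right hc (by positivity))) (by positivity)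

lemma piece1 {F : Q → ℂ} (h : Nice F) (s : ℝ) :
    ∃ g : ℝ → L2, ContDiff ℝ 1 g ∧ ∀ t z, bessel s (g t) z = F (1, t, z) := by
  obtain ⟨N, hN⟩ := exists_nat_gt (s / 2 + 1)
  obtain ⟨C0, p0, q0⟩ := decayN h N
  obtain ⟨C1, p1, q1⟩ := decayN h.d N
  obtain ⟨C2, p2, q2⟩ := decayN h.d.d N
  have hH : MemLp (fun ξ : ℂ => (1 + ‖ξ‖ ^ 2) ^ (s / 2 - N)) 2 volume := mem_wt (by linarith)
  obtain ⟨g, g', a1, a2, a3, -⟩ := curve (hH.const_mul (C0 + C1 + C2)) (h.GGc s 1) (h.d.GGc s 1)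
    (GGb1 (by linarith) q0) (GGb1 (by linarith) q1) (GGb1 (by linarith) q2) (h.GGd s 1) (h.d.GGd s 1)
  refine ⟨g, contDiff_one_iff_deriv.2 ⟨fun t => (a2 t).differentiableAt, ?_⟩, fun t z => ?_⟩
  · rw [funext fun t => (a2 t).deriv]
    exact a3
  · rw [h.bes one_pos (a1 t) z, inv_one, dil_one, one_pow, one_smul]

end L92

theorem st_LIFTS : St_LIFTS := by
  intro s M f _ hM hf
  set e := LIFT.ιL 1 one_pos with he
  obtain ⟨χ, x1, x2, -, x4, -⟩ := exists_cutoff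
    (K := ({1} : Set ℝ) ×ˢ Icc (-1 : ℝ) 1 ×ˢ (e '' M)) (O := univ)
    (isCompact_singleton.prod (isCompact_Icc.prod (hM.image e.continuous))) isOpen_univ (subset_univ _)
  have hsm : ContDiff ℝ ∞ fun q : HS.Q => e (f q.2.1 (e.symm q.2.2)) :=
    e.contDiff.comp (hf.comp (contDiff_snd.fst.prodMk (e.symm.contDiff.comp contDiff_snd.snd)))
  have h : HS.Nice fun q : HS.Q => χ q • e (f q.2.1 (e.symm q.2.2)) :=
    ⟨x1.smul hsm, x2.smul_right⟩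
  obtain ⟨g, hg, hb⟩ := L92.piece1 h s
  refine ⟨g, hg, fun θ hθ p hp => ?_⟩
  rw [hb, ← LIFT.ιL_apply 1 one_pos, ← LIFT.ιL_apply 1 one_pos, ← he]
  dsimp only
  rw [x4 (1, θ, e p) ⟨rfl, hθ, mem_image_of_mem _ hp⟩, one_smul, e.symm_apply_apply]

end Pool.Agent.Lib.ISOC
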