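import Pool.Agent.Lib.ISOC.OC

/-! The linearised operator is onto on homogeneous polynomials. -/

set_option autoImplicit false

open scoped ContDiff
open Pool.Agent.Lib.MP_f62ea7_gt

namespace Pool.Agent.Lib.ISOC

namespace L66

lemma dx_mono (c : ℝ) (i j : ℕ) : dx (fun z : P => c * z.1 ^ i * z.2 ^ j) =
    fun z => c * i * z.1 ^ (i - 1) * z.2 ^ j := funext fun z =>
  dx_eq (by fun_prop) ((((hasDerivAt_pow i z.1).const_mul c).mul_const (z.2 ^ j)).congr_deriv
    (by ring))

lemma du_mono (c : ℝ) (i j : ℕ) : du (fun z : P => c * z.1 ^ i * z.2 ^ j) =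
    fun z => c * j * z.1 ^ i * z.2 ^ (j - 1) := funext fun z =>
  du_eq (by fun_prop) (((hasDerivAt_pow j z.2).const_mul (c * z.1 ^ i)).congr_deriv (by ring))

lemma LL_mono (c : ℝ) (i j : ℕ) (z : P) : LL (fun z : P => c * z.1 ^ (i + 1) * z.2 ^ j) z =
    c * ((i + 1) * (j + 2)) * z.1 ^ i * z.2 ^ j -
      c * (j * (j - 1 : ℕ)) * z.1 ^ (i + 2) * z.2 ^ (j - 2) := by
  simp only [LL, dx_mono, du_mono, Nat.add_sub_cancel, Nat.sub_sub]
  cases j with
  | zero => simp; ring
  | succ j => simp only [Nat.add_sub_cancel]; push_cast; ring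

lemma LL_add {f g : P → ℝ} (hf : ContDiff ℝ ∞ f) (hg : ContDiff ℝ ∞ g) (z : P) :
    LL (fun z => f z + g z) z = LL f z + LL g z := by
  have h1 : dx (fun z => f z + g z) = fun z => dx f z + dx g z :=
    funext fun z => dx_add (dAt hf z) (dAt hg z)
  have h2 : du (fun z => f z + g z) = fun z => du f z + du g z :=
    funext fun z => du_add (dAt hf z) (dAt hg z)
  simp only [LL]
  rw [h1, h2,
    du_add (dAt (contDiff_dx hf) z) (dAt (contDiff_dx hg) z),
    du_add (dAt (contDiff_du hf) z) (dAt (contDiff_du hg) z)]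
  ring

lemma mono (j : ℕ) : ∀ (c : ℝ) (i : ℕ),
    ∃ f, Hom (i + j + 1) f ∧ ∀ z, LL f z = c * z.1 ^ i * z.2 ^ j := by
  induction j using Nat.strong_induction_on with
  | _ j ih =>
    intro c i
    set a : ℝ := c / ((i + 1) * (j + 2)) with ha
    have h0 : a * ((i + 1) * (j + 2)) = c := div_mul_cancel₀ _ (by positivity)
    have h1 : Hom (i + j + 1) fun z => a * z.1 ^ (i + 1) * z.2 ^ j :=
      Hom.mono a (i + 1) j (by omega)
    by_cases hj : j < 2
    · refine ⟨_, h1, fun z => ?_⟩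
      rw [LL_mono, h0]
      interval_cases j <;> simp
    · obtain ⟨f, h2, h3⟩ := ih (j - 2) (by omega) (a * (j * (j - 1 : ℕ))) (i + 2)
      rw [show i + 2 + (j - 2) + 1 = i + j + 1 by omega] at h2
      refine ⟨_, h1.add h2, fun z => ?_⟩
      rw [LL_add h1.sm h2.sm, LL_mono, h0, h3, sub_add_cancel]

end L66

theorem st_LINV : St_LINV := by
  intro m H h
  induction h with
  | mono c i j e => exact e ▸ L66.mono j c i
  | add _ _ i1 i2 =>
    obtain ⟨f, f1, f2⟩ := i1
    obtain ⟨g, g1, g2⟩ := i2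
    exact ⟨_, f1.add g1, fun z => by rw [L66.LL_add f1.sm g1.sm, f2, g2]⟩

end Pool.Agent.Lib.ISOC
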