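import Pool.Agent.Lib.ISOC.MB

set_option autoImplicit false

open Set Filter Topology
open scoped ContDiff
open Pool.Agent.Lib.MP_f62ea7_gt

namespace Pool.Agent.Lib.ISOC

namespace I17

/-- The pointwise inequality, with `t` the size of the gain and `e` the size of the errors. -/
theorem quad {E F G α β δ t e x y : ℝ} (hE : |E - 1| ≤ e) (hF : |F| ≤ e) (hG : |G - 1| ≤ e)
    (ht : t ≤ δ) (ht0 : 0 ≤ t) (ht1 : t ≤ 1) {m : ℝ} (hm0 : 0 ≤ m)
    (hm : (1 + α) ^ 2 + β ^ 2 ≤ 1 + m) (h : m + 2 * e ≤ t) :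
    (1 - δ) * (x * (1 + α) + y * β) ^ 2 ≤ E * x * x + F * (x * y + y * x) + G * y * y := by
  have hN : 0 ≤ x ^ 2 + y ^ 2 := by positivity
  have h1 : (x * (1 + α) + y * β) ^ 2 ≤ (x ^ 2 + y ^ 2) * (1 + m) :=
    le_trans (by nlinarith [sq_nonneg (x * β - y * (1 + α))]) (mul_le_mul_of_nonneg_left hm hN)
  have h2 : (1 - δ) * (x * (1 + α) + y * β) ^ 2 ≤ (1 - t) * ((x ^ 2 + y ^ 2) * (1 + m)) :=
    (mul_le_mul_of_nonneg_right (by linarith) (sq_nonneg _)).trans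
      (mul_le_mul_of_nonneg_left h1 (by linarith))
  have h3 : (1 - t) * (1 + m) ≤ 1 - 2 * e := by nlinarith [mul_nonneg ht0 hm0]
  have h4 := mul_le_mul_of_nonneg_left h3 hN
  obtain ⟨a1, -⟩ := abs_le.1 hE
  obtain ⟨b1, b2⟩ := abs_le.1 hF
  obtain ⟨c1, -⟩ := abs_le.1 hG
  have k1 := mul_nonneg (show 0 ≤ E - 1 + e by linarith) (sq_nonneg x)
  have k2 := mul_nonneg (show 0 ≤ G - 1 + e by linarith) (sq_nonneg y)
  have k3 := mul_nonneg (show 0 ≤ e + F by linarith) (sq_nonneg (x + y))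
  have k4 := mul_nonneg (show 0 ≤ e - F by linarith) (sq_nonneg (x - y))
  nlinarith

/-- A function of order four divided by `J` is of order two. -/
theorem quot {f J s C : ℝ} (hs : 0 ≤ s) (hC : 0 ≤ C) (hf : |f| ≤ C * s ^ 4) (hJ : s ^ 2 / 8 ≤ J) :
    |f / J| ≤ 8 * C * s ^ 2 := by
  rcases hs.eq_or_lt with h0 | h0
  · subst h0
    have h2 : f = 0 := by simpa using hf
    simp [h2]
  · have h1 : 0 < s ^ 2 / 8 := by positivity
    rw [abs_div, abs_of_pos (h1.trans_le hJ)]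
    refine (div_le_div₀ (by positivity) hf h1 hJ).trans_eq ?_
    field_simp

end I17

open I17 in
theorem st_LOWM : St_LOWM := by
  intro b Ξi Ψ r C E F G hb hl hm
  obtain ⟨r0, hr0, hJ⟩ := hl.J_lo
  obtain ⟨C1, p1, b1⟩ := (O.dx hb.o5).bound 1
  obtain ⟨C2, p2, b2⟩ := (O.du hb.o5).bound 1
  obtain ⟨C3, p3, b3⟩ := (O_Yx hb.o5).bound 1
  obtain ⟨K, hK⟩ : ∃ K, K = C1 + C3 * (8 * C2) := ⟨_, rfl⟩
  have pK : 0 ≤ K := by rw [hK]; positivity
  obtain ⟨M, hM⟩ : ∃ M, M = 2 * K + K ^ 2 + (8 * C2) ^ 2 := ⟨_, rfl⟩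
  have pM : 0 ≤ M := by rw [hM]; positivity
  have pD : 0 < 520 * (M + 2 * |C| + 1) := by positivity
  refine ⟨min (min r r0) (min 1 (1 / (520 * (M + 2 * |C| + 1)))),
    lt_min (lt_min hm.r_pos hr0) (lt_min one_pos (by positivity)),
    (min_le_left _ _).trans (min_le_left _ _), fun z hz => ?_⟩
  simp only [le_min_iff] at hz
  obtain ⟨⟨z1, z2⟩, z3, z4⟩ := hz
  obtain ⟨j1, j2, -⟩ := hJ z z2
  obtain ⟨n1, n2, n3⟩ := hm.near z z1
  have s0 := norm_nonneg z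
  have q1 := b1 z z3
  have q2 := quot s0 p2 (b2 z z3) j1
  have q3 := b3 z z3
  generalize ‖z‖ = s at *
  have s2 : 0 ≤ s ^ 2 := sq_nonneg s
  have s4 : 0 ≤ s ^ 4 := by positivity
  have s21 : s ^ 2 ≤ s := by nlinarith
  have s41 : s ^ 4 ≤ 1 := pow_le_one₀ s0 z3
  have hC : C * s ^ 4 ≤ |C| * s ^ 4 := mul_le_mul_of_nonneg_right (le_abs_self C) s4
  have hs : s * (520 * (M + 2 * |C| + 1)) ≤ 1 := (le_div_iff₀ pD).1 z4
  have hsm : (M + 2 * |C|) * s ^ 2 ≤ 1 / 520 := by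
    have : (M + 2 * |C|) * s ^ 2 ≤ (M + 2 * |C|) * s := mul_le_mul_of_nonneg_left s21 (by positivity)
    nlinarith
  have hfin : M * s ^ 4 + 2 * (|C| * s ^ 4) ≤ s ^ 2 / 520 := by
    have := mul_le_mul_of_nonneg_right hsm s2
    nlinarith
  have hα : |LX b b z| ≤ K * s ^ 4 := by
    unfold LX
    rw [mul_div_assoc]
    refine (abs_sub _ _).trans ?_
    rw [abs_mul]
    have := mul_le_mul q3 q2 (abs_nonneg _) (by positivity)
    rw [hK]
    nlinarith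
  have hβ : |LY b b z| ≤ 8 * C2 * s ^ 2 := q2
  refine ⟨?_, fun h => ?_⟩
  · have := (abs_le.1 n1).1
    have : 0 ≤ M * s ^ 4 := by positivity
    have : 0 ≤ |C| * s ^ 4 := by positivity
    nlinarith
  · unfold gq
    refine quad (n1.trans hC) (n2.trans hC) (n3.trans hC) (t := s ^ 2 / 520) (by linarith)
      (by positivity) (by nlinarith) (m := M * s ^ 4) (by positivity) ?_ hfin
    have a1 := (abs_le.1 hα).2
    have a2 : LX b b z ^ 2 ≤ (K * s ^ 4) ^ 2 := sq_le_sq' (abs_le.1 hα).1 a1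
    have a3 : LY b b z ^ 2 ≤ (8 * C2 * s ^ 2) ^ 2 := sq_le_sq' (abs_le.1 hβ).1 (abs_le.1 hβ).2
    have a4 : K ^ 2 * s ^ 4 * s ^ 4 ≤ K ^ 2 * s ^ 4 * 1 :=
      mul_le_mul_of_nonneg_left s41 (by positivity)
    rw [hM]
    nlinarith

end Pool.Agent.Lib.ISOC
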