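import Pool.Agent.Lib.ISOC.MB

set_option autoImplicit false

open Set Filter Topology
open scoped ContDiff
open Pool.Agent.Lib.MP_f62ea7_gt

namespace Pool.Agent.Lib.ISOC

namespace I12

/-- A flat function divided by `Q` is of order four. -/
theorem quot_le {Q F : P → ℝ} {r c : ℝ} (hc : 0 < c) (hQ : ∀ z : P, ‖z‖ ≤ r → c * ‖z‖ ^ 6 ≤ Q z)
    (hF : Flat F) : ∃ C, 0 ≤ C ∧ ∀ z : P, ‖z‖ ≤ r → |F z / Q z| ≤ C * ‖z‖ ^ 4 := by
  obtain ⟨C, hC, h⟩ := (hF 10).bound r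
  refine ⟨C / c, by positivity, fun z hz => ?_⟩
  rcases (norm_nonneg z).eq_or_lt with h0 | h0
  · have h1 := h z hz
    rw [← h0] at h1 ⊢
    have h2 : F z = 0 := by simpa using h1
    simp [h2]
  · have h1 : 0 < c * ‖z‖ ^ 6 := by positivity
    rw [abs_div, abs_of_pos (h1.trans_le (hQ z hz))]
    refine (div_le_div₀ (by positivity) (h z hz) h1 (hQ z hz)).trans_eq ?_
    field_simp

end I12

open I12 in
theorem st_MET (hF : St_FLAT) : St_MET := by
  intro b Ξi Ψ hb hl hv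
  obtain ⟨r, c, hr, hc, hQ⟩ := hv.Q_lo
  let β : ContDiffBump (0 : P) := ⟨r / 4, r / 2, by positivity, by linarith⟩
  have β1 : ∀ z : P, ‖z‖ ≤ r / 4 → β z = 1 := fun z hz =>
    β.one_of_mem_closedBall (by simpa using hz)
  have key : ∀ F, Flat F → ContDiff ℝ ∞ fun p => β (Ψ p) * F (Ψ p) / QQ b (Ψ p) := fun F h =>
    hF b Ξi Ψ hb.toCon0 hl (QQ b) (r / 2) c hv.sm_QQ (by positivity) hc
      (fun z hz => hQ z (by linarith)) (fun z => β z * F z) (Flat.sm_mul β.contDiff h)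
      fun z hz => by rw [β.zero_of_le_dist (by simpa using hz.le), zero_mul]
  have f1 : Flat fun z => eps b z * (UU b z + eps b z) :=
    hv.eps_flat.mul_sm (hv.U_O.sm.add hv.eps_flat.sm)
  have f2 : Flat fun z => eps b z * VV b z := hv.eps_flat.mul_sm hv.V_O.sm
  have f3 : Flat fun z => eps b z * UU b z := hv.eps_flat.mul_sm hv.U_O.sm
  have hQ' : ∀ z : P, ‖z‖ ≤ r / 4 → c * ‖z‖ ^ 6 ≤ QQ b z := fun z hz => hQ z (by linarith)
  obtain ⟨C1, p1, b1⟩ := quot_le hc hQ' f1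
  obtain ⟨C2, p2, b2⟩ := quot_le hc hQ' f2
  obtain ⟨C3, p3, b3⟩ := quot_le hc hQ' f3
  have alt : ∀ z : P, ‖z‖ ≤ r / 4 → eps b z = 0 ∨ QQ b z ≠ 0 := fun z hz => by
    rcases eq_or_ne z 0 with rfl | h0
    · exact Or.inl (hv.eps_flat 1).at_zero
    · have := norm_pos_iff.2 h0
      exact Or.inr (lt_of_lt_of_le (by positivity) (hQ' z hz)).ne'
  refine ⟨r / 4, C1 + C2 + C3,
    fun p => 1 + β (Ψ p) * (eps b (Ψ p) * (UU b (Ψ p) + eps b (Ψ p))) / QQ b (Ψ p),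
    fun p => β (Ψ p) * (eps b (Ψ p) * VV b (Ψ p)) / QQ b (Ψ p),
    fun p => 1 - β (Ψ p) * (eps b (Ψ p) * UU b (Ψ p)) / QQ b (Ψ p), by positivity,
    contDiff_const.add (key _ f1), key _ f2, contDiff_const.sub (key _ f3), fun z hz => ?_,
    fun z hz => ?_, fun z hz => ?_, fun z hz => ?_, fun z hz => ?_⟩
  · rw [hl.Φ_l, β1 z hz]
    rcases alt z hz with h | h
    · simp [h]
    · field_simp
      rw [QQ]
      ring
  · rw [hl.Φ_l, β1 z hz]
    rcases alt z hz with h | h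
    · simp [h]
    · field_simp
      rw [QQ]
      ring
  · rw [hl.Φ_l, β1 z hz]
    ring
  · have e : QQ b (-z) = QQ b z := by
      simp only [QQ, hv.U_odd, hv.V_odd, hv.eps_odd]
      ring
    rw [hl.Φ_l, hl.Φ_l, β1 z hz, β1 (-z) (by rwa [norm_neg]), e, hv.U_odd, hv.V_odd, hv.eps_odd]
    exact ⟨by ring, by ring, by ring⟩
  · have a := pow_nonneg (norm_nonneg z) 4
    have a1 := mul_nonneg p1 a
    have a2 := mul_nonneg p2 a
    have a3 := mul_nonneg p3 a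
    rw [hl.Φ_l, β1 z hz, one_mul, one_mul, one_mul, add_sub_cancel_left, sub_sub_cancel_left,
      abs_neg]
    exact ⟨by linarith [b1 z hz], by linarith [b2 z hz], by linarith [b3 z hz]⟩

end Pool.Agent.Lib.ISOC
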