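import Pool.Agent.Lib.ISOC.OC

/-! The model inequalities. -/

set_option autoImplicit false

open MeasureTheory Set Filter Topology Real
open scoped ContDiff ENNReal
open Pool.Agent.Lib.MP_f62ea7_gt

namespace Pool.Agent.Lib.ISOC

namespace I20

lemma le_of_der {f f' : ℝ → ℝ} (hf : ∀ t, HasDerivAt f (f' t) t) {a b : ℝ} (hab : a ≤ b)
    (h : ∀ t, a ≤ t → t ≤ b → 0 ≤ f' t) : f a ≤ f b :=
  monotoneOn_of_deriv_nonneg (convex_Icc a b)
    (fun t _ => (hf t).continuousAt.continuousWithinAt)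
    (fun t _ => (hf t).differentiableAt.differentiableWithinAt)
    (fun t ht => by
      rw [(hf t).deriv]
      have := interior_subset ht
      exact h t this.1 this.2) (left_mem_Icc.2 hab) (right_mem_Icc.2 hab) hab

lemma rho_nn (z : P) : 0 ≤ rho z := by unfold rho; positivity

lemma one_rho_pos (z : P) : 0 < 1 + rho z := by have := rho_nn z; linarith

lemma rho_sm : ContDiff ℝ ∞ rho := by unfold rho; fun_prop

lemma ff_sm : ContDiff ℝ ∞ ff := by
  unfold ff
  exact contDiff_const.sub (contDiff_const.div ((contDiff_const.add rho_sm).pow 2)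
    fun z => (pow_pos (one_rho_pos z) 2).ne')

lemma kap_sm : ContDiff ℝ ∞ kap := by
  unfold kap
  exact rho_sm.div (contDiff_const.mul (contDiff_const.add rho_sm))
    fun z => (mul_pos two_pos (one_rho_pos z)).ne'

lemma ff_nn (z : P) : 0 ≤ ff z := by
  unfold ff
  have h := rho_nn z
  have h1 : 1 / (1 + rho z) ^ 2 ≤ 1 := by
    rw [div_le_one (pow_pos (one_rho_pos z) 2)]; nlinarith
  linarith

lemma ff_le (z : P) : ff z ≤ 1 := by
  unfold ff
  have : 0 ≤ 1 / (1 + rho z) ^ 2 := by positivity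
  linarith

lemma ff_lo (z : P) {r : ℝ} (h0 : 0 ≤ r) (h1 : r ≤ 1) (h : r ≤ rho z) : r / 2 ≤ ff z := by
  unfold ff
  have h2 : 1 / (1 + rho z) ^ 2 ≤ 1 / (1 + r) ^ 2 :=
    one_div_le_one_div_of_le (by positivity) (by nlinarith)
  have h3 : 1 / (1 + r) ^ 2 ≤ 1 - r / 2 := by
    rw [div_le_iff₀ (by positivity)]
    nlinarith [mul_nonneg h0 (show 0 ≤ 3 - r ^ 2 by nlinarith)]
  linarith

lemma rho_dx (x u : ℝ) : HasDerivAt (fun s => rho (s, u)) (2 * x) x := by
  unfold rho
  simpa using (hasDerivAt_pow 2 x).add_const (u ^ 2)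

lemma rho_du (x u : ℝ) : HasDerivAt (fun s => rho (x, s)) (2 * u) u := by
  unfold rho
  simpa using (hasDerivAt_pow 2 u).const_add (x ^ 2)

lemma dx_kap (z : P) : dx kap z = z.1 / (1 + rho z) ^ 2 := by
  refine dx_eq (dAt kap_sm z) ?_
  have h := rho_dx z.1 z.2
  have h0 := one_rho_pos z
  have h1 := h.div ((h.const_add 1).const_mul 2) (mul_pos two_pos h0).ne'
  refine h1.congr_deriv ?_
  change (2 * z.1 * (2 * (1 + rho z)) - rho z * (2 * (2 * z.1))) / (2 * (1 + rho z)) ^ 2 = _
  field_simp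
  ring

lemma du_kap (z : P) : du kap z = z.2 / (1 + rho z) ^ 2 := by
  refine du_eq (dAt kap_sm z) ?_
  have h := rho_du z.1 z.2
  have h0 := one_rho_pos z
  have h1 := h.div ((h.const_add 1).const_mul 2) (mul_pos two_pos h0).ne'
  refine h1.congr_deriv ?_
  change (2 * z.2 * (2 * (1 + rho z)) - rho z * (2 * (2 * z.2))) / (2 * (1 + rho z)) ^ 2 = _
  field_simp
  ring

lemma psi_du (x u : ℝ) : HasDerivAt (fun s => psi (x, s)) (u * ff (x, u)) u := by
  have h := rho_du x u
  have h0 := one_rho_pos (x, u)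
  have h1 := (h.pow 2).div ((h.const_add 1).const_mul 2) (mul_pos two_pos h0).ne'
  refine h1.congr_deriv ?_
  unfold ff
  simp only [Pi.pow_apply]
  field_simp
  ring

lemma Y0_du (x u : ℝ) : HasDerivAt (fun s => Y0 (x, s)) (ff (x, u)) u :=
  hasDerivAt_iU ff_sm.continuous x u

lemma Y0_neg (x u : ℝ) : Y0 (x, -u) = -Y0 (x, u) := by
  have := intervalIntegral.integral_comp_neg (a := u) (b := 0) fun s => ff (x, s)
  have e : ∀ s : ℝ, ff (x, -s) = ff (x, s) := fun s => by simp [ff, rho]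
  simp only [e, neg_zero] at this
  unfold Y0 iU
  rw [← this, intervalIntegral.integral_symm]

lemma Y0_lip (x : ℝ) {a b : ℝ} (hab : a ≤ b) : Y0 (x, b) - Y0 (x, a) ≤ b - a := by
  have := le_of_der (f := fun s => s - Y0 (x, s)) (f' := fun s => 1 - ff (x, s))
    (fun t => (hasDerivAt_id t).sub (Y0_du x t)) hab fun t _ _ => by linarith [ff_le (x, t)]
  linarith

lemma DD_du (x u p : ℝ) : HasDerivAt (fun s => DD x s p) ((u - p) * ff (x, u)) u := by
  unfold DD
  refine (((Y0_du x u).const_sub _).const_mul p |>.sub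
    ((psi_du x u).const_sub _)).congr_deriv ?_
  ring

lemma DD_dp (x u p : ℝ) : HasDerivAt (fun s => DD x u s) (Y0 (x, p) - Y0 (x, u)) p := by
  unfold DD
  refine (((hasDerivAt_id p).mul ((Y0_du x p).sub_const (Y0 (x, u)))).sub
    ((psi_du x p).sub_const (psi (x, u)))).congr_deriv ?_
  simp only [id]
  ring

lemma DD_self (x u : ℝ) : DD x u u = 0 := by simp [DD]

lemma D1 (x u p : ℝ) : (Y0 (x, p) - Y0 (x, u)) ^ 2 ≤ 2 * DD x u p := by
  have hd : ∀ t, HasDerivAt (fun s => 2 * DD x s p - (Y0 (x, p) - Y0 (x, s)) ^ 2)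
      (2 * ff (x, t) * (t - p + (Y0 (x, p) - Y0 (x, t)))) t := fun t => by
    refine (((DD_du x t p).const_mul 2).sub
      (((Y0_du x t).const_sub (Y0 (x, p))).pow 2)).congr_deriv ?_
    simp only [Nat.cast_ofNat]
    ring
  rcases le_total u p with h | h
  · have := le_of_der (fun t => (hd t).neg) h fun t _ ht => by
      have h1 := Y0_lip x ht
      have h2 := ff_nn (x, t)
      nlinarith [mul_nonneg h2 (show 0 ≤ p - t - (Y0 (x, p) - Y0 (x, t)) by linarith)]
    simp only [Pi.neg_apply, DD_self] at this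
    nlinarith
  · have := le_of_der hd h fun t ht _ => by
      have h1 := Y0_lip x ht
      have h2 := ff_nn (x, t)
      exact mul_nonneg (by linarith) (by linarith)
    simp only [DD_self] at this
    nlinarith

lemma K_out {x u a b : ℝ} (h : rho (x, u) ≤ 1) (ha : |u| ≤ a) (hab : a ≤ b) :
    rho (x, u) / 2 * (b - a) ≤ Y0 (x, b) - Y0 (x, a) := by
  have := le_of_der (f := fun s => Y0 (x, s) - rho (x, u) / 2 * s)
    (f' := fun s => ff (x, s) - rho (x, u) / 2)
    (fun t => ((Y0_du x t).sub ((hasDerivAt_id t).const_mul (rho (x, u) / 2))).congr_deriv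
      (by ring)) hab
    fun t ht _ => by
      have h1 : rho (x, u) ≤ rho (x, t) := by
        unfold rho
        have := sq_le_sq' (a := |u|) (b := t) (by linarith [abs_nonneg u]) (ha.trans ht)
        rw [sq_abs] at this
        simpa using this
      linarith [ff_lo (x, t) (rho_nn _) h h1]
  linarith

lemma K_in {x u b : ℝ} (h : rho (x, u) ≤ 1) (hub : u ≤ b) (hb : b ≤ -u) :
    rho (x, u) / 8 * (b - u) ≤ Y0 (x, b) - Y0 (x, u) := by
  have := le_of_der (f := fun s => Y0 (x, s) - (x ^ 2 / 2 * s + s ^ 3 / 6))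
    (f' := fun s => ff (x, s) - rho (x, s) / 2)
    (fun t => by
      refine ((Y0_du x t).sub (((hasDerivAt_id t).const_mul (x ^ 2 / 2)).add
        ((hasDerivAt_pow 3 t).div_const 6))).congr_deriv ?_
      simp only [rho]
      push_cast
      ring) hub
    fun t ht ht' => by
      have h1 : rho (x, t) ≤ rho (x, u) := by
        unfold rho
        nlinarith
      linarith [ff_lo (x, t) (rho_nn _) (h1.trans h) le_rfl]
  have h2 : 0 ≤ (b - u) * (3 * x ^ 2 / 8 + (b + u / 2) ^ 2 / 6) :=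
    mul_nonneg (by linarith) (by positivity)
  unfold rho
  nlinarith

lemma K_up {x u b : ℝ} (h : rho (x, u) ≤ 1) (hub : u ≤ b) :
    rho (x, u) / 8 * (b - u) ≤ Y0 (x, b) - Y0 (x, u) := by
  have h0 := rho_nn (x, u)
  rcases le_total 0 u with hu | hu
  · have := K_out h (abs_of_nonneg hu).le hub
    nlinarith [mul_nonneg h0 (sub_nonneg.2 hub)]
  · rcases le_total b (-u) with hb | hb
    · exact K_in h hub hb
    · have h1 := K_in h (b := -u) (by linarith) le_rfl
      have h2 := K_out h (abs_of_nonpos hu).le hb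
      nlinarith [mul_nonneg h0 (sub_nonneg.2 hb)]

lemma K_down {x u b : ℝ} (h : rho (x, u) ≤ 1) (hub : b ≤ u) :
    Y0 (x, b) - Y0 (x, u) ≤ rho (x, u) / 8 * (b - u) := by
  have e : rho (x, -u) = rho (x, u) := by simp [rho]
  have := K_up (x := x) (u := -u) (b := -b) (by rwa [e]) (by linarith)
  rw [Y0_neg, Y0_neg, e] at this
  linarith

lemma D2 (x u p : ℝ) (h : rho (x, u) ≤ 1) : rho (x, u) * (p - u) ^ 2 / 32 ≤ DD x u p := by
  have h0 := rho_nn (x, u)
  have hd : ∀ t, HasDerivAt (fun s => DD x u s - rho (x, u) / 16 * (s - u) ^ 2)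
      (Y0 (x, t) - Y0 (x, u) - rho (x, u) / 8 * (t - u)) t := fun t => by
    refine ((DD_dp x u t).sub
      ((((hasDerivAt_id t).sub_const u).pow 2).const_mul (rho (x, u) / 16))).congr_deriv ?_
    simp only [id, Nat.cast_ofNat]
    ring
  have h3 : 0 ≤ rho (x, u) * (p - u) ^ 2 := by positivity
  rcases le_total u p with hp | hp
  · have := le_of_der hd hp fun t ht _ => by linarith [K_up h ht]
    simp only [DD_self] at this
    nlinarith
  · have := le_of_der (fun t => (hd t).neg) hp fun t _ ht => by linarith [K_down h ht]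
    simp only [Pi.neg_apply, DD_self] at this
    nlinarith

lemma xk_sm : ContDiff ℝ ∞ fun z : P => z.1 * kap z := contDiff_fst.mul kap_sm

lemma dx_H0 (z : P) : dx H0 z = Y0 z - kap z * z.2 := by
  unfold H0
  rw [dx_iU xk_sm]
  refine (eq_iU (F := fun z => Y0 z - kap z * z.2)
    ((contDiff_iU ff_sm).sub (kap_sm.mul contDiff_snd)) (contDiff_dx xk_sm) (fun z => ?_)
    (fun x => by simp [Y0]) z).symm
  have h1 : du Y0 z = ff z := du_iU ff_sm z
  have h2 : DifferentiableAt ℝ Y0 z := dAt (contDiff_iU ff_sm) z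
  rw [du_sub h2 (dAt (kap_sm.mul contDiff_snd) z), du_mul (dAt kap_sm z) differentiableAt_snd,
    dx_mul differentiableAt_fst (dAt kap_sm z), h1, du_kap, dx_kap, du_snd, dx_fst]
  have h0 := (one_rho_pos z).ne'
  have e : rho z = z.1 ^ 2 + z.2 ^ 2 := rfl
  unfold ff kap
  field_simp
  rw [e]
  ring

end I20

theorem st_MOD : St_MOD :=
  ⟨fun z => ⟨I20.dx_H0 z, (du_iU I20.xk_sm z).trans (mul_comm _ _)⟩,
    iU_of_odd fun z => by simp [kap, rho], I20.D1, I20.D2⟩

end Pool.Agent.Lib.ISOC
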