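import Pool.Agent.Lib.ISOC.P80

/-! The Legendre estimate along one particle. -/

set_option autoImplicit false

open MeasureTheory Set Filter Topology Real
open scoped ContDiff ENNReal
open Pool.Agent.Lib.MP_f62ea7_gt

namespace Pool.Agent.Lib.ISOC

namespace P80

variable {x x' u : ℝ → ℝ} {t a b : ℝ}

lemma rho_sm : ContDiff ℝ ∞ rho := (contDiff_fst.pow 2).add (contDiff_snd.pow 2)
lemma one_rho_ne (z : P) : 1 + rho z ≠ 0 := by unfold rho; positivity
lemma ff_sm : ContDiff ℝ ∞ ff :=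
  contDiff_const.sub (contDiff_const.div ((contDiff_const.add rho_sm).pow 2)
    fun z => pow_ne_zero 2 (one_rho_ne z))
lemma kap_sm : ContDiff ℝ ∞ kap :=
  rho_sm.div (contDiff_const.mul (contDiff_const.add rho_sm))
    fun z => mul_ne_zero two_ne_zero (one_rho_ne z)
lemma psi_sm : ContDiff ℝ ∞ psi :=
  (rho_sm.pow 2).div (contDiff_const.mul (contDiff_const.add rho_sm))
    fun z => mul_ne_zero two_ne_zero (one_rho_ne z)
lemma Y0_sm : ContDiff ℝ ∞ Y0 := contDiff_iU ff_sm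
lemma H0_sm : ContDiff ℝ ∞ H0 := contDiff_iU (contDiff_fst.mul kap_sm)

noncomputable def sg (x : ℝ → ℝ) (t : ℝ) : ℝ := H0 (x t, pp x t) - H0 (x 0, ut x t)
noncomputable def sg' (x x' : ℝ → ℝ) (t : ℝ) : ℝ := Y0 (x t, pp x t) * x' t - psi (x t, pp x t)

lemma sg_der (hM : St_MOD) (hs : sin t ≠ 0) (hd : HasDerivAt x (x' t) t) :
    HasDerivAt (sg x) (sg' x x' t) t := by
  have h1 := hasDerivAt_comp (f := H0) (c := fun τ => (x τ, pp x τ)) (dAt H0_sm _)
    (hd.prodMk (pp_der hs hd))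
  have h2 := hasDerivAt_comp (f := H0) (c := fun τ => (x 0, ut x τ)) (dAt H0_sm _)
    ((hasDerivAt_const t (x 0)).prodMk (ut_der hs hd))
  refine (h1.sub h2).congr_deriv ?_
  have hk : kap (x 0, ut x t) = kap (x t, pp x t) := by unfold kap; rw [rho_eq hs]
  have hψ : psi (x t, pp x t) = kap (x t, pp x t) * (x t ^ 2 + pp x t ^ 2) := by
    unfold psi kap rho; ring
  have hp : x t * (cos t / sin t) - x 0 / sin t = pp x t := by unfold pp; ring
  simp only [(hM.1 _).1, (hM.1 _).2, hk, sg', hψ]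
  have he := x'_eq (x := x) (x' := x') hs
  set κ := kap (x t, pp x t)
  set e := ee x x' t
  set p := pp x t
  linear_combination κ * e * hp - κ * p * he

lemma point (hM : St_MOD) (hs : sin t ≠ 0) (h1 : rho (x t, u t) ≤ 1) :
    rho (x t, u t) * (x' t - u t) ^ 2 ≤ 130 * ee x x' t ^ 2 +
      128 * (psi (x t, u t) - Y0 (x t, u t) * x' t) + 128 * sg' x x' t := by
  have a1 := hM.2.2.1 (x t) (u t) (pp x t)
  have a2 := hM.2.2.2 (x t) (u t) (pp x t) h1
  have a0 : 0 ≤ rho (x t, u t) := by unfold rho; positivity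
  unfold sg'
  unfold DD at a1 a2
  rw [x'_eq (x := x) (x' := x') hs]
  set e := ee x x' t
  set p := pp x t
  set r := rho (x t, u t)
  set A := Y0 (x t, p)
  set B := Y0 (x t, u t)
  have b1 : r * (p + e - u t) ^ 2 ≤ 2 * e ^ 2 + 2 * (r * (p - u t) ^ 2) := by
    have : (p + e - u t) ^ 2 ≤ 2 * e ^ 2 + 2 * (p - u t) ^ 2 := by
      nlinarith [sq_nonneg (p - u t - e)]
    nlinarith [sq_nonneg e, mul_le_mul_of_nonneg_left this a0]
  nlinarith [sq_nonneg (2 * e + (A - B))]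

lemma ii_T (h : Part x x' u) (ha : a ∈ Icc 0 π) (hb : b ∈ Icc 0 π) :
    IntervalIntegrable (fun t => psi (x t, u t) - Y0 (x t, u t) * x' t) volume a b :=
  ((psi_sm.continuous.comp (h.x_cont.prodMk h.u_cont)).intervalIntegrable _ _).sub
    ((ii_x' h ha hb).continuousOn_mul
      (Y0_sm.continuous.comp (h.x_cont.prodMk h.u_cont)).continuousOn)

lemma main (hM : St_MOD) (h : Part x x' u) (ha : a ∈ Ioo 0 π) (hb : b ∈ Ioo 0 π) (hab : a ≤ b) :
    ∫ t in a..b, rho (x t, u t) * (x' t - u t) ^ 2 ≤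
      130 * (∫ t in (0 : ℝ)..π, (x' t ^ 2 - x t ^ 2)) +
        128 * (∫ t in a..b, (psi (x t, u t) - Y0 (x t, u t) * x' t)) + 128 * (sg x b - sg x a) := by
  obtain ⟨S, hS⟩ := h.der
  have ha' := Ioo_subset_Icc_self ha
  have hb' := Ioo_subset_Icc_self hb
  have cp : ContinuousOn (fun t => ((x t, pp x t) : P)) (uIcc a b) :=
    h.x_cont.continuousOn.prodMk (pp_cont h ha hb)
  have cu : ContinuousOn (fun t => ((x 0, ut x t) : P)) (uIcc a b) :=
    continuousOn_const.prodMk (ut_cont h ha hb)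
  have i1 : IntervalIntegrable (sg' x x') volume a b :=
    ((ii_x' h ha' hb').continuousOn_mul (Y0_sm.continuous.comp_continuousOn cp)).sub
      (psi_sm.continuous.comp_continuousOn cp).intervalIntegrable
  have a1 := ftc_off (f := sg x) (f' := sg' x x') S ha' hb'
    ((H0_sm.continuous.comp_continuousOn cp).sub (H0_sm.continuous.comp_continuousOn cu))
    (fun t ht _ hs => sg_der hM (sin_pos_of_mem_Ioo ht).ne' (hS t ht hs)) i1
  have i2 := ii_ee2 h ha hb
  have i3 := ii_T h ha' hb'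
  have a2 := intervalIntegral.integral_mono_on hab (ii_rz h ha' hb')
    (((i2.const_mul 130).add (i3.const_mul 128)).add (i1.const_mul 128)) fun t ht =>
      point (x' := x') hM (sin_pos_of_mem_Ioo ⟨ha.1.trans_le ht.1, ht.2.trans_lt hb.2⟩).ne'
        (h.le t ⟨ha'.1.trans ht.1, ht.2.trans hb'.2⟩)
  rw [intervalIntegral.integral_add ((i2.const_mul 130).add (i3.const_mul 128)) (i1.const_mul 128),
    intervalIntegral.integral_add (i2.const_mul 130) (i3.const_mul 128),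
    intervalIntegral.integral_const_mul, intervalIntegral.integral_const_mul,
    intervalIntegral.integral_const_mul, a1] at a2
  have a3 := wirt h ha hb hab
  linarith

/-- `H0` hardly changes under a small rotation -/
lemma H0_rot (K : ℝ) (hK : 0 ≤ K) : ∃ L, 0 ≤ L ∧ ∀ c w α : ℝ, |c| ≤ K → |w| ≤ K → 0 ≤ α →
    |H0 (c * cos α + w * sin α, -(c * sin α) + w * cos α) - H0 (c, w)| ≤ L * α ∧
    |H0 (c * cos α - w * sin α, c * sin α + w * cos α) - H0 (c, w)| ≤ L * α := by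
  obtain ⟨L, hL⟩ := (isCompact_closedBall (0 : P) (2 * K)).exists_bound_of_continuousOn
    (f := fun ζ => |dx H0 ζ| + |du H0 ζ|)
    ((contDiff_dx H0_sm).continuous.abs.add (contDiff_du H0_sm).continuous.abs).continuousOn
  have key : ∀ z z' : P, ‖z‖ ≤ 2 * K → ‖z'‖ ≤ 2 * K → |H0 z - H0 z'| ≤ |L| * ‖z - z'‖ :=
    fun z z' hz hz' => abs_sub_le_of_bound (fun ζ _ => dAt H0_sm ζ)
      (fun ζ hζ => ((le_abs_self _).trans (hL ζ (by simpa using hζ))).trans (le_abs_self L)) hz hz'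
  have two : ∀ c w s s' m m' : ℝ, |c| ≤ K → |w| ≤ K → |s| ≤ m → |s'| ≤ m → 
      m' = 2 * K * m → |c * s + w * s'| ≤ m' := by
    intro c w s s' m m' hc hw hs hs' hm
    have a1 := abs_add_le (c * s) (w * s')
    rw [abs_mul, abs_mul] at a1
    have a2 := mul_le_mul hc hs (abs_nonneg _) hK
    have a3 := mul_le_mul hw hs' (abs_nonneg _) hK
    linarith
  refine ⟨|L| * (2 * K), by positivity, fun c w α hc hw hα => ?_⟩
  have s1 : |sin α| ≤ α := abs_sin_le_abs.trans (abs_of_nonneg hα).le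
  have s1' : |-sin α| ≤ α := by rwa [abs_neg]
  have s2 : |cos α - 1| ≤ α := by
    have := abs_cos_sub_cos_le α 0
    rwa [cos_zero, sub_zero, abs_of_nonneg hα] at this
  have n1 : |-sin α| ≤ 1 := by rw [abs_neg]; exact abs_sin_le_one α
  have z0 : ‖((c, w) : P)‖ ≤ 2 * K := norm_le_iff.2 ⟨by simp only; linarith, by simp only; linarith⟩
  constructor
  · refine (key _ _ (norm_le_iff.2 ⟨?_, ?_⟩) z0).trans ?_
    · exact two c w _ _ 1 _ hc hw (abs_cos_le_one α) (abs_sin_le_one α) (by ring)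
    · have := two c w _ _ 1 (2 * K) hc hw n1 (abs_cos_le_one α) (by ring)
      rwa [mul_neg] at this
    · rw [mul_assoc]
      refine mul_le_mul_of_nonneg_left (norm_le_iff.2 ⟨?_, ?_⟩) (abs_nonneg _)
      · convert two c w _ _ α _ hc hw s2 s1 rfl using 2
        simp only [Prod.fst_sub]; ring
      · convert two c w _ _ α _ hc hw s1' s2 rfl using 2
        simp only [Prod.snd_sub]; ring
  · refine (key _ _ (norm_le_iff.2 ⟨?_, ?_⟩) z0).trans ?_
    · have := two c w _ _ 1 (2 * K) hc hw (abs_cos_le_one α) n1 (by ring)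
      rwa [mul_neg, ← sub_eq_add_neg] at this
    · exact two c w _ _ 1 _ hc hw (abs_sin_le_one α) (abs_cos_le_one α) (by ring)
    · rw [mul_assoc]
      refine mul_le_mul_of_nonneg_left (norm_le_iff.2 ⟨?_, ?_⟩) (abs_nonneg _)
      · convert two c w _ _ α _ hc hw s2 s1' rfl using 2
        simp only [Prod.fst_sub]; ring
      · convert two c w _ _ α _ hc hw s1 s2 rfl using 2
        simp only [Prod.snd_sub]; ring

lemma sg_small (hM : St_MOD) (h : Part x x' u) : ∃ L, ∀ α, 0 < α → α ≤ π / 2 →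
    |sg x α| ≤ L * α ∧ |sg x (π - α)| ≤ L * α := by
  obtain ⟨B, hB0, hB⟩ := (path h).lip
  obtain ⟨L, -, hL⟩ := H0_rot (|x 0| + 2 * B) (by positivity)
  refine ⟨L, fun α h0 hα => ?_⟩
  have m1 : α ∈ Ioo 0 π := ⟨h0, by linarith [pi_pos]⟩
  have m2 : π - α ∈ Ioo 0 π := ⟨by linarith [pi_pos], by linarith⟩
  have s0 := sin_pos_of_mem_Ioo m1
  have s1 : α ≤ 2 * sin α := by
    have := mul_le_sin h0.le hα
    have h4 : 1 / 2 ≤ 2 / π := by
      rw [div_le_div_iff₀ (by norm_num) pi_pos]; linarith [pi_le_four]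
    nlinarith
  have c1 := hB 0 zero_mem_Icc α (Ioo_subset_Icc_self m1)
  have c2 := hB π pi_mem_Icc (π - α) (Ioo_subset_Icc_self m2)
  rw [(path h).zero, sub_zero, sub_zero, abs_of_pos h0] at c1
  rw [(path h).pi, sub_zero, sub_sub_cancel_left, abs_neg, abs_of_pos h0] at c2
  have x0 : |x 0| ≤ |x 0| + 2 * B := by linarith
  have u1 : |ut x α| ≤ |x 0| + 2 * B := by
    unfold ut
    rw [abs_div, abs_of_pos s0, div_le_iff₀ s0]
    nlinarith [abs_nonneg (x 0)]
  have u2 : |ut x (π - α)| ≤ |x 0| + 2 * B := by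
    unfold ut
    rw [sin_pi_sub, abs_div, abs_of_pos s0, div_le_iff₀ s0]
    nlinarith [abs_nonneg (x 0)]
  constructor
  · unfold sg
    rw [pp_eq s0.ne']
    nth_rewrite 1 [x_eq (x := x) s0.ne']
    exact (hL _ _ α x0 u1 h0.le).1
  · have s2 := (sin_pos_of_mem_Ioo m2).ne'
    unfold sg
    rw [pp_eq s2]
    nth_rewrite 1 [x_eq (x := x) s2]
    rw [← hM.2.1, sin_pi_sub, cos_pi_sub]
    convert (hL _ _ α x0 u2 h0.le).2 using 4
    ext
    · simp only [Prod.fst_neg]; ring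
    · simp only [Prod.snd_neg]; ring

lemma trim {f : ℝ → ℝ} (hf : IntervalIntegrable f volume 0 π) :
    Tendsto (fun α => ∫ t in α..(π - α), f t) (𝓝[>] 0) (𝓝 (∫ t in (0 : ℝ)..π, f t)) := by
  have hc := intervalIntegral.continuousOn_primitive_interval' hf left_mem_uIcc
  rw [uIcc_of_le pi_pos.le] at hc
  have e : ∀ᶠ α in 𝓝[>] (0 : ℝ), α ∈ Icc 0 π := by
    filter_upwards [Ioo_mem_nhdsGT pi_pos] with α hα using Ioo_subset_Icc_self hα
  have t1 : Tendsto (fun α : ℝ => α) (𝓝[>] 0) (𝓝[Icc 0 π] 0) :=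
    tendsto_nhdsWithin_iff.2 ⟨tendsto_id.mono_left nhdsWithin_le_nhds, e⟩
  have t2 : Tendsto (fun α : ℝ => π - α) (𝓝[>] 0) (𝓝[Icc 0 π] π) := by
    refine tendsto_nhdsWithin_iff.2 ⟨?_, e.mono fun α hα => ⟨by linarith [hα.2], by linarith [hα.1]⟩⟩
    have : Tendsto (fun α : ℝ => π - α) (𝓝 0) (𝓝 (π - 0)) :=
      (continuous_const.sub continuous_id).tendsto 0
    rw [sub_zero] at this
    exact this.mono_left nhdsWithin_le_nhds
  have t3 := ((hc π pi_mem_Icc).tendsto.comp t2).sub ((hc 0 zero_mem_Icc).tendsto.comp t1)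
  rw [intervalIntegral.integral_same, sub_zero] at t3
  refine t3.congr' (e.mono fun α hα => ?_)
  have sub : ∀ β ∈ Icc 0 π, IntervalIntegrable f volume 0 β := fun β hβ =>
    hf.mono_set (by rw [uIcc_of_le hβ.1, uIcc_of_le pi_pos.le]; exact Icc_subset_Icc_right hβ.2)
  exact intervalIntegral.integral_interval_sub_left
    (sub _ ⟨by linarith [hα.2], by linarith [hα.1]⟩) (sub _ hα)

end P80

open P80 in
theorem st_PART1 (hM : St_MOD) : St_PART1 := by
  intro x x' u h
  refine ⟨by rw [I_eq h]; exact (path h).I_nonneg, ?_⟩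
  obtain ⟨L, hL⟩ := sg_small hM h
  have t1 := trim (ii_rz h zero_mem_Icc pi_mem_Icc)
  have t2 := trim (ii_T h zero_mem_Icc pi_mem_Icc)
  have t3 : Tendsto (fun α : ℝ => 256 * L * α) (𝓝[>] 0) (𝓝 (256 * L * 0)) :=
    ((continuous_const.mul continuous_id).tendsto 0).mono_left nhdsWithin_le_nhds
  have t4 := ((tendsto_const_nhds (x := 130 * ∫ t in (0 : ℝ)..π, (x' t ^ 2 - x t ^ 2))).add
    (t2.const_mul 128)).add t3
  rw [mul_zero, add_zero] at t4
  refine le_of_tendsto_of_tendsto t1 t4 ?_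
  filter_upwards [Ioo_mem_nhdsGT (half_pos pi_pos)] with α hα
  have a1 := main hM h (a := α) (b := π - α) ⟨hα.1, by linarith [hα.2, pi_pos]⟩
    ⟨by linarith [hα.2, pi_pos], by linarith [hα.1]⟩ (by linarith [hα.2])
  obtain ⟨a2, a3⟩ := hL α hα.1 hα.2.le
  rw [abs_le] at a2 a3
  linarith [a2.1, a3.2]

end Pool.Agent.Lib.ISOC
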