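import Pool.Agent.Lib.ISOC.P80

/-! The equality case along one particle. -/

set_option autoImplicit false

open MeasureTheory Set Filter Topology Real
open scoped ContDiff ENNReal
open Pool.Agent.Lib.MP_f62ea7_gt

namespace Pool.Agent.Lib.ISOC

namespace P80

variable {x x' u : ℝ → ℝ} {a b : ℝ}

lemma ut_const (h : Part x x' u) (hI : ∫ t in (0 : ℝ)..π, (x' t ^ 2 - x t ^ 2) = 0)
    (ha : a ∈ Ioo 0 π) (hb : b ∈ Ioo 0 π) (hab : a ≤ b) : ut x b = ut x a := by
  obtain ⟨S, hS⟩ := h.der
  have a0 : ∫ t in a..b, ee x x' t ^ 2 = 0 :=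
    le_antisymm (hI ▸ wirt h ha hb hab)
      (intervalIntegral.integral_nonneg hab fun _ _ => sq_nonneg _)
  have a1 := (intervalIntegral.integral_eq_zero_iff_of_le_of_nonneg_ae hab
    (Eventually.of_forall fun t => sq_nonneg (ee x x' t)) (ii_ee2 h ha hb)).1 a0
  have cs : ContinuousOn (fun t => (sin t)⁻¹) (uIcc a b) :=
    continuous_sin.continuousOn.inv₀ fun _ ht => (WL.sin_pos_of_mem ha hb ht).ne'
  have a2 := ftc_off (f := ut x) (f' := fun t => ee x x' t * (sin t)⁻¹) S
    (Ioo_subset_Icc_self ha) (Ioo_subset_Icc_self hb) (ut_cont h ha hb)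
    (fun t ht _ hs => by
      rw [← div_eq_mul_inv]; exact ut_der (sin_pos_of_mem_Ioo ht).ne' (hS t ht hs))
    ((ii_ee h ha hb).mul_continuousOn cs)
  have a3 : ∫ t in a..b, ee x x' t * (sin t)⁻¹ = 0 := by
    rw [intervalIntegral.integral_of_le hab]
    refine integral_eq_zero_of_ae (a1.mono fun t ht => ?_)
    have : ee x x' t = 0 := pow_eq_zero_iff (two_ne_zero) |>.1 ht
    simp [this]
  linarith

end P80

open P80 in
theorem st_PART2 : St_PART2 := by
  intro x x' u h hI hR h0
  have m : π / 2 ∈ Ioo 0 π := ⟨half_pos pi_pos, half_lt_self pi_pos⟩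
  have hB : ∀ t ∈ Ioo 0 (π / 2), ut x t = x (π / 2) := fun t ht => by
    rw [← ut_const h hI ⟨ht.1, ht.2.trans m.2⟩ m ht.2.le]
    simp [ut, dv]
  set φ : ℝ → ℝ := fun t => rho (x t, u t) * (-(x 0 * sin t) + x (π / 2) * cos t - u t) ^ 2 with hφ
  have φc : Continuous φ := (rho_cont h).mul ((((continuous_const.mul continuous_sin).neg.add
    (continuous_const.mul continuous_cos)).sub h.u_cont).pow 2)
  by_contra hne
  have r0 : 0 < rho (x 0, u 0) := by
    unfold rho
    by_contra hc
    refine h0 (Prod.ext ?_ ?_)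
    · show x 0 = 0
      nlinarith [sq_nonneg (x 0), sq_nonneg (u 0), not_lt.1 hc]
    · show u 0 = 0
      nlinarith [sq_nonneg (x 0), sq_nonneg (u 0), not_lt.1 hc]
  have p0 : 0 < φ 0 := by
    simp only [hφ, sin_zero, cos_zero, mul_zero, neg_zero, zero_add, mul_one]
    exact mul_pos r0 (sq_pos_of_ne_zero (sub_ne_zero.2 hne))
  obtain ⟨δ, hδ, hpos⟩ := Metric.eventually_nhds_iff.1 (φc.continuousAt.eventually (lt_mem_nhds p0))
  set b := min δ (π / 2) / 2 with hb
  have b0 : 0 < b := half_pos (lt_min hδ m.1)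
  have b1 : b < δ := by
    have := min_le_left δ (π / 2)
    linarith
  have b2 : b < π / 2 := by
    have := min_le_right δ (π / 2)
    linarith [m.1]
  have ma : b / 2 ∈ Ioo 0 π := ⟨half_pos b0, by linarith [m.2]⟩
  have mb : b ∈ Ioo 0 π := ⟨b0, by linarith [m.2]⟩
  have hab : b / 2 ≤ b := by linarith
  have a1 : 0 < ∫ t in (b / 2)..b, φ t :=
    intervalIntegral.intervalIntegral_pos_of_pos_on (φc.intervalIntegrable _ _)
      (fun t ht => hpos (by
        rw [Real.dist_eq, sub_zero, abs_of_pos (by linarith [ht.1])]; linarith [ht.2]))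
      (by linarith)
  have i1 := ii_rz h (Ioo_subset_Icc_self ma) (Ioo_subset_Icc_self mb)
  have i2 := ii_ee2 h ma mb
  have a2 := intervalIntegral.integral_mono_on hab (φc.intervalIntegrable _ _)
    ((i1.const_mul 2).add (i2.const_mul 2)) fun t ht => by
      have mt : t ∈ Ioo 0 (π / 2) := ⟨by linarith [ht.1], by linarith [ht.2]⟩
      have mt' : t ∈ Ioo 0 π := ⟨mt.1, mt.2.trans m.2⟩
      have hs := (sin_pos_of_mem_Ioo mt').ne'
      have e1 := pp_eq (x := x) hs
      have e2 := x'_eq (x := x) (x' := x') hs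
      have e3 := h.le t (Ioo_subset_Icc_self mt')
      have e4 : 0 ≤ rho (x t, u t) := by unfold rho; positivity
      rw [hB t mt] at e1
      simp only [hφ]
      rw [← e1, e2]
      have : (pp x t - u t) ^ 2 ≤ 2 * (pp x t + ee x x' t - u t) ^ 2 + 2 * ee x x' t ^ 2 := by
        nlinarith [sq_nonneg (pp x t + 2 * ee x x' t - u t)]
      nlinarith [sq_nonneg (ee x x' t), mul_le_mul_of_nonneg_left this e4]
  rw [intervalIntegral.integral_add (i1.const_mul 2) (i2.const_mul 2),
    intervalIntegral.integral_const_mul, intervalIntegral.integral_const_mul] at a2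
  have a3 := wirt h ma mb hab
  have a4 := intervalIntegral.integral_mono_interval (μ := volume) ma.1.le hab mb.2.le
    (Eventually.of_forall fun t => (by unfold rho; positivity :
      0 ≤ rho (x t, u t) * (x' t - u t) ^ 2)) (ii_rz h zero_mem_Icc pi_mem_Icc)
  linarith

end Pool.Agent.Lib.ISOC
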