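import Pool.Agent.Lib.ISOC.MB

set_option autoImplicit false

open MeasureTheory Set Filter Topology Real
open scoped ContDiff ENNReal
open Pool.Agent.Lib.MP_f62ea7_gt

namespace Pool.Agent.Lib.ISOC

namespace R6

lemma neg_mem {X : Sys} (hX : Good X) {p : P} (hp : p ∈ X.M) : -p ∈ X.M := by
  obtain ⟨z, hz, rfl⟩ := hp
  exact ⟨-z, neg_mem_Disc hz, hX.odd z⟩

lemma meas_M {X : Sys} (hX : Good X) : MeasurableSet X.M :=
  ((isCompact_Disc X.R).image hX.Γ_sm.continuous).isClosed.measurableSet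

lemma mp_neg {M : Set P} (hM : MeasurableSet M) (hn : ∀ p ∈ M, -p ∈ M) :
    MeasurePreserving (fun a : P => -a) (volume.restrict M) (volume.restrict M) := by
  have h := (Measure.measurePreserving_neg (volume : Measure P)).restrict_preimage hM
  have e : (fun a : P => -a) ⁻¹' M = M := by
    ext a
    exact ⟨fun ha => by simpa using hn _ ha, fun ha => hn _ ha⟩
  have e' : (Neg.neg : P → P) ⁻¹' M = M := e
  rw [e'] at h
  exact h

lemma dbl_rev {M : Set P} (hM : MeasurableSet M) (hn : ∀ p ∈ M, -p ∈ M) (f : ℝ → P → ℝ) :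
    dbl M (fun t a => f (π - t) (-a)) = dbl M f := by
  unfold dbl
  have h1 : ∀ s, ∫ a in M, f s (-a) = ∫ a in M, f s a := fun s =>
    (mp_neg hM hn).integral_comp (MeasurableEquiv.neg P).measurableEmbedding (f s)
  simp only [h1]
  have h2 := intervalIntegral.integral_comp_sub_left (a := 0) (b := π)
    (fun s => ∫ a in M, f s a) π
  simpa using h2

lemma dbl_neg (M : Set P) (f : ℝ → P → ℝ) : dbl M (fun t a => -f t a) = -dbl M f := by
  unfold dbl
  simp only [integral_neg, intervalIntegral.integral_neg]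

lemma mem_rev {t : ℝ} (ht : t ∈ Icc 0 π) : π - t ∈ Icc 0 π :=
  ⟨by linarith [ht.2], by linarith [ht.1]⟩

lemma adm_rev {M : Set P} (hM : MeasurableSet M) (hn : ∀ p ∈ M, -p ∈ M) {η v : ℝ → P → P}
    (h : Adm M η v) : Adm M (fun t a => η (π - t) (-a)) (fun t a => -v (π - t) (-a)) := by
  have hc : Continuous fun q : ℝ × P => ((π - q.1, -q.2) : ℝ × P) := by fun_prop
  refine ⟨h.cont.comp hc, (h.meas.comp hc.measurable).neg, ?_, ?_, ?_, ?_, ?_⟩
  · obtain ⟨B, hB⟩ := h.bdd
    refine ⟨B, fun t ht a ha => ?_⟩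
    rw [norm_neg]
    exact hB _ (mem_rev ht) _ (hn a ha)
  · obtain ⟨S, hS⟩ := h.der
    refine ⟨S.image fun s => π - s, fun t ht hts a ha => ?_⟩
    have h1 : π - t ∈ Ioo 0 π := ⟨by linarith [ht.2], by linarith [ht.1]⟩
    have h2 : π - t ∉ S := fun hm => hts (Finset.mem_image.2 ⟨_, hm, by ring⟩)
    have h3 := hS _ h1 h2 _ (hn a ha)
    have h4 : HasDerivAt (fun τ : ℝ => π - τ) (-1) t := by
      simpa using (hasDerivAt_id t).const_sub π
    have h5 := h3.scomp t h4
    rw [neg_one_smul] at h5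
    exact h5
  · exact fun t ht a ha => h.maps _ (mem_rev ht) (hn a ha)
  · intro t ht
    obtain ⟨ρ, hρ, hm, hi⟩ := h.inv _ (mem_rev ht)
    refine ⟨fun p => -ρ p, hρ.neg, fun p hp => hn _ (hm hp), fun a ha => ?_, fun p hp => ?_⟩
    · show -ρ (η (π - t) (-a)) = a
      rw [hi.1 (hn a ha), neg_neg]
    · show η (π - t) (- -ρ p) = p
      rw [neg_neg, hi.2 hp]
  · exact fun t ht => (h.mp _ (mem_rev ht)).comp (mp_neg hM hn)

end R6

theorem st_REV : St_REV := by
  intro X hX η v h _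
  have hM := R6.meas_M hX
  have hn : ∀ p ∈ X.M, -p ∈ X.M := fun p hp => R6.neg_mem hX hp
  refine ⟨R6.adm_rev hM hn h, ?_, ?_⟩
  · have e := R6.dbl_rev hM hn fun t a => gq X.E X.F X.G (η t a) (v t a) (v t a) / 2
    unfold Sys.act actG
    rw [← e]
    congr 1
    funext t a
    simp only [gq, Prod.fst_neg, Prod.snd_neg]
    ring
  · have e := R6.dbl_rev hM hn fun t a => X.y (η t a) * X.xd η v t a
    unfold Sys.Cal
    rw [← e, ← R6.dbl_neg]
    congr 1
    funext t a
    simp only [Sys.xd, map_neg]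
    ring

end Pool.Agent.Lib.ISOC
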