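import Pool.Agent.Lib.ISOC.OC

/-! One step of the formal solution: orders of the defect and of its variation. -/

set_option autoImplicit false

open MeasureTheory Set Filter Topology Real
open scoped ContDiff ENNReal
open Pool.Agent.Lib.MP_f62ea7_gt

namespace Pool.Agent.Lib.ISOC

namespace I97

/-- `f` and `f'` vanish to order `o`, their difference to order `k + e`. -/
structure Pr (k o e : ℕ) (f f' : P → ℝ) : Prop where
  l : O o f
  r : O o f'
  d : O (k + e) fun z => f' z - f z

namespace Pr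
variable {k o e o1 e1 o2 e2 : ℕ} {f f' g g' : P → ℝ}

lemma congr (h : Pr k o e f f') (h1 : ∀ z, g z = f z) (h2 : ∀ z, g' z = f' z) :
    Pr k o e g g' := by
  rw [funext h1, funext h2]; exact h

lemma refl (h : O o f) : Pr k o e f f :=
  ⟨h, h, (O.zero _).congr fun _ => sub_self _⟩

lemma mono (h : Pr k o1 e1 f f') (ho : o ≤ o1) (he : e ≤ e1) : Pr k o e f f' :=
  ⟨h.l.mono ho, h.r.mono ho, h.d.mono (by omega)⟩

lemma add (h : Pr k o e f f') (h' : Pr k o e g g') :
    Pr k o e (fun z => f z + g z) fun z => f' z + g' z :=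
  ⟨h.l.add h'.l, h.r.add h'.r, (h.d.add h'.d).congr fun _ => by ring⟩

lemma sub (h : Pr k o e f f') (h' : Pr k o e g g') :
    Pr k o e (fun z => f z - g z) fun z => f' z - g' z :=
  ⟨h.l.sub h'.l, h.r.sub h'.r, (h.d.sub h'.d).congr fun _ => by ring⟩

lemma mul (h : Pr k o1 e1 f f') (h' : Pr k o2 e2 g g') (ho : o ≤ o1 + o2) (h1 : e ≤ o1 + e2)
    (h2 : e ≤ o2 + e1) : Pr k o e (fun z => f z * g z) fun z => f' z * g' z :=
  ⟨h.l.mul' h'.l ho, h.r.mul' h'.r ho,
    ((h.r.mul' h'.d (k := k + e) (by omega)).add (h.d.mul' h'.l (by omega))).congr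
      fun _ => by ring⟩

lemma dx (h : Pr k (o + 1) (e + 1) f f') : Pr k o e (dx f) (dx f') :=
  ⟨h.l.dx, h.r.dx,
    (O.dx (m := k + e) h.d).congr fun z => (dx_sub (dAt h.r.sm z) (dAt h.l.sm z)).symm⟩

lemma du (h : Pr k (o + 1) (e + 1) f f') : Pr k o e (du f) (du f') :=
  ⟨h.l.du, h.r.du,
    (O.du (m := k + e) h.d).congr fun z => (du_sub (dAt h.r.sm z) (dAt h.l.sm z)).symm⟩

lemma iU (h : Pr k o e f f') : Pr k (o + 1) (e + 1) (iU f) (iU f') :=
  ⟨h.l.iU, h.r.iU,
    h.d.iU.congr fun z => (iU_sub h.r.sm.continuous h.l.sm.continuous z).symm⟩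

end Pr

lemma den_ne (a : P → ℝ) (z : P) : 1 + (a z ^ 2 + z.2 ^ 2) ≠ 0 := by positivity

lemma den_sm {a : P → ℝ} (ha : ContDiff ℝ ∞ a) :
    ContDiff ℝ ∞ fun z : P => 1 + (a z ^ 2 + z.2 ^ 2) := by fun_prop

lemma ff_ord {a : P → ℝ} (ha : O 1 a) : O 2 fun z => ff (a z, z.2) := by
  have h1 : O 2 fun z : P => a z * a z + z.2 * z.2 :=
    (ha.mul' ha le_rfl).add (O.snd.mul' O.snd le_rfl)
  have hs := ha.sm
  refine ((h1.mul_sm (G := fun z : P => 2 + (a z ^ 2 + z.2 ^ 2)) (by fun_prop)).div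
    ((den_sm hs).pow 2) fun z => pow_ne_zero 2 (den_ne a z)).congr fun z => ?_
  have := den_ne a z
  simp only [ff, rho]
  field_simp
  ring

lemma ff_pr {k : ℕ} {a a' : P → ℝ} (h : Pr k 1 2 a a') :
    Pr k 2 3 (fun z => ff (a z, z.2)) fun z => ff (a' z, z.2) := by
  refine ⟨ff_ord h.l, ff_ord h.r, ?_⟩
  have h1 : O (k + 3) fun z : P => (a' z - a z) * (a' z + a z) :=
    h.d.mul' (h.r.add h.l) (by omega)
  have hs := h.l.sm
  have hs' := h.r.sm
  refine ((h1.mul_sm (G := fun z : P => 2 + (a z ^ 2 + z.2 ^ 2) + (a' z ^ 2 + z.2 ^ 2))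
    (by fun_prop)).div (((den_sm hs).pow 2).mul ((den_sm hs').pow 2))
    fun z => mul_ne_zero (pow_ne_zero 2 (den_ne a z)) (pow_ne_zero 2 (den_ne a' z))).congr
    fun z => ?_
  have := den_ne a z
  have := den_ne a' z
  simp only [ff, rho]
  field_simp
  ring

/-- the part of the defect without the bracket, after removal of the linear term -/
noncomputable def NL (b : P → ℝ) (z : P) : ℝ :=
  du b z * du b z * AA b z + b z * du (du b) z * AA b z + z.1 * (du (du b) z * dx b z) -
    aa b z * (du b z * du (dx b) z) - 3 * (dx b z * dx b z) - dx b z * dx b z * dx b z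

noncomputable def BR (b : P → ℝ) (z : P) : ℝ :=
  (dx (mm b) z * AA b z - mm b z * dx (dx b) z) * JJ b z -
    (du (mm b) z * AA b z - mm b z * du (dx b) z) * dx (YY b) z

lemma split {b : P → ℝ} (hb : ContDiff ℝ ∞ b) (z : P) : EP b z + LL b z = NL b z - BR b z := by
  have d0 := dAt hb z
  have d1 := dAt (contDiff_dx hb) z
  have d2 := dAt (contDiff_du hb) z
  have da : DifferentiableAt ℝ (aa b) z := differentiableAt_fst.fun_add d0
  have e1 : dx (AA b) z = dx (dx b) z := by
    rw [show AA b = fun z => 1 + dx b z from rfl, dx_add (differentiableAt_const _) d1]; simp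
  have e2 : du (AA b) z = du (dx b) z := by
    rw [show AA b = fun z => 1 + dx b z from rfl, du_add (differentiableAt_const _) d1]; simp
  have e3 : du (aa b) z = du b z := by
    rw [show aa b = fun z => z.1 + b z from rfl, du_add differentiableAt_fst d0]; simp
  have e4 : du (nn b) z = 1 + (du b z * du b z + aa b z * du (du b) z) := by
    rw [show nn b = fun z => z.2 + aa b z * du b z from rfl,
      du_add differentiableAt_snd (da.fun_mul d2), du_mul da d2, e3, du_snd]
  simp only [EP, LL, NL, BR, e1, e2, e4]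
  simp only [nn, aa, AA]
  ring

lemma pr_main {k : ℕ} {b b' : P → ℝ} (h : Pr k 5 2 b b') :
    Pr k 4 5 (fun z => NL b z - BR b z) fun z => NL b' z - BR b' z := by
  have bx : Pr k 4 1 _ _ := h.dx
  have bu : Pr k 4 1 _ _ := h.du
  have bxx : Pr k 3 0 _ _ := bx.dx
  have bxu : Pr k 3 0 _ _ := bx.du
  have buu : Pr k 3 0 _ _ := bu.du
  have ha : Pr k 1 2 (aa b) (aa b') := (Pr.refl O.fst).add (h.mono (by omega) le_rfl)
  have hA : Pr k 0 1 (AA b) (AA b') :=
    (Pr.refl (O.of_sm contDiff_const)).add (bx.mono (by omega) le_rfl)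
  have hJ : Pr k 2 3 (JJ b) (JJ b') := hA.mul (ff_pr ha) (by omega) (by omega) (by omega)
  have hY : Pr k 2 3 (dx (YY b)) (dx (YY b')) := hJ.iU.dx
  have hn : Pr k 1 2 (nn b) (nn b') :=
    (Pr.refl O.snd).add (ha.mul bu (by omega) (by omega) (by omega))
  have hm : Pr k 3 4 (mm b) (mm b') :=
    (hY.mul hn (by omega) (by omega) (by omega)).sub
      ((hJ.mul ha (o := 3) (e := 4) (by omega) (by omega) (by omega)).mul hA (by omega) (by omega)
        (by omega))
  have mx : Pr k 2 3 _ _ := hm.dx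
  have mu : Pr k 2 3 _ _ := hm.du
  have b1 := (mx.mul hA (o := 2) (e := 3) (by omega) (by omega) (by omega)).sub
    (hm.mul bxx (by omega) (by omega) (by omega))
  have b2 := (mu.mul hA (o := 2) (e := 3) (by omega) (by omega) (by omega)).sub
    (hm.mul bxu (by omega) (by omega) (by omega))
  have hB : Pr k 4 5 (BR b) (BR b') :=
    (b1.mul hJ (by omega) (by omega) (by omega)).sub (b2.mul hY (by omega) (by omega) (by omega))
  have n1 := (bu.mul bu (o := 8) (e := 5) (by omega) (by omega) (by omega)).mul hA (o := 4)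
    (e := 5) (by omega) (by omega) (by omega)
  have n2 := (h.mul buu (o := 8) (e := 5) (by omega) (by omega) (by omega)).mul hA (o := 4)
    (e := 5) (by omega) (by omega) (by omega)
  have n3 := (Pr.refl (k := k) (e := 5) O.fst).mul
    (buu.mul bx (o := 7) (e := 4) (by omega) (by omega) (by omega)) (o := 4) (e := 5) (by omega)
    (by omega) (by omega)
  have n4 := ha.mul (bu.mul bxu (o := 7) (e := 4) (by omega) (by omega) (by omega)) (o := 4)
    (e := 5) (by omega) (by omega) (by omega)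
  have xx := bx.mul bx (o := 8) (e := 5) (by omega) (by omega) (by omega)
  have n5 := (Pr.refl (k := k) (e := 5) (O.of_sm (contDiff_const (c := (3 : ℝ))))).mul xx (o := 4)
    (e := 5) (by omega) (by omega) (by omega)
  have n6 := xx.mul bx (o := 4) (e := 5) (by omega) (by omega) (by omega)
  have hN : Pr k 4 5 (NL b) (NL b') := ((((n1.add n2).add n3).sub n4).sub n5).sub n6
  exact hN.sub hB

lemma LL_sub {b b' : P → ℝ} (hb : ContDiff ℝ ∞ b) (hb' : ContDiff ℝ ∞ b') (z : P) :
    LL (fun z => b' z - b z) z = LL b' z - LL b z := by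
  have ex : dx (fun z => b' z - b z) = fun z => dx b' z - dx b z :=
    funext fun z => dx_sub (dAt hb' z) (dAt hb z)
  have eu : du (fun z => b' z - b z) = fun z => du b' z - du b z :=
    funext fun z => du_sub (dAt hb' z) (dAt hb z)
  simp only [LL, ex, eu]
  rw [du_sub (dAt (contDiff_dx hb') z) (dAt (contDiff_dx hb) z),
    du_sub (dAt (contDiff_du hb') z) (dAt (contDiff_du hb) z)]
  ring

lemma EP_even {b : P → ℝ} (h : ∀ z, b (-z) = -b z) (z : P) : EP b (-z) = EP b z := by
  have ha : ∀ z, aa b (-z) = -aa b z := fun z => by simp only [aa, h, Prod.fst_neg]; ring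
  have hA : ∀ z, AA b (-z) = AA b z := fun z => by simp only [AA, dx_of_odd h]
  have hJ : ∀ z, JJ b (-z) = JJ b z := fun z => by
    simp only [JJ, hA, ha, ff, rho, Prod.snd_neg, neg_sq]
  have hY : ∀ z, YY b (-z) = -YY b z := iU_of_even hJ
  have hn : ∀ z, nn b (-z) = -nn b z := fun z => by
    simp only [nn, ha, du_of_odd h, Prod.snd_neg]; ring
  have hm : ∀ z, mm b (-z) = -mm b z := fun z => by
    simp only [mm, ha, hA, hJ, hn, dx_of_odd hY]; ring
  simp only [EP, hA, hJ, hn, hm, dx_of_odd hY, du_of_odd hn, dx_of_odd hm, du_of_odd hm,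
    dx_of_even hA, du_of_even hA]
  ring

end I97

theorem st_STEP : St_STEP := by
  refine ⟨?_, fun b _ h => I97.EP_even h, fun b b' k hb hb' hd => ?_⟩
  · refine (I97.pr_main (k := 0) (I97.Pr.refl (O.zero 5))).l.congr fun z => ?_
    rw [← I97.split contDiff_const z]
    have e1 : dx (fun _ : P => (0 : ℝ)) = fun _ => 0 := funext (dx_const 0)
    have e2 : du (fun _ : P => (0 : ℝ)) = fun _ => 0 := funext (du_const 0)
    simp [LL, e1, e2]
  · refine (I97.pr_main (k := k) ⟨hb, hb', hd⟩).d.congr fun z => ?_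
    rw [← I97.split hb.sm z, ← I97.split hb'.sm z, I97.LL_sub hb.sm hb'.sm z]
    ring

end Pool.Agent.Lib.ISOC
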