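import Pool.Agent.Lib.ISOC.MB

/-! Assembly of the interface `Good`. -/

set_option autoImplicit false

open MeasureTheory Set Filter Topology Real
open scoped ContDiff ENNReal
open Pool.Agent.Lib.MP_f62ea7_gt

namespace Pool.Agent.Lib.ISOC

theorem st_SYS (hT : St_TEMP) (hG : St_GEO) (hV : St_VEL) (hM : St_MET) (hC : St_CHI)
    (hA : St_APP) (hΓ : St_GAM) (hL : St_LOWM) (hb : St_CON) : St_SYS := by
  obtain ⟨b, hb⟩ := hb
  have h0 := hb.toCon0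
  obtain ⟨Ξi, Ψ, hl⟩ := hG b h0
  have hv := hV b hb
  obtain ⟨r, C, E, F, G, hm⟩ := hM b Ξi Ψ hb hl hv
  obtain ⟨χ, χ4, hχ⟩ := hC b hb hv
  obtain ⟨g1, g2, g3, g4⟩ := hΓ b Ξi Ψ h0 hl
  obtain ⟨r', r0, r1, hlow⟩ := hL b Ξi Ψ r C E F G h0 hl hm
  obtain ⟨-, hT⟩ := hT b Ξi Ψ h0 hl
  obtain ⟨δ, δ0, hδ⟩ := Metric.continuousAt_iff.1 (hl.Ξi_sm.continuous.continuousAt (x := 0)) r' r0
  let X : Sys := ⟨min (δ / 2) 1, fun z => Phi b (Ξi z), fun p => Xi b (Ψ p), E, F, G,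
    fun p => χ (Ψ p)⟩
  have R0 : 0 < min (δ / 2) 1 := lt_min (by linarith) one_pos
  have hM : ∀ p ∈ X.M, ∃ z : P, ‖z‖ ≤ r' ∧ p = Phi b z := by
    rintro _ ⟨w, hw, rfl⟩
    refine ⟨Ξi w, ?_, rfl⟩
    have h1 : ‖w‖ ≤ δ / 2 := (norm_le_of_mem_Disc R0.le hw).trans (min_le_left _ _)
    have := hδ (x := w) (by rw [dist_zero_right]; linarith)
    rw [hl.Ξi_zero h0, dist_zero_right] at this
    exact this.le
  have b4 : O 4 b := h0.o5.pred
  have eξ : X.ξ = fun p => p.1 + b (Ψ p) := funext fun p => by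
    change (Ψ p).1 + b (Ψ p) = _
    rw [hl.Ψ_fst]
  have ey : X.y = fun p => p.2 + (Y0 (Xi b (Ψ p)) - YY b (Ψ p)) := funext fun p => by
    rw [hl.Ψ_snd]
    change Y0 (Xi b (Ψ p)) = _
    ring
  have db : Differentiable ℝ fun p => b (Ψ p) := (hT b b4).1.differentiable one_ne_zero
  have dξ : ∀ z h, fderiv ℝ X.ξ (Phi b z) h = h.1 * (1 + LX b b z) + h.2 * LY b b z := by
    intro z h
    rw [eξ, fderiv_apply_eq, dx_add differentiableAt_fst (db _), du_add differentiableAt_fst (db _),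
      ((hT b b4).2 _).1, ((hT b b4).2 _).2, hl.Φ_l]
    simp
  have dχ : ∀ z h, fderiv ℝ X.χ (Phi b z) h = h.1 * LX b χ z + h.2 * LY b χ z := by
    intro z h
    change fderiv ℝ (fun p => χ (Ψ p)) (Phi b z) h = _
    rw [fderiv_apply_eq, ((hT χ χ4).2 _).1, ((hT χ χ4).2 _).2, hl.Φ_l]
  have ei : ∀ z, X.Γi (Phi b z) = Xi b z := fun z => by
    change Xi b (Ψ (Phi b z)) = _
    rw [hl.Φ_l]
  have ev : ∀ z, X.v (Phi b z) = (UU b z, VV b z) := fun z => by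
    unfold Sys.v; rw [ei]; exact g3 z
  refine ⟨X, R0, min_le_right _ _, (sm_Phi h0.sm).comp hl.Ξi_sm,
    (sm_Xi h0.sm).continuous.comp hl.Ψ_cont, fun z => ?_, fun p => ?_, fun z => ?_, g1, g2,
    hm.E_sm, hm.F_sm, hm.G_sm, fun p hp => ?_, fun p hp => ?_, ?_, ?_, (hT χ χ4).1,
    fun p hp h => ?_, fun p hp h => ?_, hA b Ξi Ψ h0 hl⟩
  · change Xi b (Ψ (Phi b (Ξi z))) = z
    rw [hl.Φ_l, hl.Ξ_r]
  · change Phi b (Ξi (Xi b (Ψ p))) = p
    rw [hl.Ξ_l, hl.Φ_r]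
  · change Phi b (Ξi (-z)) = -Phi b (Ξi z)
    rw [hl.Ξi_neg h0, Phi_neg h0.odd]
  · obtain ⟨z, hz, rfl⟩ := hM p hp
    exact ⟨(hlow z hz).1, hm.det z (hz.trans r1)⟩
  · obtain ⟨z, hz, rfl⟩ := hM p hp
    rw [← Phi_neg h0.odd]
    exact hm.even z (hz.trans r1)
  · rw [eξ]; exact contDiff_fst.add (hT b b4).1
  · rw [ey]; exact contDiff_snd.add (hT _ g4).1
  · obtain ⟨z, hz, rfl⟩ := hM p hp
    have eu : X.u (Phi b z) = z.2 := by unfold Sys.u; rw [ei]; rfl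
    have a1 := hm.row1 z (hz.trans r1)
    have a2 := hm.row2 z (hz.trans r1)
    have eg : X.g (Phi b z) (UU b z, VV b z) h =
        h.1 * (UU b z + eps b z) + h.2 * VV b z := by
      change gq E F G _ _ _ = _
      unfold gq
      linear_combination h.1 * a1 + h.2 * a2
    rw [ev, eg, eu, dξ, dχ]
    unfold LX LY
    rw [(hχ z).1, (hχ z).2]
    unfold om1 om2
    by_cases hz0 : z = 0
    · subst hz0
      rw [h0.J_zero, hv.U_O.at_zero, hv.V_O.at_zero, (hv.eps_flat 1).at_zero]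
      simp
    · have := (hl.J_pos z hz0).ne'
      unfold AA
      field_simp
      ring
  · obtain ⟨z, hz, rfl⟩ := hM p hp
    rw [ei, dξ]
    exact (hlow z hz).2 h

end Pool.Agent.Lib.ISOC
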