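import Pool.Agent.Lib.ISOC.MB

set_option autoImplicit false

open MeasureTheory Set Filter Topology Real
open scoped ContDiff ENNReal
open Pool.Agent.Lib.MP_f62ea7_gt

namespace Pool.Agent.Lib.ISOC

namespace I56

variable {b F : P → ℝ} {Ξi Ψ : P → P}

/-- chain rule through `Phi`, solved for the derivatives of the composite -/
lemma off (hb : Con0 b) (hL : Lab b Ξi Ψ) (hF : ContDiff ℝ ∞ F) {p : P} (hp : p ≠ 0) :
    DifferentiableAt ℝ (fun q => F (Ψ q)) p ∧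
      dx (fun q => F (Ψ q)) p = LX b F (Ψ p) ∧ du (fun q => F (Ψ q)) p = LY b F (Ψ p) := by
  have hG : DifferentiableAt ℝ (fun q => F (Ψ q)) p :=
    (dAt hF (Ψ p)).comp p ((hL.Ψ_sm p hp).differentiableAt (by simp))
  have hJ : JJ b (Ψ p) ≠ 0 := (hL.J_pos _ (hL.Ψ_ne hp)).ne'
  have e : ((Ψ p).1, YY b (Ψ p)) = p := hL.Φ_r p
  have hG' : DifferentiableAt ℝ (fun q => F (Ψ q)) ((Ψ p).1, YY b (Ψ p)) := by rwa [e]
  have hY := dAt (sm_YY hb.sm) (Ψ p)
  have a1 := dx_comp (g1 := fun z => z.1) (g2 := YY b) (z := Ψ p) hG' differentiableAt_fst hY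
  have a2 := du_comp (g1 := fun z => z.1) (g2 := YY b) (z := Ψ p) hG' differentiableAt_fst hY
  have eF : (fun z : P => F (Ψ (z.1, YY b z))) = F := funext fun z => congrArg F (hL.Φ_l z)
  simp only [eF, e, dx_fst, du_fst, du_YY hb.sm, one_mul, zero_mul, zero_add] at a1 a2
  have h2 : du (fun q => F (Ψ q)) p = du F (Ψ p) / JJ b (Ψ p) := by
    rw [a2]; field_simp
  refine ⟨hG, ?_, h2⟩
  unfold LX
  rw [mul_div_assoc, ← h2, a1]; ring

lemma zero (hL : Lab b Ξi Ψ) (hF : O 4 F) :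
    HasFDerivAt (fun q => F (Ψ q)) (0 : P →L[ℝ] ℝ) 0 := by
  obtain ⟨C, hC, hb⟩ := hF.bound 1
  obtain ⟨K, hK⟩ := hL.Ψ_bd
  have t0 : Tendsto (fun q : P => ‖Ψ q‖) (𝓝 0) (𝓝 0) := by
    have := (hL.Ψ_cont.norm).tendsto 0
    rwa [hL.Ψ_zero, norm_zero] at this
  have t1 : Tendsto (fun q : P => C * |K| * ‖Ψ q‖) (𝓝 0) (𝓝 0) := by
    simpa using t0.const_mul (C * |K|)
  have t2 : Tendsto (fun q : P => ‖q‖) (𝓝 0) (𝓝 0) := tendsto_norm_zero
  rw [hasFDerivAt_iff_isLittleO_nhds_zero, Asymptotics.isLittleO_iff]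
  intro c hc
  filter_upwards [t0.eventually (ge_mem_nhds one_pos), t2.eventually (ge_mem_nhds one_pos),
    t1.eventually (ge_mem_nhds hc)] with q h0 h2 h1
  simp only [zero_add, hL.Ψ_zero, hF.at_zero, sub_zero, _root_.zero_apply,
    Real.norm_eq_abs]
  have k1 : ‖Ψ q‖ ^ 3 ≤ |K| * ‖q‖ :=
    (hK q h2).trans (mul_le_mul_of_nonneg_right (le_abs_self K) (norm_nonneg _))
  calc |F (Ψ q)| ≤ C * ‖Ψ q‖ ^ 4 := hb _ h0
    _ = C * ‖Ψ q‖ * ‖Ψ q‖ ^ 3 := by ring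
    _ ≤ C * ‖Ψ q‖ * (|K| * ‖q‖) := mul_le_mul_of_nonneg_left k1 (by positivity)
    _ = C * |K| * ‖Ψ q‖ * ‖q‖ := by ring
    _ ≤ c * ‖q‖ := mul_le_mul_of_nonneg_right h1 (norm_nonneg _)

lemma LY_zero (hF : O 4 F) : LY b F 0 = 0 := by
  unfold LY; rw [hF.du.at_zero, zero_div]

lemma LX_eq (b F : P → ℝ) (z : P) : LX b F z = dx F z - dx (YY b) z * LY b F z := by
  unfold LX LY; rw [mul_div_assoc]

lemma cont_LY (hb : Con0 b) (hL : Lab b Ξi Ψ) (hF : O 4 F) : Continuous (LY b F) := by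
  refine continuous_iff_continuousAt.2 fun z => ?_
  by_cases hz : z = 0
  · subst hz
    obtain ⟨r, hr, hJ⟩ := hL.J_lo
    obtain ⟨C, hC, hb'⟩ := hF.du.bound r
    have t2 : Tendsto (fun q : P => ‖q‖) (𝓝 0) (𝓝 0) := tendsto_norm_zero
    have t1 : Tendsto (fun q : P => 8 * C * ‖q‖) (𝓝 0) (𝓝 0) := by
      simpa using t2.const_mul (8 * C)
    rw [ContinuousAt, LY_zero hF]
    refine squeeze_zero_norm' ?_ t1
    filter_upwards [t2.eventually (ge_mem_nhds hr)] with q hq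
    by_cases h0 : q = 0
    · subst h0; rw [LY_zero hF]; simp
    · have hp := hL.J_pos q h0
      unfold LY
      rw [Real.norm_eq_abs, abs_div, abs_of_pos hp, div_le_iff₀ hp]
      calc |du F q| ≤ C * ‖q‖ ^ 3 := hb' q hq
        _ = 8 * C * ‖q‖ * (‖q‖ ^ 2 / 8) := by ring
        _ ≤ 8 * C * ‖q‖ * JJ b q := mul_le_mul_of_nonneg_left (hJ q hq).1 (by positivity)
  · exact (contDiff_du hF.sm).continuous.continuousAt.div (sm_JJ hb.sm).continuous.continuousAt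
      (hL.J_pos z hz).ne'

lemma cont_LX (hb : Con0 b) (hL : Lab b Ξi Ψ) (hF : O 4 F) : Continuous (LX b F) := by
  rw [funext (LX_eq b F)]
  exact (contDiff_dx hF.sm).continuous.sub
    ((contDiff_dx (sm_YY hb.sm)).continuous.mul (cont_LY hb hL hF))

lemma all (hb : Con0 b) (hL : Lab b Ξi Ψ) (hF : O 4 F) (p : P) :
    DifferentiableAt ℝ (fun q => F (Ψ q)) p ∧
      dx (fun q => F (Ψ q)) p = LX b F (Ψ p) ∧ du (fun q => F (Ψ q)) p = LY b F (Ψ p) := by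
  by_cases hp : p = 0
  · subst hp
    have h := zero hL hF
    refine ⟨h.differentiableAt, ?_, ?_⟩
    · rw [hL.Ψ_zero, LX_eq, LY_zero hF, hF.dx.at_zero]
      unfold dx; rw [h.fderiv]; simp
    · rw [hL.Ψ_zero, LY_zero hF]
      unfold du; rw [h.fderiv]; simp
  · exact off hb hL hF.sm hp

end I56

theorem st_TEMP : St_TEMP := by
  intro b Ξi Ψ hb hL
  refine ⟨fun F hF p hp => (I56.off hb hL hF hp).2, fun F hF => ⟨?_, fun p => (I56.all hb hL hF p).2⟩⟩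
  refine contDiff_one_iff_fderiv.2 ⟨fun p => (I56.all hb hL hF p).1, ?_⟩
  have e : fderiv ℝ (fun q => F (Ψ q)) = fun p =>
      LX b F (Ψ p) • ContinuousLinearMap.fst ℝ ℝ ℝ + LY b F (Ψ p) • ContinuousLinearMap.snd ℝ ℝ ℝ := by
    funext p
    refine ContinuousLinearMap.ext fun h => ?_
    rw [fderiv_apply_eq, (I56.all hb hL hF p).2.1, (I56.all hb hL hF p).2.2]
    simp [mul_comm]
  rw [e]
  exact (((I56.cont_LX hb hL hF).comp hL.Ψ_cont).smul continuous_const).add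
    (((I56.cont_LY hb hL hF).comp hL.Ψ_cont).smul continuous_const)

end Pool.Agent.Lib.ISOC
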