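import Pool.Agent.Lib.ISOC.MB

/-! The motion read in the coordinates of the strip. -/

set_option autoImplicit false

open MeasureTheory Set Filter Topology Real
open scoped ContDiff ENNReal
open Pool.Agent.Lib.MP_f62ea7_gt

namespace Pool.Agent.Lib.ISOC

namespace T28

/-- the height of the strip -/
noncomputable def hgt (R x : ℝ) : ℝ := Y0 (x, √(R ^ 2 - x ^ 2))

lemma hgt_cont (R : ℝ) : Continuous (hgt R) :=
  continuous_Y0.comp (continuous_id.prodMk (by fun_prop))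

lemma hgt_nonneg (R x : ℝ) : 0 ≤ hgt R x := by
  have := (strictMono_Y0 x).monotone (Real.sqrt_nonneg (R ^ 2 - x ^ 2))
  simpa [hgt] using this

lemma image_Disc {R : ℝ} (hR : 0 ≤ R) : Phi0 '' Disc R = Strip R (hgt R) := by
  ext p
  constructor
  · rintro ⟨z, hz, rfl⟩
    have h0 : z.1 ^ 2 + z.2 ^ 2 ≤ R ^ 2 := hz
    have h1 : |z.2| ≤ √(R ^ 2 - z.1 ^ 2) := Real.abs_le_sqrt (by linarith)
    have h2 := (strictMono_Y0 z.1).monotone (abs_le.1 h1).1
    have h3 := (strictMono_Y0 z.1).monotone (abs_le.1 h1).2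
    simp only [Y0_neg_snd] at h2
    have h4 : z.1 ^ 2 ≤ R ^ 2 := by linarith [sq_nonneg z.2]
    exact ⟨abs_le.2 (abs_le_of_sq_le_sq' h4 hR), abs_le.2 ⟨h2, h3⟩⟩
  · rintro ⟨h1, h2⟩
    have hs := Real.sqrt_nonneg (R ^ 2 - p.1 ^ 2)
    have h3 : p.1 ^ 2 ≤ R ^ 2 := sq_le_sq' (abs_le.1 h1).1 (abs_le.1 h1).2
    have hc : Continuous fun u => Y0 (p.1, u) :=
      continuous_Y0.comp (continuous_const.prodMk continuous_id)
    obtain ⟨u, hu, e⟩ := intermediate_value_Icc (a := -√(R ^ 2 - p.1 ^ 2))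
      (b := √(R ^ 2 - p.1 ^ 2)) (by linarith) hc.continuousOn
      (show p.2 ∈ _ from ⟨by simpa [Y0_neg_snd, hgt] using (abs_le.1 h2).1, (abs_le.1 h2).2⟩)
    refine ⟨(p.1, u), ?_, Prod.ext rfl e⟩
    have h4 := sq_le_sq' hu.1 hu.2
    rw [Real.sq_sqrt (by linarith)] at h4
    change p.1 ^ 2 + u ^ 2 ≤ R ^ 2
    linarith

variable {X : Sys}

lemma cont (hX : Good X) : Continuous fun p => Phi0 (X.Γi p) :=
  contDiff_Phi0.continuous.comp hX.Γi_cont

lemma inj (hX : Good X) : Function.Injective fun p => Phi0 (X.Γi p) :=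
  injective_Phi0.comp (Function.LeftInverse.injective hX.right)

lemma neg (hX : Good X) (p : P) : Phi0 (X.Γi (-p)) = -Phi0 (X.Γi p) := by
  have e : X.Γi (-p) = -X.Γi p := by
    conv_lhs => rw [← hX.right p, ← hX.odd, hX.left]
  rw [e]
  exact Prod.ext rfl (Y0_neg _)

lemma maps (hX : Good X) : MapsTo (fun p => Phi0 (X.Γi p)) X.M (Strip X.R (hgt X.R)) := by
  rintro _ ⟨z, hz, rfl⟩
  rw [← image_Disc hX.R_pos.le]
  exact ⟨z, hz, by simp only [hX.left]⟩

lemma mp (hX : Good X) : MeasurePreserving (fun p => Phi0 (X.Γi p)) (volume.restrict X.M)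
    (volume.restrict (Strip X.R (hgt X.R))) := by
  refine ⟨(cont hX).measurable, Measure.ext fun B hB => ?_⟩
  have hA : MeasurableSet (Phi0 ⁻¹' B ∩ Disc X.R) :=
    (contDiff_Phi0.continuous.measurable hB).inter (measurableSet_Disc _)
  have e : (fun p => Phi0 (X.Γi p)) ⁻¹' B ∩ X.M = X.Γ '' (Phi0 ⁻¹' B ∩ Disc X.R) := by
    ext p
    constructor
    · rintro ⟨h, z, hz, rfl⟩
      exact ⟨z, ⟨by simpa only [mem_preimage, hX.left] using h, hz⟩, rfl⟩
    · rintro ⟨z, ⟨h, hz⟩, rfl⟩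
      exact ⟨by simpa only [mem_preimage, hX.left] using h, z, hz, rfl⟩
  rw [Measure.map_apply (cont hX).measurable hB,
    Measure.restrict_apply ((cont hX).measurable hB), Measure.restrict_apply hB, e,
    ← image_Disc hX.R_pos.le, ← image_preimage_inter,
    vol_image (hX.Γ_sm.differentiable (by simp)) hA
      (Function.LeftInverse.injective hX.left).injOn,
    vol_image (contDiff_Phi0.differentiable (by simp)) hA injective_Phi0.injOn]
  simp only [hX.jac_eq, jac_Phi0]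

lemma meas_d {f : P → ℝ} (hf : ContDiff ℝ 1 f) {M : Set P} {η v : ℝ → P → P} (h : Adm M η v) :
    Measurable fun q : ℝ × P => fderiv ℝ f (η q.1 q.2) (v q.1 q.2) := by
  have c := (hf.continuous_fderiv one_ne_zero).comp h.cont
  have c1 : Continuous fun q : ℝ × P => dx f (η q.1 q.2) := c.clm_apply continuous_const
  have c2 : Continuous fun q : ℝ × P => du f (η q.1 q.2) := c.clm_apply continuous_const
  simp only [fderiv_apply_eq]
  exact (h.meas.fst.mul c1.measurable).add (h.meas.snd.mul c2.measurable)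

lemma bdd_d {f : P → ℝ} (hf : ContDiff ℝ 1 f) {M : Set P} (hM : IsCompact M) {η v : ℝ → P → P}
    (h : Adm M η v) : ∃ B, ∀ t ∈ Icc 0 π, ∀ a ∈ M, ‖fderiv ℝ f (η t a) (v t a)‖ ≤ B := by
  obtain ⟨B, hB⟩ := h.bdd
  obtain ⟨C, hC⟩ := hM.exists_bound_of_continuousOn (hf.continuous_fderiv one_ne_zero).continuousOn
  refine ⟨C * B, fun t ht a ha => ?_⟩
  have h1 := hC _ (h.maps t ht ha)
  exact ((fderiv ℝ f (η t a)).le_opNorm _).trans
    (mul_le_mul h1 (hB t ht a ha) (norm_nonneg _) ((norm_nonneg _).trans h1))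

end T28

open T28 in
theorem st_TH : St_TH := by
  intro X hX
  refine ⟨hgt X.R, hgt_cont _, hgt_nonneg _, fun η v hA hF => ?_⟩
  have hM : IsCompact X.M := (isCompact_Disc X.R).image hX.Γ_sm.continuous
  refine ⟨(cont hX).comp hA.cont, (meas_d hX.ξ_c1 hA).prodMk (meas_d hX.y_c1 hA), ?_, ?_,
    fun t ht => (maps hX).comp (hA.maps t ht), fun t ht => ?_,
    fun t ht => (mp hX).comp (hA.mp t ht), fun a ha => ?_⟩
  · obtain ⟨B, hB⟩ := bdd_d hX.ξ_c1 hM hA
    obtain ⟨C, hC⟩ := bdd_d hX.y_c1 hM hA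
    exact ⟨max B C, fun t ht a ha => max_le_max (hB t ht a ha) (hC t ht a ha)⟩
  · obtain ⟨S, hS⟩ := hA.der
    refine ⟨S, fun t ht hs a ha => HasDerivAt.prodMk ?_ ?_⟩
    · exact (hX.ξ_c1.differentiable one_ne_zero _).hasFDerivAt.comp_hasDerivAt t (hS t ht hs a ha)
    · exact (hX.y_c1.differentiable one_ne_zero _).hasFDerivAt.comp_hasDerivAt t (hS t ht hs a ha)
  · obtain ⟨ρ, -, -, h⟩ := hA.inv t ht
    exact (inj hX).comp_injOn h.1.injOn
  · change Phi0 (X.Γi (η π a)) = -Phi0 (X.Γi (η 0 a))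
    rw [(hF a ha).1, (hF a ha).2, neg hX]

end Pool.Agent.Lib.ISOC
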