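import Pool.Agent.Lib.ISOC.Blue
import Pool.Agent.Lib.MP_f62ea7_gt.TR1
import Pool.Agent.Lib.MP_f62ea7_gt.EMB

set_option autoImplicit false

open MeasureTheory Set Filter Topology Real
open scoped ContDiff ENNReal NNReal BoundedContinuousFunction
open Pool.Agent.Lib.MP_f62ea7_gt

namespace Pool.Agent.Lib.ISOC

namespace I88

open TR1 in
theorem tr1g (κ : ℝ) (hκ : 0 < κ) (s : ℝ) (M : Set P) (φ : P → P) (γ : ℝ → ℂ → ℂ) (hs : 2 < s)
    (hM : IsCompact M) (hγ : IsCurve s (ι κ '' M) (cj κ φ) γ) :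
    ∃ η v : ℝ → P → P, Adm M η v ∧ (∀ a ∈ M, η 0 a = a ∧ η π a = φ a) ∧
      (∀ t ∈ Ioo (0 : ℝ) 1, ∀ a ∈ M, γ t (ι κ a) = ι κ (η (π * t) a)) ∧
      ∃ L, LipschitzOnWith L (η (π / 2)) M := by
  obtain ⟨Bs, hBs, hL⟩ := blk_EMB s hs
  obtain ⟨⟨g, S, hg, hgγ⟩, hD, h0, h1⟩ := hγ
  obtain ⟨K, hK⟩ := lip_piece hg
  have hκ' := hκ.ne'
  set e := ιE κ hκ' with he
  set G : ℝ → L2 := fun t => g (projIcc (0 : ℝ) 1 zero_le_one (π⁻¹ * t)) with hG
  have hGL : ∃ K', LipschitzWith K' G :=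
    ⟨_, (hK.to_restrict.comp (LipschitzWith.projIcc zero_le_one)).comp
      (lipschitzWith_smul (π⁻¹ : ℝ))⟩
  obtain ⟨K', hGL⟩ := hGL
  have Gin : ∀ t : ℝ, π⁻¹ * t ∈ Icc (0 : ℝ) 1 → G t = g (π⁻¹ * t) := fun t ht => by
    simp only [hG, projIcc_of_mem zero_le_one ht]
  have tin : ∀ t ∈ Icc 0 π, π⁻¹ * t ∈ Icc (0 : ℝ) 1 := fun t ht =>
    ⟨mul_nonneg (inv_pos.2 pi_pos).le ht.1, by
      rw [inv_mul_le_iff₀ pi_pos]; simpa using ht.2⟩
  have tin' : ∀ t ∈ Ioo 0 π, π⁻¹ * t ∈ Ioo (0 : ℝ) 1 := fun t ht =>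
    ⟨mul_pos (inv_pos.2 pi_pos) ht.1, by
      rw [inv_mul_lt_iff₀ pi_pos]; simpa using ht.2⟩
  set η : ℝ → P → P := fun t a => e.symm (Bs (G t) (e a)) with hη
  have ηc : Continuous fun q : ℝ × P => η q.1 q.2 :=
    e.symm.continuous.comp (Continuous.eval
      (Bs.continuous.comp (hGL.continuous.comp continuous_fst)) (e.continuous.comp continuous_snd))
  have ηγ : ∀ t ∈ Icc 0 π, ∀ a ∈ M, ι κ (η t a) = γ (π⁻¹ * t) (ι κ a) := fun t ht a ha => by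
    rw [hgγ _ (tin t ht) _ (mem_image_of_mem _ ha), ← hBs, ← Gin t (tin t ht)]
    exact e.apply_symm_apply _
  set v : ℝ → P → P := fun t a => deriv (fun τ => η τ a) t with hv
  have vm : Measurable fun q : ℝ × P => v q.1 q.2 :=
    (measurable_deriv_with_param (f := fun (a : P) (τ : ℝ) => η τ a)
      (ηc.comp continuous_swap)).comp measurable_swap
  have vB : ∀ t a, ‖v t a‖ ≤ ((‖(e.symm : ℂ →L[ℝ] P)‖₊ * (1 * (‖Bs‖₊ * K')) : ℝ≥0) : ℝ) :=
    fun t a => norm_deriv_le_of_lipschitz ((e.symm : ℂ →L[ℝ] P).lipschitz.comp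
      ((BoundedContinuousFunction.lipschitz_eval_const (e a)).comp (Bs.lipschitz.comp hGL)))
  have vd : ∀ t ∈ Ioo 0 π, π⁻¹ * t ∉ S → ∀ a, HasDerivAt (fun τ => η τ a) (v t a) t := by
    intro t ht hS a
    have d1 : DifferentiableAt ℝ (fun τ => g (π⁻¹ * τ)) t :=
      (diff_piece hg (tin' t ht) hS).comp t (differentiableAt_id.const_mul _)
    have d2 : DifferentiableAt ℝ G t := by
      refine d1.congr_of_eventuallyEq ?_
      filter_upwards [Icc_mem_nhds ht.1 ht.2] with τ hτ using Gin τ (tin τ hτ)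
    have d4 : DifferentiableAt ℝ
        ((BoundedContinuousFunction.evalCLM ℝ (e a) : (ℂ →ᵇ ℂ) →L[ℝ] ℂ) ∘ Bs ∘ G) t :=
      (ContinuousLinearMap.differentiableAt _).comp t (Bs.differentiableAt.comp t d2)
    have d3 : DifferentiableAt ℝ (fun τ => η τ a) t := e.symm.differentiableAt.comp t d4
    exact d3.hasDerivAt
  have back : ∀ {p : P}, ι κ p ∈ ι κ '' M → p ∈ M := fun {p} hp =>
    (mem_image_iff_of_inverse (ιi_ι hκ') (ι_ιi hκ')).1 hp |> fun h => by rwa [ιi_ι hκ'] at h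
  have maps : ∀ t ∈ Icc 0 π, MapsTo (η t) M M := fun t ht a ha =>
    back (by rw [ηγ t ht a ha]; exact (hD _ (tin t ht)).2.1 (mem_image_of_mem _ ha))
  have inv : ∀ t ∈ Icc 0 π, ∃ ρ : P → P, Continuous ρ ∧ MapsTo ρ M M ∧ InvOn ρ (η t) M M := by
    intro t ht
    obtain ⟨f', ⟨g', hg'⟩, hm', hi⟩ := (hD _ (tin t ht)).2.2.1
    have hρ : ∀ a ∈ M, ι κ (e.symm (Bs g' (e a))) = f' (ι κ a) := fun a ha => by
      rw [hg' _ (mem_image_of_mem _ ha), ← hBs]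
      exact e.apply_symm_apply _
    have hmρ : MapsTo (fun a => e.symm (Bs g' (e a))) M M := fun a ha =>
      back (by rw [hρ a ha]; exact hm' (mem_image_of_mem _ ha))
    refine ⟨fun a => e.symm (Bs g' (e a)),
      e.symm.continuous.comp ((Bs g').continuous.comp e.continuous), hmρ, fun a ha => ?_,
      fun a ha => ?_⟩
    · apply (emb hκ').injective
      rw [hρ _ (maps t ht ha), ηγ t ht a ha]
      exact hi.1 (mem_image_of_mem _ ha)
    · apply (emb hκ').injective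
      rw [ηγ t ht _ (hmρ ha), hρ a ha]
      exact hi.2 (mem_image_of_mem _ ha)
  refine ⟨η, v, ⟨ηc, vm, ⟨_, fun t _ a _ => vB t a⟩, ⟨S.image (π * ·), fun t ht hS a _ => ?_⟩,
    maps, inv, fun t ht => ?_⟩, fun a ha => ⟨?_, ?_⟩, ?_, ?_⟩
  · refine vd t ht (fun h => hS (Finset.mem_image.2 ⟨_, h, ?_⟩)) a
    rw [mul_inv_cancel_left₀ pi_ne_zero]
  · obtain ⟨ρ, -, hρ, hi⟩ := inv t ht
    refine mp_of_image hM.measurableSet (ηc.comp (Continuous.prodMk_right t)).measurable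
      (maps t ht) (hi.2.surjOn hρ) fun A hA hAm => ?_
    have e1 : ι κ '' (η t '' A) = γ (π⁻¹ * t) '' (ι κ '' A) := by
      rw [image_image, image_image]
      exact image_congr fun a ha => ηγ t ht a (hA ha)
    have e2 := (hD _ (tin t ht)).2.2.2 (ι κ '' A) (image_mono hA)
      ((emb hκ').measurableSet_image.2 hAm)
    rw [← e1, vol_image hκ, vol_image hκ] at e2
    exact (ENNReal.mul_right_inj (by simpa using hκ) ENNReal.ofReal_ne_top).1 e2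
  · apply (emb hκ').injective
    rw [ηγ 0 ⟨le_rfl, pi_pos.le⟩ a ha, mul_zero, h0 _ (mem_image_of_mem _ ha)]
  · apply (emb hκ').injective
    rw [ηγ π ⟨pi_pos.le, le_rfl⟩ a ha, inv_mul_cancel₀ pi_ne_zero, h1 _ (mem_image_of_mem _ ha),
      cj, ιi_ι hκ']
  · intro t ht a ha
    have := ηγ (π * t) ⟨mul_nonneg pi_pos.le ht.1.le, by nlinarith [pi_pos, ht.2]⟩ a ha
    rw [inv_mul_cancel_left₀ pi_ne_zero] at this
    exact this.symm
  · obtain ⟨L, hL⟩ := hL (G (π / 2))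
    have : η (π / 2) = (e.symm : ℂ →L[ℝ] P) ∘ bessel s (G (π / 2)) ∘ (e : P →L[ℝ] ℂ) := by
      funext a; simp only [hη, hBs]; rfl
    rw [this]
    exact ⟨_, ((e.symm : ℂ →L[ℝ] P).lipschitz.comp
      (hL.comp (e : P →L[ℝ] ℂ).lipschitz)).lipschitzOnWith⟩

end I88

theorem st_TR1G : St_TR1G := fun s M φ γ hs hM hγ => I88.tr1g 1 one_pos s M φ γ hs hM hγ

end Pool.Agent.Lib.ISOC
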