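import Pool.Agent.Lib.ISOC.GB
import Pool.Agent.Lib.MP_f62ea7_gt.TR2

/-! A smooth steady incompressible flow is an admissible curve, with the expected action. -/

set_option autoImplicit false

open MeasureTheory Set Filter Topology Real
open scoped ContDiff ENNReal
open Pool.Agent.Lib.MP_f62ea7_gt

namespace Pool.Agent.Lib.ISOC

namespace T31

variable {M : Set P} {α : ℝ → P → P} {w : P → P}

lemma slice (h : Flow M α w) (t : ℝ) : ContDiff ℝ ∞ (α t) :=
  h.sm.comp (contDiff_const.prodMk contDiff_id)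

lemma inv_l (h : Flow M α w) (t : ℝ) (p : P) : α (-t) (α t p) = p := by
  rw [← h.add, neg_add_cancel, h.zero]

lemma inv_r (h : Flow M α w) (t : ℝ) (p : P) : α t (α (-t) p) = p := by
  rw [← h.add, add_neg_cancel, h.zero]

lemma hsP (hL : St_LIFTS) {s : ℝ} (hs : 2 < s) (hM : IsCompact M) (h : Flow M α w) (t : ℝ) :
    HsP s 1 M (α t) := by
  obtain ⟨g, -, hg⟩ := hL s M (fun _ p => α t p) hs hM ((slice h t).comp contDiff_snd)
  exact ⟨g 0, fun p hp => hg 0 ⟨by norm_num, by norm_num⟩ p hp⟩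

lemma pdiff (hL : St_LIFTS) {s : ℝ} (hs : 2 < s) (hM : IsCompact M) (h : Flow M α w) (t : ℝ) :
    PDiff s 1 M (α t) :=
  ⟨hsP hL hs hM h t, h.maps t,
    ⟨α (-t), hsP hL hs hM h (-t), h.maps (-t), fun p _ => inv_l h t p, fun p _ => inv_r h t p⟩,
    fun A _ hA => h.vol t A hA⟩

lemma adm (hM : IsCompact M) (h : Flow M α w) : Adm M α fun t a => w (α t a) where
  cont := h.sm.continuous
  meas := (h.cont.comp h.sm.continuous).measurable
  bdd := by
    obtain ⟨B, hB⟩ := hM.exists_bound_of_continuousOn h.cont.continuousOn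
    exact ⟨B, fun t _ a ha => hB _ (h.maps t ha)⟩
  der := ⟨∅, fun t _ _ a _ => h.der t a⟩
  maps := fun t _ => h.maps t
  inv := fun t _ => ⟨α (-t), (slice h (-t)).continuous, h.maps (-t), fun p _ => inv_l h t p,
    fun p _ => inv_r h t p⟩
  mp := fun t _ => mp_of_image hM.measurableSet (slice h t).continuous.measurable (h.maps t)
    (fun p hp => ⟨α (-t) p, h.maps (-t) hp, inv_r h t p⟩) fun A _ hA => h.vol t A hA

end T31

open T31 TR2 in
theorem st_TR2G (hL : St_LIFTS) : St_TR2G := by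
  intro s M α w hs hM h
  have e : α π = fun p => -p := funext h.pi
  refine ⟨?_, ⟨?_, fun t _ => diff_cj one_pos (pdiff hL hs hM h _), ?_, ?_⟩, adm hM h, ?_⟩
  · rw [← e]
    exact diff_cj one_pos (pdiff hL hs hM h π)
  · obtain ⟨g, hg, hγ⟩ := hL s M (fun t p => α (π * t) p) hs hM
      (h.sm.comp ((contDiff_const.mul contDiff_fst).prodMk contDiff_snd))
    refine ⟨g, ∅, fun a b _ _ _ => hg.contDiffOn, ?_⟩
    rintro t ht _ ⟨p, hp, rfl⟩
    show cj 1 (α (π * t)) (ι 1 p) = _
    rw [cj_ι one_ne_zero]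
    exact hγ t ⟨by linarith [ht.1], ht.2⟩ p hp
  · rintro _ ⟨p, _, rfl⟩
    show cj 1 (α (π * 0)) (ι 1 p) = _
    rw [cj_ι one_ne_zero, mul_zero, h.zero]
  · rintro _ ⟨p, _, rfl⟩
    show cj 1 (α (π * 1)) (ι 1 p) = _
    rw [mul_one, e]
  · intro E F G hE hF hG
    exact dbl_pos (adm hM h) (f := fun p => gq E F G p (w p) (w p) / 2)
      ((continuous_gq hE hF hG continuous_id h.cont h.cont).div_const 2).measurable

end Pool.Agent.Lib.ISOC
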