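import Pool.Agent.Lib.ISOC.B_DOM

set_option autoImplicit false

open MeasureTheory Set Filter Topology Real
open scoped ContDiff ENNReal
open Pool.Agent.Lib.MP_f62ea7_gt

namespace Pool.Agent.Lib.ISOC

namespace E86

lemma vol_ball (c : P) {δ : ℝ} (hδ : 0 ≤ δ) : volume.real (Metric.closedBall c δ) = 4 * δ ^ 2 := by
  have : Metric.closedBall c δ = Metric.closedBall c.1 δ ×ˢ Metric.closedBall c.2 δ :=
    (closedBall_prod_same c.1 c.2 δ).symm
  rw [this, Measure.volume_eq_prod, measureReal_prod_prod, volume_real_closedBall hδ,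
    volume_real_closedBall hδ]
  ring

lemma gq_nonneg {E F G : P → ℝ} {p : P} (h : 0 < E p ∧ E p * G p - F p ^ 2 = 1) (w : P) :
    0 ≤ gq E F G p w w := by
  refine nonneg_of_mul_nonneg_right (a := E p) ?_ h.1
  have : E p * gq E F G p w w = (E p * w.1 + F p * w.2) ^ 2 + w.2 ^ 2 := by
    unfold gq; linear_combination w.2 ^ 2 * h.2
  rw [this]; positivity

end E86

open E86 D86 in
theorem st_UPE (hU : St_UPG) : St_UPE := by
  intro X hX ε hε
  obtain ⟨C, l0, hl0, hl⟩ := hU X hX
  have cΓ := hX.Γ_sm.continuous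
  have hM : IsCompact X.M := (disc_compact _).image cΓ
  have cg : Continuous fun q : P × P => X.g q.1 q.2 q.2 / 2 := by
    have := hX.E_sm.continuous
    have := hX.F_sm.continuous
    have := hX.G_sm.continuous
    unfold Sys.g gq
    fun_prop
  obtain ⟨B, hB⟩ := (hM.prod (isCompact_closedBall (0 : P) C)).exists_bound_of_continuousOn
    cg.continuousOn
  have cv : Continuous X.v := by
    have c2 : Continuous tn := by unfold tn; fun_prop
    exact ((hX.Γ_sm.continuous_fderiv (by simp)).comp hX.Γi_cont).clm_apply (c2.comp hX.Γi_cont)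
  obtain ⟨δ, hδ, hδε⟩ : ∃ δ : ℝ, 0 < δ ∧ π * (|B| * (4 * δ ^ 2)) ≤ ε := by
    have c : Continuous fun δ : ℝ => π * (|B| * (4 * δ ^ 2)) := by fun_prop
    have h1 : ∀ᶠ δ in 𝓝[>] (0 : ℝ), π * (|B| * (4 * δ ^ 2)) < ε :=
      mem_nhdsWithin_of_mem_nhds (c.continuousAt.eventually (gt_mem_nhds (by simpa using hε)))
    obtain ⟨δ, h2, h3⟩ := (h1.and self_mem_nhdsWithin).exists
    exact ⟨δ, h3, h2.le⟩
  obtain ⟨r, hr, hrδ⟩ := Metric.continuousAt_iff.1 (cΓ.continuousAt (x := 0)) δ hδ
  have hl1 : 0 < min l0 (r / 2) := lt_min hl0 (by linarith)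
  obtain ⟨α, w, hF, hout, hin⟩ := hl _ hl1 (min_le_left _ _)
  refine ⟨α, w, hF, ?_⟩
  have i1 : IntegrableOn (fun p => X.g p (w p) (w p) / 2) X.M :=
    (cg.comp (continuous_id.prodMk hF.cont)).continuousOn.integrableOn_compact hM
  have i2 : IntegrableOn (fun p => X.g p (X.v p) (X.v p) / 2) X.M :=
    (cg.comp (continuous_id.prodMk cv)).continuousOn.integrableOn_compact hM
  have mb : MeasurableSet (Metric.closedBall (X.Γ 0) δ) := Metric.isClosed_closedBall.measurableSet
  have i3 : Integrable ((Metric.closedBall (X.Γ 0) δ).indicator fun _ => |B|) :=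
    (integrableOn_const (isCompact_closedBall _ _).measure_lt_top.ne).integrable_indicator mb
  have nn : ∀ p, 0 ≤ (Metric.closedBall (X.Γ 0) δ).indicator (fun _ => |B|) p :=
    indicator_nonneg fun _ _ => abs_nonneg _
  have h1 := setIntegral_mono_on i1 (i2.add i3.integrableOn) hM.measurableSet fun p hp => by
    simp only [Pi.add_apply]
    by_cases hc : min l0 (r / 2) ^ 2 < rho (X.Γi p)
    · rw [hout p hc]; linarith [nn p]
    · have a : (X.Γi p).1 ^ 2 + (X.Γi p).2 ^ 2 ≤ (r / 2) ^ 2 :=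
        (not_lt.1 hc).trans (pow_le_pow_left₀ hl1.le (min_le_right _ _) 2)
      have b : ‖X.Γi p‖ ≤ r / 2 := le_of_sq_le_sq ((norm_sq_le _).trans a) (by linarith)
      have c : p ∈ Metric.closedBall (X.Γ 0) δ := by
        have := hrδ (x := X.Γi p) (by rw [dist_zero_right]; linarith)
        rw [hX.right] at this
        exact this.le
      have d := hB (p, w p) ⟨hp, mem_closedBall_zero_iff.2 (hin p (not_lt.1 hc))⟩
      have e : 0 ≤ X.g p (X.v p) (X.v p) := gq_nonneg (hX.met p hp) _
      rw [indicator_of_mem c]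
      linarith [le_abs_self B, (le_abs_self _).trans d]
  have h2 : ∫ p in X.M, (Metric.closedBall (X.Γ 0) δ).indicator (fun _ => |B|) p ≤
      |B| * (4 * δ ^ 2) := by
    refine (setIntegral_le_integral i3 (Eventually.of_forall nn)).trans_eq ?_
    rw [integral_indicator_const _ mb, vol_ball _ hδ.le, smul_eq_mul, mul_comm]
  simp only [Pi.add_apply] at h1
  rw [integral_add i2 i3.integrableOn] at h1
  unfold Sys.st
  nlinarith [pi_pos]

end Pool.Agent.Lib.ISOC
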