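import Pool.Agent.Lib.ISOC.MB

/-! Row VEL: orders, parities and the lower bound for the steady velocity in labels. -/

set_option autoImplicit false

open MeasureTheory Set Filter Topology Real
open scoped ContDiff ENNReal
open Pool.Agent.Lib.MP_f62ea7_gt

namespace Pool.Agent.Lib.ISOC

namespace V91
variable {b : P → ℝ}

lemma U_o (h : Con0 b) : O 5 fun z => UU b z - z.2 := by
  refine ((((O_aa h.o5).mul' h.o5.du (k := 5) (by norm_num)).sub h.o5.dx.snd_mul).div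
    (sm_AA h.sm) h.A_ne).congr fun z => ?_
  have := h.A_ne z
  unfold UU nn
  field_simp
  unfold AA
  ring

lemma J_o (h : Con0 b) : O 4 fun z => JJ b z - 2 * rho z := by
  have h1 : O 4 fun z => ff (aa b z, z.2) - 2 * rho (aa b z, z.2) :=
    O.comp (O_aa h.o5) O.snd O_ff_sub
  have h2 : O 4 fun z => b z * (2 * (2 * z.1 + b z)) :=
    (h.o5.mono (by norm_num)).mul_sm
      (contDiff_const.mul ((contDiff_const.mul contDiff_fst).add h.sm))
  have h3 : O 4 fun z => dx b z * ff (aa b z, z.2) := h.o5.dx.mul_sm (O_ffXi h.o5).sm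
  refine ((h1.add h2).add h3).congr fun z => ?_
  simp only [JJ, AA, rho, aa]
  ring

lemma Yx_o (h : Con0 b) : O 4 fun z => dx (YY b) z - 4 * z.1 * z.2 := by
  have hJ := sm_JJ h.sm
  have h1 : O 3 fun z => dx (JJ b) z - 4 * z.1 := by
    refine (J_o h).dx.congr fun z => ?_
    rw [dx_sub (dAt hJ z) ((dAt contDiff_rho z).const_mul 2), dx_const_mul 2 (dAt contDiff_rho z),
      dx_rho]
    ring
  refine h1.iU.congr fun z => ?_
  rw [iU_sub (contDiff_dx hJ).continuous (by fun_prop), ← dx_iU hJ]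
  have : iU (fun z : P => 4 * z.1) z = 4 * z.1 * z.2 := by
    simp [iU]; ring
  rw [this]
  rfl

lemma V_o (h : Con0 b) : O 5 fun z => VV b z - 2 * z.1 * (z.2 ^ 2 - z.1 ^ 2) := by
  have h1 : O 5 fun z => dx (YY b) z * (UU b z - z.2) := O.sm_mul (O_Yx h.o5).sm (U_o h)
  have h2 : O 5 fun z => z.2 * (dx (YY b) z - 4 * z.1 * z.2) := (Yx_o h).snd_mul
  have h3 : O 5 fun z => z.1 * (JJ b z - 2 * rho z) := (J_o h).fst_mul
  have h4 : O 5 fun z => JJ b z * b z := O.sm_mul (sm_JJ h.sm) h.o5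
  refine (((h1.add h2).sub h3).sub h4).congr fun z => ?_
  rw [h.VV_eq]
  simp only [aa, rho]
  ring

lemma eps_flat (h : Con b) : Flat (eps b) := by
  refine Flat.iU fun m => ?_
  exact ((h.flat m).neg.div ((sm_AA h.sm).pow 2) fun z => pow_ne_zero 2 (h.A_ne z)).congr
    fun z => rfl

lemma alg {N x u U V e : ℝ} (hN : 0 ≤ N) (h1 : N ≤ 1) (hm : N = max |x| |u|)
    (hU : |U - u| ≤ N ^ 3 / 8) (hV : |V - 2 * x * (u ^ 2 - x ^ 2)| ≤ N ^ 3 / 8)
    (he : |e| ≤ N ^ 3 / 8) : 1 / 64 * N ^ 6 ≤ U ^ 2 + V ^ 2 + e * U := by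
  have e2 : e ^ 2 ≤ (N ^ 3 / 8) ^ 2 := by
    rw [← sq_abs]; exact pow_le_pow_left₀ (abs_nonneg e) he 2
  have n3 : N ^ 3 ≤ N := by nlinarith [mul_nonneg hN hN]
  have p3 : 0 ≤ N ^ 3 := by positivity
  have key : N ^ 6 / 32 ≤ U ^ 2 / 2 + V ^ 2 := by
    rcases le_total (N / 2) |u| with hu | hu
    · have a1 : N ^ 3 / 4 ≤ |U| := by
        have := abs_sub_abs_le_abs_sub u U
        rw [abs_sub_comm] at this
        linarith
      have a2 : (N ^ 3 / 4) ^ 2 ≤ U ^ 2 := by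
        rw [← sq_abs U]; exact pow_le_pow_left₀ (by positivity) a1 2
      nlinarith [sq_nonneg V]
    · have hx : |x| = N := by
        rcases le_total |x| |u| with h | h
        · rw [max_eq_right h] at hm
          have : N = 0 := by linarith
          have := abs_nonneg x
          linarith
        · rw [max_eq_left h] at hm; exact hm.symm
      have x2 : x ^ 2 = N ^ 2 := by rw [← hx, sq_abs]
      have u2 : u ^ 2 ≤ (N / 2) ^ 2 := by
        rw [← sq_abs u]; exact pow_le_pow_left₀ (abs_nonneg u) hu 2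
      have a0 : 3 / 2 * N ^ 3 ≤ |2 * x * (u ^ 2 - x ^ 2)| := by
        rw [abs_mul, abs_mul, hx, abs_two, abs_sub_comm, x2]
        have : 3 / 4 * N ^ 2 ≤ |N ^ 2 - u ^ 2| := le_trans (by linarith) (le_abs_self _)
        nlinarith
      have a1 : N ^ 3 ≤ |V| := by
        have := abs_sub_abs_le_abs_sub (2 * x * (u ^ 2 - x ^ 2)) V
        rw [abs_sub_comm] at this
        linarith
      have a2 : (N ^ 3) ^ 2 ≤ V ^ 2 := by
        rw [← sq_abs V]; exact pow_le_pow_left₀ (by positivity) a1 2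
      nlinarith [sq_nonneg U, sq_nonneg (N ^ 3)]
  nlinarith [sq_nonneg (U + e), sq_nonneg (N ^ 3)]

lemma small {F : P → ℝ} (h : O 4 F) :
    ∃ r, 0 < r ∧ ∀ z : P, ‖z‖ ≤ r → |F z| ≤ ‖z‖ ^ 3 / 8 := by
  obtain ⟨C, hC, hb⟩ := h.bound 1
  refine ⟨min 1 (1 / (8 * (C + 1))), by positivity, fun z hz => ?_⟩
  have h1 := hz.trans (min_le_left _ _)
  have h2 := hz.trans (min_le_right _ _)
  rw [le_div_iff₀ (by positivity)] at h2
  have h3 : C * ‖z‖ ≤ 1 / 8 := by nlinarith [norm_nonneg z]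
  calc |F z| ≤ C * ‖z‖ ^ 4 := hb z h1
    _ = (C * ‖z‖) * ‖z‖ ^ 3 := by ring
    _ ≤ 1 / 8 * ‖z‖ ^ 3 := mul_le_mul_of_nonneg_right h3 (by positivity)
    _ = _ := by ring

end V91

theorem st_VEL : St_VEL := by
  intro b h
  have h0 : Con0 b := h.toCon0
  refine ⟨V91.U_o h0, V91.V_o h0, V91.eps_flat h, fun z => ?_, fun z => ?_, fun z => ?_, ?_⟩
  · simp only [UU, nn_neg h0.odd, AA_neg h0.odd, neg_div]
  · simp only [VV, mm_neg h0.odd, AA_neg h0.odd, neg_div]
  · exact iU_of_even (fun z => by simp only [EE, EP_neg h0.odd, AA_neg h0.odd]) z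
  · obtain ⟨r1, p1, b1⟩ := V91.small ((V91.U_o h0).mono (by norm_num : 4 ≤ 5))
    obtain ⟨r2, p2, b2⟩ := V91.small ((V91.V_o h0).mono (by norm_num : 4 ≤ 5))
    obtain ⟨r3, p3, b3⟩ := V91.small (V91.eps_flat h 4)
    refine ⟨min (min 1 r1) (min r2 r3), 1 / 64, by positivity, by norm_num, fun z hz => ?_⟩
    simp only [le_min_iff] at hz
    exact V91.alg (norm_nonneg z) hz.1.1 (Prod.norm_def z) (b1 z hz.1.2) (b2 z hz.2.1)
      (b3 z hz.2.2)

end Pool.Agent.Lib.ISOC
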