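import Pool.Agent.Lib.ISOC.Defs
import Pool.Agent.Lib.MP_f62ea7_gt.Blue

set_option autoImplicit false

open MeasureTheory Set Filter Topology Real
open scoped ContDiff ENNReal
open Pool.Agent.Lib.MP_f62ea7_gt

namespace Pool.Agent.Lib.ISOC

/-! ## The model -/

def rho (z : P) : ℝ := z.1 ^ 2 + z.2 ^ 2
/-- the generator of the clockwise rotation `rot` -/
def tn (z : P) : P := (z.2, -z.1)
def Disc (R : ℝ) : Set P := {z | rho z ≤ R ^ 2}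
noncomputable def ff (z : P) : ℝ := 1 - 1 / (1 + rho z) ^ 2
noncomputable def psi (z : P) : ℝ := rho z ^ 2 / (2 * (1 + rho z))
noncomputable def kap (z : P) : ℝ := rho z / (2 * (1 + rho z))
/-- primitive in the second variable -/
noncomputable def iU (F : P → ℝ) (z : P) : ℝ := ∫ s in (0 : ℝ)..z.2, F (z.1, s)
noncomputable def Y0 : P → ℝ := iU ff
noncomputable def H0 : P → ℝ := iU fun z => z.1 * kap z
noncomputable def Phi0 (z : P) : P := (z.1, Y0 z)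
/-- the Legendre defect -/
noncomputable def DD (x u p : ℝ) : ℝ := p * (Y0 (x, p) - Y0 (x, u)) - (psi (x, p) - psi (x, u))
noncomputable def jac (Λ : P → P) (z : P) : ℝ := (fderiv ℝ Λ z).det
def Strip (R : ℝ) (h : ℝ → ℝ) : Set P := {p | |p.1| ≤ R ∧ |p.2| ≤ h p.1}

/-! ## Orders of vanishing at the origin -/

/-- `O m F`: `F` is smooth and vanishes to order `m` at the origin. -/
def O : ℕ → (P → ℝ) → Prop
  | 0, F => ContDiff ℝ ∞ F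
  | m + 1, F => ∃ F1 F2 : P → ℝ, O m F1 ∧ O m F2 ∧ ∀ z, F z = z.1 * F1 z + z.2 * F2 z

def Flat (F : P → ℝ) : Prop := ∀ m, O m F

/-- homogeneous polynomials of degree `m` -/
inductive Hom (m : ℕ) : (P → ℝ) → Prop
  | mono (c : ℝ) (i j : ℕ) (h : i + j = m) : Hom m fun z => c * z.1 ^ i * z.2 ^ j
  | add {f g : P → ℝ} : Hom m f → Hom m g → Hom m fun z => f z + g z

/-! ## The construction in the labels `z = (x, η)`, from the unknown `b` -/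

def aa (b : P → ℝ) (z : P) : ℝ := z.1 + b z
noncomputable def AA (b : P → ℝ) (z : P) : ℝ := 1 + dx b z
noncomputable def JJ (b : P → ℝ) (z : P) : ℝ := AA b z * ff (aa b z, z.2)
noncomputable def YY (b : P → ℝ) : P → ℝ := iU (JJ b)
noncomputable def nn (b : P → ℝ) (z : P) : ℝ := z.2 + aa b z * du b z
noncomputable def mm (b : P → ℝ) (z : P) : ℝ := dx (YY b) z * nn b z - JJ b z * aa b z * AA b z
noncomputable def EP (b : P → ℝ) (z : P) : ℝ :=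
  (du (nn b) z * AA b z - nn b z * du (AA b) z) -
    ((dx (mm b) z * AA b z - mm b z * dx (AA b) z) * JJ b z -
      (du (mm b) z * AA b z - mm b z * du (AA b) z) * dx (YY b) z) - AA b z ^ 3
noncomputable def LL (f : P → ℝ) (z : P) : ℝ :=
  z.2 * du (dx f) z - z.1 * du (du f) z + 2 * dx f z
noncomputable def UU (b : P → ℝ) (z : P) : ℝ := nn b z / AA b z
noncomputable def VV (b : P → ℝ) (z : P) : ℝ := mm b z / AA b z
noncomputable def EE (b : P → ℝ) (z : P) : ℝ := -EP b z / AA b z ^ 2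
noncomputable def eps (b : P → ℝ) : P → ℝ := iU (EE b)
noncomputable def QQ (b : P → ℝ) (z : P) : ℝ := UU b z ^ 2 + VV b z ^ 2 + eps b z * UU b z
noncomputable def om1 (b : P → ℝ) (z : P) : ℝ :=
  UU b z + eps b z + VV b z * dx (YY b) z - z.2 * AA b z
noncomputable def om2 (b : P → ℝ) (z : P) : ℝ := VV b z * JJ b z - z.2 * du b z
def Xi (b : P → ℝ) (z : P) : P := (aa b z, z.2)
noncomputable def Phi (b : P → ℝ) (z : P) : P := (z.1, YY b z)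
/-- the physical partial derivatives read in labels -/
noncomputable def LX (b F : P → ℝ) (z : P) : ℝ := dx F z - dx (YY b) z * du F z / JJ b z
noncomputable def LY (b F : P → ℝ) (z : P) : ℝ := du F z / JJ b z

structure Con0 (b : P → ℝ) : Prop where
  o5 : O 5 b
  odd : ∀ z, b (-z) = -b z
  bx : ∀ z, |dx b z| ≤ 1 / 2

structure Con (b : P → ℝ) : Prop extends Con0 b where
  flat : Flat (EP b)

/-- `Ξi` and `Ψ` invert `Xi b` and `Phi b`. -/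
structure Lab (b : P → ℝ) (Ξi Ψ : P → P) : Prop where
  Ξi_sm : ContDiff ℝ ∞ Ξi
  Ξ_l : ∀ z, Ξi (Xi b z) = z
  Ξ_r : ∀ z, Xi b (Ξi z) = z
  Ψ_cont : Continuous Ψ
  Φ_l : ∀ z, Ψ (Phi b z) = z
  Φ_r : ∀ p, Phi b (Ψ p) = p
  Ψ_sm : ∀ p, p ≠ 0 → ContDiffAt ℝ ∞ Ψ p
  Ψ_bd : ∃ C, ∀ p : P, ‖p‖ ≤ 1 → ‖Ψ p‖ ^ 3 ≤ C * ‖p‖
  J_pos : ∀ z, z ≠ 0 → 0 < JJ b z
  J_lo : ∃ r, 0 < r ∧ ∀ z : P, ‖z‖ ≤ r → ‖z‖ ^ 2 / 8 ≤ JJ b z ∧ ‖z‖ ^ 2 / 2 ≤ rho (Xi b z) ∧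
    rho (Xi b z) ≤ 4 * ‖z‖ ^ 2
  Y_surj : ∀ x, Function.Surjective fun u => YY b (x, u)

/-- smoothness, orders and parities of the velocity and of the correction -/
structure Vel (b : P → ℝ) : Prop where
  U_o : O 5 fun z => UU b z - z.2
  V_o : O 5 fun z => VV b z - 2 * z.1 * (z.2 ^ 2 - z.1 ^ 2)
  eps_flat : Flat (eps b)
  U_odd : ∀ z, UU b (-z) = -UU b z
  V_odd : ∀ z, VV b (-z) = -VV b z
  eps_odd : ∀ z, eps b (-z) = -eps b z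
  Q_lo : ∃ r c : ℝ, 0 < r ∧ 0 < c ∧ ∀ z : P, ‖z‖ ≤ r → c * ‖z‖ ^ 6 ≤ QQ b z

/-- the metric near the origin -/
structure Met (b : P → ℝ) (r C : ℝ) (E F G : P → ℝ) : Prop where
  r_pos : 0 < r
  E_sm : ContDiff ℝ ∞ E
  F_sm : ContDiff ℝ ∞ F
  G_sm : ContDiff ℝ ∞ G
  det : ∀ z : P, ‖z‖ ≤ r → E (Phi b z) * G (Phi b z) - F (Phi b z) ^ 2 = 1
  row1 : ∀ z : P, ‖z‖ ≤ r → E (Phi b z) * UU b z + F (Phi b z) * VV b z = UU b z + eps b z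
  row2 : ∀ z : P, ‖z‖ ≤ r → F (Phi b z) * UU b z + G (Phi b z) * VV b z = VV b z
  even : ∀ z : P, ‖z‖ ≤ r → E (Phi b (-z)) = E (Phi b z) ∧ F (Phi b (-z)) = F (Phi b z) ∧
    G (Phi b (-z)) = G (Phi b z)
  near : ∀ z : P, ‖z‖ ≤ r → |E (Phi b z) - 1| ≤ C * ‖z‖ ^ 4 ∧ |F (Phi b z)| ≤ C * ‖z‖ ^ 4 ∧
    |G (Phi b z) - 1| ≤ C * ‖z‖ ^ 4

/-- a smooth regularisation of `Γ` at scale `l` -/
structure App (Γ : P → P) (C l : ℝ) (Λ Λi : P → P) : Prop where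
  sm : ContDiff ℝ ∞ Λ
  smi : ContDiff ℝ ∞ Λi
  left : ∀ z, Λi (Λ z) = z
  right : ∀ p, Λ (Λi p) = p
  odd : ∀ z, Λ (-z) = -Λ z
  out : ∀ z, l ^ 2 ≤ rho z → Λ z = Γ z
  pos : ∀ z, 0 < jac Λ z
  core : ∀ z, rho z ≤ l ^ 2 → l ^ 2 / C ≤ jac Λ z ∧ jac Λ z ≤ C * l ^ 2 ∧ ‖fderiv ℝ Λ z‖ ≤ C

/-! ## The interface between the construction and the variational argument -/

def gq (E F G : P → ℝ) (p u w : P) : ℝ :=
  E p * u.1 * w.1 + F p * (u.1 * w.2 + u.2 * w.1) + G p * u.2 * w.2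
noncomputable def actG (E F G : P → ℝ) (M : Set P) (η v : ℝ → P → P) : ℝ :=
  dbl M fun t a => gq E F G (η t a) (v t a) (v t a) / 2

structure Sys where
  R : ℝ
  Γ : P → P
  Γi : P → P
  E : P → ℝ
  F : P → ℝ
  G : P → ℝ
  χ : P → ℝ

def Sys.M (X : Sys) : Set P := X.Γ '' Disc X.R
def Sys.ξ (X : Sys) (p : P) : ℝ := (X.Γi p).1
def Sys.u (X : Sys) (p : P) : ℝ := (X.Γi p).2
noncomputable def Sys.y (X : Sys) (p : P) : ℝ := Y0 (X.Γi p)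
/-- the steady velocity field -/
noncomputable def Sys.v (X : Sys) (p : P) : P := fderiv ℝ X.Γ (X.Γi p) (tn (X.Γi p))
def Sys.g (X : Sys) : P → P → P → ℝ := gq X.E X.F X.G
noncomputable def Sys.act (X : Sys) : (ℝ → P → P) → (ℝ → P → P) → ℝ := actG X.E X.F X.G X.M
/-- the action of the steady flow with velocity field `w` -/
noncomputable def Sys.st (X : Sys) (w : P → P) : ℝ := π * ∫ p in X.M, X.g p (w p) (w p) / 2

structure Good (X : Sys) : Prop where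
  R_pos : 0 < X.R
  R_le : X.R ≤ 1
  Γ_sm : ContDiff ℝ ∞ X.Γ
  Γi_cont : Continuous X.Γi
  left : ∀ z, X.Γi (X.Γ z) = z
  right : ∀ p, X.Γ (X.Γi p) = p
  odd : ∀ z, X.Γ (-z) = -X.Γ z
  jac_eq : ∀ z, jac X.Γ z = ff z
  deg : fderiv ℝ X.Γ 0 (0, 1) = 0
  E_sm : ContDiff ℝ ∞ X.E
  F_sm : ContDiff ℝ ∞ X.F
  G_sm : ContDiff ℝ ∞ X.G
  met : ∀ p ∈ X.M, 0 < X.E p ∧ X.E p * X.G p - X.F p ^ 2 = 1
  even : ∀ p ∈ X.M, X.E (-p) = X.E p ∧ X.F (-p) = X.F p ∧ X.G (-p) = X.G p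
  ξ_c1 : ContDiff ℝ 1 X.ξ
  y_c1 : ContDiff ℝ 1 X.y
  χ_c1 : ContDiff ℝ 1 X.χ
  θ_eq : ∀ p ∈ X.M, ∀ h, X.g p (X.v p) h = X.u p * fderiv ℝ X.ξ p h + fderiv ℝ X.χ p h
  low : ∀ p ∈ X.M, ∀ h, (1 - rho (X.Γi p) / 260) * fderiv ℝ X.ξ p h ^ 2 ≤ X.g p h h
  app : ∃ C l0 : ℝ, 0 < C ∧ 0 < l0 ∧ ∀ l, 0 < l → l ≤ l0 → ∃ Λ Λi, App X.Γ C l Λ Λi

/-- from the identity to `-id` -/
def Flip (M : Set P) (η : ℝ → P → P) : Prop := ∀ a ∈ M, η 0 a = a ∧ η π a = -a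

/-- derivative of the first label along a motion -/
noncomputable def Sys.xd (X : Sys) (η v : ℝ → P → P) (t : ℝ) (a : P) : ℝ :=
  fderiv ℝ X.ξ (η t a) (v t a)
noncomputable def Sys.II (X : Sys) (η v : ℝ → P → P) : ℝ :=
  dbl X.M fun t a => X.xd η v t a ^ 2 - X.ξ (η t a) ^ 2
noncomputable def Sys.RZ (X : Sys) (η v : ℝ → P → P) : ℝ :=
  dbl X.M fun t a => rho (X.Γi (η t a)) * (X.xd η v t a - X.u (η t a)) ^ 2
noncomputable def Sys.Cal (X : Sys) (η v : ℝ → P → P) : ℝ :=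
  dbl X.M fun t a => X.y (η t a) * X.xd η v t a

/-- An incompressible motion of the particles `a ∈ M` inside `N`, ending at the opposite of its
initial position. -/
structure Mot (M N : Set P) (w w' : ℝ → P → P) : Prop where
  cont : Continuous fun q : ℝ × P => w q.1 q.2
  meas : Measurable fun q : ℝ × P => w' q.1 q.2
  bdd : ∃ B, ∀ t ∈ Icc 0 π, ∀ a ∈ M, ‖w' t a‖ ≤ B
  der : ∃ S : Finset ℝ, ∀ t ∈ Ioo 0 π, t ∉ S → ∀ a ∈ M, HasDerivAt (fun τ => w τ a) (w' t a) t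
  maps : ∀ t ∈ Icc 0 π, MapsTo (w t) M N
  inj : ∀ t ∈ Icc 0 π, InjOn (w t) M
  mp : ∀ t ∈ Icc 0 π, MeasurePreserving (w t) (volume.restrict M) (volume.restrict N)
  anti : ∀ a ∈ M, w π a = -w 0 a

noncomputable def k1 (ε : ℝ) (F : P) : ℝ := ε * F.1 / (F.1 ^ 2 + ε ^ 2 * F.2 ^ 2)
noncomputable def k2 (ε : ℝ) (F : P) : ℝ := ε * F.2 / (F.1 ^ 2 + ε ^ 2 * F.2 ^ 2)
/-- angular velocity of `(F.1, ε F.2)` -/
noncomputable def kern (ε : ℝ) (F F' : P) : ℝ := k1 ε F * F'.2 - k2 ε F * F'.1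

/-- One particle: first label `x` with derivative `x'`, second label `u`. -/
structure Part (x x' u : ℝ → ℝ) : Prop where
  x_cont : Continuous x
  u_cont : Continuous u
  meas : Measurable x'
  bdd : ∃ B, ∀ t ∈ Icc 0 π, |x' t| ≤ B
  der : ∃ S : Finset ℝ, ∀ t ∈ Ioo 0 π, t ∉ S → HasDerivAt x (x' t) t
  anti : x π = -x 0
  le : ∀ t ∈ Icc 0 π, rho (x t, u t) ≤ 1

/-- A smooth steady incompressible flow of `M` equal to `-id` at time `π`. -/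
structure Flow (M : Set P) (α : ℝ → P → P) (w : P → P) : Prop where
  sm : ContDiff ℝ ∞ fun q : ℝ × P => α q.1 q.2
  zero : ∀ p, α 0 p = p
  add : ∀ s t p, α (s + t) p = α s (α t p)
  pi : ∀ p, α π p = -p
  maps : ∀ t, MapsTo (α t) M M
  vol : ∀ t, ∀ A, MeasurableSet A → volume (α t '' A) = volume A
  der : ∀ t p, HasDerivAt (fun τ => α τ p) (w (α t p)) t
  cont : Continuous w

/-- a function on `P` read on `ℂ` -/
noncomputable def onC (f : P → ℝ) (z : ℂ) : ℝ := f (ιi 1 z)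

/-! ## Statements of the blocks: construction -/

def St_STEP : Prop :=
  O 4 (EP fun _ => 0) ∧
  (∀ b, ContDiff ℝ ∞ b → (∀ z, b (-z) = -b z) → ∀ z, EP b (-z) = EP b z) ∧
  ∀ (b b' : P → ℝ) (k : ℕ), O 5 b → O 5 b' → O (k + 2) (fun z => b' z - b z) →
    O (k + 5) fun z => EP b' z - EP b z + LL (fun z => b' z - b z) z

def St_LINV : Prop := ∀ m H, Hom m H → ∃ f, Hom (m + 1) f ∧ ∀ z, LL f z = H z

def St_BOREL : Prop :=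
  ∀ f : ℕ → P → ℝ, (∀ j, Hom (2 * j + 5) (f j)) → ∃ b : P → ℝ, ContDiff ℝ ∞ b ∧
    (∀ z, b (-z) = -b z) ∧ (∀ z, |dx b z| ≤ 1 / 2) ∧
    ∀ n, O (2 * n + 5) fun z => b z - ∑ j ∈ Finset.range n, f j z

def St_CON : Prop := ∃ b, Con b

def St_GEO : Prop := ∀ b, Con0 b → ∃ Ξi Ψ, Lab b Ξi Ψ

def St_TEMP : Prop :=
  ∀ b Ξi Ψ, Con0 b → Lab b Ξi Ψ →
    (∀ F, ContDiff ℝ ∞ F → ∀ p, p ≠ 0 →
      dx (fun q => F (Ψ q)) p = LX b F (Ψ p) ∧ du (fun q => F (Ψ q)) p = LY b F (Ψ p)) ∧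
    ∀ F, O 4 F → ContDiff ℝ 1 (fun q => F (Ψ q)) ∧
      ∀ p, dx (fun q => F (Ψ q)) p = LX b F (Ψ p) ∧ du (fun q => F (Ψ q)) p = LY b F (Ψ p)

def St_FLAT : Prop :=
  ∀ b Ξi Ψ, Con0 b → Lab b Ξi Ψ → ∀ (Q : P → ℝ) (r c : ℝ), ContDiff ℝ ∞ Q → 0 < r → 0 < c →
    (∀ z : P, ‖z‖ ≤ 2 * r → c * ‖z‖ ^ 6 ≤ Q z) → ∀ F, Flat F → (∀ z : P, r < ‖z‖ → F z = 0) →
      ContDiff ℝ ∞ fun p => F (Ψ p) / Q (Ψ p)

def St_VEL : Prop := ∀ b, Con b → Vel b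

def St_MET : Prop := ∀ b Ξi Ψ, Con b → Lab b Ξi Ψ → Vel b → ∃ r C E F G, Met b r C E F G

def St_CHI : Prop :=
  ∀ b, Con b → Vel b → ∃ χ, O 4 χ ∧ ∀ z, dx χ z = om1 b z ∧ du χ z = om2 b z

def St_APP : Prop :=
  ∀ b Ξi Ψ, Con0 b → Lab b Ξi Ψ → ∃ C l0 : ℝ, 0 < C ∧ 0 < l0 ∧ ∀ l, 0 < l → l ≤ l0 →
    ∃ Λ Λi, App (fun z => Phi b (Ξi z)) C l Λ Λi

/-- the geometric half of the interface -/
def St_GAM : Prop :=
  ∀ b Ξi Ψ, Con0 b → Lab b Ξi Ψ →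
    (∀ z, jac (fun z => Phi b (Ξi z)) z = ff z) ∧
    fderiv ℝ (fun z => Phi b (Ξi z)) 0 (0, 1) = 0 ∧
    (∀ z, fderiv ℝ (fun z => Phi b (Ξi z)) (Xi b z) (tn (Xi b z)) = (UU b z, VV b z)) ∧
    O 4 fun z => Y0 (Xi b z) - YY b z

/-- the metric half of the interface, in labels -/
def St_LOWM : Prop :=
  ∀ b Ξi Ψ r C E F G, Con0 b → Lab b Ξi Ψ → Met b r C E F G → ∃ r', 0 < r' ∧ r' ≤ r ∧
    ∀ z : P, ‖z‖ ≤ r' → 0 < E (Phi b z) ∧ ∀ h : P,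
      (1 - rho (Xi b z) / 260) * (h.1 * (1 + LX b b z) + h.2 * LY b b z) ^ 2 ≤
        gq E F G (Phi b z) h h

def St_SYS : Prop := ∃ X, Good X

/-! ## Statements of the blocks: lower bound -/

def St_MOD : Prop :=
  (∀ z, dx H0 z = Y0 z - kap z * z.2 ∧ du H0 z = kap z * z.1) ∧ (∀ z, H0 (-z) = H0 z) ∧
  (∀ x u p, (Y0 (x, p) - Y0 (x, u)) ^ 2 ≤ 2 * DD x u p) ∧
  ∀ x u p, rho (x, u) ≤ 1 → rho (x, u) * (p - u) ^ 2 / 32 ≤ DD x u p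

def St_PART1 : Prop :=
  ∀ x x' u, Part x x' u → 0 ≤ ∫ t in (0 : ℝ)..π, (x' t ^ 2 - x t ^ 2) ∧
    ∫ t in (0 : ℝ)..π, rho (x t, u t) * (x' t - u t) ^ 2 ≤
      130 * (∫ t in (0 : ℝ)..π, (x' t ^ 2 - x t ^ 2)) +
        128 * ∫ t in (0 : ℝ)..π, (psi (x t, u t) - Y0 (x t, u t) * x' t)

def St_PART2 : Prop :=
  ∀ x x' u, Part x x' u → ∫ t in (0 : ℝ)..π, (x' t ^ 2 - x t ^ 2) = 0 →
    ∫ t in (0 : ℝ)..π, rho (x t, u t) * (x' t - u t) ^ 2 = 0 → (x 0, u 0) ≠ (0 : P) →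
    x (π / 2) = u 0

def St_CAL1 : Prop :=
  ∀ (Γ : P → P) (R : ℝ) (N : Set P) (w w' : ℝ → P → P), Continuous Γ → Function.Injective Γ →
    0 < R → Mot (Γ '' Disc R) N w w' → ∃ n : ℤ, Odd n ∧ ∀ ε, 0 < ε →
      ∀ a ∈ Γ '' Disc R, ∀ a' ∈ Γ '' Disc R, a ≠ a' →
        ∫ t in (0 : ℝ)..π, kern ε (w t a - w t a') (w' t a - w' t a') = n * π

def St_CAL2 : Prop :=
  ∀ (R : ℝ) (h : ℝ → ℝ), 0 < R → Continuous h → (∀ x, 0 ≤ h x) →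
    (∃ B : ℝ, ∀ ε, 0 < ε → ∀ p : P,
      IntegrableOn (fun q => k1 ε (p - q)) (Strip R h) ∧
      IntegrableOn (fun q => k2 ε (p - q)) (Strip R h) ∧
      ∫ q in Strip R h, |k1 ε (p - q)| ≤ B ∧ ∫ q in Strip R h, |k2 ε (p - q)| ≤ B) ∧
    (∀ p : P, Tendsto (fun ε => ∫ q in Strip R h, k1 ε (p - q)) (𝓝[>] 0) (𝓝 0)) ∧
    ∀ p : P, |p.1| < R → |p.2| ≤ h p.1 →
      Tendsto (fun ε => ∫ q in Strip R h, k2 ε (p - q)) (𝓝[>] 0) (𝓝 (2 * π * p.2))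

/-- the pair integral of the kernel, for a fixed `ε` -/
def St_CAL3 : Prop :=
  ∀ (M N : Set P) (w w' : ℝ → P → P) (ε B c : ℝ), IsCompact M → MeasurableSet N → Mot M N w w' →
    (∀ p : P, IntegrableOn (fun q => k1 ε (p - q)) N ∧ IntegrableOn (fun q => k2 ε (p - q)) N ∧
      ∫ q in N, |k1 ε (p - q)| ≤ B ∧ ∫ q in N, |k2 ε (p - q)| ≤ B) →
    (∀ a ∈ M, ∀ a' ∈ M, a ≠ a' →
      ∫ t in (0 : ℝ)..π, kern ε (w t a - w t a') (w' t a - w' t a') = c) →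
    c * volume.real M ^ 2 = 2 * dbl M fun t a =>
      (∫ q in N, k1 ε (w t a - q)) * (w' t a).2 - (∫ q in N, k2 ε (w t a - q)) * (w' t a).1

def St_CAL : Prop :=
  ∀ (Γ : P → P) (R R' : ℝ) (h : ℝ → ℝ) (w w' : ℝ → P → P), Continuous Γ →
    Function.Injective Γ → 0 < R → 0 < R' → Continuous h → (∀ x, 0 ≤ h x) →
    Mot (Γ '' Disc R) (Strip R' h) w w' →
    volume.real (Γ '' Disc R) ^ 2 / 4 ≤ |dbl (Γ '' Disc R) fun t a => (w t a).2 * (w' t a).1|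

def St_TH : Prop :=
  ∀ X, Good X → ∃ h : ℝ → ℝ, Continuous h ∧ (∀ x, 0 ≤ h x) ∧ ∀ η v, Adm X.M η v → Flip X.M η →
    Mot X.M (Strip X.R h) (fun t a => (X.ξ (η t a), X.y (η t a)))
      fun t a => (X.xd η v t a, fderiv ℝ X.y (η t a) (v t a))

def St_CONST1 : Prop := ∀ X, Good X → X.st X.v = π / 4 * ∫ p in X.M, rho (X.Γi p)

def St_CONST2 : Prop :=
  ∀ X, Good X → volume.real X.M ^ 2 / 4 = π * ∫ p in X.M, psi (X.Γi p)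

def St_ENER : Prop :=
  ∀ X, Good X → ∀ η v, Adm X.M η v →
    X.II η v / 2 - X.RZ η v / 520 + π / 2 * (∫ p in X.M, rho (X.Γi p)) - X.st X.v ≤ X.act η v

def St_REV : Prop :=
  ∀ X, Good X → ∀ η v, Adm X.M η v → Flip X.M η →
    Adm X.M (fun t a => η (π - t) (-a)) (fun t a => -v (π - t) (-a)) ∧
    X.act (fun t a => η (π - t) (-a)) (fun t a => -v (π - t) (-a)) = X.act η v ∧
    X.Cal (fun t a => η (π - t) (-a)) (fun t a => -v (π - t) (-a)) = -X.Cal η v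

/-- the particle estimates integrated over the domain -/
def St_INT : Prop :=
  ∀ X, Good X → ∀ η v, Adm X.M η v → Flip X.M η → 0 ≤ X.II η v ∧ 0 ≤ X.RZ η v ∧
    X.RZ η v ≤ 130 * X.II η v + 128 * (π * (∫ p in X.M, psi (X.Γi p)) - X.Cal η v) ∧
    (X.II η v = 0 → X.RZ η v = 0 → ¬∃ L, LipschitzOnWith L (η (π / 2)) X.M)

def St_LOW : Prop :=
  ∀ X, Good X → ∀ η v, Adm X.M η v → Flip X.M η → (∃ L, LipschitzOnWith L (η (π / 2)) X.M) →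
    X.st X.v < X.act η v

/-! ## Statements of the blocks: upper bound and transfer -/

def St_ISO : Prop :=
  ∀ j : P → ℝ, ContDiff ℝ ∞ j → (∀ z, 0 < j z) → (∀ z, j (-z) = j z) →
    ∃ (β : ℝ → P → P) (q : P → ℝ), ContDiff ℝ ∞ (fun x : ℝ × P => β x.1 x.2) ∧ Continuous q ∧
      (∀ z, β 0 z = z) ∧ (∀ s t z, β (s + t) z = β s (β t z)) ∧ (∀ z, β π z = -z) ∧
      (∀ t z, rho (β t z) = rho z) ∧
      (∀ t z, HasDerivAt (fun τ => β τ z) (q (β t z) • tn (β t z)) t) ∧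
      (∀ t z, jac (β t) z * j (β t z) = j z) ∧
      (∀ z, (∀ z', rho z' = rho z → j z' = j z) → q z = 1) ∧
      ∀ z (m m' : ℝ), 0 < m → (∀ z', rho z' = rho z → m ≤ j z' ∧ j z' ≤ m') → |q z| ≤ m' / m

def St_UPG : Prop :=
  ∀ X, Good X → ∃ C l0 : ℝ, 0 < l0 ∧ ∀ l, 0 < l → l ≤ l0 → ∃ α w, Flow X.M α w ∧
    (∀ p, l ^ 2 < rho (X.Γi p) → w p = X.v p) ∧ ∀ p, rho (X.Γi p) ≤ l ^ 2 → ‖w p‖ ≤ C

def St_UPE : Prop := ∀ X, Good X → ∀ ε, 0 < ε → ∃ α w, Flow X.M α w ∧ X.st w ≤ X.st X.v + ε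

def St_LIFTS : Prop :=
  ∀ (s : ℝ) (M : Set P) (f : ℝ → P → P), 2 < s → IsCompact M →
    ContDiff ℝ ∞ (fun q : ℝ × P => f q.1 q.2) → Lift s 1 M f

def St_EN : Prop :=
  ∀ (M : Set P) (E F G : P → ℝ) (η v : ℝ → P → P) (γ : ℝ → ℂ → ℂ), IsCompact M → Continuous E →
    Continuous F → Continuous G → (∀ p ∈ M, ∀ h, 0 ≤ gq E F G p h h) → Adm M η v →
    (∀ t ∈ Ioo (0 : ℝ) 1, ∀ a ∈ M, γ t (ι 1 a) = ι 1 (η (π * t) a)) →
    energyG (onC E) (onC F) (onC G) (ι 1 '' M) γ = ENNReal.ofReal (π * actG E F G M η v)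

def St_TR1G : Prop :=
  ∀ (s : ℝ) (M : Set P) (φ : P → P) (γ : ℝ → ℂ → ℂ), 2 < s → IsCompact M →
    IsCurve s (ι 1 '' M) (cj 1 φ) γ → ∃ η v : ℝ → P → P, Adm M η v ∧
      (∀ a ∈ M, η 0 a = a ∧ η π a = φ a) ∧
      (∀ t ∈ Ioo (0 : ℝ) 1, ∀ a ∈ M, γ t (ι 1 a) = ι 1 (η (π * t) a)) ∧
      ∃ L, LipschitzOnWith L (η (π / 2)) M

def St_TR2G : Prop :=
  ∀ (s : ℝ) (M : Set P) (α : ℝ → P → P) (w : P → P), 2 < s → IsCompact M → Flow M α w →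
    IsDiff s (ι 1 '' M) (cj 1 fun p => -p) ∧
    IsCurve s (ι 1 '' M) (cj 1 fun p => -p) (fun t => cj 1 (α (π * t))) ∧
    Adm M α (fun t a => w (α t a)) ∧
    ∀ E F G : P → ℝ, Continuous E → Continuous F → Continuous G →
      actG E F G M α (fun t a => w (α t a)) = π * ∫ p in M, gq E F G p (w p) (w p) / 2

def St_DOM : Prop := ∀ X, Good X → IsDomain (ι 1 '' X.M)

end Pool.Agent.Lib.ISOC
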