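import Pool.Agent.Lib.MP_f62ea7_gt.Defs

set_option autoImplicit false

open MeasureTheory Set
open scoped ContDiff ENNReal

namespace Pool.Agent.Lib.ISOC

/-- The squared length of the vector `w` at the point `z` for the metric
`E dx² + 2 F dx dy + G dy²` on the plane `ℂ = ℝ²`. -/
def qf (E F G : ℂ → ℝ) (z w : ℂ) : ℝ :=
  E z * w.re ^ 2 + 2 * F z * w.re * w.im + G z * w.im ^ 2

/-- `E dx² + 2 F dx dy + G dy²` has smooth coefficients, is positive definite on `M`, and its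
area form `√(E G - F²) dx dy` is the Lebesgue one on `M`. -/
def IsMetric (E F G : ℂ → ℝ) (M : Set ℂ) : Prop :=
  ContDiff ℝ ∞ E ∧ ContDiff ℝ ∞ F ∧ ContDiff ℝ ∞ G ∧
    ∀ z ∈ M, 0 < E z ∧ E z * G z - F z ^ 2 = 1

/-- The `L²` energy of a curve for the metric `E dx² + 2 F dx dy + G dy²`. -/
noncomputable def energyG (E F G : ℂ → ℝ) (M : Set ℂ) (γ : ℝ → ℂ → ℂ) : ℝ≥0∞ :=
  (∫⁻ t in Ioo (0 : ℝ) 1, ∫⁻ z in M,
    ENNReal.ofReal (qf E F G (γ t z) (deriv (fun τ => γ τ z) t))) / 2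

end Pool.Agent.Lib.ISOC
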