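import Pool.Agent.Lib.ISOC.GB

set_option autoImplicit false

open MeasureTheory Set Filter Topology Real
open scoped ContDiff ENNReal NNReal
open Pool.Agent.Lib.MP_f62ea7_gt

namespace Pool.Agent.Lib.ISOC

namespace I3

variable {X : Sys} {η v : ℝ → P → P}

lemma part (h : Good X) (hη : Adm X.M η v) (hF : Flip X.M η) {a : P} (ha : a ∈ X.M) :
    Part (fun t => X.ξ (η t a)) (fun t => X.xd η v t a) fun t => X.u (η t a) := by
  obtain ⟨B, hB⟩ := (h.nice_xd hη).2
  obtain ⟨S, hS⟩ := hη.der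
  refine ⟨h.ξ_cont.comp (hη.continuous_time a), h.u_cont.comp (hη.continuous_time a),
    (h.nice_xd hη).measurable_time a, ⟨B, fun t ht => hB t ht a ha⟩,
    ⟨S, fun t ht hs => ?_⟩, ?_, fun t ht => h.rho_le_one (hη.maps t ht ha)⟩
  · exact (h.ξ_c1.differentiable one_ne_zero _).hasFDerivAt.comp_hasDerivAt t (hS t ht hs a ha)
  · simp only [(hF a ha).1, (hF a ha).2, h.ξ_neg]

lemma nonlip (h : Good X) {f : P → P} (hc : Continuous f)
    (hm : MapsTo f X.M X.M) (he : ∀ᵐ a ∂volume.restrict X.M, X.ξ (f a) = X.u a) :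
    ¬∃ L, LipschitzOnWith L f X.M := by
  rintro ⟨L, hL⟩
  have hO : IsOpen {p | rho (X.Γi p) < X.R ^ 2} :=
    isOpen_lt (continuous_rho.comp h.Γi_cont) continuous_const
  have hs : {p | rho (X.Γi p) < X.R ^ 2} ⊆ X.M := fun p hp => h.mem_M.2 (le_of_lt hp)
  have e := Measure.eqOn_open_of_ae_eq (ae_restrict_of_ae_restrict_of_subset hs he) hO
    (h.ξ_cont.comp hc).continuousOn h.u_cont.continuousOn
  obtain ⟨r, hr⟩ := h.M_compact.isBounded.subset_closedBall (0 : P)
  obtain ⟨K, hK⟩ := (h.ξ_c1.contDiffOn (s := Metric.closedBall 0 r)).exists_lipschitzOnWith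
    one_ne_zero (convex_closedBall 0 r) (isCompact_closedBall 0 r)
  have hd : HasDerivAt (fun s : ℝ => X.Γ (0, s)) 0 0 := by
    have := (dAt h.Γ_sm ((0, 0) : P)).hasFDerivAt.comp_hasDerivAt (0 : ℝ)
      ((hasDerivAt_const (0 : ℝ) (0 : ℝ)).prodMk (hasDerivAt_id (0 : ℝ)))
    rw [show ((0, 0) : P) = 0 from rfl, h.deg] at this
    exact this
  have mem : ∀ s : ℝ, |s| < X.R → X.Γ (0, s) ∈ {p | rho (X.Γi p) < X.R ^ 2} := fun s hs => by
    simp only [mem_ofPred_eq, h.left, rho]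
    nlinarith [sq_abs s, abs_nonneg s]
  have key : ∀ s : ℝ, |s| < X.R → |s| ≤ K * L * ‖X.Γ (0, s) - X.Γ (0, 0)‖ := fun s hs' => by
    have m1 := mem s hs'
    have m0 := mem 0 (by simpa using h.R_pos)
    have a1 := hL.dist_le_mul _ (hs m1) _ (hs m0)
    have a2 := hK.dist_le_mul _ (hr (hm (hs m1))) _ (hr (hm (hs m0)))
    have b1 : X.ξ (f (X.Γ (0, s))) = s := (e m1).trans (by simp [Sys.u, h.left])
    have b0 : X.ξ (f (X.Γ (0, 0))) = 0 := (e m0).trans (by simp [Sys.u, h.left])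
    rw [b1, b0, Real.dist_eq, sub_zero] at a2
    rw [dist_eq_norm (X.Γ _)] at a1
    refine a2.trans ?_
    rw [mul_assoc]
    exact mul_le_mul_of_nonneg_left a1 K.2
  have p : (0 : ℝ) < 1 / (2 * (K * L + 1)) := by positivity
  have h1 := (hasDerivAt_iff_isLittleO.1 hd).def p
  have h2 : ∀ᶠ s : ℝ in 𝓝 0, |s| < X.R :=
    (continuous_abs.tendsto' 0 0 abs_zero).eventually (gt_mem_nhds h.R_pos)
  obtain ⟨s, ⟨c1, c2⟩, c3⟩ := (((h1.and h2).filter_mono nhdsWithin_le_nhds).and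
    (self_mem_nhdsWithin (s := {(0 : ℝ)}ᶜ))).exists
  simp only [smul_zero, sub_zero, Real.norm_eq_abs] at c1
  have c4 : 0 < |s| := abs_pos.2 c3
  have c5 := (key s c2).trans (mul_le_mul_of_nonneg_left c1 (by positivity))
  have c6 : (K * L : ℝ) * (1 / (2 * (K * L + 1))) < 1 := by
    rw [mul_one_div, div_lt_one (by positivity)]
    have : (0 : ℝ) ≤ K * L := by positivity
    linarith
  nlinarith

end I3

open I3 in
theorem st_INT3 (h1 : St_PART1) (h2 : St_PART2) : St_INT := by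
  intro X h η v hη hF
  have hM := h.M_compact
  have nI := ((h.nice_xd hη).pow 2).sub ((h.nice_ξ hη).pow 2)
  have nR := (h.nice_lab hη continuous_rho).mul (((h.nice_xd hη).sub (h.nice_u hη)).pow 2)
  have nψ := h.nice_lab hη contDiff_psi.continuous
  have nC := (h.nice_y hη).mul (h.nice_xd hη)
  have iI := nI.integrableOn_timeIntegral hM zero_mem_Icc pi_mem_Icc
  have iR := nR.integrableOn_timeIntegral hM zero_mem_Icc pi_mem_Icc
  have iT := (nψ.sub nC).integrableOn_timeIntegral hM zero_mem_Icc pi_mem_Icc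
  have eI : X.II η v = _ := dbl_swap hM nI
  have eR : X.RZ η v = _ := dbl_swap hM nR
  have eT : π * (∫ p in X.M, psi (X.Γi p)) - X.Cal η v = ∫ a in X.M, ∫ t in (0 : ℝ)..π,
      (psi (X.Γi (η t a)) - X.y (η t a) * X.xd η v t a) := by
    rw [← dbl_pos hη (f := fun p => psi (X.Γi p))
      (contDiff_psi.continuous.comp h.Γi_cont).measurable]
    exact (dbl_sub hM nψ nC).symm.trans (dbl_swap hM (nψ.sub nC))
  have pI := fun a ha => (h1 _ _ _ (part h hη hF (a := a) ha)).1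
  have pR : ∀ a ∈ X.M, 0 ≤ ∫ t in (0 : ℝ)..π,
      rho (X.Γi (η t a)) * (X.xd η v t a - X.u (η t a)) ^ 2 := fun a _ =>
    intervalIntegral.integral_nonneg pi_pos.le fun _ _ => mul_nonneg (rho_nonneg _) (sq_nonneg _)
  refine ⟨eI ▸ setIntegral_nonneg h.M_meas pI, eR ▸ setIntegral_nonneg h.M_meas pR, ?_,
    fun z1 z2 => ?_⟩
  · rw [eI, eR, eT, ← integral_const_mul, ← integral_const_mul,
      ← integral_add (iI.const_mul _) (iT.const_mul _)]
    exact setIntegral_mono_on iR ((iI.const_mul _).add (iT.const_mul _)) h.M_meas fun a ha =>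
      (h1 _ _ _ (part h hη hF ha)).2
  · rw [eI, setIntegral_eq_zero_iff_of_nonneg_ae ((ae_restrict_mem h.M_meas).mono pI) iI] at z1
    rw [eR, setIntegral_eq_zero_iff_of_nonneg_ae ((ae_restrict_mem h.M_meas).mono pR) iR] at z2
    have hπ : π / 2 ∈ Icc 0 π := ⟨by linarith [pi_pos], by linarith [pi_pos]⟩
    refine nonlip h (hη.continuous_space _) (hη.maps _ hπ) ?_
    have h0 : ∀ᵐ a ∂volume.restrict X.M, a ≠ (0 : P) :=
      ae_restrict_of_ae (compl_mem_ae_iff.2 (measure_singleton 0))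
    filter_upwards [z1, z2, h0, ae_restrict_mem h.M_meas] with a a1 a2 a0 ha
    have := h2 _ _ _ (part h hη hF ha) a1 a2 (by
      rw [(hF a ha).1]
      exact fun e => a0 (h.Γi_inj ((show X.Γi a = 0 from e).trans h.Γi_zero.symm)))
    simpa only [(hF a ha).1] using this

end Pool.Agent.Lib.ISOC
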