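import Pool.Agent.Lib.ISOC.Glue
import Pool.Agent.Lib.ISOC.B_APP
import Pool.Agent.Lib.ISOC.B_BOREL
import Pool.Agent.Lib.ISOC.B_CAL
import Pool.Agent.Lib.ISOC.B_CAL1
import Pool.Agent.Lib.ISOC.B_CAL2
import Pool.Agent.Lib.ISOC.B_CAL3
import Pool.Agent.Lib.ISOC.B_CHI
import Pool.Agent.Lib.ISOC.B_CONST1
import Pool.Agent.Lib.ISOC.B_CONST2
import Pool.Agent.Lib.ISOC.B_DOM
import Pool.Agent.Lib.ISOC.B_EN
import Pool.Agent.Lib.ISOC.B_ENER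
import Pool.Agent.Lib.ISOC.B_FLAT
import Pool.Agent.Lib.ISOC.B_GAM
import Pool.Agent.Lib.ISOC.B_GEO
import Pool.Agent.Lib.ISOC.INT3
import Pool.Agent.Lib.ISOC.B_ISO
import Pool.Agent.Lib.ISOC.B_LIFTS
import Pool.Agent.Lib.ISOC.B_LINV
import Pool.Agent.Lib.ISOC.B_LOWM
import Pool.Agent.Lib.ISOC.B_MET
import Pool.Agent.Lib.ISOC.B_MOD
import Pool.Agent.Lib.ISOC.B_PART1
import Pool.Agent.Lib.ISOC.B_PART2
import Pool.Agent.Lib.ISOC.B_REV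
import Pool.Agent.Lib.ISOC.B_STEP
import Pool.Agent.Lib.ISOC.B_SYS
import Pool.Agent.Lib.ISOC.B_TEMP
import Pool.Agent.Lib.ISOC.B_TH
import Pool.Agent.Lib.ISOC.B_TR1G
import Pool.Agent.Lib.ISOC.B_TR2G
import Pool.Agent.Lib.ISOC.B_UPE
import Pool.Agent.Lib.ISOC.B_UPG
import Pool.Agent.Lib.ISOC.B_VEL

set_option autoImplicit false

open Pool.Agent.Lib.MP_f62ea7_gt

namespace Pool.Agent.Lib.ISOC

theorem final : ∃ (M : Set ℂ) (E F G : ℂ → ℝ), IsDomain M ∧ IsMetric E F G M ∧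
    (∀ z ∈ M, E (-z) = E z ∧ F (-z) = F z ∧ G (-z) = G z) ∧
    ∀ s : ℝ, 2 < s → IsDiff s M (fun z => -z) ∧ (∃ γ, IsCurve s M (fun z => -z) γ) ∧
      ∀ γ, IsCurve s M (fun z => -z) γ →
        ∃ γ', IsCurve s M (fun z => -z) γ' ∧ energyG E F G M γ' < energyG E F G M γ :=
  main
    (st_SYS st_TEMP st_GEO st_VEL (st_MET (st_FLAT st_TEMP)) st_CHI st_APP st_GAM st_LOWM
      (st_CON st_STEP st_LINV st_BOREL))
    (st_LOW (st_CAL st_CAL1 st_CAL2 st_CAL3) st_TH st_CONST1 st_CONST2 st_ENER st_REV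
      (st_INT3 (st_PART1 st_MOD) st_PART2))
    (st_UPE (st_UPG st_ISO)) st_EN st_TR1G (st_TR2G st_LIFTS) st_DOM

end Pool.Agent.Lib.ISOC
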