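import Pool.Agent.Lib.ISOC.MB
import Pool.Agent.Lib.MP_f62ea7_gt.Basic2

/-! Basic consequences of `Good`. -/

set_option autoImplicit false

open MeasureTheory Set Filter Topology Real
open scoped ContDiff ENNReal
open Pool.Agent.Lib.MP_f62ea7_gt

namespace Pool.Agent.Lib.ISOC

lemma gq_nonneg {E F G : P → ℝ} {p : P} (hE : 0 < E p) (hd : E p * G p - F p ^ 2 = 1) (h : P) :
    0 ≤ gq E F G p h h := by
  have : E p * gq E F G p h h = (E p * h.1 + F p * h.2) ^ 2 + h.2 ^ 2 := by
    unfold gq; linear_combination h.2 ^ 2 * hd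
  exact (mul_nonneg_iff_of_pos_left hE).1 (by rw [this]; positivity)

lemma continuous_gq {α : Type} [TopologicalSpace α] {E F G : P → ℝ} (hE : Continuous E)
    (hF : Continuous F) (hG : Continuous G) {p u w : α → P} (hp : Continuous p)
    (hu : Continuous u) (hw : Continuous w) : Continuous fun a => gq E F G (p a) (u a) (w a) := by
  unfold gq; fun_prop

/-- a continuous function of the position -/
lemma nice_pos {M : Set P} {η v : ℝ → P → P} (h : Adm M η v) (hM : IsCompact M) {f : P → ℝ}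
    (hf : Continuous f) : Nice M fun t a => f (η t a) := Nice.of_continuous hM (hf.comp h.cont)

/-- derivative of a `C¹` function along the motion -/
lemma nice_fderiv {M : Set P} {η v : ℝ → P → P} (h : Adm M η v) (hM : IsCompact M) {f : P → ℝ}
    (hf : ContDiff ℝ 1 f) : Nice M fun t a => fderiv ℝ f (η t a) (v t a) := by
  simp only [fderiv_apply_eq]
  exact (h.nice_v1.mul (nice_pos h hM (continuous_dx hf))).add
    (h.nice_v2.mul (nice_pos h hM (continuous_du hf)))

lemma nice_gq {M : Set P} {η v : ℝ → P → P} (h : Adm M η v) (hM : IsCompact M) {E F G : P → ℝ}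
    (hE : Continuous E) (hF : Continuous F) (hG : Continuous G) {u w : ℝ → P → P}
    (u1 : Nice M fun t a => (u t a).1) (u2 : Nice M fun t a => (u t a).2)
    (w1 : Nice M fun t a => (w t a).1) (w2 : Nice M fun t a => (w t a).2) :
    Nice M fun t a => gq E F G (η t a) (u t a) (w t a) :=
  ((((nice_pos h hM hE).mul u1).mul w1).add ((nice_pos h hM hF).mul
    ((u1.mul w2).add (u2.mul w1)))).add (((nice_pos h hM hG).mul u2).mul w2)

/-- time integral of a function of the position -/
lemma dbl_pos {M : Set P} {η v : ℝ → P → P} (h : Adm M η v) {f : P → ℝ} (hf : Measurable f) :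
    dbl M (fun t a => f (η t a)) = π * ∫ p in M, f p := by
  rw [← dbl_space]
  refine intervalIntegral.integral_congr fun t ht => ?_
  rw [uIcc_of_le pi_pos.le] at ht
  exact integral_comp_mp (h.mp t ht) hf

namespace Good
variable {X : Sys} {η v : ℝ → P → P}

lemma Γ_cont (h : Good X) : Continuous X.Γ := h.Γ_sm.continuous
lemma Γ_inj (h : Good X) : Function.Injective X.Γ := Function.LeftInverse.injective h.left
lemma Γi_inj (h : Good X) : Function.Injective X.Γi := Function.LeftInverse.injective h.right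
lemma Γ_zero (h : Good X) : X.Γ 0 = 0 := by
  have := h.odd 0
  rw [neg_zero] at this
  exact self_eq_neg.1 this
lemma Γi_zero (h : Good X) : X.Γi 0 = 0 := by
  conv_lhs => rw [← h.Γ_zero, h.left]
lemma Γi_neg (h : Good X) (p : P) : X.Γi (-p) = -X.Γi p := by
  conv_lhs => rw [← h.right p, ← h.odd, h.left]
lemma mem_M (h : Good X) {p : P} : p ∈ X.M ↔ rho (X.Γi p) ≤ X.R ^ 2 :=
  ⟨by rintro ⟨z, hz, rfl⟩; rwa [h.left], fun hp => ⟨X.Γi p, hp, h.right p⟩⟩
lemma M_compact (h : Good X) : IsCompact X.M := (isCompact_Disc X.R).image h.Γ_cont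
lemma M_meas (h : Good X) : MeasurableSet X.M := h.M_compact.measurableSet
lemma neg_mem (h : Good X) {p : P} (hp : p ∈ X.M) : -p ∈ X.M := by
  rw [h.mem_M] at hp ⊢; rwa [h.Γi_neg, rho_neg]
lemma rho_le_one (h : Good X) {p : P} (hp : p ∈ X.M) : rho (X.Γi p) ≤ 1 :=
  (h.mem_M.1 hp).trans (pow_le_one₀ h.R_pos.le h.R_le)
lemma ξ_cont (h : Good X) : Continuous X.ξ := h.ξ_c1.continuous
lemma u_cont (h : Good X) : Continuous X.u := h.Γi_cont.snd
lemma y_cont (h : Good X) : Continuous X.y := h.y_c1.continuous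
lemma ξ_neg (h : Good X) (p : P) : X.ξ (-p) = -X.ξ p := by simp [Sys.ξ, h.Γi_neg]
lemma u_neg (h : Good X) (p : P) : X.u (-p) = -X.u p := by simp [Sys.u, h.Γi_neg]
lemma y_neg (h : Good X) (p : P) : X.y (-p) = -X.y p := by simp only [Sys.y, h.Γi_neg, Y0_neg]
lemma v_cont (h : Good X) : Continuous X.v :=
  ((h.Γ_sm.continuous_fderiv (by simp)).comp h.Γi_cont).clm_apply
    (contDiff_tn.continuous.comp h.Γi_cont)
lemma v_Γ (h : Good X) (z : P) : X.v (X.Γ z) = fderiv ℝ X.Γ z (tn z) := by
  simp only [Sys.v, h.left]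
lemma g_nonneg (h : Good X) {p : P} (hp : p ∈ X.M) (w : P) : 0 ≤ X.g p w w :=
  gq_nonneg (h.met p hp).1 (h.met p hp).2 w
lemma g_cont (h : Good X) {α : Type} [TopologicalSpace α] {p u w : α → P} (hp : Continuous p)
    (hu : Continuous u) (hw : Continuous w) : Continuous fun a => X.g (p a) (u a) (w a) :=
  continuous_gq h.E_sm.continuous h.F_sm.continuous h.G_sm.continuous hp hu hw
lemma st_nonneg (h : Good X) (w : P → P) : 0 ≤ X.st w :=
  mul_nonneg pi_pos.le (setIntegral_nonneg h.M_meas fun _ hp =>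
    div_nonneg (h.g_nonneg hp _) zero_le_two)

/-- the derivative along `v` is the derivative along the rotation in labels -/
lemma fderiv_v (h : Good X) {f : P → ℝ} (hf : Differentiable ℝ f) (z : P) :
    fderiv ℝ f (X.Γ z) (X.v (X.Γ z)) = fderiv ℝ (fun z => f (X.Γ z)) z (tn z) := by
  rw [h.v_Γ, fderiv_fun_comp z (hf _) (dAt h.Γ_sm z)]; rfl

lemma dξ_v (h : Good X) (p : P) : fderiv ℝ X.ξ p (X.v p) = X.u p := by
  have e : (fun z => X.ξ (X.Γ z)) = fun z : P => z.1 := funext fun z => by simp [Sys.ξ, h.left]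
  have := h.fderiv_v (h.ξ_c1.differentiable one_ne_zero) (X.Γi p)
  rw [h.right, e, fderiv_fst] at this
  exact this

/-- change of variables to the labels -/
lemma cv' (h : Good X) {A : Set P} (hA : MeasurableSet A) (f : P → ℝ) :
    ∫ p in X.Γ '' A, f p = ∫ z in A, ff z * f (X.Γ z) := by
  rw [integral_image (dAt h.Γ_sm) hA h.Γ_inj.injOn]
  simp only [h.jac_eq, abs_of_nonneg (ff_nonneg _)]
lemma cv (h : Good X) (f : P → ℝ) :
    ∫ p in X.M, f (X.Γi p) = ∫ z in Disc X.R, ff z * f z := by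
  have := h.cv' (measurableSet_Disc X.R) fun p => f (X.Γi p)
  simp only [h.left] at this
  exact this
lemma vol_Γ (h : Good X) {A : Set P} (hA : MeasurableSet A) :
    volume (X.Γ '' A) = ∫⁻ z in A, ENNReal.ofReal (ff z) := by
  rw [vol_image (dAt h.Γ_sm) hA h.Γ_inj.injOn]
  simp only [h.jac_eq, abs_of_nonneg (ff_nonneg _)]

lemma nice_xd (h : Good X) (hη : Adm X.M η v) : Nice X.M (X.xd η v) :=
  nice_fderiv hη h.M_compact h.ξ_c1
lemma nice_ξ (h : Good X) (hη : Adm X.M η v) : Nice X.M fun t a => X.ξ (η t a) :=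
  nice_pos hη h.M_compact h.ξ_cont
lemma nice_u (h : Good X) (hη : Adm X.M η v) : Nice X.M fun t a => X.u (η t a) :=
  nice_pos hη h.M_compact h.u_cont
lemma nice_y (h : Good X) (hη : Adm X.M η v) : Nice X.M fun t a => X.y (η t a) :=
  nice_pos hη h.M_compact h.y_cont
lemma nice_lab (h : Good X) (hη : Adm X.M η v) {f : P → ℝ} (hf : Continuous f) :
    Nice X.M fun t a => f (X.Γi (η t a)) :=
  nice_pos hη h.M_compact (f := fun p => f (X.Γi p)) (hf.comp h.Γi_cont)

/-- `-id` preserves the measure of the domain -/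
lemma mp_neg (h : Good X) :
    MeasurePreserving (fun p : P => -p) (volume.restrict X.M) (volume.restrict X.M) := by
  refine mp_of_image h.M_meas measurable_neg (fun _ hp => h.neg_mem hp)
    (fun p hp => ⟨-p, h.neg_mem hp, neg_neg p⟩) fun A _ hA => ?_
  have e : (fun p : P => -p) = rot π := funext fun p => (rot_pi p).symm
  rw [e, vol_image (dAt (contDiff_rot_right π)) hA (injective_rot π).injOn]
  simp [jac_rot]

end Good

end Pool.Agent.Lib.ISOC
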