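import Pool.Agent.Lib.ISOC.GB
import Pool.Agent.Lib.MP_f62ea7_gt.TR1

/-! The formal solution, the lower bound and the main theorem from the blocks. -/

set_option autoImplicit false

open MeasureTheory Set Filter Topology Real
open scoped ContDiff ENNReal
open Pool.Agent.Lib.MP_f62ea7_gt

namespace Pool.Agent.Lib.ISOC

lemma O_LL {k : ℕ} {f : P → ℝ} (h : O (k + 2) f) : O (k + 1) (LL f) :=
  (h.dx.du.snd_mul.sub h.du.du.fst_mul).add (h.dx.const_mul 2)

lemma form_step (hS : St_STEP) (hL : St_LINV) (n : ℕ) (b : P → ℝ) (h5 : O 5 b)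
    (ho : ∀ z, b (-z) = -b z) (hE : O (2 * n + 4) (EP b)) :
    ∃ f, Hom (2 * n + 5) f ∧ O (2 * (n + 1) + 4) (EP fun z => b z + f z) := by
  obtain ⟨H, hH, hR⟩ := hE.lead
  obtain ⟨f, hf, hLf⟩ := hL _ H hH
  refine ⟨f, hf, ?_⟩
  have e : (fun z => b z + f z - b z) = f := funext fun z => by ring
  have h1 := hS.2.2 b (fun z => b z + f z) (2 * n + 3) h5 (h5.add (hf.ord.mono (by omega)))
    (by rw [e]; exact hf.ord)
  rw [e] at h1
  have h2 : O (2 * n + 5) (EP fun z => b z + f z) :=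
    ((h1.mono (by omega)).add hR).congr fun z => by rw [hLf]; ring
  exact h2.of_even ⟨n + 2, by ring⟩ (EP_neg fun z => by
    rw [ho, hf.neg_of_odd ⟨n + 2, by ring⟩]; ring)

theorem st_CON (hS : St_STEP) (hL : St_LINV) (hB : St_BOREL) : St_CON := by
  choose! F hF using form_step hS hL
  let s : ℕ → P → ℝ := fun n => Nat.rec (fun _ => 0) (fun n b z => b z + F n b z) n
  have hs : ∀ n, O 5 (s n) ∧ (∀ z, s n (-z) = -s n z) ∧ O (2 * n + 4) (EP (s n)) := by
    intro n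
    induction n with
    | zero => exact ⟨O.zero 5, fun z => by simp [s], hS.1⟩
    | succ n ih =>
      obtain ⟨h1, h2⟩ := hF n (s n) ih.1 ih.2.1 ih.2.2
      refine ⟨ih.1.add (h1.ord.mono (by omega)), fun z => ?_, h2⟩
      change s n (-z) + F n (s n) (-z) = -(s n z + F n (s n) z)
      rw [ih.2.1, h1.neg_of_odd ⟨n + 2, by ring⟩]; ring
  have hsum : ∀ n z, s n z = ∑ j ∈ Finset.range n, F j (s j) z := by
    intro n z
    induction n with
    | zero => simp [s]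
    | succ n ih => rw [Finset.sum_range_succ, ← ih]
  obtain ⟨b, -, ho, hx, hb⟩ := hB (fun j => F j (s j)) fun j =>
    (hF j (s j) (hs j).1 (hs j).2.1 (hs j).2.2).1
  have h5 : O 5 b := (hb 0).congr fun z => by simp
  refine ⟨b, ⟨h5, ho, hx⟩, fun m => ?_⟩
  have hd : O (2 * m + 3 + 2) fun z => b z - s m z := (hb m).congr fun z => by rw [hsum]
  have h1 := hS.2.2 (s m) b (2 * m + 3) (hs m).1 h5 hd
  exact (((h1.mono (by omega : m ≤ _)).add ((hs m).2.2.mono (by omega))).sub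
    ((O_LL hd).mono (by omega))).congr fun z => by ring

theorem st_LOW (hCAL : St_CAL) (hTH : St_TH) (h1 : St_CONST1) (h2 : St_CONST2) (hE : St_ENER)
    (hR : St_REV) (hI : St_INT) : St_LOW := by
  have key : ∀ X, Good X → ∀ η v, Adm X.M η v → Flip X.M η →
      (∃ L, LipschitzOnWith L (η (π / 2)) X.M) → 0 ≤ X.Cal η v → X.st X.v < X.act η v := by
    intro X hX η v hη hF hL h0
    obtain ⟨h, hc, hp, hM⟩ := hTH X hX
    have a1 := hCAL X.Γ X.R X.R h _ _ hX.Γ_cont hX.Γ_inj hX.R_pos hX.R_pos hc hp (hM η v hη hF)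
    have a1' : volume.real X.M ^ 2 / 4 ≤ |X.Cal η v| := a1
    rw [abs_of_nonneg h0, h2 X hX] at a1'
    obtain ⟨b1, b2, b3, b4⟩ := hI X hX η v hη hF
    have a2 := hE X hX η v hη
    have a3 := h1 X hX
    by_contra hc
    exact b4 (by linarith) (by linarith) hL
  intro X hX η v hη hF hL
  rcases le_total 0 (X.Cal η v) with h0 | h0
  · exact key X hX η v hη hF hL h0
  · obtain ⟨r1, r2, r3⟩ := hR X hX η v hη hF
    rw [← r2]
    refine key X hX _ _ r1 (fun a ha => ?_) ?_ (by rw [r3]; linarith)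
    · have := hF (-a) (hX.neg_mem ha)
      simp only [sub_zero, sub_self, this.1, this.2, neg_neg, and_self]
    · obtain ⟨L, hL⟩ := hL
      refine ⟨L, fun a ha a' ha' => ?_⟩
      have := hL (hX.neg_mem ha) (hX.neg_mem ha')
      rw [edist_neg_neg] at this
      simpa only [show π - π / 2 = π / 2 by ring] using this

lemma cj_neg : (cj 1 fun p => -p) = fun z : ℂ => -z := by
  funext z; apply Complex.ext <;> simp [cj, ι, ιi]

lemma onC_ι (f : P → ℝ) (p : P) : onC f (ι 1 p) = f p := by rw [onC, TR1.ιi_ι one_ne_zero]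

lemma neg_ι (p : P) : -ι 1 p = ι 1 (-p) := by apply Complex.ext <;> simp [ι]

lemma onC_sm {f : P → ℝ} (hf : ContDiff ℝ ∞ f) : ContDiff ℝ ∞ (onC f) :=
  hf.comp (TR1.ιE 1 one_ne_zero).symm.contDiff

theorem main (hS : St_SYS) (hL : St_LOW) (hU : St_UPE) (hE : St_EN) (h1 : St_TR1G) (h2 : St_TR2G)
    (hD : St_DOM) : ∃ (M : Set ℂ) (E F G : ℂ → ℝ), IsDomain M ∧ IsMetric E F G M ∧
      (∀ z ∈ M, E (-z) = E z ∧ F (-z) = F z ∧ G (-z) = G z) ∧
      ∀ s : ℝ, 2 < s → IsDiff s M (fun z => -z) ∧ (∃ γ, IsCurve s M (fun z => -z) γ) ∧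
        ∀ γ, IsCurve s M (fun z => -z) γ →
          ∃ γ', IsCurve s M (fun z => -z) γ' ∧ energyG E F G M γ' < energyG E F G M γ := by
  obtain ⟨X, hX⟩ := hS
  have cE := hX.E_sm.continuous
  have cF := hX.F_sm.continuous
  have cG := hX.G_sm.continuous
  refine ⟨ι 1 '' X.M, onC X.E, onC X.F, onC X.G, hD X hX,
    ⟨onC_sm hX.E_sm, onC_sm hX.F_sm, onC_sm hX.G_sm, ?_⟩, ?_, fun s hs => ?_⟩
  · rintro _ ⟨p, hp, rfl⟩
    simpa only [onC_ι] using hX.met p hp
  · rintro _ ⟨p, hp, rfl⟩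
    simpa only [neg_ι, onC_ι] using hX.even p hp
  rw [← cj_neg]
  obtain ⟨α0, w0, hF0, -⟩ := hU X hX 1 one_pos
  refine ⟨(h2 s _ _ _ hs hX.M_compact hF0).1, ⟨_, (h2 s _ _ _ hs hX.M_compact hF0).2.1⟩,
    fun γ hγ => ?_⟩
  obtain ⟨η, v, hη, he, hγη, hlip⟩ := h1 s _ _ _ hs hX.M_compact hγ
  have hlt := hL X hX η v hη he hlip
  obtain ⟨α, w, hF, hw⟩ := hU X hX ((X.act η v - X.st X.v) / 2) (by linarith)
  obtain ⟨-, c1, c2, c3⟩ := h2 s _ _ _ hs hX.M_compact hF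
  refine ⟨_, c1, ?_⟩
  rw [hE _ _ _ _ _ _ _ hX.M_compact cE cF cG (fun p hp => hX.g_nonneg hp) hη hγη,
    hE _ _ _ _ _ _ _ hX.M_compact cE cF cG (fun p hp => hX.g_nonneg hp) c2
      (fun t _ a _ => by rw [cj, TR1.ιi_ι one_ne_zero]), c3 _ _ _ cE cF cG]
  have p0 := hX.st_nonneg X.v
  have p1 : 0 < X.act η v := by linarith
  refine (ENNReal.ofReal_lt_ofReal_iff (mul_pos pi_pos p1)).2 (mul_lt_mul_of_pos_left ?_ pi_pos)
  change X.st w < X.act η v
  linarith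

end Pool.Agent.Lib.ISOC
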