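import Pool.Agent.Lib.ISOC.OC
import Pool.Agent.Lib.MP_f62ea7_gt.MP

/-! The model functions, rotations, Jacobians, vertical inverses, and the label functions. -/

set_option autoImplicit false

open MeasureTheory Set Filter Topology Real
open scoped ContDiff ENNReal
open Pool.Agent.Lib.MP_f62ea7_gt

namespace Pool.Agent.Lib.ISOC

/-! ### The model -/

lemma rho_nonneg (z : P) : 0 ≤ rho z := by unfold rho; positivity
lemma one_add_rho_pos (z : P) : 0 < 1 + rho z := by linarith [rho_nonneg z]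
@[simp] lemma rho_neg (z : P) : rho (-z) = rho z := by simp [rho]
@[simp] lemma rho_zero : rho 0 = 0 := by simp [rho]
lemma norm_sq_le_rho (z : P) : ‖z‖ ^ 2 ≤ rho z := norm_sq_le z
lemma rho_le (z : P) : rho z ≤ 2 * ‖z‖ ^ 2 := by
  unfold rho; linarith [fst_sq_le z, snd_sq_le z]
lemma rho_pos {z : P} (h : z ≠ 0) : 0 < rho z :=
  lt_of_lt_of_le (pow_pos (norm_pos_iff.2 h) 2) (norm_sq_le_rho z)
lemma rho_smul (t : ℝ) (z : P) : rho (t • z) = t ^ 2 * rho z := by simp [rho]; ring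
lemma contDiff_rho : ContDiff ℝ ∞ rho := by unfold rho; fun_prop
lemma continuous_rho : Continuous rho := contDiff_rho.continuous
lemma O_rho : O 2 rho := (O.fst.pow 2).add (O.snd.pow 2)
lemma dx_rho (z : P) : dx rho z = 2 * z.1 :=
  dx_eq (dAt contDiff_rho z) (by simpa [rho] using (hasDerivAt_pow 2 z.1).add_const (z.2 ^ 2))
lemma du_rho (z : P) : du rho z = 2 * z.2 :=
  du_eq (dAt contDiff_rho z) (by simpa [rho] using (hasDerivAt_pow 2 z.2).const_add (z.1 ^ 2))

lemma mem_Disc {R : ℝ} {z : P} : z ∈ Disc R ↔ rho z ≤ R ^ 2 := Iff.rfl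
lemma norm_le_of_mem_Disc {R : ℝ} (hR : 0 ≤ R) {z : P} (h : z ∈ Disc R) : ‖z‖ ≤ R :=
  (pow_le_pow_iff_left₀ (norm_nonneg z) hR two_ne_zero).1 ((norm_sq_le_rho z).trans h)
lemma isClosed_Disc (R : ℝ) : IsClosed (Disc R) := isClosed_le continuous_rho continuous_const
lemma isCompact_Disc (R : ℝ) : IsCompact (Disc R) :=
  (isCompact_closedBall (0 : P) |R|).of_isClosed_subset (isClosed_Disc R) fun z hz => by
    simpa using norm_le_of_mem_Disc (abs_nonneg R) (show rho z ≤ |R| ^ 2 by rwa [sq_abs])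
lemma measurableSet_Disc (R : ℝ) : MeasurableSet (Disc R) := (isClosed_Disc R).measurableSet
lemma zero_mem_Disc (R : ℝ) : (0 : P) ∈ Disc R := by simp [mem_Disc, sq_nonneg]
lemma neg_mem_Disc {R : ℝ} {z : P} (h : z ∈ Disc R) : -z ∈ Disc R := by simpa [mem_Disc] using h
lemma smul_mem_Disc {R : ℝ} {z : P} (h : z ∈ Disc R) {r : ℝ} (hr : r ∈ Icc (0 : ℝ) 1) :
    r • z ∈ Disc R := by
  rw [mem_Disc, rho_smul]
  exact (mul_le_of_le_one_left (rho_nonneg z) (pow_le_one₀ hr.1 hr.2)).trans h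
lemma ball_subset_Disc {R : ℝ} : Metric.ball (0 : P) (R / 2) ⊆ Disc R := fun z hz => by
  have h : ‖z‖ < R / 2 := by simpa using hz
  have := rho_le z
  rw [mem_Disc]; nlinarith [norm_nonneg z]

lemma ff_eq (z : P) : ff z = rho z * (2 + rho z) / (1 + rho z) ^ 2 := by
  have := one_add_rho_pos z
  unfold ff; field_simp; ring
lemma ff_congr {z z' : P} (h : rho z = rho z') : ff z = ff z' := by unfold ff; rw [h]
@[simp] lemma ff_neg (z : P) : ff (-z) = ff z := ff_congr (rho_neg z)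
@[simp] lemma ff_zero : ff 0 = 0 := by simp [ff]
lemma ff_nonneg (z : P) : 0 ≤ ff z := by
  have := rho_nonneg z
  rw [ff_eq]; positivity
lemma ff_pos {z : P} (h : z ≠ 0) : 0 < ff z := by
  have := rho_pos h
  rw [ff_eq]; positivity
lemma ff_le_one (z : P) : ff z ≤ 1 := by
  have := one_add_rho_pos z
  unfold ff; linarith [show 0 ≤ 1 / (1 + rho z) ^ 2 by positivity]
lemma ff_le (z : P) : ff z ≤ 2 * rho z := by
  have := rho_nonneg z
  rw [ff_eq, div_le_iff₀ (by positivity)]; nlinarith [mul_nonneg this this, pow_nonneg this 3]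
lemma ff_ge (z : P) : min (rho z) 1 / 2 ≤ ff z := by
  have h := rho_nonneg z
  rw [ff_eq, le_div_iff₀ (by positivity)]
  rcases le_total (rho z) 1 with h1 | h1
  · rw [min_eq_left h1]; nlinarith [mul_nonneg h h, mul_nonneg h (sub_nonneg.2 h1),
      mul_nonneg (mul_nonneg h h) (sub_nonneg.2 h1)]
  · rw [min_eq_right h1]; nlinarith
lemma contDiff_ff : ContDiff ℝ ∞ ff :=
  contDiff_const.sub (contDiff_const.div ((contDiff_const.add contDiff_rho).pow 2)
    fun z => (pow_pos (one_add_rho_pos z) 2).ne')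
lemma continuous_ff : Continuous ff := contDiff_ff.continuous
lemma O_ff : O 2 ff :=
  ((O_rho.mul_sm (contDiff_const.add contDiff_rho)).div ((contDiff_const.add contDiff_rho).pow 2)
    fun z => (pow_pos (one_add_rho_pos z) 2).ne').congr ff_eq
lemma O_ff_sub : O 4 fun z => ff z - 2 * rho z :=
  (((O_rho.pow 2).mul_sm (G := fun z => -3 - 2 * rho z)
    (contDiff_const.sub (contDiff_const.mul contDiff_rho))).div
    ((contDiff_const.add contDiff_rho).pow 2)
    fun z => (pow_pos (one_add_rho_pos z) 2).ne').congr fun z => by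
      have := one_add_rho_pos z
      rw [ff_eq]; field_simp; ring
lemma contDiff_psi : ContDiff ℝ ∞ psi :=
  (contDiff_rho.pow 2).div (contDiff_const.mul (contDiff_const.add contDiff_rho))
    fun z => (mul_pos two_pos (one_add_rho_pos z)).ne'
lemma contDiff_kap : ContDiff ℝ ∞ kap :=
  contDiff_rho.div (contDiff_const.mul (contDiff_const.add contDiff_rho))
    fun z => (mul_pos two_pos (one_add_rho_pos z)).ne'
lemma psi_congr {z z' : P} (h : rho z = rho z') : psi z = psi z' := by unfold psi; rw [h]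
lemma kap_congr {z z' : P} (h : rho z = rho z') : kap z = kap z' := by unfold kap; rw [h]
lemma kap_mul_rho (z : P) : kap z * rho z = psi z := by unfold kap psi; ring
lemma psi_nonneg (z : P) : 0 ≤ psi z := by
  have := rho_nonneg z
  unfold psi; positivity
lemma du_psi (z : P) : du psi z = z.2 * ff z := by
  have h := one_add_rho_pos z
  have hr := dAt contDiff_rho z
  unfold psi
  rw [du_div (hr.fun_pow 2) ((hr.const_add 1).const_mul 2) (by positivity), du_pow hr,
    du_const_mul 2 (hr.const_add 1), du_add (differentiableAt_const 1) hr, du_const, du_rho, ff_eq]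
  field_simp; ring
lemma contDiff_Y0 : ContDiff ℝ ∞ Y0 := contDiff_iU contDiff_ff
lemma continuous_Y0 : Continuous Y0 := contDiff_Y0.continuous
lemma contDiff_H0 : ContDiff ℝ ∞ H0 := contDiff_iU (contDiff_fst.mul contDiff_kap)
lemma du_Y0 (z : P) : du Y0 z = ff z := du_iU contDiff_ff z
lemma hasDerivAt_Y0 (x u : ℝ) : HasDerivAt (fun s => Y0 (x, s)) (ff (x, u)) u :=
  hasDerivAt_iU continuous_ff x u
lemma hasDerivAt_psi (x u : ℝ) : HasDerivAt (fun s => psi (x, s)) (u * ff (x, u)) u := by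
  have := hasDerivAt_du (dAt contDiff_psi (x, u))
  rwa [du_psi] at this
@[simp] lemma Y0_zero (x : ℝ) : Y0 (x, 0) = 0 := iU_zero _ x
lemma Y0_neg (z : P) : Y0 (-z) = -Y0 z := iU_of_even ff_neg z
lemma Y0_neg_fst (x u : ℝ) : Y0 (-x, u) = Y0 (x, u) :=
  intervalIntegral.integral_congr fun _ _ => ff_congr (by simp [rho])
lemma Y0_neg_snd (x u : ℝ) : Y0 (x, -u) = -Y0 (x, u) := by
  rw [← Y0_neg_fst]; exact Y0_neg (x, u)
lemma O_Y0 : O 3 Y0 := O_ff.iU

/-- a function whose derivative is positive off one point is strictly increasing -/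
lemma strictMono_of_pos_off {f f' : ℝ → ℝ} (h : ∀ u, HasDerivAt f (f' u) u)
    (hp : ∀ u, u ≠ 0 → 0 < f' u) : StrictMono f := by
  have hc : Continuous f := continuous_iff_continuousAt.2 fun u => (h u).continuousAt
  have h1 : StrictMonoOn f (Iic 0) := strictMonoOn_of_deriv_pos (convex_Iic 0) hc.continuousOn
    fun u hu => by rw [(h u).deriv]; exact hp u (ne_of_lt (by simpa using hu))
  have h2 : StrictMonoOn f (Ici 0) := strictMonoOn_of_deriv_pos (convex_Ici 0) hc.continuousOn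
    fun u hu => by rw [(h u).deriv]; exact hp u (ne_of_gt (by simpa using hu))
  exact h1.Iic_union_Ici h2

lemma strictMono_Y0 (x : ℝ) : StrictMono fun u => Y0 (x, u) :=
  strictMono_of_pos_off (hasDerivAt_Y0 x) fun _ hu => ff_pos fun e => hu (congrArg Prod.snd e)
lemma contDiff_Phi0 : ContDiff ℝ ∞ Phi0 := contDiff_fst.prodMk contDiff_Y0
lemma injective_Phi0 : Function.Injective Phi0 := fun z z' h => by
  have h1 : z.1 = z'.1 := (congrArg Prod.fst h :)
  have h2 : Y0 (z.1, z.2) = Y0 (z'.1, z'.2) := congrArg Prod.snd h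
  rw [← h1] at h2
  exact Prod.ext h1 ((strictMono_Y0 z.1).injective h2)

/-! ### Rotations -/

@[simp] lemma rot_zero (z : P) : rot 0 z = z := by simp [rot]
lemma rot_add (s t : ℝ) (z : P) : rot (s + t) z = rot s (rot t z) := by
  simp only [rot, cos_add, sin_add]; ext <;> simp <;> ring
lemma rot_pi (z : P) : rot π z = -z := by ext <;> simp [rot]
lemma rot_neg_arg (t : ℝ) (z : P) : rot t (-z) = -rot t z := by ext <;> simp [rot] <;> ring
lemma rot_add_pi (t : ℝ) (z : P) : rot (t + π) z = -rot t z := by rw [rot_add, rot_pi, rot_neg_arg]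
@[simp] lemma rho_rot (t : ℝ) (z : P) : rho (rot t z) = rho z := by
  simp only [rho, rot]; linear_combination (z.1 ^ 2 + z.2 ^ 2) * sin_sq_add_cos_sq t
lemma contDiff_rot : ContDiff ℝ ∞ fun q : ℝ × P => rot q.1 q.2 := by unfold rot; fun_prop
lemma contDiff_rot_right (t : ℝ) : ContDiff ℝ ∞ (rot t) := by unfold rot; fun_prop
lemma hasDerivAt_rot (z : P) (t : ℝ) : HasDerivAt (fun τ => rot τ z) (tn (rot t z)) t := by
  refine ((((hasDerivAt_cos t).const_mul z.1).fun_add ((hasDerivAt_sin t).const_mul z.2)).prodMk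
    (((hasDerivAt_sin t).const_mul (-z.1)).fun_add
      ((hasDerivAt_cos t).const_mul z.2))).congr_deriv ?_
  ext <;> simp [rot, tn] <;> ring
lemma contDiff_tn : ContDiff ℝ ∞ tn := by unfold tn; fun_prop
lemma norm_tn (z : P) : ‖tn z‖ = ‖z‖ := by simp [tn, Prod.norm_def, max_comm]
lemma injective_rot (t : ℝ) : Function.Injective (rot t) :=
  Function.LeftInverse.injective (g := rot (-t)) fun z => by rw [← rot_add]; simp

/-! ### Jacobians -/

lemma jac_eq {Λ : P → P} {z : P} (h : DifferentiableAt ℝ Λ z) :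
    jac Λ z = dx (fun z => (Λ z).1) z * du (fun z => (Λ z).2) z -
      du (fun z => (Λ z).1) z * dx (fun z => (Λ z).2) z := by
  unfold jac dx du
  rw [MP.det_eq, fderiv.fst h, fderiv.snd h]; rfl

lemma jac_mk {f g : P → ℝ} {z : P} (hf : DifferentiableAt ℝ f z) (hg : DifferentiableAt ℝ g z) :
    jac (fun z => (f z, g z)) z = dx f z * du g z - du f z * dx g z := jac_eq (hf.prodMk hg)

lemma fderiv_mk_apply {f g : P → ℝ} {z : P} (hf : DifferentiableAt ℝ f z)
    (hg : DifferentiableAt ℝ g z) (h : P) : fderiv ℝ (fun z => (f z, g z)) z h =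
      (h.1 * dx f z + h.2 * du f z, h.1 * dx g z + h.2 * du g z) := by
  rw [hf.fderiv_prodMk hg, ← fderiv_apply_eq, ← fderiv_apply_eq]; rfl

lemma jac_comp {Λ Θ : P → P} {z : P} (h1 : DifferentiableAt ℝ Λ (Θ z))
    (h2 : DifferentiableAt ℝ Θ z) : jac (fun z => Λ (Θ z)) z = jac Λ (Θ z) * jac Θ z := by
  unfold jac
  rw [fderiv_fun_comp z h1 h2]
  exact LinearMap.det_comp _ _

lemma jac_id (z : P) : jac (fun z => z) z = 1 := by
  unfold jac; rw [fderiv_fun_id]; exact LinearMap.det_id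

lemma jac_congr {Λ Θ : P → P} {z : P} (h : Λ =ᶠ[𝓝 z] Θ) : jac Λ z = jac Θ z := by
  unfold jac; rw [h.fderiv_eq]

lemma contDiff_jac {Λ : P → P} (h : ContDiff ℝ ∞ Λ) : ContDiff ℝ ∞ (jac Λ) := by
  rw [show jac Λ = _ from funext fun z => jac_eq (dAt h z)]
  exact ((contDiff_dx h.fst).mul (contDiff_du h.snd)).sub
    ((contDiff_du h.fst).mul (contDiff_dx h.snd))

lemma jac_of_odd {Λ : P → P} (h : Differentiable ℝ Λ) (ho : ∀ z, Λ (-z) = -Λ z) (z : P) :
    jac Λ (-z) = jac Λ z := by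
  have h1 : ∀ z, (Λ (-z)).1 = -(Λ z).1 := fun z => by rw [ho]; rfl
  have h2 : ∀ z, (Λ (-z)).2 = -(Λ z).2 := fun z => by rw [ho]; rfl
  rw [jac_eq (h _), jac_eq (h _), dx_of_odd (f := fun z => (Λ z).1) h1,
    du_of_odd (f := fun z => (Λ z).1) h1, dx_of_odd (f := fun z => (Λ z).2) h2,
    du_of_odd (f := fun z => (Λ z).2) h2]

lemma jac_rot (t : ℝ) (z : P) : jac (rot t) z = 1 := by
  have a : ∀ c d : ℝ, dx (fun z : P => z.1 * c + z.2 * d) z = c := fun c d =>
    dx_eq (by fun_prop) (by simpa using (hasDerivAt_mul_const (x := z.1) c).add_const (z.2 * d))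
  have b : ∀ c d : ℝ, du (fun z : P => z.1 * c + z.2 * d) z = d := fun c d =>
    du_eq (by fun_prop) (by simpa using (hasDerivAt_mul_const (x := z.2) d).const_add (z.1 * c))
  have e : rot t = fun z : P => (z.1 * cos t + z.2 * sin t, z.1 * (-sin t) + z.2 * cos t) := by
    funext z; simp [rot]
  rw [e, jac_mk (by fun_prop) (by fun_prop), a, a, b, b]
  linear_combination sin_sq_add_cos_sq t

lemma jac_Phi0 (z : P) : jac Phi0 z = ff z := by
  unfold Phi0
  rw [jac_mk differentiableAt_fst (dAt contDiff_Y0 z), du_Y0]; simp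

lemma vol_image {Λ : P → P} (h : Differentiable ℝ Λ) {A : Set P} (hA : MeasurableSet A)
    (hi : InjOn Λ A) : volume (Λ '' A) = ∫⁻ z in A, ENNReal.ofReal |jac Λ z| :=
  (lintegral_abs_det_fderiv_eq_addHaar_image volume hA
    (fun z _ => (h z).hasFDerivAt.hasFDerivWithinAt) hi).symm

lemma integral_image {Λ : P → P} (h : Differentiable ℝ Λ) {A : Set P} (hA : MeasurableSet A)
    (hi : InjOn Λ A) (f : P → ℝ) : ∫ p in Λ '' A, f p = ∫ z in A, |jac Λ z| * f (Λ z) :=
  integral_image_eq_integral_abs_det_fderiv_smul volume hA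
    (fun z _ => (h z).hasFDerivAt.hasFDerivWithinAt) hi f

/-- integrals over a disc are rotation invariant -/
lemma integral_Disc_rot (R t : ℝ) (f : P → ℝ) : ∫ z in Disc R, f (rot t z) = ∫ z in Disc R, f z := by
  have e : rot t '' Disc R = Disc R := by
    ext z
    refine ⟨?_, fun h => ⟨rot (-t) z, by simpa [mem_Disc] using h, by rw [← rot_add]; simp⟩⟩
    rintro ⟨w, hw, rfl⟩
    simpa [mem_Disc] using hw
  have := integral_image (dAt (contDiff_rot_right t)) (measurableSet_Disc R)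
    (injective_rot t).injOn f
  rw [e] at this
  simp only [jac_rot, abs_one, one_mul] at this
  exact this.symm

/-! ### Inverting in the last variable -/

theorem vinv {E : Type} [NormedAddCommGroup E] [NormedSpace ℝ E] [CompleteSpace E]
    {f : E × ℝ → ℝ} (hf : ContDiff ℝ ∞ f) (hm : ∀ e, StrictMono fun u => f (e, u))
    (hs : ∀ e, Function.Surjective fun u => f (e, u)) :
    ∃ g : E × ℝ → ℝ, Continuous g ∧ (∀ e y, f (e, g (e, y)) = y) ∧ (∀ e u, g (e, f (e, u)) = u) ∧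
      ∀ (e : E) (y d : ℝ), HasDerivAt (fun u => f (e, u)) d (g (e, y)) → d ≠ 0 →
        ContDiffAt ℝ ∞ g (e, y) := by
  choose g0 hg using hs
  have hc : Continuous fun q : E × ℝ => g0 q.1 q.2 := by
    refine continuous_iff_continuousAt.2 fun q => tendsto_order.2 ⟨fun l hl => ?_, fun l hl => ?_⟩
    · have h1 : f (q.1, l) - q.2 < 0 := by
        have := hm q.1 hl
        simp only [hg] at this; linarith
      have c : Continuous fun p : E × ℝ => f (p.1, l) - p.2 := by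
        have := hf.continuous; fun_prop
      filter_upwards [c.continuousAt.eventually (gt_mem_nhds h1)] with p hp
      refine (hm p.1).lt_iff_lt.1 ?_
      simp only [hg]; linarith
    · have h1 : 0 < f (q.1, l) - q.2 := by
        have := hm q.1 hl
        simp only [hg] at this; linarith
      have c : Continuous fun p : E × ℝ => f (p.1, l) - p.2 := by
        have := hf.continuous; fun_prop
      filter_upwards [c.continuousAt.eventually (lt_mem_nhds h1)] with p hp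
      refine (hm p.1).lt_iff_lt.1 ?_
      simp only [hg]; linarith
  refine ⟨fun q => g0 q.1 q.2, hc, hg, fun e u => (hm e).injective (hg e _), fun e y d hd h0 => ?_⟩
  refine ift (f := fun q : (E × ℝ) × ℝ => f (q.1.1, q.2) - q.1.2) (f' := d)
    (ContDiff.contDiffAt ((hf.comp (by fun_prop)).sub (by fun_prop))) (hd.sub_const y) h0
    hc.continuousAt (Eventually.of_forall fun q => ?_)
  simp only [hg, sub_self]

/-- a continuous function with `c u ≤ f u + K` for `u ≥ 0`, and symmetrically, is onto -/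
lemma surj_of_linear {f : ℝ → ℝ} (hf : Continuous f) {c K : ℝ} (hc : 0 < c)
    (h1 : ∀ u, 0 ≤ u → c * u - K ≤ f u) (h2 : ∀ u, u ≤ 0 → f u ≤ c * u + K) :
    Function.Surjective f := by
  refine hf.surjective ?_ ?_
  · refine tendsto_atTop_mono' _ ((eventually_ge_atTop 0).mono h1) ?_
    exact tendsto_atTop_add_const_right _ (-K) (tendsto_id.const_mul_atTop hc)
  · refine tendsto_atBot_mono' _ ((eventually_le_atBot 0).mono h2) ?_
    exact tendsto_atBot_add_const_right _ K (tendsto_id.const_mul_atBot hc)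

/-! ### The label functions -/

section labels
variable {b : P → ℝ}

lemma sm_aa (h : ContDiff ℝ ∞ b) : ContDiff ℝ ∞ (aa b) := contDiff_fst.add h
lemma sm_AA (h : ContDiff ℝ ∞ b) : ContDiff ℝ ∞ (AA b) := contDiff_const.add (contDiff_dx h)
lemma sm_Xi (h : ContDiff ℝ ∞ b) : ContDiff ℝ ∞ (Xi b) := (sm_aa h).prodMk contDiff_snd
lemma sm_JJ (h : ContDiff ℝ ∞ b) : ContDiff ℝ ∞ (JJ b) :=
  (sm_AA h).mul (contDiff_ff.comp (sm_Xi h))
lemma sm_YY (h : ContDiff ℝ ∞ b) : ContDiff ℝ ∞ (YY b) := contDiff_iU (sm_JJ h)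
lemma sm_Phi (h : ContDiff ℝ ∞ b) : ContDiff ℝ ∞ (Phi b) := contDiff_fst.prodMk (sm_YY h)
lemma sm_nn (h : ContDiff ℝ ∞ b) : ContDiff ℝ ∞ (nn b) :=
  contDiff_snd.add ((sm_aa h).mul (contDiff_du h))
lemma sm_mm (h : ContDiff ℝ ∞ b) : ContDiff ℝ ∞ (mm b) :=
  ((contDiff_dx (sm_YY h)).mul (sm_nn h)).sub (((sm_JJ h).mul (sm_aa h)).mul (sm_AA h))
lemma du_YY (h : ContDiff ℝ ∞ b) (z : P) : du (YY b) z = JJ b z := du_iU (sm_JJ h) z
lemma dx_aa (h : ContDiff ℝ ∞ b) (z : P) : dx (aa b) z = AA b z := by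
  unfold aa AA; rw [dx_add differentiableAt_fst (dAt h z), dx_fst]
lemma du_aa (h : ContDiff ℝ ∞ b) (z : P) : du (aa b) z = du b z := by
  unfold aa; rw [du_add differentiableAt_fst (dAt h z), du_fst, zero_add]
lemma jac_Xi (h : ContDiff ℝ ∞ b) (z : P) : jac (Xi b) z = AA b z := by
  unfold Xi; rw [jac_mk (dAt (sm_aa h) z) differentiableAt_snd, dx_aa h]; simp
lemma jac_Phi (h : ContDiff ℝ ∞ b) (z : P) : jac (Phi b) z = JJ b z := by
  unfold Phi; rw [jac_mk differentiableAt_fst (dAt (sm_YY h) z), du_YY h]; simp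
@[simp] lemma YY_zero (b : P → ℝ) (x : ℝ) : YY b (x, 0) = 0 := iU_zero _ x
@[simp] lemma Phi_zero (b : P → ℝ) : Phi b 0 = 0 := Prod.ext rfl (YY_zero b 0)

lemma aa_neg (h : ∀ z, b (-z) = -b z) (z : P) : aa b (-z) = -aa b z := by
  simp only [aa, h, Prod.fst_neg]; ring
lemma AA_neg (h : ∀ z, b (-z) = -b z) (z : P) : AA b (-z) = AA b z := by
  simp only [AA, dx_of_odd h]
lemma Xi_neg (h : ∀ z, b (-z) = -b z) (z : P) : Xi b (-z) = -Xi b z := Prod.ext (aa_neg h z) rfl
lemma JJ_neg (h : ∀ z, b (-z) = -b z) (z : P) : JJ b (-z) = JJ b z := by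
  change AA b (-z) * ff (Xi b (-z)) = AA b z * ff (Xi b z)
  rw [AA_neg h, Xi_neg h, ff_neg]
lemma YY_neg (h : ∀ z, b (-z) = -b z) (z : P) : YY b (-z) = -YY b z := iU_of_even (JJ_neg h) z
lemma Phi_neg (h : ∀ z, b (-z) = -b z) (z : P) : Phi b (-z) = -Phi b z := Prod.ext rfl (YY_neg h z)
lemma nn_neg (h : ∀ z, b (-z) = -b z) (z : P) : nn b (-z) = -nn b z := by
  simp only [nn, aa_neg h, du_of_odd h, Prod.snd_neg]; ring
lemma mm_neg (h : ∀ z, b (-z) = -b z) (z : P) : mm b (-z) = -mm b z := by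
  simp only [mm, aa_neg h, AA_neg h, JJ_neg h, nn_neg h, dx_of_odd (YY_neg h)]; ring
lemma EP_neg (h : ∀ z, b (-z) = -b z) (z : P) : EP b (-z) = EP b z := by
  simp only [EP, AA_neg h, JJ_neg h, nn_neg h, mm_neg h, dx_of_odd (YY_neg h),
    du_of_odd (nn_neg h), dx_of_odd (mm_neg h), du_of_odd (mm_neg h), dx_of_even (AA_neg h),
    du_of_even (AA_neg h)]
  ring

lemma O_aa (h : O 5 b) : O 1 (aa b) := O.fst.add (h.mono (by norm_num))
lemma O_ffXi (h : O 5 b) : O 2 fun z => ff (aa b z, z.2) := O.comp (O_aa h) O.snd O_ff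
lemma O_JJ (h : O 5 b) : O 2 (JJ b) := O.sm_mul (sm_AA h.sm) (O_ffXi h)
lemma O_YY (h : O 5 b) : O 3 (YY b) := (O_JJ h).iU
lemma O_Yx (h : O 5 b) : O 2 (dx (YY b)) := (O_YY h).dx

namespace Con0
lemma sm (h : Con0 b) : ContDiff ℝ ∞ b := h.o5.sm
lemma A_ge (h : Con0 b) (z : P) : 1 / 2 ≤ AA b z := by
  unfold AA; linarith [(abs_le.1 (h.bx z)).1]
lemma A_le (h : Con0 b) (z : P) : AA b z ≤ 3 / 2 := by
  unfold AA; linarith [(abs_le.1 (h.bx z)).2]
lemma A_pos (h : Con0 b) (z : P) : 0 < AA b z := by linarith [h.A_ge z]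
lemma A_ne (h : Con0 b) (z : P) : AA b z ≠ 0 := (h.A_pos z).ne'
lemma J_nonneg (h : Con0 b) (z : P) : 0 ≤ JJ b z := mul_nonneg (h.A_pos z).le (ff_nonneg _)
lemma J_zero (h : Con0 b) : JJ b 0 = 0 := (O_JJ h.o5).at_zero
lemma Xi_zero (h : Con0 b) : Xi b 0 = 0 := Prod.ext (O_aa h.o5).at_zero rfl
lemma sm_UU (h : Con0 b) : ContDiff ℝ ∞ (UU b) := (sm_nn h.sm).div (sm_AA h.sm) h.A_ne
lemma sm_VV (h : Con0 b) : ContDiff ℝ ∞ (VV b) := (sm_mm h.sm).div (sm_AA h.sm) h.A_ne
lemma VV_eq (h : Con0 b) (z : P) : VV b z = dx (YY b) z * UU b z - JJ b z * aa b z := by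
  have := h.A_ne z
  unfold VV UU mm; field_simp
end Con0

namespace Lab
variable {Ξi Ψ : P → P}
lemma Ψ_fst (h : Lab b Ξi Ψ) (p : P) : (Ψ p).1 = p.1 := (congrArg Prod.fst (h.Φ_r p) :)
lemma Ψ_snd (h : Lab b Ξi Ψ) (p : P) : YY b (Ψ p) = p.2 := congrArg Prod.snd (h.Φ_r p)
lemma Ψ_zero (h : Lab b Ξi Ψ) : Ψ 0 = 0 := by simpa using h.Φ_l 0
lemma Ψ_ne (h : Lab b Ξi Ψ) {p : P} (hp : p ≠ 0) : Ψ p ≠ 0 := fun e =>
  hp (by rw [← h.Φ_r p, e, Phi_zero])
lemma Ψ_neg (h : Lab b Ξi Ψ) (hb : Con0 b) (p : P) : Ψ (-p) = -Ψ p := by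
  conv_lhs => rw [← h.Φ_r p, ← Phi_neg hb.odd, h.Φ_l]
lemma Ξi_neg (h : Lab b Ξi Ψ) (hb : Con0 b) (z : P) : Ξi (-z) = -Ξi z := by
  conv_lhs => rw [← h.Ξ_r z, ← Xi_neg hb.odd, h.Ξ_l]
lemma Ξi_zero (h : Lab b Ξi Ψ) (hb : Con0 b) : Ξi 0 = 0 := by
  conv_lhs => rw [← hb.Xi_zero, h.Ξ_l]
lemma Ξi_snd (h : Lab b Ξi Ψ) (z : P) : (Ξi z).2 = z.2 := (congrArg Prod.snd (h.Ξ_r z) :)
end Lab

namespace Vel
lemma U_O (h : Vel b) : O 1 (UU b) := ((h.U_o.mono (by norm_num)).add O.snd).congr fun _ => by ring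
lemma V_O (h : Vel b) : O 3 (VV b) :=
  ((h.V_o.mono (by norm_num)).add ((O.fst.const_mul 2).mul ((O.snd.pow 2).sub (O.fst.pow 2)))).congr
    fun _ => by ring
lemma sm_QQ (h : Vel b) : ContDiff ℝ ∞ (QQ b) :=
  ((h.U_O.sm.pow 2).add (h.V_O.sm.pow 2)).add (h.eps_flat.sm.mul h.U_O.sm)
end Vel

end labels

end Pool.Agent.Lib.ISOC
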