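import Pool.Agent.Lib.ISOC.Blue
import Pool.Agent.Lib.MP_f62ea7_gt.Basic
import Pool.Agent.Lib.MP_0281e9_an.TurSm

/-! Calculus of partial derivatives, primitives and orders of vanishing. -/

set_option autoImplicit false

open MeasureTheory Set Filter Topology Real
open scoped ContDiff ENNReal
open Pool.Agent.Lib.MP_f62ea7_gt

namespace Pool.Agent.Lib.ISOC

lemma dAt {E F : Type} [NormedAddCommGroup E] [NormedSpace ℝ E] [NormedAddCommGroup F]
    [NormedSpace ℝ F] {f : E → F} (hf : ContDiff ℝ ∞ f) (z : E) : DifferentiableAt ℝ f z :=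
  hf.differentiable (by simp) z

section rules
variable {f g : P → ℝ} {z : P}

lemma dx_add (hf : DifferentiableAt ℝ f z) (hg : DifferentiableAt ℝ g z) :
    dx (fun z => f z + g z) z = dx f z + dx g z := by
  unfold dx; rw [fderiv_fun_add hf hg]; rfl
lemma du_add (hf : DifferentiableAt ℝ f z) (hg : DifferentiableAt ℝ g z) :
    du (fun z => f z + g z) z = du f z + du g z := by
  unfold du; rw [fderiv_fun_add hf hg]; rfl
lemma dx_sub (hf : DifferentiableAt ℝ f z) (hg : DifferentiableAt ℝ g z) :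
    dx (fun z => f z - g z) z = dx f z - dx g z := by
  unfold dx; rw [fderiv_fun_sub hf hg]; rfl
lemma du_sub (hf : DifferentiableAt ℝ f z) (hg : DifferentiableAt ℝ g z) :
    du (fun z => f z - g z) z = du f z - du g z := by
  unfold du; rw [fderiv_fun_sub hf hg]; rfl
lemma dx_neg (f : P → ℝ) (z : P) : dx (fun z => -f z) z = -dx f z := by
  unfold dx; rw [fderiv_fun_neg]; rfl
lemma du_neg (f : P → ℝ) (z : P) : du (fun z => -f z) z = -du f z := by
  unfold du; rw [fderiv_fun_neg]; rfl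
lemma dx_mul (hf : DifferentiableAt ℝ f z) (hg : DifferentiableAt ℝ g z) :
    dx (fun z => f z * g z) z = dx f z * g z + f z * dx g z := by
  unfold dx; rw [fderiv_fun_mul hf hg]; simp; ring
lemma du_mul (hf : DifferentiableAt ℝ f z) (hg : DifferentiableAt ℝ g z) :
    du (fun z => f z * g z) z = du f z * g z + f z * du g z := by
  unfold du; rw [fderiv_fun_mul hf hg]; simp; ring
@[simp] lemma dx_const (c : ℝ) (z : P) : dx (fun _ => c) z = 0 := by simp [dx]
@[simp] lemma du_const (c : ℝ) (z : P) : du (fun _ => c) z = 0 := by simp [du]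
@[simp] lemma dx_fst (z : P) : dx (fun z => z.1) z = 1 := by
  unfold dx; rw [fderiv_fst]; rfl
@[simp] lemma du_fst (z : P) : du (fun z => z.1) z = 0 := by
  unfold du; rw [fderiv_fst]; rfl
@[simp] lemma dx_snd (z : P) : dx (fun z => z.2) z = 0 := by
  unfold dx; rw [fderiv_snd]; rfl
@[simp] lemma du_snd (z : P) : du (fun z => z.2) z = 1 := by
  unfold du; rw [fderiv_snd]; rfl
lemma dx_const_mul (c : ℝ) (hf : DifferentiableAt ℝ f z) : dx (fun z => c * f z) z = c * dx f z := by
  rw [dx_mul (differentiableAt_const c) hf]; simp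
lemma du_const_mul (c : ℝ) (hf : DifferentiableAt ℝ f z) : du (fun z => c * f z) z = c * du f z := by
  rw [du_mul (differentiableAt_const c) hf]; simp

/-- computing `dx` from a one-variable derivative -/
lemma dx_eq {d : ℝ} (hf : DifferentiableAt ℝ f z) (h : HasDerivAt (fun s => f (s, z.2)) d z.1) :
    dx f z = d := (hasDerivAt_dx (x := z.1) (u := z.2) hf).unique h
lemma du_eq {d : ℝ} (hf : DifferentiableAt ℝ f z) (h : HasDerivAt (fun s => f (z.1, s)) d z.2) :
    du f z = d := (hasDerivAt_du (x := z.1) (u := z.2) hf).unique h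

lemma dAt_div (hf : DifferentiableAt ℝ f z) (hg : DifferentiableAt ℝ g z) (h : g z ≠ 0) :
    DifferentiableAt ℝ (fun z => f z / g z) z := by
  simp only [div_eq_mul_inv]; exact hf.fun_mul (hg.fun_inv h)
lemma dx_div (hf : DifferentiableAt ℝ f z) (hg : DifferentiableAt ℝ g z) (h : g z ≠ 0) :
    dx (fun z => f z / g z) z = (dx f z * g z - f z * dx g z) / g z ^ 2 :=
  dx_eq (dAt_div hf hg h) ((hasDerivAt_dx (x := z.1) (u := z.2) hf).div
    (hasDerivAt_dx (x := z.1) (u := z.2) hg) h)
lemma du_div (hf : DifferentiableAt ℝ f z) (hg : DifferentiableAt ℝ g z) (h : g z ≠ 0) :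
    du (fun z => f z / g z) z = (du f z * g z - f z * du g z) / g z ^ 2 :=
  du_eq (dAt_div hf hg h) ((hasDerivAt_du (x := z.1) (u := z.2) hf).div
    (hasDerivAt_du (x := z.1) (u := z.2) hg) h)
lemma dx_pow (hf : DifferentiableAt ℝ f z) (n : ℕ) :
    dx (fun z => f z ^ n) z = n * f z ^ (n - 1) * dx f z :=
  dx_eq (hf.pow n) ((hasDerivAt_dx (x := z.1) (u := z.2) hf).pow n)
lemma du_pow (hf : DifferentiableAt ℝ f z) (n : ℕ) :
    du (fun z => f z ^ n) z = n * f z ^ (n - 1) * du f z :=
  du_eq (hf.pow n) ((hasDerivAt_du (x := z.1) (u := z.2) hf).pow n)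

/-- chain rule through a map with components `g₁, g₂` -/
lemma dx_comp {g1 g2 : P → ℝ} (hf : DifferentiableAt ℝ f (g1 z, g2 z))
    (h1 : DifferentiableAt ℝ g1 z) (h2 : DifferentiableAt ℝ g2 z) :
    dx (fun z => f (g1 z, g2 z)) z =
      dx g1 z * dx f (g1 z, g2 z) + dx g2 z * du f (g1 z, g2 z) :=
  dx_eq (hf.comp z (h1.prodMk h2)) (hasDerivAt_comp (c := fun s => (g1 (s, z.2), g2 (s, z.2)))
    (c' := (dx g1 z, dx g2 z)) (t := z.1) hf
    ((hasDerivAt_dx (x := z.1) (u := z.2) h1).prodMk (hasDerivAt_dx (x := z.1) (u := z.2) h2)))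
lemma du_comp {g1 g2 : P → ℝ} (hf : DifferentiableAt ℝ f (g1 z, g2 z))
    (h1 : DifferentiableAt ℝ g1 z) (h2 : DifferentiableAt ℝ g2 z) :
    du (fun z => f (g1 z, g2 z)) z =
      du g1 z * dx f (g1 z, g2 z) + du g2 z * du f (g1 z, g2 z) :=
  du_eq (hf.comp z (h1.prodMk h2)) (hasDerivAt_comp (c := fun s => (g1 (z.1, s), g2 (z.1, s)))
    (c' := (du g1 z, du g2 z)) (t := z.2) hf
    ((hasDerivAt_du (x := z.1) (u := z.2) h1).prodMk (hasDerivAt_du (x := z.1) (u := z.2) h2)))

lemma dx_congr (h : f =ᶠ[𝓝 z] g) : dx f z = dx g z := by unfold dx; rw [h.fderiv_eq]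
lemma du_congr (h : f =ᶠ[𝓝 z] g) : du f z = du g z := by unfold du; rw [h.fderiv_eq]

lemma dx_comp_neg (f : P → ℝ) (z : P) : dx (fun z => f (-z)) z = -dx f (-z) := by
  unfold dx
  have := (ContinuousLinearEquiv.neg ℝ : P ≃L[ℝ] P).comp_right_fderiv (f := f) (x := z)
  have e : (fun z => f (-z)) = f ∘ (ContinuousLinearEquiv.neg ℝ : P ≃L[ℝ] P) := rfl
  rw [e, this]
  simp only [ContinuousLinearMap.comp_apply, ContinuousLinearEquiv.coe_coe,
    ContinuousLinearEquiv.neg_apply, map_neg]
lemma du_comp_neg (f : P → ℝ) (z : P) : du (fun z => f (-z)) z = -du f (-z) := by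
  unfold du
  have := (ContinuousLinearEquiv.neg ℝ : P ≃L[ℝ] P).comp_right_fderiv (f := f) (x := z)
  have e : (fun z => f (-z)) = f ∘ (ContinuousLinearEquiv.neg ℝ : P ≃L[ℝ] P) := rfl
  rw [e, this]
  simp only [ContinuousLinearMap.comp_apply, ContinuousLinearEquiv.coe_coe,
    ContinuousLinearEquiv.neg_apply, map_neg]

lemma dx_of_odd (h : ∀ z, f (-z) = -f z) (z : P) : dx f (-z) = dx f z := by
  have := dx_comp_neg f z
  rw [funext h, dx_neg] at this; linarith
lemma du_of_odd (h : ∀ z, f (-z) = -f z) (z : P) : du f (-z) = du f z := by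
  have := du_comp_neg f z
  rw [funext h, du_neg] at this; linarith
lemma dx_of_even (h : ∀ z, f (-z) = f z) (z : P) : dx f (-z) = -dx f z := by
  have := dx_comp_neg f z
  rw [funext h] at this; change dx f z = _ at this; linarith
lemma du_of_even (h : ∀ z, f (-z) = f z) (z : P) : du f (-z) = -du f z := by
  have := du_comp_neg f z
  rw [funext h] at this; change du f z = _ at this; linarith

lemma du_dx (hf : ContDiff ℝ ∞ f) (z : P) : du (dx f) z = dx (du f) z := by
  have h2 : IsSymmSndFDerivAt ℝ f z :=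
    hf.contDiffAt.isSymmSndFDerivAt (by simp; exact WithTop.coe_le_coe.2 le_top)
  have hd : DifferentiableAt ℝ (fderiv ℝ f) z := dAt (hf.fderiv_right (m := ∞) le_rfl) z
  have e : ∀ a b : P, fderiv ℝ (fun z => fderiv ℝ f z a) z b = fderiv ℝ (fderiv ℝ f) z b a := by
    intro a b
    rw [fderiv_clm_apply hd (differentiableAt_const a)]; simp
  unfold du dx
  rw [e, e]; exact h2.eq _ _

/-- two functions with the same `du` and the same trace on the first axis are equal -/
lemma eq_of_du (hf : Differentiable ℝ f) (hg : Differentiable ℝ g) (h : ∀ z, du f z = du g z)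
    (h0 : ∀ x, f (x, 0) = g (x, 0)) (z : P) : f z = g z := by
  have hd : ∀ s, HasDerivAt (fun s => f (z.1, s) - g (z.1, s)) 0 s := fun s => by
    have := (hasDerivAt_du (hf (z.1, s))).fun_sub (hasDerivAt_du (hg (z.1, s)))
    rwa [h, sub_self] at this
  have := is_const_of_deriv_eq_zero (fun s => (hd s).differentiableAt) (fun s => (hd s).deriv) z.2 0
  simp only [h0, sub_self] at this
  linarith

end rules

/-! ### The primitive `iU` -/

section iU
variable {F G : P → ℝ}

lemma iU_eq_int (F : P → ℝ) (z : P) : iU F z = z.2 * ∫ s in (0 : ℝ)..1, F (z.1, s * z.2) := by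
  have := intervalIntegral.smul_integral_comp_mul_right (a := 0) (b := 1)
    (fun s => F (z.1, s)) z.2
  simp only [zero_mul, one_mul, smul_eq_mul] at this
  exact this.symm

lemma contDiff_iU (hF : ContDiff ℝ ∞ F) : ContDiff ℝ ∞ (iU F) := by
  rw [funext (iU_eq_int F)]
  exact contDiff_snd.mul (Pool.Agent.Lib.MP_0281e9_an.BT.contDiff_param_integral
    (G := fun q : P × ℝ => F (q.1.1, q.2 * q.1.2)) (hF.comp (by fun_prop)))

@[simp] lemma iU_zero (F : P → ℝ) (x : ℝ) : iU F (x, 0) = 0 := by simp [iU]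

lemma hasDerivAt_iU (hF : Continuous F) (x u : ℝ) :
    HasDerivAt (fun s => iU F (x, s)) (F (x, u)) u :=
  ((hF.comp (Continuous.prodMk_right x)).integral_hasStrictDerivAt 0 u).hasDerivAt

lemma du_iU (hF : ContDiff ℝ ∞ F) (z : P) : du (iU F) z = F z :=
  du_eq (dAt (contDiff_iU hF) z) (hasDerivAt_iU hF.continuous z.1 z.2)

/-- a smooth function vanishing on the first axis is the primitive of its `du` -/
lemma eq_iU (hF : ContDiff ℝ ∞ F) (hG : ContDiff ℝ ∞ G) (h : ∀ z, du F z = G z)
    (h0 : ∀ x, F (x, 0) = 0) (z : P) : F z = iU G z :=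
  eq_of_du (dAt hF) (dAt (contDiff_iU hG)) (fun z => by rw [h, du_iU hG])
    (fun x => by rw [h0, iU_zero]) z

lemma dx_iU (hF : ContDiff ℝ ∞ F) (z : P) : dx (iU F) z = iU (dx F) z := by
  refine eq_iU (contDiff_dx (contDiff_iU hF)) (contDiff_dx hF) (fun z => ?_) (fun x => ?_) z
  · rw [du_dx (contDiff_iU hF), funext (du_iU hF)]
  · exact dx_eq (dAt (contDiff_iU hF) _) (by simpa using hasDerivAt_const x (0 : ℝ))

lemma iU_sub (hF : Continuous F) (hG : Continuous G) (z : P) :
    iU (fun z => F z - G z) z = iU F z - iU G z :=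
  intervalIntegral.integral_sub ((hF.comp (Continuous.prodMk_right z.1)).intervalIntegrable _ _)
    ((hG.comp (Continuous.prodMk_right z.1)).intervalIntegrable _ _)

lemma iU_of_even (h : ∀ z, F (-z) = F z) (z : P) : iU F (-z) = -iU F z := by
  have := intervalIntegral.integral_comp_neg (a := z.2) (b := 0) fun s => F (-z.1, s)
  have e : ∀ s : ℝ, F (-z.1, -s) = F (z.1, s) := fun s => h (z.1, s)
  simp only [e, neg_zero] at this
  unfold iU
  simp only [Prod.fst_neg, Prod.snd_neg]
  rw [← this, intervalIntegral.integral_symm]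

lemma iU_of_odd (h : ∀ z, F (-z) = -F z) (z : P) : iU F (-z) = iU F z := by
  have := intervalIntegral.integral_comp_neg (a := z.2) (b := 0) fun s => F (-z.1, s)
  have e : ∀ s : ℝ, F (-z.1, -s) = -F (z.1, s) := fun s => h (z.1, s)
  simp only [e, neg_zero, intervalIntegral.integral_neg] at this
  unfold iU
  simp only [Prod.fst_neg, Prod.snd_neg]
  rw [← this, intervalIntegral.integral_symm, neg_neg]

end iU

/-! ### Orders of vanishing -/

namespace O
variable {m n : ℕ} {F G : P → ℝ}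

lemma congr (h : O m F) (e : ∀ z, G z = F z) : O m G := by rw [funext e]; exact h

lemma sm : ∀ {m : ℕ} {F : P → ℝ}, O m F → ContDiff ℝ ∞ F
  | 0, _, h => h
  | _ + 1, _, ⟨_, _, h1, h2, e⟩ => by
    rw [funext e]; exact (contDiff_fst.mul h1.sm).add (contDiff_snd.mul h2.sm)

lemma of_sm (h : ContDiff ℝ ∞ F) : O 0 F := h

lemma zero : ∀ m : ℕ, O m fun _ => 0
  | 0 => contDiff_const
  | m + 1 => ⟨_, _, zero m, zero m, fun _ => by simp⟩

lemma add : ∀ {m : ℕ} {F G : P → ℝ}, O m F → O m G → O m fun z => F z + G z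
  | 0, _, _, h, h' => ContDiff.add h h'
  | _ + 1, _, _, ⟨_, _, h1, h2, e⟩, ⟨_, _, h1', h2', e'⟩ =>
    ⟨_, _, h1.add h1', h2.add h2', fun z => by simp only [e, e']; ring⟩

lemma sm_mul (hG : ContDiff ℝ ∞ G) : ∀ {m : ℕ} {F : P → ℝ}, O m F → O m fun z => G z * F z
  | 0, _, h => ContDiff.mul hG h
  | _ + 1, _, ⟨_, _, h1, h2, e⟩ =>
    ⟨_, _, sm_mul hG h1, sm_mul hG h2, fun z => by simp only [e]; ring⟩

lemma mul_sm (h : O m F) (hG : ContDiff ℝ ∞ G) : O m fun z => F z * G z :=
  (sm_mul hG h).congr fun _ => mul_comm _ _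
lemma const_mul (h : O m F) (c : ℝ) : O m fun z => c * F z := sm_mul contDiff_const h
lemma neg (h : O m F) : O m fun z => -F z := (h.const_mul (-1)).congr fun _ => by ring
lemma sub (h : O m F) (h' : O m G) : O m fun z => F z - G z :=
  (h.add h'.neg).congr fun _ => by ring
lemma div (h : O m F) (hG : ContDiff ℝ ∞ G) (h0 : ∀ z, G z ≠ 0) : O m fun z => F z / G z :=
  (h.mul_sm (hG.inv h0)).congr fun _ => div_eq_mul_inv _ _
lemma fst_mul (h : O m F) : O (m + 1) fun z => z.1 * F z :=
  ⟨_, _, h, zero m, fun _ => by simp⟩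
lemma snd_mul (h : O m F) : O (m + 1) fun z => z.2 * F z :=
  ⟨_, _, zero m, h, fun _ => by simp⟩
lemma fst : O 1 fun z => z.1 := (fst_mul (of_sm (contDiff_const (c := 1)))).congr fun _ => by simp
lemma snd : O 1 fun z => z.2 := (snd_mul (of_sm (contDiff_const (c := 1)))).congr fun _ => by simp

lemma pred : ∀ {m : ℕ} {F : P → ℝ}, O (m + 1) F → O m F
  | 0, _, h => h.sm
  | _ + 1, _, ⟨_, _, h1, h2, e⟩ => ⟨_, _, h1.pred, h2.pred, e⟩

lemma mono (h : O n F) (hm : m ≤ n) : O m F := by
  induction hm with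
  | refl => exact h
  | step _ ih => exact ih h.pred

lemma mul (hG : O n G) : ∀ {m : ℕ} {F : P → ℝ}, O m F → O (n + m) fun z => G z * F z
  | 0, _, h => hG.mul_sm h
  | _ + 1, _, ⟨_, _, h1, h2, e⟩ =>
    ⟨_, _, mul hG h1, mul hG h2, fun z => by simp only [e]; ring⟩

/-- product with a freely chosen order -/
lemma mul' {k : ℕ} (hF : O m F) (hG : O n G) (h : k ≤ m + n) : O k fun z => F z * G z :=
  (hF.mul hG).mono h

lemma pow (h : O m F) : ∀ k : ℕ, O (m * k) fun z => F z ^ k
  | 0 => by simpa using of_sm (contDiff_const (c := (1 : ℝ)))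
  | k + 1 => ((pow h k).mul h).congr fun _ => pow_succ _ _

lemma sum {ι : Type} {s : Finset ι} {f : ι → P → ℝ} (h : ∀ i ∈ s, O m (f i)) :
    O m fun z => ∑ i ∈ s, f i z := by
  classical
  induction s using Finset.induction_on with
  | empty => simpa using zero m
  | insert a s ha ih =>
    simp only [Finset.sum_insert ha]
    exact (h a (Finset.mem_insert_self _ _)).add (ih fun i hi => h i (Finset.mem_insert_of_mem hi))

lemma dx : ∀ {m : ℕ} {F : P → ℝ}, O (m + 1) F → O m (dx F)
  | 0, _, h => contDiff_dx h.sm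
  | _ + 1, _, ⟨_, _, h1, h2, e⟩ => by
    refine ((h1.add h1.dx.fst_mul).add h2.dx.snd_mul).congr fun z => ?_
    rw [funext e, dx_add (differentiableAt_fst.fun_mul (dAt h1.sm z))
      (differentiableAt_snd.fun_mul (dAt h2.sm z)), dx_mul differentiableAt_fst (dAt h1.sm z),
      dx_mul differentiableAt_snd (dAt h2.sm z)]
    simp

lemma du : ∀ {m : ℕ} {F : P → ℝ}, O (m + 1) F → O m (du F)
  | 0, _, h => contDiff_du h.sm
  | _ + 1, _, ⟨_, _, h1, h2, e⟩ => by
    refine (h1.du.fst_mul.add (h2.add h2.du.snd_mul)).congr fun z => ?_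
    rw [funext e, du_add (differentiableAt_fst.fun_mul (dAt h1.sm z))
      (differentiableAt_snd.fun_mul (dAt h2.sm z)), du_mul differentiableAt_fst (dAt h1.sm z),
      du_mul differentiableAt_snd (dAt h2.sm z)]
    simp

lemma at_zero (h : O (m + 1) F) : F 0 = 0 := by
  obtain ⟨_, _, -, -, e⟩ := h
  simp [e]

lemma bound (R : ℝ) : ∀ {m : ℕ} {F : P → ℝ}, O m F →
    ∃ C, 0 ≤ C ∧ ∀ z : P, ‖z‖ ≤ R → |F z| ≤ C * ‖z‖ ^ m
  | 0, _, h => by
    obtain ⟨C, hC⟩ := (isCompact_closedBall (0 : P) R).exists_bound_of_continuousOn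
      h.sm.continuous.continuousOn
    exact ⟨|C|, abs_nonneg C, fun z hz => by
      simpa using (hC z (by simpa using hz)).trans (le_abs_self C)⟩
  | m + 1, _, ⟨F1, F2, h1, h2, e⟩ => by
    obtain ⟨C1, p1, b1⟩ := bound R h1
    obtain ⟨C2, p2, b2⟩ := bound R h2
    refine ⟨C1 + C2, by positivity, fun z hz => ?_⟩
    rw [e]
    refine (abs_add_le _ _).trans ?_
    rw [abs_mul, abs_mul]
    have a1 := mul_le_mul (abs_fst_le z) (b1 z hz) (abs_nonneg _) (norm_nonneg _)
    have a2 := mul_le_mul (abs_snd_le z) (b2 z hz) (abs_nonneg _) (norm_nonneg _)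
    calc _ ≤ _ := add_le_add a1 a2
      _ = _ := by ring

lemma comp {g1 g2 : P → ℝ} (h1 : O 1 g1) (h2 : O 1 g2) : ∀ {m : ℕ} {F : P → ℝ}, O m F →
    O m fun z => F (g1 z, g2 z)
  | 0, _, h => ContDiff.comp h (h1.sm.prodMk h2.sm)
  | m + 1, _, ⟨_, _, a1, a2, e⟩ =>
    ((h1.mul' (comp h1 h2 a1) (by omega)).add (h2.mul' (comp h1 h2 a2) (by omega))).congr
      fun z => e _

lemma comp_neg (h : O m F) : O m fun z => F (-z) := comp fst.neg snd.neg h

lemma int {a c : ℝ → ℝ} (ha : ContDiff ℝ ∞ a) (hc : ContDiff ℝ ∞ c) :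
    ∀ {m : ℕ} {F : P → ℝ} {w : ℝ → ℝ}, ContDiff ℝ ∞ w → O m F →
      O m fun z => ∫ s in (0 : ℝ)..1, w s * F (a s * z.1, c s * z.2)
  | 0, F, w, hw, h => Pool.Agent.Lib.MP_0281e9_an.BT.contDiff_param_integral
      (G := fun q : P × ℝ => w q.2 * F (a q.2 * q.1.1, c q.2 * q.1.2))
      ((hw.comp contDiff_snd).mul (ContDiff.comp h (by fun_prop)))
  | m + 1, F, w, hw, ⟨F1, F2, h1, h2, e⟩ => by
    refine ⟨_, _, int ha hc (hw.mul ha) h1, int ha hc (hw.mul hc) h2, fun z => ?_⟩
    have c1 := h1.sm.continuous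
    have c2 := h2.sm.continuous
    have := hw.continuous
    have := ha.continuous
    have := hc.continuous
    rw [← intervalIntegral.integral_const_mul, ← intervalIntegral.integral_const_mul,
      ← intervalIntegral.integral_add (Continuous.intervalIntegrable (by fun_prop) _ _)
        (Continuous.intervalIntegrable (by fun_prop) _ _)]
    refine intervalIntegral.integral_congr fun s _ => ?_
    simp only [e]; ring

lemma iU (h : O m F) : O (m + 1) (iU F) :=
  (int (a := fun _ => 1) (c := fun s => s) (w := fun _ => 1) contDiff_const contDiff_id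
    contDiff_const h).snd_mul.congr fun z => by simp [iU_eq_int]

lemma of_deriv (hF : ContDiff ℝ ∞ F) (h0 : F 0 = 0) (h1 : O m (MP_f62ea7_gt.dx F))
    (h2 : O m (MP_f62ea7_gt.du F)) : O (m + 1) F := by
  refine ⟨_, _, int (a := fun s => s) (c := fun s => s) (w := fun _ => 1) contDiff_id contDiff_id
    contDiff_const h1, int (a := fun s => s) (c := fun s => s) (w := fun _ => 1) contDiff_id
    contDiff_id contDiff_const h2, fun z => ?_⟩
  have c1 := h1.sm.continuous
  have c2 := h2.sm.continuous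
  have hd : ∀ s : ℝ, HasDerivAt (fun s : ℝ => F (s * z.1, s * z.2))
      (z.1 * MP_f62ea7_gt.dx F (s * z.1, s * z.2) + z.2 * MP_f62ea7_gt.du F (s * z.1, s * z.2)) s :=
    fun s => hasDerivAt_comp (c := fun s : ℝ => (s * z.1, s * z.2)) (c' := (z.1, z.2)) (dAt hF _)
      ((hasDerivAt_mul_const z.1).prodMk (hasDerivAt_mul_const z.2))
  have := intervalIntegral.integral_eq_sub_of_hasDerivAt (a := 0) (b := 1) (fun s _ => hd s)
    (Continuous.intervalIntegrable (by fun_prop) _ _)
  rw [intervalIntegral.integral_add (Continuous.intervalIntegrable (by fun_prop) _ _)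
    (Continuous.intervalIntegrable (by fun_prop) _ _), intervalIntegral.integral_const_mul,
    intervalIntegral.integral_const_mul] at this
  simp only [one_mul, zero_mul] at this ⊢
  rw [this]
  change F z = F z - F 0
  rw [h0, sub_zero]

lemma one (hF : ContDiff ℝ ∞ F) (h0 : F 0 = 0) : O 1 F :=
  of_deriv hF h0 (contDiff_dx hF) (contDiff_du hF)

end O

namespace Hom
variable {m : ℕ} {H : P → ℝ}

lemma congr {G : P → ℝ} (h : Hom m H) (e : ∀ z, G z = H z) : Hom m G := by rw [funext e]; exact h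

lemma zero (m : ℕ) : Hom m fun _ => 0 := (Hom.mono 0 m 0 rfl).congr fun _ => by simp

lemma const_mul (h : Hom m H) (a : ℝ) : Hom m fun z => a * H z := by
  induction h with
  | mono c i j e => exact (Hom.mono (a * c) i j e).congr fun _ => by ring
  | add _ _ i1 i2 => exact (i1.add i2).congr fun _ => by ring

lemma fst_mul (h : Hom m H) : Hom (m + 1) fun z => z.1 * H z := by
  induction h with
  | mono c i j e => exact (Hom.mono c (i + 1) j (by omega)).congr fun _ => by ring
  | add _ _ i1 i2 => exact (i1.add i2).congr fun _ => by ring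

lemma snd_mul (h : Hom m H) : Hom (m + 1) fun z => z.2 * H z := by
  induction h with
  | mono c i j e => exact (Hom.mono c i (j + 1) (by omega)).congr fun _ => by ring
  | add _ _ i1 i2 => exact (i1.add i2).congr fun _ => by ring

lemma ord (h : Hom m H) : O m H := by
  induction h with
  | mono c i j e =>
    exact (((O.fst.pow i).mul' (O.snd.pow j) (by omega)).const_mul c).congr fun _ => by ring
  | add _ _ i1 i2 => exact i1.add i2

lemma sm (h : Hom m H) : ContDiff ℝ ∞ H := h.ord.sm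

lemma smul (h : Hom m H) (t : ℝ) (z : P) : H (t • z) = t ^ m * H z := by
  induction h with
  | mono c i j e => simp only [Prod.smul_fst, Prod.smul_snd, smul_eq_mul, ← e]; ring
  | add _ _ i1 i2 => simp only [i1, i2]; ring

lemma neg_of_odd (h : Hom m H) (hm : Odd m) (z : P) : H (-z) = -H z := by
  have := h.smul (-1) z
  rwa [neg_one_smul, hm.neg_one_pow, neg_one_mul] at this

lemma bound (h : Hom m H) : ∃ C, 0 ≤ C ∧ ∀ z : P, |H z| ≤ C * ‖z‖ ^ m := by
  induction h with
  | mono c i j e =>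
    refine ⟨|c|, abs_nonneg c, fun z => ?_⟩
    rw [abs_mul, abs_mul, abs_pow, abs_pow, ← e, pow_add, mul_assoc]
    exact mul_le_mul_of_nonneg_left (mul_le_mul (pow_le_pow_left₀ (abs_nonneg _) (abs_fst_le z) i)
      (pow_le_pow_left₀ (abs_nonneg _) (abs_snd_le z) j) (by positivity) (by positivity))
      (abs_nonneg c)
  | add _ _ i1 i2 =>
    obtain ⟨C1, p1, b1⟩ := i1
    obtain ⟨C2, p2, b2⟩ := i2
    exact ⟨C1 + C2, by positivity, fun z =>
      (abs_add_le _ _).trans ((add_le_add (b1 z) (b2 z)).trans_eq (by ring))⟩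

end Hom

namespace O
variable {m : ℕ} {F : P → ℝ}

/-- the leading homogeneous part -/
lemma lead : ∀ {m : ℕ} {F : P → ℝ}, O m F → ∃ H, Hom m H ∧ O (m + 1) fun z => F z - H z
  | 0, F, h => ⟨_, Hom.mono (F 0) 0 0 rfl,
      one (h.sm.sub (by fun_prop)) (by simp)⟩
  | _ + 1, _, ⟨_, _, h1, h2, e⟩ => by
    obtain ⟨H1, a1, b1⟩ := h1.lead
    obtain ⟨H2, a2, b2⟩ := h2.lead
    exact ⟨_, a1.fst_mul.add a2.snd_mul, _, _, b1, b2, fun z => by simp only [e]; ring⟩

lemma of_even (h : O m F) (hm : Odd m) (he : ∀ z, F (-z) = F z) : O (m + 1) F := by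
  obtain ⟨H, a, b⟩ := h.lead
  exact ((b.add b.comp_neg).const_mul (1 / 2)).congr fun z => by
    rw [he, a.neg_of_odd hm]; ring

lemma of_bound (hF : ContDiff ℝ ∞ F) {r C : ℝ} (hr : 0 < r)
    (h : ∀ z : P, ‖z‖ ≤ r → |F z| ≤ C * ‖z‖ ^ m) : O m F := by
  have key : ∀ j, j ≤ m → O j F := by
    intro j
    induction j with
    | zero => exact fun _ => hF
    | succ j ih =>
      intro hj
      obtain ⟨H, a, b⟩ := (ih (by omega)).lead
      obtain ⟨C', p', b'⟩ := b.bound r
      have hH : ∀ z, H z = 0 := by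
        intro z
        have t0 : Tendsto (fun t : ℝ => (|C| + C') * ‖z‖ ^ (j + 1) * t) (𝓝[>] 0) (𝓝 0) := by
          have : Tendsto (fun t : ℝ => (|C| + C') * ‖z‖ ^ (j + 1) * t) (𝓝 0)
              (𝓝 ((|C| + C') * ‖z‖ ^ (j + 1) * 0)) := (Continuous.tendsto (by fun_prop) 0)
          rw [mul_zero] at this
          exact this.mono_left nhdsWithin_le_nhds
        have t1 : Tendsto (fun t : ℝ => ‖t • z‖) (𝓝[>] 0) (𝓝 0) := by
          have : Tendsto (fun t : ℝ => ‖t • z‖) (𝓝 0) (𝓝 ‖(0 : ℝ) • z‖) :=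
            (Continuous.tendsto (by fun_prop) 0)
          rw [zero_smul, norm_zero] at this
          exact this.mono_left nhdsWithin_le_nhds
        refine abs_nonpos_iff.1 (ge_of_tendsto t0 ?_)
        filter_upwards [self_mem_nhdsWithin, t1.eventually (ge_mem_nhds hr),
          t1.eventually (ge_mem_nhds one_pos)] with t ht h1 h2
        have ht' : 0 < t := ht
        have e1 := h _ h1
        have e2 := b' _ h1
        have e3 : C * ‖t • z‖ ^ m ≤ |C| * ‖t • z‖ ^ (j + 1) :=
          mul_le_mul (le_abs_self C) (pow_le_pow_of_le_one (norm_nonneg _) h2 hj) (by positivity)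
            (abs_nonneg C)
        have e4 : |H (t • z)| ≤ (|C| + C') * ‖t • z‖ ^ (j + 1) := by
          have : H (t • z) = F (t • z) - (F (t • z) - H (t • z)) := by ring
          rw [this]
          refine (abs_sub _ _).trans ?_
          linarith
        rw [a.smul, abs_mul, abs_of_pos (pow_pos ht' j), norm_smul, Real.norm_eq_abs,
          abs_of_pos ht'] at e4
        refine le_of_mul_le_mul_left (e4.trans_eq ?_) (pow_pos ht' j)
        ring
      exact b.congr fun z => by rw [hH, sub_zero]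
  exact key m le_rfl

end O

namespace Flat
variable {F G : P → ℝ}
lemma sm (h : Flat F) : ContDiff ℝ ∞ F := (h 0).sm
lemma add (h : Flat F) (h' : Flat G) : Flat fun z => F z + G z := fun m => (h m).add (h' m)
lemma sub (h : Flat F) (h' : Flat G) : Flat fun z => F z - G z := fun m => (h m).sub (h' m)
lemma neg (h : Flat F) : Flat fun z => -F z := fun m => (h m).neg
lemma mul_sm (h : Flat F) (hG : ContDiff ℝ ∞ G) : Flat fun z => F z * G z :=
  fun m => (h m).mul_sm hG
lemma sm_mul (hG : ContDiff ℝ ∞ G) (h : Flat F) : Flat fun z => G z * F z :=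
  fun m => O.sm_mul hG (h m)
lemma dx (h : Flat F) : Flat (dx F) := fun m => (h (m + 1)).dx
lemma du (h : Flat F) : Flat (du F) := fun m => (h (m + 1)).du
lemma iU (h : Flat F) : Flat (iU F) := fun m => (h m).iU.pred
end Flat

end Pool.Agent.Lib.ISOC
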