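import Pool.Agent.Lib.ISOC.OC
import Pool.Agent.Lib.MP_f62ea7_gt.WL

/-! One particle: reduction to the Wirtinger inequality with remainder. -/

set_option autoImplicit false

open MeasureTheory Set Filter Topology Real
open scoped ContDiff ENNReal
open Pool.Agent.Lib.MP_f62ea7_gt

namespace Pool.Agent.Lib.ISOC

namespace P80

/-- the deviation from the harmonic motion starting at the same point -/
noncomputable def dv (x : ℝ → ℝ) (t : ℝ) : ℝ := x t - x 0 * cos t
noncomputable def dv' (x x' : ℝ → ℝ) (t : ℝ) : ℝ := x' t + x 0 * sin t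
noncomputable def ut (x : ℝ → ℝ) (t : ℝ) : ℝ := dv x t / sin t
noncomputable def pp (x : ℝ → ℝ) (t : ℝ) : ℝ := (x t * cos t - x 0) / sin t
noncomputable def ee (x x' : ℝ → ℝ) (t : ℝ) : ℝ := dv' x x' t - cos t / sin t * dv x t

variable {x x' u : ℝ → ℝ} {t a b : ℝ}

lemma x_eq (hs : sin t ≠ 0) : x t = x 0 * cos t + ut x t * sin t := by
  unfold ut dv; field_simp; ring

lemma pp_eq (hs : sin t ≠ 0) : pp x t = -(x 0 * sin t) + ut x t * cos t := by
  unfold pp ut dv
  field_simp
  linear_combination (x 0) * sin_sq_add_cos_sq t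

lemma x'_eq (hs : sin t ≠ 0) : x' t = pp x t + ee x x' t := by
  unfold pp ee dv dv'
  field_simp
  linear_combination (-x 0) * sin_sq_add_cos_sq t

lemma rho_eq (hs : sin t ≠ 0) : rho (x t, pp x t) = rho (x 0, ut x t) := by
  unfold rho
  simp only
  rw [pp_eq hs]
  nth_rewrite 1 [x_eq (x := x) hs]
  linear_combination (x 0 ^ 2 + ut x t ^ 2) * sin_sq_add_cos_sq t

lemma path (h : Part x x' u) : WL.Path (dv x) (dv' x x') := by
  obtain ⟨B, hB⟩ := h.bdd
  obtain ⟨S, hS⟩ := h.der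
  refine ⟨h.x_cont.sub (continuous_const.mul continuous_cos),
    h.meas.add (continuous_const.mul continuous_sin).measurable, ⟨B + |x 0|, fun t ht => ?_⟩,
    ⟨S, fun t ht hs => ?_⟩, by simp [dv], by simp [dv, h.anti]⟩
  · have a1 := abs_add_le (x' t) (x 0 * sin t)
    have a2 : |x 0 * sin t| ≤ |x 0| := by
      rw [abs_mul]; exact mul_le_of_le_one_right (abs_nonneg _) (abs_sin_le_one t)
    unfold dv'
    linarith [hB t ht]
  · have := (hS t ht hs).sub ((hasDerivAt_cos t).const_mul (x 0))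
    refine this.congr_deriv ?_
    unfold dv'; ring

lemma ii_x' (h : Part x x' u) (ha : a ∈ Icc 0 π) (hb : b ∈ Icc 0 π) :
    IntervalIntegrable x' volume a b := by
  obtain ⟨B, hB⟩ := h.bdd
  exact intervalIntegrable_of_bdd h.meas.aestronglyMeasurable ha hb hB

lemma ii_x'2 (h : Part x x' u) (ha : a ∈ Icc 0 π) (hb : b ∈ Icc 0 π) :
    IntervalIntegrable (fun t => x' t ^ 2) volume a b := by
  obtain ⟨B, hB⟩ := h.bdd
  refine intervalIntegrable_of_bdd (h.meas.pow_const 2).aestronglyMeasurable (B := B ^ 2) ha hb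
    fun t ht => ?_
  rw [Real.norm_eq_abs, abs_pow]
  exact pow_le_pow_left₀ (abs_nonneg _) (hB t ht) 2

/-- the Wirtinger defect only depends on the deviation -/
lemma I_eq (h : Part x x' u) : ∫ t in (0 : ℝ)..π, (x' t ^ 2 - x t ^ 2) =
    ∫ t in (0 : ℝ)..π, (dv' x x' t ^ 2 - dv x t ^ 2) := by
  obtain ⟨S, hS⟩ := (path h).der
  have i1 : IntervalIntegrable (fun t => x' t ^ 2 - x t ^ 2) volume 0 π :=
    (ii_x'2 h zero_mem_Icc pi_mem_Icc).sub ((h.x_cont.pow 2).intervalIntegrable _ _)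
  have i2 := (path h).ii_I zero_mem_Icc pi_mem_Icc
  have a1 := ftc_off (f := fun t => -(2 * x 0 * (dv x t * sin t)) - x 0 ^ 2 * (sin t * cos t))
    (f' := fun t => (x' t ^ 2 - x t ^ 2) - (dv' x x' t ^ 2 - dv x t ^ 2)) S zero_mem_Icc pi_mem_Icc
    (((continuous_const.mul ((path h).cont.mul continuous_sin)).neg.sub
      (continuous_const.mul (continuous_sin.mul continuous_cos))).continuousOn)
    (fun t ht _ hs => by
      have := (((hS t ht hs).mul (hasDerivAt_sin t)).const_mul (2 * x 0)).neg.sub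
        (((hasDerivAt_sin t).mul (hasDerivAt_cos t)).const_mul (x 0 ^ 2))
      refine this.congr_deriv ?_
      unfold dv dv'
      ring) (i1.sub i2)
  rw [intervalIntegral.integral_sub i1 i2] at a1
  simp only [sin_pi, sin_zero, mul_zero, zero_mul, neg_zero, sub_zero] at a1
  linarith

lemma wirt (h : Part x x' u) (ha : a ∈ Ioo 0 π) (hb : b ∈ Ioo 0 π) (hab : a ≤ b) :
    ∫ t in a..b, ee x x' t ^ 2 ≤ ∫ t in (0 : ℝ)..π, (x' t ^ 2 - x t ^ 2) := by
  rw [I_eq h]; exact (path h).wirt ha hb hab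

lemma ii_ee (h : Part x x' u) (ha : a ∈ Ioo 0 π) (hb : b ∈ Ioo 0 π) :
    IntervalIntegrable (ee x x') volume a b := (path h).ii_f ha hb

lemma ii_ee2 (h : Part x x' u) (ha : a ∈ Ioo 0 π) (hb : b ∈ Ioo 0 π) :
    IntervalIntegrable (fun t => ee x x' t ^ 2) volume a b := (path h).ii_f2 ha hb

lemma ut_cont (h : Part x x' u) (ha : a ∈ Ioo 0 π) (hb : b ∈ Ioo 0 π) :
    ContinuousOn (ut x) (uIcc a b) :=
  (path h).cont.continuousOn.div continuous_sin.continuousOn
    fun _ ht => (WL.sin_pos_of_mem ha hb ht).ne'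

lemma pp_cont (h : Part x x' u) (ha : a ∈ Ioo 0 π) (hb : b ∈ Ioo 0 π) :
    ContinuousOn (pp x) (uIcc a b) :=
  ((h.x_cont.mul continuous_cos).sub continuous_const).continuousOn.div
    continuous_sin.continuousOn fun _ ht => (WL.sin_pos_of_mem ha hb ht).ne'

lemma ut_der (hs : sin t ≠ 0) (hd : HasDerivAt x (x' t) t) :
    HasDerivAt (ut x) (ee x x' t / sin t) t := by
  have := (hd.sub ((hasDerivAt_cos t).const_mul (x 0))).div (hasDerivAt_sin t) hs
  refine this.congr_deriv ?_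
  unfold ee dv dv'
  simp only [Pi.sub_apply]
  field_simp
  ring

lemma pp_der (hs : sin t ≠ 0) (hd : HasDerivAt x (x' t) t) :
    HasDerivAt (pp x) (-x t + ee x x' t * (cos t / sin t)) t := by
  have := ((hd.mul (hasDerivAt_cos t)).sub_const (x 0)).div (hasDerivAt_sin t) hs
  refine this.congr_deriv ?_
  unfold ee dv dv'
  simp only [Pi.mul_apply]
  field_simp
  linear_combination (-(x 0 * cos t)) * sin_sq_add_cos_sq t

lemma rz_bdd (h : Part x x' u) : ∃ B, ∀ t ∈ Icc 0 π,
    ‖rho (x t, u t) * (x' t - u t) ^ 2‖ ≤ B := by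
  obtain ⟨B, hB⟩ := h.bdd
  refine ⟨(B + 1) ^ 2, fun t ht => ?_⟩
  have a1 := h.le t ht
  have a0 : 0 ≤ rho (x t, u t) := by unfold rho; positivity
  have a2 : |u t| ≤ 1 := by
    unfold rho at a1
    exact abs_le_one_iff_mul_self_le_one.2 (by nlinarith [sq_nonneg (x t)])
  have a3 : |x' t - u t| ≤ B + 1 := (abs_sub _ _).trans (add_le_add (hB t ht) a2)
  have a4 := pow_le_pow_left₀ (abs_nonneg _) a3 2
  rw [sq_abs] at a4
  rw [Real.norm_of_nonneg (by positivity)]
  nlinarith [sq_nonneg (x' t - u t)]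

lemma rho_cont (h : Part x x' u) : Continuous fun t => rho (x t, u t) :=
  (h.x_cont.pow 2).add (h.u_cont.pow 2)

lemma rz_meas (h : Part x x' u) : Measurable fun t => rho (x t, u t) * (x' t - u t) ^ 2 :=
  (rho_cont h).measurable.mul ((h.meas.sub h.u_cont.measurable).pow_const 2)

lemma ii_rz (h : Part x x' u) (ha : a ∈ Icc 0 π) (hb : b ∈ Icc 0 π) :
    IntervalIntegrable (fun t => rho (x t, u t) * (x' t - u t) ^ 2) volume a b := by
  obtain ⟨B, hB⟩ := rz_bdd h
  exact intervalIntegrable_of_bdd (rz_meas h).aestronglyMeasurable ha hb hB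

end P80

end Pool.Agent.Lib.ISOC
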